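import Pool.Agent.H857.TF.Core

/-!
# R1: an identity for the roots of a Weil polynomial of degree four
-/

set_option autoImplicit false

namespace Pool.Agent.H120.TFr1

open Module Polynomial Pool.Agent.W521.Descent Pool.Agent.W521.Density Pool.Agent.W521.Count
  Pool.Agent.X297.UB Pool.Agent.H857.PB Pool.Agent.H857.PA Pool.Agent.H857.HK Pool.Agent.H857.EF
  Pool.Agent.H857.WT Pool.Agent.H857.SG Pool.Agent.H857.PD Pool.Agent.H857.TF

theorem aux (q a b z0 z1 : ℂ) (_hq : q ≠ 0) (ha : a ≠ 0) (hb : b ≠ 0)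
    (h0 : z0 = (a + q / a) * (b + q / b)) (h1 : z1 = -((a + q / a) + (b + q / b))) :
    q * z1 ^ 2 = (2 * q + z0 - (a * b + q ^ 2 / (a * b))) * ((a * b + q ^ 2 / (a * b)) + 2 * q) := by
  rw [h0, h1]
  field_simp
  ring

theorem r1 : R1 := by
  intro q z β hq _ hβ
  have hq' : (q : ℂ) ≠ 0 := by exact_mod_cast hq.ne'
  have hm0 := lab_mul q 2 z 0
  have hm1 := lab_mul q 2 z 1
  have ha : labA q 2 z 0 ≠ 0 := fun h => hq' (by rw [← hm0, h, zero_mul])
  have hb : labA q 2 z 1 ≠ 0 := fun h => hq' (by rw [← hm1, h, zero_mul])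
  have hB0 : labB q 2 z 0 = q / labA q 2 z 0 := by rw [eq_div_iff ha, mul_comm]; exact hm0
  have hB1 : labB q 2 z 1 = q / labA q 2 z 1 := by rw [eq_div_iff hb, mul_comm]; exact hm1
  have e0 := congrArg (Polynomial.eval 0) (lab_hp q 2 z)
  have e1 := congrArg (Polynomial.eval 1) (lab_hp q 2 z)
  simp only [hp, Fin.sum_univ_two, Fin.prod_univ_two, eval_add, eval_mul, eval_pow, eval_X, eval_C,
    eval_sub, hB0, hB1, Fin.val_zero, Fin.val_one, pow_zero, pow_one, mul_one, mul_zero, one_pow] at e0 e1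
  set A := labA q 2 z 0 with hA
  set B := labA q 2 z 1 with hBd
  have f0 : (z 0 : ℂ) = (A + q / A) * (B + q / B) := by linear_combination e0
  have f1 : (z 1 : ℂ) = -((A + q / A) + (B + q / B)) := by linear_combination e1 - e0
  rcases hβ with rfl | rfl
  · exact aux q A B _ _ hq' ha hb f0 f1
  · refine aux q A (q / B) _ _ hq' ha (div_ne_zero hq' hb) ?_ ?_
    · rw [f0, div_div_cancel₀ hq', add_comm B]
    · rw [f1, div_div_cancel₀ hq', add_comm B]

end Pool.Agent.H120.TFr1
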