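import Pool.Agent.H857.TF.Core

/-!
# R2 of project ExoticThreefolds (helper857), by helper308: the structure of the exotic relations

The first lemmas are copied from P10 of project OddPrimeDimension (helper722).
-/

set_option autoImplicit false

namespace Pool.Agent.H308.TFR2

open Module Polynomial Pool.Agent.W521.Descent Pool.Agent.W521.Density Pool.Agent.W521.Count
  Pool.Agent.X297.UB Pool.Agent.H857.PB Pool.Agent.H857.PA Pool.Agent.H857.HK Pool.Agent.H857.EF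
  Pool.Agent.H857.WT Pool.Agent.H857.SG Pool.Agent.H857.PD Pool.Agent.H857.TF

/-- `a` for `s = 1`, `q / a` for `s = -1` -/
noncomputable def ac (q : ℕ) (s : ℤ) (a : QB) : QB := if s = 1 then a else (q : QB) / a

/-- `a² / q` -/
noncomputable def gm (q : ℕ) (a : QB) : QB := a ^ 2 / (q : QB)

variable {q : ℕ}

theorem qne (hq : 1 < q) : (q : QB) ≠ 0 := by
  have h : q ≠ 0 := by omega
  exact_mod_cast h

theorem ac_one (a : QB) : ac q 1 a = a := if_pos rfl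

theorem ac_neg (a : QB) : ac q (-1) a = (q : QB) / a := if_neg (by decide)

theorem ac_ne (hq : 1 < q) {s : ℤ} (hs : s = 1 ∨ s = -1) {a : QB} (ha : a ≠ 0) :
    ac q s a ≠ 0 := by
  rcases hs with rfl | rfl
  · rw [ac_one]; exact ha
  · rw [ac_neg]; exact div_ne_zero (qne hq) ha

theorem ac_ac (hq : 1 < q) {s t : ℤ} (hs : s = 1 ∨ s = -1) (ht : t = 1 ∨ t = -1) {a : QB}
    (ha : a ≠ 0) : ac q s (ac q t a) = ac q (s * t) a := by
  have h0 := qne hq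
  rcases hs with rfl | rfl <;> rcases ht with rfl | rfl
  · rw [ac_one, one_mul]
  · rw [ac_one, one_mul]
  · rw [ac_one, mul_one]
  · rw [ac_neg, ac_neg]
    have e : (-1 : ℤ) * -1 = 1 := by norm_num
    rw [e, ac_one]
    field_simp

theorem ac_map (σ : QB ≃ₐ[ℚ] QB) {s : ℤ} (hs : s = 1 ∨ s = -1) (a : QB) :
    σ (ac q s a) = ac q s (σ a) := by
  rcases hs with rfl | rfl
  · rw [ac_one, ac_one]
  · rw [ac_neg, ac_neg, map_div₀, map_natCast]

theorem gm_ne (hq : 1 < q) {a : QB} (ha : a ≠ 0) : gm q a ≠ 0 :=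
  div_ne_zero (pow_ne_zero _ ha) (qne hq)

theorem gm_ac (hq : 1 < q) {s : ℤ} (hs : s = 1 ∨ s = -1) {a : QB} (ha : a ≠ 0) :
    gm q (ac q s a) = gm q a ^ s := by
  have h0 := qne hq
  rcases hs with rfl | rfl
  · rw [ac_one, zpow_one]
  · rw [ac_neg, zpow_neg_one]
    unfold gm
    field_simp

theorem gm_map (σ : QB ≃ₐ[ℚ] QB) (a : QB) : σ (gm q a) = gm q (σ a) := by
  unfold gm
  rw [map_div₀, map_pow, map_natCast]

/-- `a + q / a = b + q / b` -/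
theorem eq_or {a b : QB} (ha : a ≠ 0) (hb : b ≠ 0)
    (h : a + (q : QB) / a = b + (q : QB) / b) : a = b ∨ a = (q : QB) / b := by
  have h0 : (a - b) * (a * b - q) = 0 := by
    have h1 : (a + (q : QB) / a) * (a * b) = a ^ 2 * b + q * b := by field_simp
    have h2 : (b + (q : QB) / b) * (a * b) = a * b ^ 2 + q * a := by field_simp
    rw [h, h2] at h1
    linear_combination -h1
  rcases mul_eq_zero.1 h0 with h1 | h1
  · exact Or.inl (sub_eq_zero.1 h1)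
  · exact Or.inr ((eq_div_iff hb).2 (sub_eq_zero.1 h1))

theorem eq_ac {a b : QB} (ha : a ≠ 0) (hb : b ≠ 0)
    (h : a + (q : QB) / a = b + (q : QB) / b) :
    ∃ s : ℤ, (s = 1 ∨ s = -1) ∧ a = ac q s b := by
  rcases eq_or ha hb h with h1 | h1
  · exact ⟨1, Or.inl rfl, by rw [ac_one]; exact h1⟩
  · exact ⟨-1, Or.inr rfl, by rw [ac_neg]; exact h1⟩

theorem normalQB : Normal ℚ QB := by
  have h := algebraicClosure.isAlgClosure ℚ ℂ
  exact @IsAlgClosure.normal ℚ (algebraicClosure ℚ ℂ) _ _ (algebraicClosure ℚ ℂ).algebra' h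

/-- the sum of the roots -/
theorem sum_coeff {K : Type} [Field K] (a b : K) (y : Fin 2 → ℤ)
    (h : (mkPoly 2 y).map (algebraMap ℤ K) = (X - C a) * (X - C b)) :
    a + b = -((y 1 : ℤ) : K) := by
  have h1 := congrArg (fun P : K[X] => P.coeff 1) h
  have h2 : ((X - C a) * (X - C b) : K[X]) = X ^ 2 + (C (-(a + b)) * X + C (a * b)) := by
    rw [map_neg, map_add, map_mul]
    ring
  have h3 : (mkPoly 2 y).map (algebraMap ℤ K) = X ^ 2 + (C ((y 1 : ℤ) : K) * X +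
      C ((y 0 : ℤ) : K)) := by
    rw [← hp_eq_map]
    unfold hp
    rw [Fin.sum_univ_two]
    simp
    ring
  rw [h2, h3] at h1
  simp only [coeff_add, coeff_X_pow, coeff_C_mul, coeff_X_one, coeff_C, mul_one] at h1
  norm_num at h1
  linear_combination h1

/-! ### torsion -/

/-- roots of unity -/
def Tor (x : QB) : Prop := ∃ N : ℕ, 0 < N ∧ x ^ N = 1

theorem Tor.mul {x y : QB} (hx : Tor x) (hy : Tor y) : Tor (x * y) := by
  obtain ⟨N, hN, hx⟩ := hx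
  obtain ⟨M, hM, hy⟩ := hy
  refine ⟨N * M, Nat.mul_pos hN hM, ?_⟩
  rw [mul_pow, pow_mul, hx, one_pow, mul_comm N M, pow_mul, hy, one_pow, one_mul]

theorem Tor.zpow {x : QB} (hx : Tor x) (n : ℤ) : Tor (x ^ n) := by
  obtain ⟨N, hN, hx⟩ := hx
  refine ⟨N, hN, ?_⟩
  rw [← zpow_natCast, ← zpow_mul, mul_comm, zpow_mul, zpow_natCast, hx, one_zpow]

theorem Tor.of_zpow {x : QB} {n : ℤ} (hn : n ≠ 0) (h : Tor (x ^ n)) : Tor x := by
  obtain ⟨N, hN, hx⟩ := h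
  have h3 : x ^ (n * (N : ℤ)) = 1 := by
    rw [zpow_mul, zpow_natCast]
    exact hx
  refine ⟨(n * (N : ℤ)).natAbs, Int.natAbs_pos.2 (mul_ne_zero hn (by exact_mod_cast hN.ne')),
    ?_⟩
  rcases Int.natAbs_eq (n * (N : ℤ)) with h | h
  · rw [h, zpow_natCast] at h3
    exact h3
  · rw [h, zpow_neg, inv_eq_one, zpow_natCast] at h3
    exact h3

theorem Tor.map {x : QB} (σ : QB ≃ₐ[ℚ] QB) (hx : Tor x) : Tor (σ x) := by
  obtain ⟨N, hN, hx⟩ := hx
  exact ⟨N, hN, by rw [← map_pow, hx, map_one]⟩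

/-- the relations -/
def T3 (q : ℕ) (a0 a1 a2 : QB) (x y z : ℤ) : Prop :=
  Tor (gm q a0 ^ x * gm q a1 ^ y * gm q a2 ^ z)

variable {a0 a1 a2 : QB}

theorem T3.comb (hq : 1 < q) (h0 : a0 ≠ 0) (h1 : a1 ≠ 0) (h2 : a2 ≠ 0) {x y z x' y' z' : ℤ}
    (h : T3 q a0 a1 a2 x y z) (h' : T3 q a0 a1 a2 x' y' z') (m n : ℤ) :
    T3 q a0 a1 a2 (m * x + n * x') (m * y + n * y') (m * z + n * z') := by
  have hh := (h.zpow m).mul (h'.zpow n)
  unfold T3
  have e : gm q a0 ^ (m * x + n * x') * gm q a1 ^ (m * y + n * y') *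
      gm q a2 ^ (m * z + n * z') = (gm q a0 ^ x * gm q a1 ^ y * gm q a2 ^ z) ^ m *
        (gm q a0 ^ x' * gm q a1 ^ y' * gm q a2 ^ z') ^ n := by
    rw [zpow_add₀ (gm_ne hq h0), zpow_add₀ (gm_ne hq h1), zpow_add₀ (gm_ne hq h2)]
    rw [mul_zpow, mul_zpow, mul_zpow, mul_zpow, mul_comm m x, mul_comm m y, mul_comm m z,
      mul_comm n x', mul_comm n y', mul_comm n z']
    simp only [zpow_mul]
    ring
  rw [e]
  exact hh

theorem T3.smul {x y z : ℤ} (h : T3 q a0 a1 a2 x y z) (n : ℤ) :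
    T3 q a0 a1 a2 (n * x) (n * y) (n * z) := by
  have hh := h.zpow n
  unfold T3
  have e : gm q a0 ^ (n * x) * gm q a1 ^ (n * y) * gm q a2 ^ (n * z) =
      (gm q a0 ^ x * gm q a1 ^ y * gm q a2 ^ z) ^ n := by
    rw [mul_zpow, mul_zpow, mul_comm n x, mul_comm n y, mul_comm n z, zpow_mul, zpow_mul,
      zpow_mul]
  rw [e]
  exact hh

theorem T3.sat {x y z n : ℤ} (hn : n ≠ 0)
    (h : T3 q a0 a1 a2 (n * x) (n * y) (n * z)) : T3 q a0 a1 a2 x y z := by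
  apply Tor.of_zpow hn
  have e : gm q a0 ^ (n * x) * gm q a1 ^ (n * y) * gm q a2 ^ (n * z) =
      (gm q a0 ^ x * gm q a1 ^ y * gm q a2 ^ z) ^ n := by
    rw [mul_zpow, mul_zpow, mul_comm n x, mul_comm n y, mul_comm n z, zpow_mul, zpow_mul,
      zpow_mul]
  rw [← e]
  exact h

theorem T3.map_id (hq : 1 < q) (h0 : a0 ≠ 0) (h1 : a1 ≠ 0) (h2 : a2 ≠ 0) (σ : QB ≃ₐ[ℚ] QB)
    {s0 s1 s2 : ℤ} (hs0 : s0 = 1 ∨ s0 = -1) (hs1 : s1 = 1 ∨ s1 = -1) (hs2 : s2 = 1 ∨ s2 = -1)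
    (e0 : σ a0 = ac q s0 a0) (e1 : σ a1 = ac q s1 a1) (e2 : σ a2 = ac q s2 a2) {x y z : ℤ}
    (h : T3 q a0 a1 a2 x y z) : T3 q a0 a1 a2 (s0 * x) (s1 * y) (s2 * z) := by
  have hh := h.map σ
  rw [map_mul, map_mul, map_zpow₀, map_zpow₀, map_zpow₀, gm_map, gm_map, gm_map, e0, e1, e2,
    gm_ac hq hs0 h0, gm_ac hq hs1 h1, gm_ac hq hs2 h2, ← zpow_mul, ← zpow_mul, ← zpow_mul] at hh
  exact hh

theorem T3.map_sw (hq : 1 < q) (h0 : a0 ≠ 0) (h1 : a1 ≠ 0) (h2 : a2 ≠ 0) (σ : QB ≃ₐ[ℚ] QB)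
    {s0 s1 s2 : ℤ} (hs0 : s0 = 1 ∨ s0 = -1) (hs1 : s1 = 1 ∨ s1 = -1) (hs2 : s2 = 1 ∨ s2 = -1)
    (e0 : σ a0 = ac q s0 a0) (e1 : σ a1 = ac q s1 a2) (e2 : σ a2 = ac q s2 a1) {x y z : ℤ}
    (h : T3 q a0 a1 a2 x y z) : T3 q a0 a1 a2 (s0 * x) (s2 * z) (s1 * y) := by
  have hh := h.map σ
  rw [map_mul, map_mul, map_zpow₀, map_zpow₀, map_zpow₀, gm_map, gm_map, gm_map, e0, e1, e2,
    gm_ac hq hs0 h0, gm_ac hq hs1 h2, gm_ac hq hs2 h1, ← zpow_mul, ← zpow_mul, ← zpow_mul,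
    mul_right_comm] at hh
  exact hh

theorem sgn_sq {s : ℤ} (hs : s = 1 ∨ s = -1) : s * s = 1 := by
  rcases hs with rfl | rfl <;> norm_num

theorem prod_ac (hq : 1 < q) (h1 : a1 ≠ 0) (h2 : a2 ≠ 0) {s ε : ℤ} (hs : s = 1 ∨ s = -1)
    (hε : ε = 1 ∨ ε = -1) :
    ac q s a1 * ac q (ε * s) a2 = a1 * ac q ε a2 ∨
      ac q s a1 * ac q (ε * s) a2 = (q : QB) ^ 2 / (a1 * ac q ε a2) := by
  have h0 := qne hq
  rcases hs with rfl | rfl
  · left
    rw [ac_one, mul_one]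
  · right
    have hε' : -1 * ε = ε * -1 := by ring
    rw [ac_neg, ← hε', ← ac_ac hq (Or.inr rfl) hε h2, ac_neg]
    have h3 := ac_ne hq hε h2
    field_simp

/-- an even nonzero vector supported at the place `0` -/
theorem no_zero {x : ℤ} (hT : T3 q a0 a1 a2 x 0 0) (hx : x ≠ 0) (he : Even (x + 0 + 0))
    (h1 : 2 ≤ |x| → ¬ T3 q a0 a1 a2 1 0 0) : False := by
  have h2 : 2 ≤ |x| := by
    obtain ⟨r, hr⟩ := he
    rcases abs_cases x with h3 | h3 <;> omega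
  refine h1 h2 (T3.sat (n := x) hx ?_)
  have e : T3 q a0 a1 a2 x 0 0 = T3 q a0 a1 a2 (x * 1) (x * 0) (x * 0) := by
    rw [mul_one, mul_zero]
  rw [← e]
  exact hT

/-- the case of a relation supported at the places `1`, `2` -/
theorem caseII (hq : 1 < q) (h0 : a0 ≠ 0) (h1 : a1 ≠ 0) (h2 : a2 ≠ 0) (σ : QB ≃ₐ[ℚ] QB)
    {s0 s1 s2 : ℤ} (hs0 : s0 = 1 ∨ s0 = -1) (hs1 : s1 = 1 ∨ s1 = -1) (hs2 : s2 = 1 ∨ s2 = -1)
    (e0 : σ a0 = ac q s0 a0) (e1 : σ a1 = ac q s1 a2) (e2 : σ a2 = ac q s2 a1) {b c : ℤ}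
    (hbc : b ≠ 0 ∨ c ≠ 0) (hT : T3 q a0 a1 a2 0 b c) :
    ∃ ε : ℤ, (ε = 1 ∨ ε = -1) ∧ T3 q a0 a1 a2 0 1 ε := by
  have hw := T3.map_sw hq h0 h1 h2 σ hs0 hs1 hs2 e0 e1 e2 hT
  by_cases hdet : s1 * b ^ 2 - s2 * c ^ 2 = 0
  · have habs : c = b ∨ c = -b := by
      rw [← sq_eq_sq_iff_eq_or_eq_neg]
      have hp0 : 0 ≤ b ^ 2 := by positivity
      have hp1 : 0 ≤ c ^ 2 := by positivity
      rcases hs1 with h3 | h3 <;> rcases hs2 with h4 | h4 <;> rw [h3, h4] at hdet <;> linarith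
    have hb : b ≠ 0 := by
      intro hb
      rcases habs with h3 | h3
      · rw [hb] at h3
        exact hbc.elim (fun h => h hb) (fun h => h h3)
      · rw [hb, neg_zero] at h3
        exact hbc.elim (fun h => h hb) (fun h => h h3)
    rcases habs with h3 | h3
    · refine ⟨1, Or.inl rfl, T3.sat (n := b) hb ?_⟩
      rw [mul_zero, mul_one]
      rw [h3] at hT
      exact hT
    · refine ⟨-1, Or.inr rfl, T3.sat (n := b) hb ?_⟩
      rw [mul_zero, mul_one]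
      rw [h3] at hT
      have e : b * -1 = -b := by ring
      rw [e]
      exact hT
  · have hA : T3 q a0 a1 a2 0 1 0 := by
      refine T3.sat (n := s1 * b ^ 2 - s2 * c ^ 2) hdet ?_
      have h3 := T3.comb hq h0 h1 h2 hT hw (s1 * b) (-c)
      have i1 : s1 * b * 0 + -c * (s0 * 0) = (s1 * b ^ 2 - s2 * c ^ 2) * 0 := by ring
      have i2 : s1 * b * b + -c * (s2 * c) = (s1 * b ^ 2 - s2 * c ^ 2) * 1 := by ring
      have i3 : s1 * b * c + -c * (s1 * b) = (s1 * b ^ 2 - s2 * c ^ 2) * 0 := by ring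
      rw [i1, i2, i3] at h3
      exact h3
    have hB : T3 q a0 a1 a2 0 0 1 := by
      refine T3.sat (n := s1 * b ^ 2 - s2 * c ^ 2) hdet ?_
      have h3 := T3.comb hq h0 h1 h2 hT hw (-(s2 * c)) b
      have i1 : -(s2 * c) * 0 + b * (s0 * 0) = (s1 * b ^ 2 - s2 * c ^ 2) * 0 := by ring
      have i2 : -(s2 * c) * b + b * (s2 * c) = (s1 * b ^ 2 - s2 * c ^ 2) * 0 := by ring
      have i3 : -(s2 * c) * c + b * (s1 * b) = (s1 * b ^ 2 - s2 * c ^ 2) * 1 := by ring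
      rw [i1, i2, i3] at h3
      exact h3
    have hC := T3.comb hq h0 h1 h2 hA hB 1 1
    exact ⟨1, Or.inl rfl, hC⟩

theorem core (hq : 1 < q) (h0 : a0 ≠ 0) (h1 : a1 ≠ 0) (h2 : a2 ≠ 0)
    (H0 : ∀ σ : QB ≃ₐ[ℚ] QB, ∃ s : ℤ, (s = 1 ∨ s = -1) ∧ σ a0 = ac q s a0)
    (H12 : ∀ σ : QB ≃ₐ[ℚ] QB, ∃ s t : ℤ, (s = 1 ∨ s = -1) ∧ (t = 1 ∨ t = -1) ∧
      ((σ a1 = ac q s a1 ∧ σ a2 = ac q t a2) ∨ (σ a1 = ac q s a2 ∧ σ a2 = ac q t a1)))
    (Hτ : ∃ (σ : QB ≃ₐ[ℚ] QB) (s t : ℤ), (s = 1 ∨ s = -1) ∧ (t = 1 ∨ t = -1) ∧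
      σ a1 = ac q s a2 ∧ σ a2 = ac q t a1)
    {x y z : ℤ} (hT : T3 q a0 a1 a2 x y z) (hne : ¬ (x = 0 ∧ y = 0 ∧ z = 0))
    (hev : Even (x + y + z)) (hp : y ≠ 0 → z ≠ 0 → ¬ T3 q a0 a1 a2 0 y.sign z.sign)
    (hone : 2 ≤ |x| → ¬ T3 q a0 a1 a2 1 0 0) :
    ∃ ε : ℤ, (ε = 1 ∨ ε = -1) ∧
      (((∀ σ : QB ≃ₐ[ℚ] QB, σ (a1 * ac q ε a2) = a1 * ac q ε a2 ∨
          σ (a1 * ac q ε a2) = (q : QB) ^ 2 / (a1 * ac q ε a2)) ∧
        ¬ T3 q a0 a1 a2 0 1 ε ∧ ∃ k l : ℤ, k ≠ 0 ∧ T3 q a0 a1 a2 (2 * l) k (ε * k)) ∨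
      (T3 q a0 a1 a2 0 1 ε ∧ ∃ k l : ℤ, k ≠ 0 ∧ T3 q a0 a1 a2 l k 0)) := by
  obtain ⟨τ, t1, t2, ht1, ht2, hτ1, hτ2⟩ := Hτ
  obtain ⟨t0, ht0, hτ0⟩ := H0 τ
  by_cases hI : ∃ b c : ℤ, (b ≠ 0 ∨ c ≠ 0) ∧ T3 q a0 a1 a2 0 b c
  · obtain ⟨b, c, hbc, hbcT⟩ := hI
    obtain ⟨ε, hε, hεT⟩ := caseII hq h0 h1 h2 τ ht0 ht1 ht2 hτ0 hτ1 hτ2 hbc hbcT
    refine ⟨ε, hε, Or.inr ⟨hεT, ?_⟩⟩
    have hε2 := sgn_sq hε
    have h3 := T3.comb hq h0 h1 h2 hT hεT 1 (-(ε * z))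
    have i1 : 1 * x + -(ε * z) * 0 = x := by ring
    have i2 : 1 * y + -(ε * z) * 1 = y - ε * z := by ring
    have i3 : 1 * z + -(ε * z) * ε = 0 := by linear_combination -z * hε2
    rw [i1, i2, i3] at h3
    by_cases hk : y - ε * z = 0
    · exfalso
      by_cases hz : z = 0
      · have hy : y = 0 := by rw [hz, mul_zero, sub_zero] at hk; exact hk
        rw [hy, hz] at hT hev
        exact no_zero hT (fun hx => hne ⟨hx, hy, hz⟩) hev hone
      · have hy : y ≠ 0 := by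
          intro hy
          rw [hy] at hk
          rcases hε with rfl | rfl
          · exact hz (by linarith)
          · exact hz (by linarith)
        refine hp hy hz ?_
        have h4 := T3.smul hεT y.sign
        have h5 : y.sign * ε = z.sign := by
          rcases hε with rfl | rfl
          · have h6 : y = z := by linarith
            rw [h6, mul_one]
          · have h6 : z = -y := by linarith
            rw [h6, Int.sign_neg]
            ring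
        rw [h5, mul_zero, mul_one] at h4
        exact h4
    · exact ⟨y - ε * z, x, hk, h3⟩
  · have hI' : ∀ b c : ℤ, T3 q a0 a1 a2 0 b c → b = 0 ∧ c = 0 := by
      intro b c hbc
      by_contra hcon
      apply hI
      refine ⟨b, c, ?_, hbc⟩
      by_contra hcon2
      push Not at hcon2
      exact hcon hcon2
    -- the action of an automorphism on the relation
    have key : ∀ (s0 u v : ℤ), T3 q a0 a1 a2 (s0 * x) u v → u = s0 * y ∧ v = s0 * z := by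
      intro s0 u v h
      have h3 := T3.comb hq h0 h1 h2 h hT 1 (-s0)
      have i1 : 1 * (s0 * x) + -s0 * x = 0 := by ring
      rw [i1] at h3
      have h4 := hI' _ _ h3
      exact ⟨by linarith [h4.1], by linarith [h4.2]⟩
    have hw := key _ _ _ (T3.map_sw hq h0 h1 h2 τ ht0 ht1 ht2 hτ0 hτ1 hτ2 hT)
    obtain ⟨hw1, hw2⟩ := hw
    have ht0' := sgn_sq ht0
    have hy : y ≠ 0 := by
      intro hy
      have hz : z = 0 := by
        rw [hy, mul_zero] at hw1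
        rcases ht2 with rfl | rfl
        · linarith
        · linarith
      rw [hy, hz] at hT hev
      exact no_zero hT (fun hx => hne ⟨hx, hy, hz⟩) hev hone
    obtain ⟨ε, hε, hzε⟩ : ∃ ε : ℤ, (ε = 1 ∨ ε = -1) ∧ z = ε * y := by
      rcases ht0 with h3 | h3 <;> rcases ht2 with h4 | h4 <;> rw [h3, h4] at hw1
      · exact ⟨1, Or.inl rfl, by linarith⟩
      · exact ⟨-1, Or.inr rfl, by linarith⟩
      · exact ⟨-1, Or.inr rfl, by linarith⟩
      · exact ⟨1, Or.inl rfl, by linarith⟩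
    have hε2 := sgn_sq hε
    have hz : z ≠ 0 := by
      rw [hzε]
      rcases hε with rfl | rfl
      · simpa using hy
      · simpa using hy
    refine ⟨ε, hε, Or.inl ⟨fun σ => ?_, fun h => ?_, 2 * y, x, ?_, ?_⟩⟩
    · obtain ⟨s0, hs0, hσ0⟩ := H0 σ
      obtain ⟨s, t, hs, ht, h3 | h3⟩ := H12 σ
      · obtain ⟨k1, k2⟩ := key _ _ _ (T3.map_id hq h0 h1 h2 σ hs0 hs ht hσ0 h3.1 h3.2 hT)
        have hs' : s = s0 := mul_right_cancel₀ hy k1
        have ht' : t = s0 := mul_right_cancel₀ hz k2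
        rw [map_mul, ac_map σ hε, h3.1, h3.2, ac_ac hq hε ht h2, hs', ht']
        exact prod_ac hq h1 h2 hs0 hε
      · obtain ⟨k1, k2⟩ := key _ _ _ (T3.map_sw hq h0 h1 h2 σ hs0 hs ht hσ0 h3.1 h3.2 hT)
        have hs' : s = ε * s0 := by
          apply mul_right_cancel₀ hy
          rw [k2, hzε]
          ring
        have ht' : t = ε * s0 := by
          apply mul_right_cancel₀ hz
          rw [k1, hzε]
          linear_combination -s0 * y * hε2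
        rw [map_mul, ac_map σ hε, h3.1, h3.2, ac_ac hq hε ht h1, hs', ht']
        have e : ε * (ε * s0) = s0 := by linear_combination s0 * hε2
        rw [e, mul_comm]
        exact prod_ac hq h1 h2 hs0 hε
    · have := (hI' _ _ h).1
      norm_num at this
    · simpa using hy
    · have h3 := T3.smul hT 2
      have e : ε * (2 * y) = 2 * z := by rw [hzε]; ring
      rw [e]
      exact h3

/-! ### translations -/

theorem qneC (hq : 1 < q) : (q : ℂ) ≠ 0 := by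
  have h : q ≠ 0 := by omega
  exact_mod_cast h

theorem pw (hq : 1 < q) (a : QB) (x : ℤ) :
    (a : ℂ) ^ (2 * x) = (algebraMap QB ℂ (gm q a ^ x)) * (q : ℂ) ^ x := by
  rw [map_zpow₀]
  unfold gm
  rw [map_div₀, map_pow, map_natCast, ← mul_zpow, div_mul_cancel₀ _ (qneC hq), zpow_mul]
  rfl

theorem tor_iff (hq : 1 < q) (u : QB) (n : ℤ) (N : ℕ) :
    ((algebraMap QB ℂ u) * (q : ℂ) ^ n) ^ N = ((q : ℂ) ^ n) ^ N ↔ u ^ N = 1 := by
  rw [mul_pow]
  have h1 : ((q : ℂ) ^ n) ^ N ≠ 0 := pow_ne_zero _ (zpow_ne_zero _ (qneC hq))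
  constructor
  · intro h
    have h2 := mul_right_cancel₀ h1 (h.trans (one_mul _).symm)
    rw [← map_pow] at h2
    exact (algebraMap QB ℂ).injective (h2.trans (map_one _).symm)
  · intro h
    rw [← map_pow, h, map_one, one_mul]

theorem relZ_iff (hq : 1 < q) (f : Fin 1 ⊕ Fin 2 → ℂ) (h0 : f (Sum.inl 0) = (a0 : ℂ))
    (h1 : f (Sum.inr 0) = (a1 : ℂ)) (h2 : f (Sum.inr 1) = (a2 : ℂ)) (e : Fin 1 ⊕ Fin 2 → ℤ) :
    RelZ q f e ↔ T3 q a0 a1 a2 (e (Sum.inl 0)) (e (Sum.inr 0)) (e (Sum.inr 1)) := by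
  unfold RelZ T3 Tor
  refine exists_congr fun N => and_congr_right fun _ => ?_
  rw [← tor_iff hq _ (e (Sum.inl 0) + (e (Sum.inr 0) + e (Sum.inr 1))) N, Fintype.prod_sum_type,
    Fintype.sum_sum_type, Fin.prod_univ_two, Fin.sum_univ_two, Fin.prod_univ_one,
    Fin.sum_univ_one, h0, h1, h2, pw hq, pw hq, pw hq, map_mul, map_mul,
    zpow_add₀ (qneC hq), zpow_add₀ (qneC hq)]
  have e1 : ∀ A B C D E F : ℂ, A * B * (C * D * (E * F)) = A * C * E * (B * (D * F)) := by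
    intros
    ring
  rw [e1]

/-- the first relation of the conclusion -/
theorem relA (hq : 1 < q) {ε : ℤ} (hε : ε = 1 ∨ ε = -1) (h2 : a2 ≠ 0) {k l : ℤ}
    (h : T3 q a0 a1 a2 (2 * l) k (ε * k)) :
    RelZ (q ^ 2) ![((a1 * ac q ε a2 : QB) : ℂ), (a0 : ℂ) ^ 2] ![k, l] := by
  obtain ⟨N, hN, h⟩ := h
  refine ⟨N, hN, ?_⟩
  rw [Fin.prod_univ_two, Fin.sum_univ_two]
  simp only [Matrix.cons_val_zero, Matrix.cons_val_one]
  have e1 : ((a1 * ac q ε a2 : QB) : ℂ) ^ (2 * k) * ((a0 : ℂ) ^ 2) ^ (2 * l) =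
      (algebraMap QB ℂ (gm q a0 ^ (2 * l) * gm q a1 ^ k * gm q a2 ^ (ε * k))) *
        (q : ℂ) ^ (k + (k + 2 * l)) := by
    have e2 : ((a1 * ac q ε a2 : QB) : ℂ) = (a1 : ℂ) * ((ac q ε a2 : QB) : ℂ) := rfl
    have e3 : ((a0 : ℂ) ^ 2) ^ (2 * l) = (a0 : ℂ) ^ (2 * (2 * l)) := by
      rw [zpow_mul (a0 : ℂ) 2 (2 * l)]
      rfl
    rw [e2, mul_zpow, e3, pw hq, pw hq, pw hq, gm_ac hq hε h2, ← zpow_mul, map_mul, map_mul,
      zpow_add₀ (qneC hq), zpow_add₀ (qneC hq)]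
    ring
  have e4 : (((q ^ 2 : ℕ) : ℂ)) ^ (k + l) = (q : ℂ) ^ (k + (k + 2 * l)) := by
    push_cast
    rw [← zpow_natCast (q : ℂ) 2, ← zpow_mul]
    congr 1
    push_cast
    ring
  rw [e1, e4]
  exact (tor_iff hq _ _ N).2 h

/-- the second relation of the conclusion -/
theorem relC (hq : 1 < q) {k l : ℤ} (h : T3 q a0 a1 a2 l k 0) :
    RelZ (q ^ 2) ![(a1 : ℂ) ^ 2, (a0 : ℂ) ^ 2] ![k, l] := by
  obtain ⟨N, hN, h⟩ := T3.smul h 2
  refine ⟨N, hN, ?_⟩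
  rw [Fin.prod_univ_two, Fin.sum_univ_two]
  simp only [Matrix.cons_val_zero, Matrix.cons_val_one]
  have e1 : ((a1 : ℂ) ^ 2) ^ (2 * k) * ((a0 : ℂ) ^ 2) ^ (2 * l) =
      (algebraMap QB ℂ (gm q a0 ^ (2 * l) * gm q a1 ^ (2 * k) * gm q a2 ^ (2 * 0 : ℤ))) *
        (q : ℂ) ^ (2 * k + 2 * l) := by
    have e3 : ((a0 : ℂ) ^ 2) ^ (2 * l) = (a0 : ℂ) ^ (2 * (2 * l)) := by
      rw [zpow_mul (a0 : ℂ) 2 (2 * l)]
      rfl
    have e2 : ((a1 : ℂ) ^ 2) ^ (2 * k) = (a1 : ℂ) ^ (2 * (2 * k)) := by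
      rw [zpow_mul (a1 : ℂ) 2 (2 * k)]
      rfl
    rw [e2, e3, pw hq, pw hq, mul_zero, zpow_zero, mul_one, map_mul, zpow_add₀ (qneC hq)]
    ring
  have e4 : (((q ^ 2 : ℕ) : ℂ)) ^ (k + l) = (q : ℂ) ^ (2 * k + 2 * l) := by
    push_cast
    rw [← zpow_natCast (q : ℂ) 2, ← zpow_mul]
    congr 1
    push_cast
    ring
  rw [e1, e4]
  exact (tor_iff hq _ _ N).2 h

/-- a relation between the two last places -/
theorem pairB (hq : 1 < q) {ε : ℤ} (hε : ε = 1 ∨ ε = -1) (h2 : a2 ≠ 0)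
    (h : T3 q a0 a1 a2 0 1 ε) : PairRel q (a1 : ℂ) ((ac q ε a2 : QB) : ℂ) := by
  obtain ⟨N, hN, h⟩ := h
  rw [zpow_zero, one_mul, zpow_one, ← gm_ac hq hε h2] at h
  refine ⟨2 * N, by omega, ?_⟩
  have h3 := congrArg (algebraMap QB ℂ) h
  unfold gm at h3
  simp only [map_pow, map_mul, map_div₀, map_natCast, map_one] at h3
  have h4 : (((a1 : ℂ) * ((ac q ε a2 : QB) : ℂ)) ^ 2 / (q : ℂ) ^ 2) ^ N = 1 := by
    rw [← h3]
    congr 1
    have e1 : (algebraMap QB ℂ) a1 = (a1 : ℂ) := rfl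
    have e2 : (algebraMap QB ℂ) (ac q ε a2) = ((ac q ε a2 : QB) : ℂ) := rfl
    rw [e1, e2]
    field_simp
  rw [div_pow, div_eq_one_iff_eq (pow_ne_zero _ (pow_ne_zero _ (qneC hq))), ← pow_mul,
    ← pow_mul] at h4
  exact h4

/-! ### the roots -/

theorem lab_alg (hq : 1 < q) (g : ℕ) (x : Fin g → ℤ) (i : Fin g) :
    ∃ a : QB, (a : ℂ) = labA q g x i := by
  have hq0 : q ≠ 0 := by omega
  have hroot : aeval (labA q g x i) (wp q g x) = 0 := (lab_root hq0 x _).2 ⟨i, Or.inl rfl⟩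
  have hmem : labA q g x i ∈ algebraicClosure ℚ ℂ := by
    rw [mem_algebraicClosure_iff]
    refine ⟨(wp q g x).map (Int.castRingHom ℚ), ?_, ?_⟩
    · exact (Polynomial.map_ne_zero_iff (RingHom.injective_int _)).2 (wp_monic q g x).ne_zero
    · have h1 := hroot
      rw [aeval_def, eval₂_map]
      rw [aeval_def] at h1
      rw [← h1]
      congr 1
  exact ⟨⟨_, hmem⟩, rfl⟩

theorem lab_ne (hq : 1 < q) {g : ℕ} {x : Fin g → ℤ} {i : Fin g} {a : QB}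
    (h : (a : ℂ) = labA q g x i) : a ≠ 0 := by
  intro h0
  have h1 := lab_mul q g x i
  rw [← h, h0] at h1
  apply qneC hq
  rw [← h1]
  simp

theorem labB_eq (hq : 1 < q) {g : ℕ} {x : Fin g → ℤ} {i : Fin g} {a : QB}
    (h : (a : ℂ) = labA q g x i) : labB q g x i = (((q : QB) / a : QB) : ℂ) := by
  have h1 := lab_mul q g x i
  have h2 : (a : ℂ) ≠ 0 := by
    intro h3
    apply lab_ne hq h
    exact (algebraMap QB ℂ).injective (h3.trans (map_zero _).symm)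
  have h3 : (((q : QB) / a : QB) : ℂ) = (q : ℂ) / (a : ℂ) := by
    have : (((q : QB) / a : QB) : ℂ) = algebraMap QB ℂ ((q : QB) / a) := rfl
    rw [this, map_div₀, map_natCast]
    rfl
  rw [h3, eq_div_iff h2, mul_comm, h]
  exact h1

theorem one_root {K : Type} [Field K] (a : K) (y : Fin 1 → ℤ)
    (h : (mkPoly 1 y).map (algebraMap ℤ K) = X - C a) : a = -((y 0 : ℤ) : K) := by
  have h1 := congrArg (fun P : K[X] => P.coeff 0) h
  have h3 : (mkPoly 1 y).map (algebraMap ℤ K) = X + C ((y 0 : ℤ) : K) := by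
    rw [← hp_eq_map]
    unfold hp
    rw [Fin.sum_univ_one]
    simp
  rw [h3] at h1
  simp at h1
  linear_combination h1

theorem coe_inj {a b : QB} (h : (a : ℂ) = (b : ℂ)) : a = b :=
  (algebraMap QB ℂ).injective h

/-- a rational integral number -/
theorem int_of_fixed (B : QB) (hfix : ∀ σ : QB ≃ₐ[ℚ] QB, σ B = B) (hint : IsIntegral ℤ (B : ℂ)) :
    ∃ b : ℤ, (B : ℂ) = b := by
  have hnor : Normal ℚ QB := normalQB
  have hgal : IsGalois ℚ QB := { to_isSeparable := inferInstance, to_normal := hnor }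
  obtain ⟨r, hr⟩ := (InfiniteGalois.mem_range_algebraMap_iff_fixed (k := ℚ) (K := QB) B).2 hfix
  have h1 : (B : ℂ) = algebraMap ℚ ℂ r := by
    rw [← hr]
    rfl
  rw [h1] at hint
  have h2 : IsIntegral ℤ r :=
    (isIntegral_algebraMap_iff (algebraMap ℚ ℂ).injective).1 hint
  obtain ⟨b, hb⟩ := (IsIntegrallyClosed.isIntegral_iff (R := ℤ) (K := ℚ)).1 h2
  refine ⟨b, ?_⟩
  rw [h1, ← hb]
  simp

/-- R2 -/
theorem r2 : R2 := by
  intro q m y z e hq hm hy hz hirr hne hrel hev hpair hone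
  have hq0 : q ≠ 0 := by omega
  have hqC := qneC hq
  obtain ⟨a0, ha0⟩ := lab_alg hq 1 y 0
  obtain ⟨a1, ha1⟩ := lab_alg hq 2 z 0
  obtain ⟨a2, ha2⟩ := lab_alg hq 2 z 1
  have h0 := lab_ne hq ha0
  have h1 := lab_ne hq ha1
  have h2 := lab_ne hq ha2
  have hB0 := labB_eq hq ha0
  have hB1 := labB_eq hq ha1
  have hB2 := labB_eq hq ha2
  -- the real numbers
  have hp1 : (mkPoly 1 y).map (algebraMap ℤ QB) = X - C (a0 + (q : QB) / a0) := by
    apply Polynomial.map_injective (algebraMap QB ℂ) (algebraMap QB ℂ).injective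
    have h3 := lab_hp q 1 y
    rw [hp_eq_map, Fin.prod_univ_one, ← ha0, hB0] at h3
    rw [Polynomial.map_map, RingHom.ext_int ((algebraMap QB ℂ).comp (algebraMap ℤ QB))
      (algebraMap ℤ ℂ), h3, Polynomial.map_sub, map_X, map_C]
    rfl
  have hp2 : (mkPoly 2 z).map (algebraMap ℤ QB) =
      (X - C (a1 + (q : QB) / a1)) * (X - C (a2 + (q : QB) / a2)) := by
    apply Polynomial.map_injective (algebraMap QB ℂ) (algebraMap QB ℂ).injective
    have h3 := lab_hp q 2 z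
    rw [hp_eq_map, Fin.prod_univ_two, ← ha1, ← ha2, hB1, hB2] at h3
    rw [Polynomial.map_map, RingHom.ext_int ((algebraMap QB ℂ).comp (algebraMap ℤ QB))
      (algebraMap ℤ ℂ), h3, Polynomial.map_mul, Polynomial.map_sub, Polynomial.map_sub, map_X,
      map_C, map_C]
    rfl
  have hs0 := one_root _ y hp1
  have hs2 := sum_coeff _ _ z hp2
  -- the action on the first root
  have H0 : ∀ σ : QB ≃ₐ[ℚ] QB, ∃ s : ℤ, (s = 1 ∨ s = -1) ∧ σ a0 = ac q s a0 := by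
    intro σ
    have h3 : σ (a0 + (q : QB) / a0) = a0 + (q : QB) / a0 := by
      rw [hs0, map_neg, map_intCast]
    rw [map_add, map_div₀, map_natCast] at h3
    exact eq_ac (by simpa using h0) h0 h3
  -- the action on the other roots
  have hactθ : ∀ σ : QB ≃ₐ[ℚ] QB,
      (σ (a1 + (q : QB) / a1) = a1 + (q : QB) / a1 ∧ σ (a2 + (q : QB) / a2) = a2 + (q : QB) / a2) ∨
      (σ (a1 + (q : QB) / a1) = a2 + (q : QB) / a2 ∧
        σ (a2 + (q : QB) / a2) = a1 + (q : QB) / a1) := by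
    intro σ
    have h3 : eval (σ (a1 + (q : QB) / a1)) ((mkPoly 2 z).map (algebraMap ℤ QB)) = 0 := by
      have h4 : eval (a1 + (q : QB) / a1) ((mkPoly 2 z).map (algebraMap ℤ QB)) = 0 := by
        rw [hp2, eval_mul]
        simp
      rw [eval_map] at h4 ⊢
      have h5 : eval₂ (algebraMap ℤ QB) (σ (a1 + (q : QB) / a1)) (mkPoly 2 z) =
          σ (eval₂ (algebraMap ℤ QB) (a1 + (q : QB) / a1) (mkPoly 2 z)) := by
        have h6 := Polynomial.hom_eval₂ (mkPoly 2 z) (algebraMap ℤ QB) (σ : QB →+* QB)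
          (a1 + (q : QB) / a1)
        rw [RingHom.ext_int ((σ : QB →+* QB).comp (algebraMap ℤ QB)) (algebraMap ℤ QB)] at h6
        exact h6.symm
      rw [h5, h4, map_zero]
    have hsum : σ (a1 + (q : QB) / a1) + σ (a2 + (q : QB) / a2) = -(((z 1 : ℤ)) : QB) := by
      rw [← map_add, hs2, map_neg, map_intCast]
    rw [hp2, eval_mul] at h3
    simp only [eval_sub, eval_X, eval_C] at h3
    rcases mul_eq_zero.1 h3 with h4 | h4
    · left
      have h5 := sub_eq_zero.1 h4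
      refine ⟨h5, ?_⟩
      linear_combination hsum - hs2 - h5
    · right
      have h5 := sub_eq_zero.1 h4
      refine ⟨h5, ?_⟩
      linear_combination hsum - hs2 - h5
  have hact : ∀ (σ : QB ≃ₐ[ℚ] QB) (a b : QB), a ≠ 0 → b ≠ 0 →
      σ (a + (q : QB) / a) = b + (q : QB) / b → ∃ s : ℤ, (s = 1 ∨ s = -1) ∧ σ a = ac q s b := by
    intro σ a b ha hb h3
    rw [map_add, map_div₀, map_natCast] at h3
    exact eq_ac (by simpa using ha) hb h3
  have H12 : ∀ σ : QB ≃ₐ[ℚ] QB, ∃ s t : ℤ, (s = 1 ∨ s = -1) ∧ (t = 1 ∨ t = -1) ∧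
      ((σ a1 = ac q s a1 ∧ σ a2 = ac q t a2) ∨ (σ a1 = ac q s a2 ∧ σ a2 = ac q t a1)) := by
    intro σ
    rcases hactθ σ with ⟨h3, h4⟩ | ⟨h3, h4⟩
    · obtain ⟨s, hs, h5⟩ := hact σ a1 a1 h1 h1 h3
      obtain ⟨t, ht, h6⟩ := hact σ a2 a2 h2 h2 h4
      exact ⟨s, t, hs, ht, Or.inl ⟨h5, h6⟩⟩
    · obtain ⟨s, hs, h5⟩ := hact σ a1 a2 h1 h2 h3
      obtain ⟨t, ht, h6⟩ := hact σ a2 a1 h2 h1 h4
      exact ⟨s, t, hs, ht, Or.inr ⟨h5, h6⟩⟩
  have Hτ : ∃ (σ : QB ≃ₐ[ℚ] QB) (s t : ℤ), (s = 1 ∨ s = -1) ∧ (t = 1 ∨ t = -1) ∧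
      σ a1 = ac q s a2 ∧ σ a2 = ac q t a1 := by
    have hmo : (mkPoly 2 z).Monic := mkPoly_monic 2 z
    have hirrQ : Irreducible ((mkPoly 2 z).map (Int.castRingHom ℚ)) :=
      (Polynomial.IsPrimitive.Int.irreducible_iff_irreducible_map_cast hmo.isPrimitive).1 hirr
    have hmQ : ((mkPoly 2 z).map (Int.castRingHom ℚ)).Monic := hmo.map _
    have hpolQ : ((mkPoly 2 z).map (Int.castRingHom ℚ)).map (algebraMap ℚ QB) =
        (X - C (a1 + (q : QB) / a1)) * (X - C (a2 + (q : QB) / a2)) := by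
      rw [Polynomial.map_map, RingHom.ext_int ((algebraMap ℚ QB).comp (Int.castRingHom ℚ))
        (algebraMap ℤ QB), hp2]
    have hmin1 : minpoly ℚ (a1 + (q : QB) / a1) = (mkPoly 2 z).map (Int.castRingHom ℚ) := by
      refine (minpoly.eq_of_irreducible_of_monic hirrQ ?_ hmQ).symm
      rw [aeval_def, ← eval_map, hpolQ, eval_mul]
      simp
    have hmin2 : minpoly ℚ (a2 + (q : QB) / a2) = (mkPoly 2 z).map (Int.castRingHom ℚ) := by
      refine (minpoly.eq_of_irreducible_of_monic hirrQ ?_ hmQ).symm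
      rw [aeval_def, ← eval_map, hpolQ, eval_mul]
      simp
    have hnor : Normal ℚ QB := normalQB
    obtain ⟨σ, hσ⟩ := (isConjRoot_iff_exists_algEquiv (K := ℚ) (L := QB)
      (x := a2 + (q : QB) / a2) (y := a1 + (q : QB) / a1)).1 (hmin2.trans hmin1.symm)
    have hσ2 : σ (a2 + (q : QB) / a2) = a1 + (q : QB) / a1 := by
      have hsum : σ (a1 + (q : QB) / a1) + σ (a2 + (q : QB) / a2) = -(((z 1 : ℤ)) : QB) := by
        rw [← map_add, hs2, map_neg, map_intCast]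
      linear_combination hsum - hs2 - hσ
    obtain ⟨s, hs, h5⟩ := hact σ a1 a2 h1 h2 hσ
    obtain ⟨t, ht, h6⟩ := hact σ a2 a1 h2 h1 hσ2
    exact ⟨σ, s, t, hs, ht, h5, h6⟩
  -- the relations
  have hR : ∀ f : Fin 1 ⊕ Fin 2 → ℤ, RelZ q (lab3 q y z) f ↔
      T3 q a0 a1 a2 (f (Sum.inl 0)) (f (Sum.inr 0)) (f (Sum.inr 1)) :=
    fun f => relZ_iff hq (lab3 q y z) ha0.symm ha1.symm ha2.symm f
  have hT := (hR e).1 hrel
  have hne' : ¬ (e (Sum.inl 0) = 0 ∧ e (Sum.inr 0) = 0 ∧ e (Sum.inr 1) = 0) := by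
    rintro ⟨k0, k1, k2⟩
    obtain ⟨i, hi⟩ := hne
    rcases i with i | i
    · have : i = 0 := Subsingleton.elim _ _
      rw [this] at hi
      exact hi k0
    · fin_cases i
      · exact hi k1
      · exact hi k2
  have hev' : Even (e (Sum.inl 0) + e (Sum.inr 0) + e (Sum.inr 1)) := by
    rw [Fintype.sum_sum_type, Fin.sum_univ_two, Fin.sum_univ_one, ← add_assoc] at hev
    exact hev
  have hp' : e (Sum.inr 0) ≠ 0 → e (Sum.inr 1) ≠ 0 →
      ¬ T3 q a0 a1 a2 0 (e (Sum.inr 0)).sign (e (Sum.inr 1)).sign := by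
    intro k1 k2 k3
    refine hpair (Sum.inr 0) (Sum.inr 1) (by simp) k1 k2 ((hR _).2 ?_)
    have j0 : (Pi.single (Sum.inr 0) (e (Sum.inr 0)).sign +
        Pi.single (Sum.inr 1) (e (Sum.inr 1)).sign : Fin 1 ⊕ Fin 2 → ℤ) (Sum.inl 0) = 0 := by
      simp
    have j1 : (Pi.single (Sum.inr 0) (e (Sum.inr 0)).sign +
        Pi.single (Sum.inr 1) (e (Sum.inr 1)).sign : Fin 1 ⊕ Fin 2 → ℤ) (Sum.inr 0) =
          (e (Sum.inr 0)).sign := by
      simp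
    have j2 : (Pi.single (Sum.inr 0) (e (Sum.inr 0)).sign +
        Pi.single (Sum.inr 1) (e (Sum.inr 1)).sign : Fin 1 ⊕ Fin 2 → ℤ) (Sum.inr 1) =
          (e (Sum.inr 1)).sign := by
      simp
    rw [j0, j1, j2]
    exact k3
  have hone' : 2 ≤ |e (Sum.inl 0)| → ¬ T3 q a0 a1 a2 1 0 0 := by
    intro k1 k2
    refine hone (Sum.inl 0) k1 ((hR _).2 ?_)
    have j0 : (Pi.single (Sum.inl 0) 1 : Fin 1 ⊕ Fin 2 → ℤ) (Sum.inl 0) = 1 := by simp
    have j1 : (Pi.single (Sum.inl 0) 1 : Fin 1 ⊕ Fin 2 → ℤ) (Sum.inr 0) = 0 := by simp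
    have j2 : (Pi.single (Sum.inl 0) 1 : Fin 1 ⊕ Fin 2 → ℤ) (Sum.inr 1) = 0 := by simp
    rw [j0, j1, j2]
    exact k2
  obtain ⟨ε, hε, hcore⟩ := core hq h0 h1 h2 H0 H12 Hτ hT hne' hev' hp' hone'
  have hβ : ((ac q ε a2 : QB) : ℂ) = labA q 2 z 1 ∨
      ((ac q ε a2 : QB) : ℂ) = q / labA q 2 z 1 := by
    rcases hε with rfl | rfl
    · left
      rw [ac_one, ha2]
    · right
      rw [ac_neg, ← ha2]
      have : (((q : QB) / a2 : QB) : ℂ) = algebraMap QB ℂ ((q : QB) / a2) := rfl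
      rw [this, map_div₀, map_natCast]
      rfl
  have hC1 : (a1 : ℂ) ≠ 0 := fun h => h1 (coe_inj h)
  have hacne := ac_ne hq hε h2
  have hCβ : ((ac q ε a2 : QB) : ℂ) ≠ 0 := fun h => hacne (coe_inj h)
  have hβroot : aeval ((ac q ε a2 : QB) : ℂ) (wp q 2 z) = 0 := by
    rcases hε with rfl | rfl
    · rw [ac_one, ha2]
      exact (lab_root hq0 z _).2 ⟨1, Or.inl rfl⟩
    · rw [ac_neg, ← hB2]
      exact (lab_root hq0 z _).2 ⟨1, Or.inr rfl⟩
  have hβroot' : aeval ((q : ℂ) / ((ac q ε a2 : QB) : ℂ)) (wp q 2 z) = 0 := by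
    rcases hε with rfl | rfl
    · have h3 : (q : ℂ) / ((ac q 1 a2 : QB) : ℂ) = labB q 2 z 1 := by
        rw [hB2, ac_one]
        rfl
      rw [h3]
      exact (lab_root hq0 z _).2 ⟨1, Or.inr rfl⟩
    · have h3 : (q : ℂ) / ((ac q (-1) a2 : QB) : ℂ) = labA q 2 z 1 := by
        rw [← ha2, ac_neg]
        have h4 : (((q : QB) / a2 : QB) : ℂ) = (q : ℂ) / (a2 : ℂ) := rfl
        have h5 : (a2 : ℂ) ≠ 0 := fun h => h2 (coe_inj h)
        rw [h4]
        field_simp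
      rw [h3]
      exact (lab_root hq0 z _).2 ⟨1, Or.inl rfl⟩
  refine ⟨((ac q ε a2 : QB) : ℂ), hβ, ?_⟩
  rw [← ha1, ← ha0]
  rcases hcore with ⟨hσ, hno, k, l, hk, hkl⟩ | ⟨h01, k, l, hk, hkl⟩
  · left
    have hγ0 : a1 * ac q ε a2 ≠ 0 := mul_ne_zero h1 hacne
    obtain ⟨b, hb⟩ := int_of_fixed (a1 * ac q ε a2 + (q : QB) ^ 2 / (a1 * ac q ε a2))
      (fun σ => by
        have hqB := qne hq
        rw [map_add, map_div₀, map_pow, map_natCast]
        rcases hσ σ with h3 | h3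
        · rw [h3]
        · rw [h3]
          field_simp
          ring) (by
        have i1 : IsIntegral ℤ (a1 : ℂ) := by
          rw [ha1]
          exact ⟨wp q 2 z, wp_monic q 2 z, (lab_root hq0 z _).2 ⟨0, Or.inl rfl⟩⟩
        have i2 : IsIntegral ℤ ((q : ℂ) / (a1 : ℂ)) := by
          have h3 : (q : ℂ) / (a1 : ℂ) = labB q 2 z 0 := by
            rw [hB1]
            rfl
          rw [h3]
          exact ⟨wp q 2 z, wp_monic q 2 z, (lab_root hq0 z _).2 ⟨0, Or.inr rfl⟩⟩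
        have i3 : IsIntegral ℤ ((ac q ε a2 : QB) : ℂ) := ⟨wp q 2 z, wp_monic q 2 z, hβroot⟩
        have i4 : IsIntegral ℤ ((q : ℂ) / ((ac q ε a2 : QB) : ℂ)) :=
          ⟨wp q 2 z, wp_monic q 2 z, hβroot'⟩
        have h3 : ((a1 * ac q ε a2 + (q : QB) ^ 2 / (a1 * ac q ε a2) : QB) : ℂ) =
            (a1 : ℂ) * ((ac q ε a2 : QB) : ℂ) +
              ((q : ℂ) / (a1 : ℂ)) * ((q : ℂ) / ((ac q ε a2 : QB) : ℂ)) := by
          have h4 : ((a1 * ac q ε a2 + (q : QB) ^ 2 / (a1 * ac q ε a2) : QB) : ℂ) =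
              (a1 : ℂ) * ((ac q ε a2 : QB) : ℂ) +
                (q : ℂ) ^ 2 / ((a1 : ℂ) * ((ac q ε a2 : QB) : ℂ)) := rfl
          rw [h4]
          field_simp
        rw [h3]
        exact (i1.mul i3).add (i2.mul i4))
    have hb' : (a1 : ℂ) * ((ac q ε a2 : QB) : ℂ) +
        (q : ℂ) ^ 2 / ((a1 : ℂ) * ((ac q ε a2 : QB) : ℂ)) = b := hb
    refine ⟨b, k, l, ?_, hb', hk, relA hq hε h2 hkl⟩
    intro hbq
    apply hno
    have h3 : ((a1 : ℂ) * ((ac q ε a2 : QB) : ℂ) + q) ^ 2 = 0 := by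
      have h4 : ((a1 : ℂ) * ((ac q ε a2 : QB) : ℂ)) ≠ 0 := mul_ne_zero hC1 hCβ
      have h5 : ((a1 : ℂ) * ((ac q ε a2 : QB) : ℂ)) ^ 2 + (q : ℂ) ^ 2 =
          b * ((a1 : ℂ) * ((ac q ε a2 : QB) : ℂ)) := by
        rw [← hb']
        field_simp
      rw [hbq] at h5
      push_cast at h5
      linear_combination h5
    have h4 : (a1 : ℂ) * ((ac q ε a2 : QB) : ℂ) = -(q : ℂ) := by
      have := pow_eq_zero_iff (two_ne_zero) |>.1 h3
      linear_combination this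
    have h5 : a1 * ac q ε a2 = -(q : QB) := by
      apply coe_inj
      have h6 : ((a1 * ac q ε a2 : QB) : ℂ) = (a1 : ℂ) * ((ac q ε a2 : QB) : ℂ) := rfl
      rw [h6, h4]
      rfl
    refine ⟨1, one_pos, ?_⟩
    rw [zpow_zero, one_mul, zpow_one, ← gm_ac hq hε h2, pow_one]
    unfold gm
    have hqB := qne hq
    have h6 : a1 ^ 2 / (q : QB) * (ac q ε a2 ^ 2 / (q : QB)) =
        (a1 * ac q ε a2) ^ 2 / (q : QB) ^ 2 := by
      field_simp
    rw [h6, h5]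
    field_simp
  · right
    have hPR := pairB hq hε h2 h01
    have hm2 := hm.2 q (by omega) (wp q 2 z) hz (a1 : ℂ) ((ac q ε a2 : QB) : ℂ)
      (by rw [ha1]; exact (lab_root hq0 z _).2 ⟨0, Or.inl rfl⟩) hβroot hPR
    by_cases hζ : (a1 : ℂ) * ((ac q ε a2 : QB) : ℂ) / q = -1
    · right
      refine ⟨?_, k, l, hk, relC hq hkl⟩
      have h3 : (a1 : ℂ) * ((ac q ε a2 : QB) : ℂ) = -(q : ℂ) := by
        rw [div_eq_iff hqC] at hζ
        rw [hζ]
        ring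
      have h5 : a1 * ac q ε a2 = -(q : QB) := by
        apply coe_inj
        have h6 : ((a1 * ac q ε a2 : QB) : ℂ) = (a1 : ℂ) * ((ac q ε a2 : QB) : ℂ) := rfl
        rw [h6, h3]
        rfl
      have hqB := qne hq
      have h6 : ac q ε a2 + (q : QB) / ac q ε a2 = a2 + (q : QB) / a2 := by
        rcases hε with rfl | rfl
        · rw [ac_one]
        · rw [ac_neg]
          field_simp
          ring
      have h7 : ac q ε a2 = -(q : QB) / a1 := by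
        rw [eq_div_iff h1, mul_comm]
        exact h5
      have h8 : a2 + (q : QB) / a2 = -(a1 + (q : QB) / a1) := by
        rw [← h6, h7]
        field_simp
        ring
      rw [h8] at hs2
      have h9 : (((z 1 : ℤ)) : QB) = 0 := by linear_combination hs2
      exact_mod_cast h9
    · left
      refine ⟨(a1 : ℂ) * ((ac q ε a2 : QB) : ℂ) / q, ?_, hζ, ?_⟩
      · rw [div_pow, hm2, div_self (pow_ne_zero _ hqC)]
      · field_simp

end Pool.Agent.H308.TFR2
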