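import Pool.Agent.H857.TF.Core

set_option autoImplicit false

namespace Pool.Agent.H409.TFR3

open Module Polynomial Pool.Agent.W521.Descent Pool.Agent.W521.Density Pool.Agent.W521.Count
  Pool.Agent.X297.UB Pool.Agent.H857.PB Pool.Agent.H857.PA Pool.Agent.H857.HK Pool.Agent.H857.EF
  Pool.Agent.H857.WT Pool.Agent.H857.SG Pool.Agent.H857.PD Pool.Agent.H857.TF

/-- The conjugate of a Weil number. -/
lemma conj_weilNum {p : ℕ} [Fact p.Prime] {a D w : ℕ} {γ : ℂ} (h : IsWeilNum p a D w γ) :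
    IsWeilNum p a D w ((starRingEnd ℂ) γ) := by
  obtain ⟨F, h1, h2, h3, h4⟩ := h
  refine ⟨F, h1, ?_, h3, h4⟩
  have h5 : (starRingEnd ℂ) (aeval γ F) = aeval ((starRingEnd ℂ) γ) F := by
    rw [aeval_def, aeval_def, Polynomial.hom_eval₂]
    congr 1
    exact RingHom.ext_int _ _
  rw [← h5, h2, map_zero]

lemma div_eq_conj {γ : ℂ} {Q : ℝ} (hQ : 0 < Q) (h : ‖γ‖ ^ 2 = Q) :
    (Q : ℂ) / γ = (starRingEnd ℂ) γ := by
  have hγ : γ ≠ 0 := by
    rintro rfl
    rw [norm_zero, zero_pow two_ne_zero] at h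
    exact hQ.ne h
  rw [div_eq_iff hγ, Complex.conj_mul', ← h]
  push_cast
  rfl

lemma lab_one (q : ℕ) (b : ℤ) :
    labA q 1 (fun _ => -b) 0 + labB q 1 (fun _ => -b) 0 = b := by
  have h := lab_hp q 1 (fun _ => -b)
  have h2 := congrArg (Polynomial.eval 0) h
  simp only [hp, Fin.prod_univ_one, Fin.sum_univ_one, eval_add, eval_sub, eval_X, eval_C,
    eval_mul, eval_pow] at h2
  push_cast at h2
  simp only [Fin.val_zero, pow_zero, mul_one, pow_one, zero_add, zero_sub] at h2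
  linear_combination h2

theorem r3 (h7 : S7) (hm : R3m) : R3 := by
  intro D hD
  obtain ⟨C, hC, H⟩ := h7 1 one_pos (Fin 1) (2 * D) (by omega)
  refine ⟨C, hC, ?_⟩
  intro p _ a ha ρ hρ
  have hp0 : (0 : ℝ) < p := by exact_mod_cast (Fact.out : p.Prime).pos
  have hpp : 0 < p := (Fact.out : p.Prime).pos
  set Q : ℕ := p ^ (2 * a) with hQ
  have hQ0 : 0 < Q := pow_pos hpp _
  have hQ2 : (p ^ a) ^ 2 = Q := by rw [hQ, ← pow_mul, mul_comm]
  have hQr : ((p : ℝ) ^ a) ^ 2 = (Q : ℝ) := by rw [← hQ2]; push_cast; rfl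
  have hQc : ((p : ℂ) ^ a) ^ 2 = (Q : ℂ) := by rw [← hQ2]; push_cast; rfl
  have hQc0 : (Q : ℂ) ≠ 0 := by exact_mod_cast hQ0.ne'
  set S : Set ℤ := {b : ℤ | ∃ (γ : ℂ) (k l : ℤ), γ + (p ^ a : ℂ) ^ 2 / γ = b ∧
    ‖γ‖ ^ 2 = ((p : ℝ) ^ a) ^ 2 ∧
    IsWeilNum p (2 * a) (2 * D) 1 γ ∧ k ≠ 0 ∧ RelZ ((p ^ a) ^ 2) ![γ, ρ ^ 2] ![k, l]} with hS
  set T : Set (Fin 1 → ℤ) := {y : Fin 1 → ℤ | wp Q 1 y ∈ weilPolys Q 1 ∧
      (∀ z : ℂ, aeval z (wp Q 1 y) = 0 → IsWeilNum p (2 * a) (2 * D) 1 z) ∧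
      ∃ (e : Fin 1 → ℤ) (e' : Fin 1 → ℤ), (∃ j, e j ≠ 0) ∧
        RelZ Q (Sum.elim (labA Q 1 y) (fun _ : Fin 1 => ρ ^ 2)) (Sum.elim e e')} with hT
  have hTfin : T.Finite := by
    refine ((finite_weilPolys (g := 1) hQ0.ne').preimage
      ((wp_injective hQ0.ne' 1).injOn)).subset ?_
    intro y hy
    exact hy.1
  have hmap : ∀ b ∈ S, (fun _ : Fin 1 => -b) ∈ T := by
    rintro b ⟨γ, k, l, h1, h2, h3, h4, h5⟩
    rw [hQc] at h1
    rw [hQr] at h2
    have hγ : γ ≠ 0 := by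
      rintro rfl
      rw [norm_zero, zero_pow two_ne_zero] at h2
      have : (Q : ℝ) ≠ 0 := by exact_mod_cast hQ0.ne'
      exact this h2.symm
    have hconj : (Q : ℂ) / γ = (starRingEnd ℂ) γ := by
      have := div_eq_conj (γ := γ) (Q := (Q : ℝ)) (by exact_mod_cast hQ0) h2
      simpa using this
    have hnc : ‖(Q : ℂ) / γ‖ ^ 2 = Q := by
      rw [hconj, Complex.norm_conj, h2]
    have hwc : IsWeilNum p (2 * a) (2 * D) 1 ((Q : ℂ) / γ) := by
      rw [hconj]
      exact conj_weilNum h3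
    -- the labels
    have e1 := lab_one Q b
    have e2 := lab_mul Q 1 (fun _ => -b) 0
    set A := labA Q 1 (fun _ => -b) 0 with hA
    set B := labB Q 1 (fun _ => -b) 0 with hB
    have e3 : γ * ((Q : ℂ) / γ) = Q := mul_div_cancel₀ _ hγ
    have hAB : (A = γ ∧ B = (Q : ℂ) / γ) ∨ (A = (Q : ℂ) / γ ∧ B = γ) := by
      have h6 : (A - γ) * (A - (Q : ℂ) / γ) = 0 := by
        have : A * B = γ * ((Q : ℂ) / γ) := by rw [e2, e3]
        linear_combination A * (e1 - h1) - this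
      rcases mul_eq_zero.1 h6 with h7 | h7
      · left
        have h8 := sub_eq_zero.1 h7
        refine ⟨h8, ?_⟩
        linear_combination e1 - h1 - h8
      · right
        have h8 := sub_eq_zero.1 h7
        refine ⟨h8, ?_⟩
        linear_combination e1 - h1 - h8
    have hroots : ∀ z : ℂ, aeval z (wp Q 1 (fun _ => -b)) = 0 → z = γ ∨ z = (Q : ℂ) / γ := by
      intro z hz
      obtain ⟨j, hj⟩ := (lab_root hQ0.ne' _ z).1 hz
      obtain rfl : j = 0 := Subsingleton.elim _ _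
      rw [← hA, ← hB] at hj
      rcases hAB with ⟨h6, h7⟩ | ⟨h6, h7⟩
      · rw [h6, h7] at hj
        exact hj
      · rw [h6, h7] at hj
        exact hj.symm
    refine ⟨⟨wp_monic _ _ _, wp_natDegree _ _ _, ?_, ?_⟩, ?_, ?_⟩
    · rw [wp, W521.Lower.weil_coeff_zero Q (mkPoly_monic 1 _), mkPoly_natDegree]
    · intro z hz
      rcases hroots z hz with h | h
      · rw [h]
        exact h2
      · rw [h]
        exact hnc
    · intro z hz
      rcases hroots z hz with h | h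
      · rw [h]
        exact h3
      · rw [h]
        exact hwc
    · obtain ⟨N, hN, h6⟩ := h5
      rw [hQ2] at h6
      simp only [Fin.prod_univ_two, Fin.sum_univ_two, Matrix.cons_val_zero, Matrix.cons_val_one]
        at h6
      rcases hAB with ⟨h7, h8⟩ | ⟨h7, h8⟩
      · refine ⟨fun _ => k, fun _ => l, ⟨0, h4⟩, N, hN, ?_⟩
        simp only [Fintype.prod_sum_type, Fintype.sum_sum_type, Sum.elim_inl, Sum.elim_inr,
          Fin.prod_univ_one, Fin.sum_univ_one]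
        rw [← hA, h7]
        exact h6
      · refine ⟨fun _ => -k, fun _ => l, ⟨0, neg_ne_zero.2 h4⟩, N, hN, ?_⟩
        simp only [Fintype.prod_sum_type, Fintype.sum_sum_type, Sum.elim_inl, Sum.elim_inr,
          Fin.prod_univ_one, Fin.sum_univ_one]
        rw [← hA, h7]
        have h9 : ((Q : ℂ) / γ) ^ (2 * -k) = (Q : ℂ) ^ (-(2 * k)) * γ ^ (2 * k) := by
          rw [div_zpow, mul_neg, zpow_neg γ, div_inv_eq_mul]
        have h10 : (Q : ℂ) ^ (-k + l) = (Q : ℂ) ^ (-(2 * k)) * (Q : ℂ) ^ (k + l) := by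
          rw [← zpow_add₀ hQc0]
          congr 1
          ring
        rw [h9, h10, mul_assoc, mul_pow, h6, ← mul_pow]
  have hinj : Function.Injective (fun (b : ℤ) => (fun _ : Fin 1 => -b)) := by
    intro b b' h
    have := congrFun h 0
    simpa using this
  have himg : (fun (b : ℤ) => (fun _ : Fin 1 => -b)) '' S ⊆ T := by
    rintro _ ⟨b, hb, rfl⟩
    exact hmap b hb
  have hSfin : S.Finite := by
    have := hTfin.subset himg
    exact Set.Finite.of_finite_image this hinj.injOn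
  refine ⟨hSfin, ?_⟩
  have h8 : S.ncard ≤ T.ncard := by
    rw [← Set.ncard_image_of_injective S hinj]
    exact Set.ncard_le_ncard himg hTfin
  have h9 := H p (2 * a) (by omega) (fun _ => ρ ^ 2) (fun _ => by
    rw [sq]
    exact hm p a D ρ ρ ha hD hρ hρ)
  have h10 : expo 1 = 0 := by decide
  rw [h10, pow_zero, mul_one] at h9
  calc (S.ncard : ℝ) ≤ (T.ncard : ℝ) := by exact_mod_cast h8
    _ ≤ C := h9

end Pool.Agent.H409.TFR3
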