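import Pool.Agent.H857.TF.Core

/-!
# Products of Weil numbers
-/

set_option autoImplicit false

namespace Pool.Agent.H176.TFr3m

open Module Polynomial Pool.Agent.W521.Descent Pool.Agent.W521.Density Pool.Agent.W521.Count
  Pool.Agent.X297.UB Pool.Agent.H857.PB Pool.Agent.H857.PA Pool.Agent.H857.HK Pool.Agent.H857.EF
  Pool.Agent.H857.WT Pool.Agent.H857.SG Pool.Agent.H857.PD Pool.Agent.H857.TF

/-- The roots of the minimal polynomial of a product of two integers are products of roots. -/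
theorem exists_roots {K : Type*} [Field K] [CharZero K] [IsAlgClosed K] {α β : ℂ} {F G : ℤ[X]}
    (hF : F.Monic) (hα : aeval α F = 0) (hG : G.Monic) (hβ : aeval β G = 0) {y : K}
    (hy : aeval y (minpoly ℤ (α * β)) = 0) :
    ∃ u v : K, aeval u F = 0 ∧ aeval v G = 0 ∧ y = u * v := by
  have hiα : IsIntegral ℤ α := ⟨F, hF, hα⟩
  have hiβ : IsIntegral ℤ β := ⟨G, hG, hβ⟩
  have hi : IsIntegral ℤ (α * β) := hiα.mul hiβ
  have hmem : ∀ x : ℂ, IsIntegral ℤ x → x ∈ algebraicClosure ℚ ℂ := by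
    intro x hx
    rw [mem_algebraicClosure_iff]
    exact (IsIntegral.tower_top (R := ℤ) hx).isAlgebraic
  let a : algebraicClosure ℚ ℂ := ⟨α, hmem α hiα⟩
  let b : algebraicClosure ℚ ℂ := ⟨β, hmem β hiβ⟩
  have hroot : ∀ (x : algebraicClosure ℚ ℂ) (f : ℤ[X]), aeval (x : ℂ) f = 0 → aeval x f = 0 := by
    intro x f h
    apply (algebraMap (algebraicClosure ℚ ℂ) ℂ).injective
    rw [map_zero]
    have h1 : algebraMap (algebraicClosure ℚ ℂ) ℂ (aeval x f) = aeval (x : ℂ) f := by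
      rw [aeval_def, Polynomial.hom_eval₂, aeval_def]
      congr 1
    rw [h1]
    exact h
  have hmin : aeval y (minpoly ℚ (a * b)) = 0 := by
    have h1 : minpoly ℚ (a * b) = minpoly ℚ (α * β) := by
      have := minpoly.algebraMap_eq (A := ℚ) (B := algebraicClosure ℚ ℂ) (B' := ℂ)
        (algebraMap (algebraicClosure ℚ ℂ) ℂ).injective (a * b)
      rw [← this]
      rfl
    rw [h1, minpoly.isIntegrallyClosed_eq_field_fractions' ℚ hi, aeval_map_algebraMap]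
    exact hy
  obtain ⟨φ, hφ⟩ := IntermediateField.exists_algHom_of_splits_of_aeval (F := ℚ)
    (E := algebraicClosure ℚ ℂ) (K := K)
    (fun s => ⟨(algebraicClosure.isAlgebraic ℚ ℂ).isAlgebraic s |>.isIntegral,
      IsAlgClosed.splits _⟩) hmin
  refine ⟨φ a, φ b, ?_, ?_, ?_⟩
  · exact aeval_hom φ.toRingHom (hroot a F hα)
  · exact aeval_hom φ.toRingHom (hroot b G hβ)
  · rw [← hφ, map_mul]

theorem r3m : R3m := by
  intro p hp a D α β ha hD hα hβ
  obtain ⟨F, hF, hFα, hFc, hFp⟩ := hα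
  obtain ⟨G, hG, hGβ, hGc, hGp⟩ := hβ
  have hi : IsIntegral ℤ (α * β) := IsIntegral.mul ⟨F, hF, hFα⟩ ⟨G, hG, hGβ⟩
  refine ⟨minpoly ℤ (α * β), minpoly.monic hi, minpoly.aeval _ _, ?_, ?_⟩
  · intro z hz
    obtain ⟨u, v, hu, hv, rfl⟩ := exists_roots hF hFα hG hGβ hz
    have h1 := hFc u hu
    have h2 := hGc v hv
    rw [norm_mul, mul_pow, h1, h2]
    ring
  · intro y hy
    obtain ⟨u, v, hu, hv, rfl⟩ := exists_roots hF hFα hG hGβ hy
    obtain ⟨r, hr⟩ := hFp u hu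
    obtain ⟨s, hs⟩ := hGp v hv
    refine ⟨r + s, ?_⟩
    rw [norm_mul, mul_pow, mul_comm 2 D, pow_mul, pow_mul, hr, hs]
    rw [show ((p : ℝ) ^ (2 * a))⁻¹ = (((p : ℝ) ^ a)⁻¹) ^ 2 by rw [mul_comm 2 a, pow_mul, inv_pow]]
    ring

end Pool.Agent.H176.TFr3m
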