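import Pool.Agent.H857.TF.Core

/-! Project ExoticThreefolds of helper857, task R4. -/

set_option autoImplicit false

namespace Pool.Agent.H627.TFR4

open Module Polynomial Pool.Agent.W521.Frob Pool.Agent.W521.Descent Pool.Agent.W521.Density
  Pool.Agent.W521.Count Pool.Agent.X297.UB Pool.Agent.H857.PB Pool.Agent.H857.PA
  Pool.Agent.H857.HK Pool.Agent.H857.EF Pool.Agent.H857.WT Pool.Agent.H857.SG
  Pool.Agent.H857.PD Pool.Agent.H857.TF

theorem weil_mul (q : ℕ) {h h' : ℤ[X]} (hm : h.Monic) (hm' : h'.Monic) :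
    weil q (h * h') = weil q h * weil q h' := by
  apply Polynomial.map_injective (Int.castRingHom ℂ) (RingHom.injective_int (Int.castRingHom ℂ))
  have key : ∀ α : ℂ, α ≠ 0 → aeval α (weil q (h * h')) = aeval α (weil q h * weil q h') := by
    intro α hα
    have hθ : α ^ 2 + q = ((α ^ 2 + q) / α) * α := by rw [div_mul_cancel₀ _ hα]
    rw [map_mul, aeval_weil q (h * h') α _ hθ, aeval_weil q h α _ hθ, aeval_weil q h' α _ hθ,
      map_mul, hm.natDegree_mul hm', pow_add]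
    ring
  refine Polynomial.eq_of_infinite_eval_eq _ _ ?_
  refine Set.Infinite.mono (s := {α : ℂ | α ≠ 0}) (fun α hα => ?_) ?_
  · have h1 := key α hα
    rw [aeval_def, aeval_def, eval₂_eq_eval_map, eval₂_eq_eval_map] at h1
    exact h1
  · exact (Set.finite_singleton (0 : ℂ)).infinite_compl

/-- a reducible real polynomial of degree two splits into linear factors -/
theorem split2 {q : ℕ} {z : Fin 2 → ℤ} (hz : wp q 2 z ∈ weilPolys q 2)
    (hirr : ¬ Irreducible (mkPoly 2 z)) : ∃ u v : Fin 1 → ℤ,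
    wp q 2 z = wp q 1 u * wp q 1 v ∧ wp q 1 u ∈ weilPolys q 1 ∧ wp q 1 v ∈ weilPolys q 1 := by
  obtain ⟨P, hP⟩ : ∃ P, P = mkPoly 2 z := ⟨_, rfl⟩
  have hPm : P.Monic := by rw [hP]; exact mkPoly_monic 2 z
  have hPd : P.natDegree = 2 := by rw [hP]; exact mkPoly_natDegree 2 z
  have hP1 : P ≠ 1 := by
    intro h
    rw [h, natDegree_one] at hPd
    omega
  rw [← hP, hPm.irreducible_iff_natDegree] at hirr
  have hex : ∃ f g : ℤ[X], f.Monic ∧ g.Monic ∧ f * g = P ∧ f.natDegree ≠ 0 ∧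
      g.natDegree ≠ 0 := by
    by_contra hno
    refine hirr ⟨hP1, fun f g hf hg hfg => ?_⟩
    by_contra h0
    rw [not_or] at h0
    exact hno ⟨f, g, hf, hg, hfg, h0.1, h0.2⟩
  obtain ⟨u, v, hu, hv, huv, hf0, hg0⟩ := hex
  have hdeg : u.natDegree + v.natDegree = 2 := by
    rw [← hu.natDegree_mul hv, huv, hPd]
  have hua : u.natDegree = 1 := by omega
  have hvb : v.natDegree = 1 := by omega
  have hw : wp q 2 z = weil q u * weil q v := by
    unfold wp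
    rw [← hP, ← huv, weil_mul q hu hv]
  refine ⟨fun k => u.coeff k, fun k => v.coeff k, ?_, ?_, ?_⟩
  · rw [hw]
    unfold wp
    rw [eq_mkPoly hu hua, eq_mkPoly hv hvb]
  · unfold wp
    rw [eq_mkPoly hu hua]
    refine ⟨weil_monic q hu, by rw [weil_natDegree q hu, hua], ?_, fun w hw' => ?_⟩
    · rw [Pool.Agent.W521.Lower.weil_coeff_zero q hu, hua]
    · refine hz.2.2.2 w ?_
      rw [hw, map_mul, hw', zero_mul]
  · unfold wp
    rw [eq_mkPoly hv hvb]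
    refine ⟨weil_monic q hv, by rw [weil_natDegree q hv, hvb], ?_, fun w hw' => ?_⟩
    · rw [Pool.Agent.W521.Lower.weil_coeff_zero q hv, hvb]
    · refine hz.2.2.2 w ?_
      rw [hw, map_mul, hw', mul_zero]

/-- **R4**: the reducible polynomials with exotic relations in dimension three. -/
theorem r4 (h8 : P8a) (h5 : R5) (h6 : R6) : R4 := by
  obtain ⟨C₁, hC₁, H₁⟩ := h5
  obtain ⟨C₂, hC₂, H₂⟩ := h6
  refine ⟨C₁ + C₂, by positivity, fun p _ a ha => ?_⟩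
  have hp0 : p ≠ 0 := (Fact.out : p.Prime).ne_zero
  have hq0 : p ^ a ≠ 0 := pow_ne_zero _ hp0
  have hq : 0 < p ^ a := Nat.pos_of_ne_zero hq0
  obtain ⟨A, hA⟩ : ∃ A : Set ℤ[X], A = {f ∈ newtonWeil p a 3 | ExL (p ^ a) f ∧
    ∃ x y z : Fin 1 → ℤ, f = wp (p ^ a) 1 x * wp (p ^ a) 1 y * wp (p ^ a) 1 z ∧
      wp (p ^ a) 1 x ∈ weilPolys (p ^ a) 1 ∧ wp (p ^ a) 1 y ∈ weilPolys (p ^ a) 1 ∧
      wp (p ^ a) 1 z ∈ weilPolys (p ^ a) 1} := ⟨_, rfl⟩
  obtain ⟨B, hB⟩ : ∃ B : Set ℤ[X], B = {f ∈ newtonWeil p a 3 | ExL (p ^ a) f ∧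
    ∃ (y : Fin 1 → ℤ) (z : Fin 2 → ℤ), f = wp (p ^ a) 1 y * wp (p ^ a) 2 z ∧
      wp (p ^ a) 1 y ∈ weilPolys (p ^ a) 1 ∧ wp (p ^ a) 2 z ∈ weilPolys (p ^ a) 2 ∧
      Irreducible (mkPoly 2 z)} := ⟨_, rfl⟩
  have hA1 : (A.ncard : ℝ) ≤ C₁ * (p : ℝ) ^ a := by rw [hA]; exact H₁ p a ha
  have hB1 : (B.ncard : ℝ) ≤ C₂ * (p : ℝ) ^ a := by rw [hB]; exact H₂ p a ha
  have hAf : A.Finite := by rw [hA]; exact newtonWeil_finite.subset fun f hf => hf.1
  have hBf : B.Finite := by rw [hB]; exact newtonWeil_finite.subset fun f hf => hf.1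
  have hsub : {f ∈ newtonWeil p a 3 | ¬ Irreducible f ∧ ExL (p ^ a) f} ⊆ A ∪ B := by
    rintro f ⟨hf, hirr, hex⟩
    obtain ⟨x, hx, -⟩ := exists_point hq0 hf.1
    have hx' : f = wp (p ^ a) 3 x := hx
    have hfw : wp (p ^ a) 3 x ∈ weilPolys (p ^ a) 3 := hx' ▸ hf.1
    obtain ⟨n, m, y, z, hn, hnm, hs, he, hy, hz⟩ :=
      h8 (p ^ a) 3 hq le_rfl x hfw (by rw [← hx']; exact hirr)
    obtain rfl : n = 1 := by omega
    obtain rfl : m = 2 := by omega
    by_cases hzi : Irreducible (mkPoly 2 z)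
    · right
      rw [hB]
      exact ⟨hf, hex, y, z, hx'.trans he, hy, hz, hzi⟩
    · left
      obtain ⟨u, v, huv, hu, hv⟩ := split2 hz hzi
      rw [hA]
      exact ⟨hf, hex, y, u, v, by rw [hx', he, huv, mul_assoc], hy, hu, hv⟩
  have h1 : ({f ∈ newtonWeil p a 3 | ¬ Irreducible f ∧ ExL (p ^ a) f}.ncard : ℝ) ≤
      ((A ∪ B).ncard : ℝ) := by
    exact_mod_cast Set.ncard_le_ncard hsub (hAf.union hBf)
  have h2 : ((A ∪ B).ncard : ℝ) ≤ (A.ncard : ℝ) + (B.ncard : ℝ) := by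
    exact_mod_cast Set.ncard_union_le A B
  linarith

end Pool.Agent.H627.TFR4
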