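import Pool.Agent.H857.TF.Core

/-!
# R5: three linear factors
-/

set_option autoImplicit false

namespace Pool.Agent.H597.TFr5

open Module Polynomial Pool.Agent.W521.Descent Pool.Agent.W521.Density Pool.Agent.W521.Count
  Pool.Agent.X297.UB Pool.Agent.H857.PB Pool.Agent.H857.PA Pool.Agent.H857.HK Pool.Agent.H857.EF
  Pool.Agent.H857.WT Pool.Agent.H857.SG Pool.Agent.H857.PD Pool.Agent.H857.TF

/-- the set of S7 -/
def TS (p : ℕ) [Fact p.Prime] (a D g : ℕ) {κ : Type} [Fintype κ] (ρ : κ → ℂ) :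
    Set (Fin g → ℤ) :=
  {y : Fin g → ℤ | wp (p ^ a) g y ∈ weilPolys (p ^ a) g ∧
      (∀ z : ℂ, aeval z (wp (p ^ a) g y) = 0 → IsWeilNum p a D 1 z) ∧
      ∃ (e : Fin g → ℤ) (e' : κ → ℤ), (∃ j, e j ≠ 0) ∧
        RelZ (p ^ a) (Sum.elim (labA (p ^ a) g y) ρ) (Sum.elim e e')}

lemma TS_finite (p : ℕ) [hp : Fact p.Prime] (a D g : ℕ) {κ : Type} [Fintype κ] (ρ : κ → ℂ) :
    (TS p a D g ρ).Finite := by
  refine (Finset.finite_toSet (Fintype.piFinset (box (p ^ a) g))).subset ?_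
  rintro y ⟨h1, -⟩
  exact mem_box (pow_ne_zero _ hp.out.ne_zero) h1

lemma union_bound {A B E : Type} (Y : Finset A) (T : A → Set B) (hfin : ∀ y, (T y).Finite)
    (F : A → B → E) {b : ℝ} (hb : ∀ y ∈ Y, ((T y).ncard : ℝ) ≤ b) :
    {f : E | ∃ y ∈ Y, ∃ z ∈ T y, f = F y z}.Finite ∧
      ({f : E | ∃ y ∈ Y, ∃ z ∈ T y, f = F y z}.ncard : ℝ) ≤ Y.card * b := by
  classical
  have h0 : {f : E | ∃ y ∈ Y, ∃ z ∈ T y, f = F y z} = ⋃ y ∈ Y, F y '' T y := by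
    ext f
    simp only [Set.mem_ofPred_eq, Set.mem_iUnion, Set.mem_image, exists_prop]
    constructor
    · rintro ⟨y, hy, z, hz, rfl⟩
      exact ⟨y, hy, z, hz, rfl⟩
    · rintro ⟨y, hy, z, hz, rfl⟩
      exact ⟨y, hy, z, hz, rfl⟩
  rw [h0]
  refine ⟨Y.finite_toSet.biUnion fun y _ => (hfin y).image _, ?_⟩
  have h1 : ((⋃ y ∈ Y, F y '' T y).ncard : ℝ) ≤ ∑ y ∈ Y, ((F y '' T y).ncard : ℝ) := by
    exact_mod_cast Finset.set_ncard_biUnion_le Y (fun y => F y '' T y)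
  refine h1.trans ?_
  have h2 : ∑ y ∈ Y, ((F y '' T y).ncard : ℝ) ≤ ∑ _y ∈ Y, b := by
    refine Finset.sum_le_sum fun y hy => le_trans ?_ (hb y hy)
    exact_mod_cast Set.ncard_image_le (hfin y)
  refine h2.trans ?_
  rw [Finset.sum_const, nsmul_eq_mul]

lemma rel_three {q : ℕ} {u v w : Fin 1 → ℤ} {b c d : ℤ}
    (h : ∃ N : ℕ, 0 < N ∧ (labA q 1 w 0 ^ (2 * d) * (labA q 1 u 0 ^ (2 * b) *
      labA q 1 v 0 ^ (2 * c))) ^ N = ((q : ℂ) ^ (d + (b + c))) ^ N) :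
    RelZ q (Sum.elim (labA q 1 w) ![labA q 1 u 0, labA q 1 v 0])
      (Sum.elim (fun _ => d) ![b, c]) := by
  obtain ⟨N, hN, h1⟩ := h
  refine ⟨N, hN, ?_⟩
  rw [Fintype.prod_sum_type, Fintype.sum_sum_type]
  simp only [Sum.elim_inl, Sum.elim_inr, Fin.prod_univ_one, Fin.sum_univ_one, Fin.prod_univ_two,
    Fin.sum_univ_two, Matrix.cons_val_zero, Matrix.cons_val_one]
  exact h1

theorem r5 (h3 : S3) (h7 : S7) : R5 := by
  obtain ⟨DD, hDD⟩ : ∃ DD : ℕ, DD = (2 * 3).factorial := ⟨_, rfl⟩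
  have hDD0 : 0 < DD := by rw [hDD]; exact Nat.factorial_pos _
  obtain ⟨C1, hC1, hT1⟩ := h7 1 one_pos (Fin 2) DD hDD0
  refine ⟨144 * C1, by positivity, fun p hp a ha => ?_⟩
  classical
  set q : ℕ := p ^ a with hq
  have hq1 : 1 < q := Nat.one_lt_pow ha.ne' hp.out.one_lt
  have hq0 : q ≠ 0 := by omega
  have hqR : (q : ℝ) = (p : ℝ) ^ a := by rw [hq]; push_cast; rfl
  set s : ℝ := Real.sqrt ((p : ℝ) ^ a) with hs
  have hs2 : s ^ 2 = (p : ℝ) ^ a := Real.sq_sqrt (by positivity)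
  -- the family
  set Y1 : Finset (Fin 1 → ℤ) := (Fintype.piFinset (box q 1)).filter fun y =>
    ∀ k, IsWeilNum p a DD 1 (labA q 1 y k) with hY1
  obtain ⟨hA1, hA2⟩ := union_bound (Y1 ×ˢ Y1)
    (fun y => TS p a DD 1 ![labA q 1 y.1 0, labA q 1 y.2 0])
    (fun y => TS_finite p a _ 1 _) (fun y z => wp q 1 y.1 * wp q 1 y.2 * wp q 1 z)
    (b := C1 * s ^ expo 1) (fun y hy => by
      refine hT1 p a ha _ ?_
      rw [Finset.mem_product, hY1, Finset.mem_filter, Finset.mem_filter] at hy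
      intro k
      fin_cases k
      · exact hy.1.2 0
      · exact hy.2.2 0)
  have hsub : {f ∈ newtonWeil p a 3 | ExL (p ^ a) f ∧ ∃ x y z : Fin 1 → ℤ,
      f = wp (p ^ a) 1 x * wp (p ^ a) 1 y * wp (p ^ a) 1 z ∧
      wp (p ^ a) 1 x ∈ weilPolys (p ^ a) 1 ∧ wp (p ^ a) 1 y ∈ weilPolys (p ^ a) 1 ∧
      wp (p ^ a) 1 z ∈ weilPolys (p ^ a) 1} ⊆
      {f : ℤ[X] | ∃ y ∈ Y1 ×ˢ Y1, ∃ z ∈ TS p a DD 1 ![labA q 1 y.1 0, labA q 1 y.2 0],
        f = wp q 1 y.1 * wp q 1 y.2 * wp q 1 z} := by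
    rintro f ⟨hf, hE, x, y, z, hfxyz, hx, hy, hz⟩
    rw [← hq] at hfxyz hx hy hz hE
    have hroot : ∀ w : ℂ, aeval w f = 0 → IsWeilNum p a DD 1 w := by
      intro w hw
      rw [hDD]
      exact isWeilNum_of_root ha hf hw
    have fin : ∀ (u v w : Fin 1 → ℤ) (b c d : ℤ), wp q 1 u ∈ weilPolys q 1 →
        wp q 1 v ∈ weilPolys q 1 → wp q 1 w ∈ weilPolys q 1 →
        f = wp q 1 u * wp q 1 v * wp q 1 w → d ≠ 0 →
        (∃ N : ℕ, 0 < N ∧ (labA q 1 w 0 ^ (2 * d) * (labA q 1 u 0 ^ (2 * b) *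
          labA q 1 v 0 ^ (2 * c))) ^ N = ((q : ℂ) ^ (d + (b + c))) ^ N) →
        ∃ y ∈ Y1 ×ˢ Y1, ∃ z ∈ TS p a DD 1 ![labA q 1 y.1 0, labA q 1 y.2 0],
          f = wp q 1 y.1 * wp q 1 y.2 * wp q 1 z := by
      intro u v w b c d hu hv hw hfe hd hrel
      have hru : ∀ t : ℂ, aeval t (wp q 1 u) = 0 → aeval t f = 0 := by
        intro t ht
        rw [hfe, map_mul, map_mul, ht, zero_mul, zero_mul]
      have hrv : ∀ t : ℂ, aeval t (wp q 1 v) = 0 → aeval t f = 0 := by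
        intro t ht
        rw [hfe, map_mul, map_mul, ht, mul_zero, zero_mul]
      have hrw : ∀ t : ℂ, aeval t (wp q 1 w) = 0 → aeval t f = 0 := by
        intro t ht
        rw [hfe, map_mul, ht, mul_zero]
      refine ⟨(u, v), ?_, w, ⟨hw, fun t ht => hroot t (hrw t ht), fun _ => d, ![b, c], ⟨0, hd⟩,
        rel_three hrel⟩, hfe⟩
      rw [Finset.mem_product, hY1, Finset.mem_filter, Finset.mem_filter]
      exact ⟨⟨mem_box hq0 hu, fun k => hroot _ (hru _ ((lab_root hq0 u _).2 ⟨k, Or.inl rfl⟩))⟩,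
        ⟨mem_box hq0 hv, fun k => hroot _ (hrv _ ((lab_root hq0 v _).2 ⟨k, Or.inl rfl⟩))⟩⟩
    obtain ⟨L, hL0, hLr, hLN, hLp⟩ := hE
    have hn : ∀ u : Fin 1 → ℤ, wp q 1 u ∈ weilPolys q 1 → ‖labA q 1 u 0‖ ^ 2 = (q : ℝ) :=
      fun u hu => hu.2.2.2 _ ((lab_root hq0 u _).2 ⟨0, Or.inl rfl⟩)
    have hpos : (0 : ℝ) < (q : ℝ) := by exact_mod_cast Nat.pos_of_ne_zero hq0
    have hne : ∀ {w : ℂ}, ‖w‖ ^ 2 = (q : ℝ) → w ≠ 0 := by
      rintro w hw rfl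
      rw [norm_zero, zero_pow two_ne_zero] at hw
      exact hpos.ne hw
    have hlab : ∀ u : Fin 1 → ℤ, wp q 1 u ∈ weilPolys q 1 → ∀ w : ℂ, aeval w (wp q 1 u) = 0 →
        w = labA q 1 u 0 ∨ w = (q : ℂ) / labA q 1 u 0 := by
      intro u hu w hw
      obtain ⟨j, hj⟩ := (lab_root hq0 u w).1 hw
      have hj0 : j = 0 := Subsingleton.elim _ _
      rw [hj0] at hj
      rcases hj with hj | hj
      · exact Or.inl hj
      · right
        rw [hj, eq_div_iff (hne (hn u hu)), mul_comm]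
        exact lab_mul q 1 u 0
    obtain ⟨e, ⟨i, hi⟩, ⟨N, hN, hrel⟩, -, -, -⟩ := h3 (Fin 3) q hq1
      ![labA q 1 x 0, labA q 1 y 0, labA q 1 z 0]
      (by
        intro i
        fin_cases i
        · exact hn x hx
        · exact hn y hy
        · exact hn z hz) L hL0 (by
        intro w hw
        have h1 := hLr w hw
        rw [hfxyz, map_mul, map_mul, mul_eq_zero, mul_eq_zero] at h1
        rcases h1 with (h1 | h1) | h1
        · exact ⟨0, hlab x hx w h1⟩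
        · exact ⟨1, hlab y hy w h1⟩
        · exact ⟨2, hlab z hz w h1⟩) hLN hLp
    rw [Fin.prod_univ_three, Fin.sum_univ_three] at hrel
    simp only [Matrix.cons_val_zero, Matrix.cons_val_one, Matrix.cons_val] at hrel
    have hi3 : i = 0 ∨ i = 1 ∨ i = 2 := by fin_cases i <;> simp
    rcases hi3 with rfl | rfl | rfl
    · refine fin y z x (e 1) (e 2) (e 0) hy hz hx (by rw [hfxyz]; ring) hi ⟨N, hN, ?_⟩
      rw [← mul_assoc, hrel, add_assoc]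
    · refine fin x z y (e 0) (e 2) (e 1) hx hz hy (by rw [hfxyz]; ring) hi ⟨N, hN, ?_⟩
      rw [← mul_assoc, mul_comm (labA q 1 y 0 ^ (2 * e 1)), hrel]
      congr 2
      ring
    · refine fin x y z (e 0) (e 1) (e 2) hx hy hz hfxyz hi ⟨N, hN, ?_⟩
      rw [mul_comm (labA q 1 z 0 ^ (2 * e 2)), hrel]
      congr 2
      ring
  have hncard := Set.ncard_le_ncard hsub hA1
  have hncard' : ({f ∈ newtonWeil p a 3 | ExL (p ^ a) f ∧ ∃ x y z : Fin 1 → ℤ,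
      f = wp (p ^ a) 1 x * wp (p ^ a) 1 y * wp (p ^ a) 1 z ∧
      wp (p ^ a) 1 x ∈ weilPolys (p ^ a) 1 ∧ wp (p ^ a) 1 y ∈ weilPolys (p ^ a) 1 ∧
      wp (p ^ a) 1 z ∈ weilPolys (p ^ a) 1}.ncard : ℝ) ≤ ((Y1 ×ˢ Y1).card : ℝ) *
      (C1 * s ^ expo 1) := by
    refine le_trans ?_ hA2
    exact_mod_cast hncard
  refine hncard'.trans ?_
  have e1 : expo 1 = 0 := by unfold expo; norm_num
  have hc1 : (Y1.card : ℝ) ≤ 12 * s := by
    have h1 := card_all_box (q := q) (g := 1) (by omega)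
    have h2 : (Y1.card : ℝ) ≤ ((Fintype.piFinset (box q 1)).card : ℝ) := by
      exact_mod_cast Finset.card_filter_le _ _
    have h3 : tot 1 = 1 := rfl
    rw [h3, pow_one, pow_one, pow_one, hqR] at h1
    refine h2.trans (h1.trans (le_of_eq ?_))
    rw [← hs]; norm_num
  rw [e1, pow_zero, mul_one, Finset.card_product]
  push_cast
  have hs0 : 0 ≤ s := Real.sqrt_nonneg _
  calc (Y1.card : ℝ) * Y1.card * C1 ≤ (12 * s) * (12 * s) * C1 := by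
        refine mul_le_mul_of_nonneg_right ?_ hC1.le
        exact mul_le_mul hc1 hc1 (Nat.cast_nonneg _) (by positivity)
    _ = 144 * C1 * s ^ 2 := by ring
    _ = 144 * C1 * (p : ℝ) ^ a := by rw [hs2]

end Pool.Agent.H597.TFr5
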