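import Pool.Agent.H857.TF.Core

/-!
# R6: Weil polynomials of degree six with exotic relations, with a linear and an irreducible
quadratic factor
-/

set_option autoImplicit false

namespace Pool.Agent.H874.TFr6

open Module Polynomial Pool.Agent.W521.Descent Pool.Agent.W521.Density Pool.Agent.W521.Count
  Pool.Agent.X297.UB Pool.Agent.H857.PB Pool.Agent.H857.PA Pool.Agent.H857.HK Pool.Agent.H857.EF
  Pool.Agent.H857.WT Pool.Agent.H857.SG Pool.Agent.H857.PD Pool.Agent.H857.TF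

lemma union_bound {A B E : Type} (Y : Finset A) (T : A → Set B) (hfin : ∀ y ∈ Y, (T y).Finite)
    (F : A → B → E) {b : ℝ} (hb : ∀ y ∈ Y, ((T y).ncard : ℝ) ≤ b) :
    {f : E | ∃ y ∈ Y, ∃ z ∈ T y, f = F y z}.Finite ∧
      ({f : E | ∃ y ∈ Y, ∃ z ∈ T y, f = F y z}.ncard : ℝ) ≤ Y.card * b := by
  classical
  have h0 : {f : E | ∃ y ∈ Y, ∃ z ∈ T y, f = F y z} = ⋃ y ∈ Y, F y '' T y := by
    ext f
    simp only [Set.mem_ofPred_eq, Set.mem_iUnion, Set.mem_image, exists_prop]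
    constructor
    · rintro ⟨y, hy, z, hz, rfl⟩
      exact ⟨y, hy, z, hz, rfl⟩
    · rintro ⟨y, hy, z, hz, rfl⟩
      exact ⟨y, hy, z, hz, rfl⟩
  rw [h0]
  refine ⟨Y.finite_toSet.biUnion fun y hy => (hfin y hy).image _, ?_⟩
  have h1 : ((⋃ y ∈ Y, F y '' T y).ncard : ℝ) ≤ ∑ y ∈ Y, ((F y '' T y).ncard : ℝ) := by
    exact_mod_cast Finset.set_ncard_biUnion_le Y (fun y => F y '' T y)
  refine h1.trans ?_
  have h2 : ∑ y ∈ Y, ((F y '' T y).ncard : ℝ) ≤ ∑ _y ∈ Y, b := by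
    refine Finset.sum_le_sum fun y hy => le_trans ?_ (hb y hy)
    exact_mod_cast Set.ncard_image_le (hfin y hy)
  refine h2.trans ?_
  rw [Finset.sum_const, nsmul_eq_mul]

/-- the exponents for a product -/
lemma key {p : ℕ} [hp : Fact p.Prime] {a : ℕ} (h3 : S3) (ha : 0 < a) {f : ℤ[X]}
    {y : Fin 1 → ℤ} {z : Fin 2 → ℤ} (hf : f = wp (p ^ a) 1 y * wp (p ^ a) 2 z)
    (hy : wp (p ^ a) 1 y ∈ weilPolys (p ^ a) 1) (hz : wp (p ^ a) 2 z ∈ weilPolys (p ^ a) 2)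
    (hE : ExL (p ^ a) f) :
    ∃ e : Fin 1 ⊕ Fin 2 → ℤ, (∃ i, e i ≠ 0) ∧ RelZ (p ^ a) (lab3 (p ^ a) y z) e ∧
      Even (∑ i, e i) ∧
      (∀ i j, i ≠ j → e i ≠ 0 → e j ≠ 0 → ¬ RelZ (p ^ a) (lab3 (p ^ a) y z)
        (Pi.single i (e i).sign + Pi.single j (e j).sign)) ∧
      ∀ i, 2 ≤ |e i| → ¬ RelZ (p ^ a) (lab3 (p ^ a) y z) (Pi.single i 1) := by
  have hq1 : 1 < p ^ a := Nat.one_lt_pow ha.ne' hp.out.one_lt
  have hq0 : p ^ a ≠ 0 := by omega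
  obtain ⟨L, hL0, hLr, hLN, hLp⟩ := hE
  have hn1 : ∀ j, ‖labA (p ^ a) 1 y j‖ ^ 2 = ((p ^ a : ℕ) : ℝ) := fun j =>
    hy.2.2.2 _ ((lab_root hq0 y _).2 ⟨j, Or.inl rfl⟩)
  have hn2 : ∀ j, ‖labA (p ^ a) 2 z j‖ ^ 2 = ((p ^ a : ℕ) : ℝ) := fun j =>
    hz.2.2.2 _ ((lab_root hq0 z _).2 ⟨j, Or.inl rfl⟩)
  have hpos : (0 : ℝ) < ((p ^ a : ℕ) : ℝ) := by exact_mod_cast Nat.pos_of_ne_zero hq0
  have hne : ∀ {w : ℂ}, ‖w‖ ^ 2 = ((p ^ a : ℕ) : ℝ) → w ≠ 0 := by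
    rintro w hw rfl
    rw [norm_zero, zero_pow two_ne_zero] at hw
    exact hpos.ne hw
  have hB : ∀ {g : ℕ} (x : Fin g → ℤ) (j : Fin g), labA (p ^ a) g x j ≠ 0 →
      labB (p ^ a) g x j = ((p ^ a : ℕ) : ℂ) / labA (p ^ a) g x j := by
    intro g x j h
    rw [eq_div_iff h, mul_comm]
    exact lab_mul (p ^ a) g x j
  exact h3 (Fin 1 ⊕ Fin 2) (p ^ a) hq1 (lab3 (p ^ a) y z)
    (by
      unfold lab3
      rintro (j | j)
      exacts [hn1 j, hn2 j]) L hL0 (by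
      intro w hw
      have h1 := hLr w hw
      rw [hf, map_mul, mul_eq_zero] at h1
      rcases h1 with h1 | h1
      · obtain ⟨j, hj⟩ := (lab_root hq0 y w).1 h1
        refine ⟨Sum.inl j, ?_⟩
        unfold lab3
        rw [Sum.elim_inl, ← hB y j (hne (hn1 j))]
        exact hj
      · obtain ⟨j, hj⟩ := (lab_root hq0 z w).1 h1
        refine ⟨Sum.inr j, ?_⟩
        unfold lab3
        rw [Sum.elim_inr, ← hB z j (hne (hn2 j))]
        exact hj) hLN hLp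

/-- the set of R3 -/
def BS (p : ℕ) [Fact p.Prime] (a D : ℕ) (ρ : ℂ) : Set ℤ :=
  {b : ℤ | ∃ (γ : ℂ) (k l : ℤ), γ + (p ^ a : ℂ) ^ 2 / γ = b ∧ ‖γ‖ ^ 2 = ((p : ℝ) ^ a) ^ 2 ∧
      IsWeilNum p (2 * a) (2 * D) 1 γ ∧ k ≠ 0 ∧ RelZ ((p ^ a) ^ 2) ![γ, ρ ^ 2] ![k, l]}

/-- the coefficients determined by `b` and `z 1` -/
noncomputable def gm (q : ℕ) (x : ℂ × ℤ) : Fin 2 → ℤ :=
  ![⌊((q : ℂ) * (x.2 : ℂ) ^ 2 / (x.1 + 2 * q) - 2 * q + x.1).re⌋, x.2]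

/-- the set of the numbers `b` -/
def BC (p : ℕ) [Fact p.Prime] (a D m : ℕ) (ρ : ℂ) : Set ℂ :=
  ((fun b : ℤ => (b : ℂ)) '' BS p a D ρ) ∪
    ((fun ζ : ℂ => ((p ^ a : ℕ) : ℂ) * (ζ + ζ⁻¹)) '' {ζ | ζ ^ m = 1})

/-- the set of the quadratic factors -/
def TT (p : ℕ) [Fact p.Prime] (a D m : ℕ) (ρ : ℂ) : Set (Fin 2 → ℤ) :=
  (gm (p ^ a) '' (BC p a D m ρ ×ˢ ((box (p ^ a) 2 1 : Finset ℤ) : Set ℤ))) ∪
    (fun b : ℤ => ![-b - 2 * ((p ^ a : ℕ) : ℤ), 0]) '' BS p a D ρ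

lemma rou_card {m : ℕ} (hm : 0 < m) : {ζ : ℂ | ζ ^ m = 1}.Finite ∧
    {ζ : ℂ | ζ ^ m = 1}.ncard ≤ m := by
  classical
  have h1 : {ζ : ℂ | ζ ^ m = 1} = ((nthRootsFinset m (1 : ℂ) : Finset ℂ) : Set ℂ) := by
    ext ζ
    rw [Finset.mem_coe, mem_nthRootsFinset hm]
    rfl
  rw [h1]
  refine ⟨Finset.finite_toSet _, ?_⟩
  rw [Set.ncard_coe_finset]
  unfold nthRootsFinset
  exact (Multiset.toFinset_card_le _).trans (card_nthRoots m 1)

lemma TT_card {p : ℕ} [hp : Fact p.Prime] {a D m : ℕ} (hm : 0 < m) {ρ : ℂ} {C : ℝ}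
    (h1 : (BS p a D ρ).Finite) (h2 : ((BS p a D ρ).ncard : ℝ) ≤ C) :
    (TT p a D m ρ).Finite ∧
      ((TT p a D m ρ).ncard : ℝ) ≤ (C + m) * (48 * Real.sqrt ((p : ℝ) ^ a)) + C := by
  obtain ⟨r1, r2⟩ := rou_card hm
  have hq0 : 0 < p ^ a := pow_pos hp.out.pos _
  have hBCf : (BC p a D m ρ).Finite := (h1.image _).union (r1.image _)
  have hBCc : ((BC p a D m ρ).ncard : ℝ) ≤ C + m := by
    have e1 : (BC p a D m ρ).ncard ≤ (BS p a D ρ).ncard + m := by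
      unfold BC
      refine (Set.ncard_union_le _ _).trans (add_le_add (Set.ncard_image_le h1) ?_)
      exact (Set.ncard_image_le r1).trans r2
    have e2 : ((BC p a D m ρ).ncard : ℝ) ≤ (BS p a D ρ).ncard + m := by exact_mod_cast e1
    linarith
  have hprod : (BC p a D m ρ ×ˢ ((box (p ^ a) 2 1 : Finset ℤ) : Set ℤ)).Finite :=
    hBCf.prod (Finset.finite_toSet _)
  refine ⟨(hprod.image _).union (h1.image _), ?_⟩
  have hbox : ((box (p ^ a) 2 1).card : ℝ) ≤ 48 * Real.sqrt ((p : ℝ) ^ a) := by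
    have e1 := card_box (q := p ^ a) (g := 2) hq0 1
    have e2 : Real.sqrt ((p ^ a : ℕ) : ℝ) ^ (2 - ((1 : Fin 2) : ℕ)) =
        Real.sqrt ((p : ℝ) ^ a) := by
      have e3 : 2 - ((1 : Fin 2) : ℕ) = 1 := rfl
      rw [e3, pow_one]
      push_cast
      rfl
    rw [e2] at e1
    refine e1.trans (le_of_eq ?_)
    norm_num
  have e1 : (TT p a D m ρ).ncard ≤ (BC p a D m ρ).ncard * (box (p ^ a) 2 1).card +
      (BS p a D ρ).ncard := by
    unfold TT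
    refine (Set.ncard_union_le _ _).trans (add_le_add ?_ (Set.ncard_image_le h1))
    refine (Set.ncard_image_le hprod).trans ?_
    rw [Set.ncard_prod, Set.ncard_coe_finset]
  have e2 : ((TT p a D m ρ).ncard : ℝ) ≤ (BC p a D m ρ).ncard * (box (p ^ a) 2 1).card +
      (BS p a D ρ).ncard := by exact_mod_cast e1
  refine e2.trans (add_le_add ?_ h2)
  exact mul_le_mul hBCc hbox (Nat.cast_nonneg _) ((Nat.cast_nonneg _).trans hBCc)

lemma gm_mem {q : ℕ} {z : Fin 2 → ℤ} {b : ℂ} (hb : b + 2 * q ≠ 0)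
    (h : (q : ℂ) * (z 1 : ℂ) ^ 2 = (2 * q + z 0 - b) * (b + 2 * q)) : gm q (b, z 1) = z := by
  have h1 : (q : ℂ) * (z 1 : ℂ) ^ 2 / (b + 2 * q) - 2 * q + b = (z 0 : ℂ) := by
    rw [h, mul_div_cancel_right₀ _ hb]
    ring
  have h2 : (((z 0 : ℤ) : ℂ)).re = ((z 0 : ℤ) : ℝ) := Complex.intCast_re _
  funext i
  fin_cases i
  · change ⌊((q : ℂ) * (z 1 : ℂ) ^ 2 / (b + 2 * q) - 2 * q + b).re⌋ = z 0
    rw [h1, h2, Int.floor_intCast]
  · rfl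

lemma hp2 (q : ℕ) (z : Fin 2 → ℤ) :
    (z 1 : ℂ) = -(labA q 2 z 0 + labB q 2 z 0 + (labA q 2 z 1 + labB q 2 z 1)) ∧
    (z 0 : ℂ) = (labA q 2 z 0 + labB q 2 z 0) * (labA q 2 z 1 + labB q 2 z 1) := by
  have h1 := lab_hp q 2 z
  rw [hp_eq_map, map_mkPoly] at h1
  rw [Fin.prod_univ_two] at h1
  have h2 : mkPoly 2 (fun i => (algebraMap ℤ ℂ) (z i)) =
      X ^ 2 + C (z 1 : ℂ) * X + C (z 0 : ℂ) := by
    unfold mkPoly
    rw [Fin.sum_univ_two]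
    simp
    ring
  have h3 : X ^ 2 + C (z 1 : ℂ) * X + C (z 0 : ℂ) =
      (X - C (labA q 2 z 0 + labB q 2 z 0)) * (X - C (labA q 2 z 1 + labB q 2 z 1)) :=
    h2.symm.trans h1
  have e0 := congrArg (eval 0) h3
  have e1 := congrArg (eval 1) h3
  simp only [eval_add, eval_mul, eval_sub, eval_pow, eval_X, eval_C] at e0 e1
  constructor
  · linear_combination e1 - e0
  · linear_combination e0

theorem r6 (h3 : S3) (h1 : R1) (h2 : R2) (hm : R3m) (h3' : R3) (h7 : B7a) : R6 := by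
  obtain ⟨m, hmk⟩ := h7 2
  obtain ⟨D, hD⟩ : ∃ D : ℕ, D = (2 * 3).factorial := ⟨_, rfl⟩
  have hD0 : 0 < D := by rw [hD]; exact Nat.factorial_pos _
  obtain ⟨C3, hC3, hT⟩ := h3' D hD0
  refine ⟨12 * (48 * (C3 + m) + C3), by positivity, fun p hp a ha => ?_⟩
  classical
  obtain ⟨q, hq⟩ : ∃ q : ℕ, q = p ^ a := ⟨_, rfl⟩
  have hq1 : 1 < q := by rw [hq]; exact Nat.one_lt_pow ha.ne' hp.out.one_lt
  have hq0 : q ≠ 0 := by omega
  have hqR : (q : ℝ) = (p : ℝ) ^ a := by rw [hq]; push_cast; rfl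
  have hqC : (q : ℂ) = (p : ℂ) ^ a := by rw [hq]; push_cast; rfl
  have hqC0 : (q : ℂ) ≠ 0 := by exact_mod_cast hq0
  obtain ⟨s, hs⟩ : ∃ s : ℝ, s = Real.sqrt ((p : ℝ) ^ a) := ⟨_, rfl⟩
  have hs1 : (1 : ℝ) ≤ s := by
    rw [hs, Real.one_le_sqrt, ← hqR]
    exact_mod_cast hq1.le
  have hss : s * s = (p : ℝ) ^ a := by
    rw [hs]
    exact Real.mul_self_sqrt (by rw [← hqR]; positivity)
  set Y : Finset (Fin 1 → ℤ) := (Fintype.piFinset (box q 1)).filter fun y =>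
    IsWeilNum p a D 1 (labA q 1 y 0) with hY
  have hTT : ∀ y ∈ Y, (TT p a D m (labA q 1 y 0)).Finite ∧
      ((TT p a D m (labA q 1 y 0)).ncard : ℝ) ≤ (C3 + m) * (48 * s) + C3 := by
    intro y hy
    rw [hY, Finset.mem_filter] at hy
    obtain ⟨f1, f2⟩ := hT p a ha (labA q 1 y 0) hy.2
    rw [hs]
    exact TT_card hmk.1 f1 f2
  obtain ⟨hA1, hA2⟩ := union_bound Y (fun y => TT p a D m (labA q 1 y 0))
    (fun y hy => (hTT y hy).1) (fun y z => wp q 1 y * wp q 2 z) (fun y hy => (hTT y hy).2)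
  have hsub : {f ∈ newtonWeil p a 3 | ExL (p ^ a) f ∧ ∃ (y : Fin 1 → ℤ) (z : Fin 2 → ℤ),
      f = wp (p ^ a) 1 y * wp (p ^ a) 2 z ∧ wp (p ^ a) 1 y ∈ weilPolys (p ^ a) 1 ∧
      wp (p ^ a) 2 z ∈ weilPolys (p ^ a) 2 ∧ Irreducible (mkPoly 2 z)} ⊆
      {f : ℤ[X] | ∃ y ∈ Y, ∃ z ∈ TT p a D m (labA q 1 y 0), f = wp q 1 y * wp q 2 z} := by
    rintro f ⟨hf, hE, y, z, hfyz, hy, hz, hirr⟩
    have hroot : ∀ w : ℂ, aeval w f = 0 → IsWeilNum p a D 1 w := by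
      intro w hw
      rw [hD]
      exact isWeilNum_of_root ha hf hw
    obtain ⟨e, he0, heR, heE, heP, he2⟩ := key h3 ha hfyz hy hz hE
    rw [← hq] at hfyz hy hz heR heP he2
    have hry : ∀ w : ℂ, aeval w (wp q 1 y) = 0 → aeval w f = 0 := by
      intro w hw
      rw [hfyz, map_mul, hw, zero_mul]
    have hrz : ∀ w : ℂ, aeval w (wp q 2 z) = 0 → aeval w f = 0 := by
      intro w hw
      rw [hfyz, map_mul, hw, mul_zero]
    have hA : ∀ j, aeval (labA q 2 z j) (wp q 2 z) = 0 := fun j =>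
      (lab_root hq0 z _).2 ⟨j, Or.inl rfl⟩
    have hB : ∀ j, aeval (labB q 2 z j) (wp q 2 z) = 0 := fun j =>
      (lab_root hq0 z _).2 ⟨j, Or.inr rfl⟩
    have hyW : IsWeilNum p a D 1 (labA q 1 y 0) :=
      hroot _ (hry _ ((lab_root hq0 y _).2 ⟨0, Or.inl rfl⟩))
    have hpos : (0 : ℝ) < (q : ℝ) := by exact_mod_cast Nat.pos_of_ne_zero hq0
    have hne : ∀ {w : ℂ}, ‖w‖ ^ 2 = (q : ℝ) → w ≠ 0 := by
      rintro w hw rfl
      rw [norm_zero, zero_pow two_ne_zero] at hw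
      exact hpos.ne hw
    have hnA : ∀ j, ‖labA q 2 z j‖ ^ 2 = (q : ℝ) := fun j => hz.2.2.2 _ (hA j)
    have hlB : ∀ j, (q : ℂ) / labA q 2 z j = labB q 2 z j := by
      intro j
      rw [div_eq_iff (hne (hnA j)), mul_comm]
      exact (lab_mul q 2 z j).symm
    have hyY : y ∈ Y := by
      rw [hY, Finset.mem_filter]
      exact ⟨mem_box hq0 hy, hyW⟩
    have hz1 : z 1 ∈ ((box (p ^ a) 2 1 : Finset ℤ) : Set ℤ) := by
      rw [← hq]
      exact Finset.mem_coe.2 (Fintype.mem_piFinset.1 (mem_box hq0 hz) 1)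
    refine ⟨y, hyY, z, ?_, hfyz⟩
    obtain ⟨β, hβ, hcase⟩ := h2 q m y z e hq1 hmk hy hz hirr he0 heR heE heP he2
    have hid := h1 q z β (by omega) hz hβ
    have hβr : aeval β (wp q 2 z) = 0 := by
      rcases hβ with h | h
      · rw [h]; exact hA 1
      · rw [h, hlB]; exact hB 1
    have hβn : ‖β‖ ^ 2 = (q : ℝ) := hz.2.2.2 _ hβr
    have hβ0 : β ≠ 0 := hne hβn
    have hW0 : IsWeilNum p a D 1 (labA q 2 z 0) := hroot _ (hrz _ (hA 0))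
    have hWβ : IsWeilNum p a D 1 β := hroot _ (hrz _ hβr)
    have hg0 : labA q 2 z 0 ≠ 0 := hne (hnA 0)
    rcases hcase with ⟨b, k, l, hb, hbe, hk, hrel⟩ | ⟨ζ, hζ, hζ1, hζe⟩ | ⟨hz10, k, l, hk, hrel⟩
    · left
      rw [hbe] at hid
      have hbq : (b : ℂ) + 2 * (q : ℂ) ≠ 0 := by
        intro h0
        apply hb
        have h4 : ((b + 2 * (q : ℤ) : ℤ) : ℂ) = 0 := by push_cast; exact h0
        have h5 : b + 2 * (q : ℤ) = 0 := by exact_mod_cast h4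
        omega
      refine ⟨((b : ℂ), z 1), ⟨Or.inl ⟨b, ?_, rfl⟩, hz1⟩, ?_⟩
      · refine ⟨labA q 2 z 0 * β, k, l, ?_, ?_, hm p a D _ _ ha hD0 hW0 hWβ, hk, ?_⟩
        · rw [← hqC]
          exact hbe
        · rw [norm_mul, mul_pow, hnA, hβn, ← hqR]
          ring
        · rw [← hq]
          exact hrel
      · rw [← hq]
        exact gm_mem hbq hid
    · left
      have hζ0 : ζ ≠ 0 := by
        rintro rfl
        rw [zero_pow hmk.1.ne'] at hζ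
        exact zero_ne_one hζ
      have hbe : labA q 2 z 0 * β + (q : ℂ) ^ 2 / (labA q 2 z 0 * β) = (q : ℂ) * (ζ + ζ⁻¹) := by
        rw [hζe]
        field_simp
      rw [hbe] at hid
      have hbq : (q : ℂ) * (ζ + ζ⁻¹) + 2 * (q : ℂ) ≠ 0 := by
        have h4 : (q : ℂ) * (ζ + ζ⁻¹) + 2 * (q : ℂ) = (q : ℂ) * (ζ + 1) ^ 2 / ζ := by
          field_simp
          ring
        rw [h4]
        refine div_ne_zero (mul_ne_zero hqC0 (pow_ne_zero 2 ?_)) hζ0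
        intro h5
        exact hζ1 (eq_neg_of_add_eq_zero_left h5)
      refine ⟨((q : ℂ) * (ζ + ζ⁻¹), z 1), ⟨Or.inr ⟨ζ, hζ, ?_⟩, hz1⟩, ?_⟩
      · rw [← hq]
      · rw [← hq]
        exact gm_mem hbq hid
    · right
      obtain ⟨g1, g0⟩ := hp2 q z
      rw [hz10, Int.cast_zero] at g1
      have hAB0 := lab_mul q 2 z 0
      refine ⟨-(z 0) - 2 * (q : ℤ), ⟨labA q 2 z 0 ^ 2, k, l, ?_, ?_, ?_, hk, ?_⟩, ?_⟩
      · rw [← hqC]
        have h4 : (q : ℂ) ^ 2 / labA q 2 z 0 ^ 2 = labB q 2 z 0 ^ 2 := by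
          rw [← hlB, div_pow]
        rw [h4]
        push_cast
        linear_combination g0 + (labA q 2 z 0 + labB q 2 z 0) * g1 - 2 * hAB0
      · rw [norm_pow, hnA, ← hqR]
      · have h5 := hm p a D _ _ ha hD0 hW0 hW0
        rw [← pow_two] at h5
        exact h5
      · rw [← hq]
        exact hrel
      · rw [← hq]
        funext i
        fin_cases i
        · change -(-(z 0) - 2 * (q : ℤ)) - 2 * (q : ℤ) = z 0
          ring
        · exact hz10.symm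
  have hncard : ({f ∈ newtonWeil p a 3 | ExL (p ^ a) f ∧ ∃ (y : Fin 1 → ℤ) (z : Fin 2 → ℤ),
      f = wp (p ^ a) 1 y * wp (p ^ a) 2 z ∧ wp (p ^ a) 1 y ∈ weilPolys (p ^ a) 1 ∧
      wp (p ^ a) 2 z ∈ weilPolys (p ^ a) 2 ∧ Irreducible (mkPoly 2 z)}.ncard : ℝ) ≤
      ({f : ℤ[X] | ∃ y ∈ Y, ∃ z ∈ TT p a D m (labA q 1 y 0),
        f = wp q 1 y * wp q 2 z}.ncard : ℝ) := by
    exact_mod_cast Set.ncard_le_ncard hsub hA1
  refine hncard.trans (hA2.trans ?_)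
  have hc1 : (Y.card : ℝ) ≤ 12 * s := by
    have h1 := card_all_box (q := q) (g := 1) (by omega)
    have h2 : (Y.card : ℝ) ≤ ((Fintype.piFinset (box q 1)).card : ℝ) := by
      exact_mod_cast Finset.card_filter_le _ _
    have h3 : tot 1 = 1 := rfl
    rw [h3, pow_one, pow_one, pow_one, hqR] at h1
    refine h2.trans (h1.trans (le_of_eq ?_))
    rw [← hs]; norm_num
  have hs0 : 0 ≤ s := by linarith
  calc (Y.card : ℝ) * ((C3 + m) * (48 * s) + C3) ≤ (12 * s) * ((C3 + m) * (48 * s) + C3) :=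
        mul_le_mul_of_nonneg_right hc1 (by positivity)
    _ = 12 * (48 * (C3 + m)) * (s * s) + 12 * C3 * s := by ring
    _ ≤ 12 * (48 * (C3 + m)) * (s * s) + 12 * C3 * (s * s) := by
        have h5 : s ≤ s * s := by nlinarith
        have h6 : 12 * C3 * s ≤ 12 * C3 * (s * s) := mul_le_mul_of_nonneg_left h5 (by positivity)
        linarith
    _ = 12 * (48 * (C3 + m) + C3) * (p : ℝ) ^ a := by rw [hss]; ring

end Pool.Agent.H874.TFr6
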