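import Pool.Agent.H857.TF.Core

/-!
# The Weil polynomials among the `F t A n` (helper729 for helper857)
-/

set_option autoImplicit false

namespace Pool.Agent.H729.TFT1

open Module Polynomial Pool.Agent.W521.Descent Pool.Agent.W521.Density Pool.Agent.W521.Count
  Pool.Agent.X297.UB Pool.Agent.H857.PB Pool.Agent.H857.PA Pool.Agent.H857.HK Pool.Agent.H857.EF
  Pool.Agent.H857.WT Pool.Agent.H857.SG Pool.Agent.H857.PD Pool.Agent.H857.TF

theorem exists_sqrt (a : ℂ) : ∃ d : ℂ, d * d = a := by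
  obtain ⟨d, hd⟩ := IsAlgClosed.exists_eq_mul_self a
  exact ⟨d, hd.symm⟩

/-- the roots of a cubic -/
theorem cubic (a b c : ℂ) : ∃ x y z : ℂ, x + y + z = -a ∧ x * y + y * z + z * x = b ∧
    x * y * z = -c := by
  obtain ⟨P, hP⟩ : ∃ P : ℂ[X], P = X ^ 3 + C a * X ^ 2 + C b * X + C c := ⟨_, rfl⟩
  have hdeg : P.degree = 3 := by
    rw [hP]
    compute_degree!
  obtain ⟨x, hx⟩ := IsAlgClosed.exists_root P (by rw [hdeg]; decide)
  have h1 : x ^ 3 + a * x ^ 2 + b * x + c = 0 := by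
    rw [IsRoot.def, hP] at hx
    simpa using hx
  obtain ⟨d, hd⟩ := exists_sqrt ((-a - x) ^ 2 - 4 * (b + a * x + x ^ 2))
  refine ⟨x, (-a - x + d) / 2, (-a - x - d) / 2, by ring, ?_, ?_⟩
  · linear_combination (-1 / 4) * hd
  · linear_combination (-x / 4) * hd + h1

theorem aeval_F (t A n : ℤ) (z : ℂ) : aeval z (F t A n) = z ^ 6 + A * z ^ 5 +
    (n + t * A) * z ^ 4 + t * (2 * t ^ 2 + A ^ 2 - 2 * n) * z ^ 3 +
    t ^ 2 * (n + t * A) * z ^ 2 + t ^ 4 * A * z +
    t ^ 6 := by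
  unfold F
  simp only [map_add, map_mul, map_pow, aeval_X, map_sub, map_ofNat, eq_intCast, map_intCast]

theorem monic_F (t A n : ℤ) : (F t A n).Monic := by
  unfold F
  monicity!

theorem natDegree_F (t A n : ℤ) : (F t A n).natDegree = 6 := by
  unfold F
  compute_degree!

theorem coeff_F (t A n : ℤ) : (F t A n).coeff 0 = t ^ 6 := by
  rw [coeff_zero_eq_eval_zero]
  unfold F
  simp

/-- a root of the real polynomial is real -/
theorem real_of {q : ℝ} {t A n θ : ℂ} (hq : 0 < q) (ht : t ^ 2 = q)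
    (hF : ∀ z : ℂ, z ^ 6 + A * z ^ 5 + (n + t * A) * z ^ 4 +
      t * (2 * t ^ 2 + A ^ 2 - 2 * n) * z ^ 3 + t ^ 2 * (n + t * A) * z ^ 2 + t ^ 4 * A * z +
      t ^ 6 = 0 → ‖z‖ ^ 2 = q)
    (hθ : θ ^ 3 + A * θ ^ 2 + (n + t * A - 3 * t ^ 2) * θ + (-2 * t ^ 2 * A + 2 * t ^ 3 +
      t * A ^ 2 - 2 * t * n) = 0) : ∃ x : ℝ, θ = x := by
  obtain ⟨d, hd⟩ := exists_sqrt (θ ^ 2 - 4 * t ^ 2)
  obtain ⟨z, hz⟩ : ∃ z : ℂ, z = (θ + d) / 2 := ⟨_, rfl⟩
  have e : θ * z = z ^ 2 + t ^ 2 := by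
    rw [hz]
    linear_combination (-1 / 4) * hd
  have hz1 := hF z (by
    linear_combination (-((θ * z) ^ 2 + θ * z * (z ^ 2 + t ^ 2) + (z ^ 2 + t ^ 2) ^ 2) -
      A * z * (θ * z + (z ^ 2 + t ^ 2)) - (n + t * A - 3 * t ^ 2) * z ^ 2) * e + z ^ 3 * hθ)
  have hz0 : z ≠ 0 := by
    intro h
    rw [h, norm_zero] at hz1
    norm_num at hz1
    linarith
  have hc : z * (starRingEnd ℂ) z = t ^ 2 := by
    rw [Complex.mul_conj, Complex.normSq_eq_norm_sq, hz1, ht]
  have h1 : θ = z + (starRingEnd ℂ) z := by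
    apply mul_right_cancel₀ hz0
    linear_combination e - hc
  exact ⟨2 * z.re, by rw [h1, Complex.add_conj]⟩

/-- a root of a quadratic factor -/
theorem norm_of {q θ : ℝ} {w : ℂ} (h : w ^ 2 - θ * w + q = 0) :
    (starRingEnd ℂ) w = w ∨ ‖w‖ ^ 2 = q := by
  have h1 : ((starRingEnd ℂ) w) ^ 2 - θ * (starRingEnd ℂ) w + q = 0 := by
    have h2 := congrArg (starRingEnd ℂ) h
    simpa using h2
  by_cases hw : (starRingEnd ℂ) w = w
  · exact Or.inl hw
  · right
    have h2 : (w - (starRingEnd ℂ) w) * (w + (starRingEnd ℂ) w - θ) = 0 := by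
      linear_combination h - h1
    have h3 : w + (starRingEnd ℂ) w - θ = 0 := by
      rcases mul_eq_zero.1 h2 with h4 | h4
      · exact absurd (sub_eq_zero.1 h4).symm hw
      · exact h4
    have h4 : w * (starRingEnd ℂ) w = q := by
      linear_combination w * h3 - h
    rw [Complex.mul_conj, Complex.normSq_eq_norm_sq] at h4
    exact_mod_cast h4

theorem t1 (h : T1a) : T1 := by
  intro s t A n hs ht hAn
  have hts : t ^ 2 = (s : ℤ) ^ 2 := by
    rcases ht with h1 | h1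
    · rw [h1]
    · rw [h1]
      ring
  have hs0 : (0 : ℝ) < (s : ℝ) ^ 2 := by
    have h1 : (0 : ℝ) < s := by exact_mod_cast hs
    positivity
  have htc : (t : ℂ) ^ 2 = (((s : ℝ) ^ 2 : ℝ) : ℂ) := by
    have h1 : ((t ^ 2 : ℤ) : ℂ) = (((s : ℤ) ^ 2 : ℤ) : ℂ) := by rw [hts]
    push_cast at h1 ⊢
    exact h1
  have htr : (t : ℝ) ^ 2 = (s : ℝ) ^ 2 := by
    have h1 : ((t ^ 2 : ℤ) : ℝ) = (((s : ℤ) ^ 2 : ℤ) : ℝ) := by rw [hts]
    push_cast at h1
    exact h1
  rw [h t A n hAn]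
  constructor
  · rintro ⟨-, -, -, hroot⟩
    have hF : ∀ z : ℂ, z ^ 6 + A * z ^ 5 + (n + t * A) * z ^ 4 +
        t * (2 * t ^ 2 + A ^ 2 - 2 * n) * z ^ 3 + t ^ 2 * (n + t * A) * z ^ 2 + t ^ 4 * A * z +
        t ^ 6 = 0 → ‖z‖ ^ 2 = (s : ℝ) ^ 2 := by
      intro z hz
      have h1 := hroot z (by rw [aeval_F]; exact hz)
      rw [h1]
      push_cast
      rfl
    obtain ⟨x, y, z, h1, h2, h3⟩ := cubic (A : ℂ) (n + t * A - 3 * t ^ 2)
      (-2 * t ^ 2 * A + 2 * t ^ 3 + t * A ^ 2 - 2 * t * n)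
    obtain ⟨x', hx⟩ := real_of (θ := x) hs0 htc hF (by
      linear_combination x ^ 2 * h1 - x * h2 + h3)
    obtain ⟨y', hy⟩ := real_of (θ := y) hs0 htc hF (by
      linear_combination y ^ 2 * h1 - y * h2 + h3)
    obtain ⟨z', hz⟩ := real_of (θ := z) hs0 htc hF (by
      linear_combination z ^ 2 * h1 - z * h2 + h3)
    rw [hx, hy, hz] at h1 h2 h3
    refine ⟨x', y', z', by exact_mod_cast h1, by exact_mod_cast h2, ?_⟩
    have h4 : x' * y' * z' = -(-2 * (t : ℝ) ^ 2 * A + 2 * t ^ 3 + t * A ^ 2 - 2 * t * n) := by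
      exact_mod_cast h3
    rw [h4]
    ring
  · rintro ⟨x, y, z, h1, h2, h3⟩
    refine ⟨monic_F t A n, natDegree_F t A n, ?_, ?_⟩
    · rw [coeff_F]
      push_cast
      have e : t ^ 6 = (t ^ 2) ^ 3 := by ring
      rw [e, hts]
    · intro w hw
      rw [aeval_F] at hw
      have c1 : (x : ℂ) + y + z = -A := by exact_mod_cast h1
      have c2 : (x : ℂ) * y + y * z + z * x = n + t * A - 3 * t ^ 2 := by exact_mod_cast h2
      have c3 : (x : ℂ) * y * z = 2 * t ^ 2 * A - 2 * t ^ 3 - t * A ^ 2 + 2 * t * n := by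
        exact_mod_cast h3
      have hprod : (w ^ 2 - x * w + (((s : ℝ) ^ 2 : ℝ) : ℂ)) *
          ((w ^ 2 - y * w + (((s : ℝ) ^ 2 : ℝ) : ℂ)) *
          (w ^ 2 - z * w + (((s : ℝ) ^ 2 : ℝ) : ℂ))) = 0 := by
        rw [← htc]
        linear_combination hw - w * (w ^ 2 + t ^ 2) ^ 2 * c1 +
          w ^ 2 * (w ^ 2 + t ^ 2) * c2 - w ^ 3 * c3
      have hgoal : (starRingEnd ℂ) w = w ∨ ‖w‖ ^ 2 = (s : ℝ) ^ 2 := by
        rcases mul_eq_zero.1 hprod with h4 | h4
        · exact norm_of h4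
        · rcases mul_eq_zero.1 h4 with h5 | h5
          · exact norm_of h5
          · exact norm_of h5
      rcases hgoal with h4 | h4
      · obtain ⟨r, hr⟩ := Complex.conj_eq_iff_real.1 h4
        rw [hr] at hw
        have h5 : r ^ 6 + A * r ^ 5 + (n + t * A) * r ^ 4 +
            t * (2 * t ^ 2 + A ^ 2 - 2 * n) * r ^ 3 + t ^ 2 * (n + t * A) * r ^ 2 + t ^ 4 * A * r +
            t ^ 6 = 0 := by exact_mod_cast hw
        have h6 : (2 * r ^ 3 + A * r ^ 2 + t * A * r + 2 * t ^ 3) ^ 2 +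
            (4 * (n : ℝ) - A ^ 2) * (r ^ 2 - t * r) ^ 2 = 0 := by
          linear_combination 4 * h5
        have h7 : 0 < 4 * (n : ℝ) - A ^ 2 := by
          have h8 : ((A ^ 2 : ℤ) : ℝ) < ((4 * n : ℤ) : ℝ) := by exact_mod_cast hAn
          push_cast at h8
          linarith
        have h8 : (r ^ 2 - t * r) ^ 2 = 0 := by
          have h9 : 0 ≤ (2 * r ^ 3 + A * r ^ 2 + t * A * r + 2 * t ^ 3) ^ 2 := sq_nonneg _
          have h10 : 0 ≤ (r ^ 2 - t * r) ^ 2 := sq_nonneg _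
          nlinarith
        have h9 : r * (r - t) = 0 := by
          have h10 := pow_eq_zero_iff (two_ne_zero) |>.1 h8
          linarith
        have h10 : r ≠ 0 := by
          intro h11
          rw [h11] at h5
          have h12 : (t : ℝ) ^ 6 = 0 := by linear_combination h5
          have h13 : (t : ℝ) ^ 6 = ((t : ℝ) ^ 2) ^ 3 := by ring
          rw [h13, htr] at h12
          exact absurd h12 (pow_ne_zero 3 hs0.ne')
        have h11 : r = t := by
          rcases mul_eq_zero.1 h9 with h12 | h12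
          · exact absurd h12 h10
          · linarith
        rw [hr, h11]
        push_cast
        rw [Complex.norm_intCast, sq_abs, htr]
      · rw [h4]
        push_cast
        rfl

end Pool.Agent.H729.TFT1
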