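import Pool.Agent.H857.TF.Core

/-!
# T10: few reducible ones (helper878, for helper857)
-/

set_option autoImplicit false

namespace Pool.Agent.H878.TF10

open Module Polynomial Pool.Agent.W521.Descent Pool.Agent.W521.Density Pool.Agent.W521.Count
  Pool.Agent.X297.UB Pool.Agent.H857.PB Pool.Agent.H857.PA Pool.Agent.H857.HK Pool.Agent.H857.EF
  Pool.Agent.H857.WT Pool.Agent.H857.SG Pool.Agent.H857.PD Pool.Agent.H857.TF

/-- the region, after the normalization -/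
theorem t10_reg {a u : ℝ} (h1 : a ^ 2 < 4 * u) (h2 : (u + 6 * a + 9) ^ 2 ≤ 4 * (a + 3) ^ 3) :
    -3 ≤ a ∧ a ≤ 6 ∧ 0 < u ∧ u ≤ 9 := by
  have h3 : -3 ≤ a := by
    by_contra hlt
    push Not at hlt
    have h4 : (a + 3) ^ 3 < 0 := by
      have : a + 3 < 0 := by linarith
      exact Odd.pow_neg (by decide) this
    nlinarith [sq_nonneg (u + 6 * a + 9)]
  obtain ⟨v, hv⟩ : ∃ v, v = Real.sqrt (a + 3) := ⟨_, rfl⟩
  have hv0 : 0 ≤ v := by rw [hv]; exact Real.sqrt_nonneg _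
  have hv2 : v ^ 2 = a + 3 := by rw [hv]; exact Real.sq_sqrt (by linarith)
  have ha : a = v ^ 2 - 3 := by linarith
  have h5 : u + 6 * a + 9 ≤ 2 * v ^ 3 := by
    have h6 : (u + 6 * a + 9) ^ 2 ≤ (2 * v ^ 3) ^ 2 := by
      calc (u + 6 * a + 9) ^ 2 ≤ 4 * (a + 3) ^ 3 := h2
        _ = (2 * v ^ 3) ^ 2 := by rw [← hv2]; ring
    exact (abs_le.1 (abs_le_of_sq_le_sq h6 (by positivity))).2
  have h7 : (v - 3) ^ 3 * (v + 1) < 0 := by
    have : (v - 3) ^ 3 * (v + 1) = (v ^ 2 - 3) ^ 2 - 4 * (2 * v ^ 3 - 6 * (v ^ 2 - 3) - 9) := by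
      ring
    rw [this, ← ha]
    linarith
  have h8 : v < 3 := by
    by_contra hge
    push Not at hge
    have : 0 ≤ (v - 3) ^ 3 * (v + 1) :=
      mul_nonneg (pow_nonneg (by linarith) 3) (by linarith)
    linarith
  refine ⟨h3, by nlinarith, by nlinarith [sq_nonneg a], ?_⟩
  have h9 : 2 * v ^ 2 * (v - 3) ≤ 0 :=
    mul_nonpos_of_nonneg_of_nonpos (by positivity) (by linarith)
  nlinarith

/-- the roots, after the normalization -/
theorem t10_rt {a u β : ℝ} (h3 : -3 ≤ a) (h4 : a ≤ 6) (h5 : 0 < u) (h6 : u ≤ 9)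
    (h : β ^ 3 + a * β ^ 2 + (u + a - 3) * β - 2 * a + 2 + a ^ 2 - 2 * u = 0) : |β| ≤ 9 := by
  by_contra hlt
  push Not at hlt
  have e1 : |a * β ^ 2| ≤ 6 * |β| ^ 2 := by
    rw [abs_mul, abs_pow]
    exact mul_le_mul_of_nonneg_right (abs_le.2 ⟨by linarith, h4⟩) (by positivity)
  have e2 : |(u + a - 3) * β| ≤ 12 * |β| := by
    rw [abs_mul]
    exact mul_le_mul_of_nonneg_right (abs_le.2 ⟨by linarith, by linarith⟩) (abs_nonneg _)
  have e3 : |a ^ 2 - 2 * a + 2 - 2 * u| ≤ 44 := by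
    refine abs_le.2 ⟨by nlinarith, by nlinarith⟩
  have e4 : |β| ^ 3 ≤ 6 * |β| ^ 2 + 12 * |β| + 44 := by
    have e5 : β ^ 3 = -(a * β ^ 2 + (u + a - 3) * β + (a ^ 2 - 2 * a + 2 - 2 * u)) := by
      linear_combination h
    rw [← abs_pow, e5, abs_neg]
    refine (abs_add_le _ _).trans (add_le_add ((abs_add_le _ _).trans (add_le_add e1 e2)) e3)
  obtain ⟨x, hx⟩ : ∃ x, x = |β| := ⟨_, rfl⟩
  rw [← hx] at e4 hlt
  nlinarith [mul_pos (sub_pos.2 hlt) (sub_pos.2 hlt),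
    mul_pos (mul_pos (sub_pos.2 hlt) (sub_pos.2 hlt)) (sub_pos.2 hlt)]

/-- the bounds -/
theorem t10_bound {s : ℕ} {t A n : ℤ} (hs : 0 < s) (ht : t = s ∨ t = -s) (hR : Reg t A n) :
    |A| ≤ 6 * s ∧ 0 < n ∧ n ≤ 9 * (s : ℤ) ^ 2 ∧ ∀ b, Rt t A n b → |b| ≤ 9 * s := by
  obtain ⟨h1, h2⟩ := hR
  have ht0 : (t : ℝ) ≠ 0 := by
    rcases ht with h | h
    · rw [h]; push_cast; positivity
    · rw [h]; push_cast
      have : (0 : ℝ) < s := by exact_mod_cast hs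
      exact neg_ne_zero.2 this.ne'
  have hta : |(t : ℝ)| = s := by
    rcases ht with h | h
    · rw [h]; push_cast; exact abs_of_nonneg (by positivity)
    · rw [h]; push_cast; rw [abs_neg]; exact abs_of_nonneg (by positivity)
  have ht2 : (t : ℝ) ^ 2 = (s : ℝ) ^ 2 := by rw [← hta, sq_abs]
  have ht2p : (0 : ℝ) < (t : ℝ) ^ 2 := by positivity
  obtain ⟨a, ha⟩ : ∃ a : ℝ, a = A / t := ⟨_, rfl⟩
  obtain ⟨u, hu⟩ : ∃ u : ℝ, u = n / (t : ℝ) ^ 2 := ⟨_, rfl⟩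
  have hA : (A : ℝ) = a * t := by rw [ha]; field_simp
  have hn : (n : ℝ) = u * (t : ℝ) ^ 2 := by rw [hu]; field_simp
  have h1' : (A : ℝ) ^ 2 < 4 * n := by exact_mod_cast h1
  have h2' : ((n : ℝ) + 6 * A * t + 9 * (t : ℝ) ^ 2) ^ 2 ≤ 4 * t * (A + 3 * t) ^ 3 := by
    exact_mod_cast h2
  rw [hA, hn] at h1' h2'
  have k1 : a ^ 2 < 4 * u := by
    have : (t : ℝ) ^ 2 * a ^ 2 < (t : ℝ) ^ 2 * (4 * u) := by nlinarith
    exact lt_of_mul_lt_mul_left this ht2p.le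
  have k2 : (u + 6 * a + 9) ^ 2 ≤ 4 * (a + 3) ^ 3 := by
    have e1 : (u * (t : ℝ) ^ 2 + 6 * (a * t) * t + 9 * (t : ℝ) ^ 2) ^ 2 =
        ((t : ℝ) ^ 2) ^ 2 * (u + 6 * a + 9) ^ 2 := by ring
    have e2 : 4 * (t : ℝ) * (a * t + 3 * t) ^ 3 = ((t : ℝ) ^ 2) ^ 2 * (4 * (a + 3) ^ 3) := by
      ring
    rw [e1, e2] at h2'
    exact le_of_mul_le_mul_left h2' (by positivity)
  obtain ⟨m1, m2, m3, m4⟩ := t10_reg k1 k2
  refine ⟨?_, ?_, ?_, fun b hb => ?_⟩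
  · have : |(A : ℝ)| ≤ 6 * s := by
      rw [hA, abs_mul, hta]
      exact mul_le_mul_of_nonneg_right (abs_le.2 ⟨by linarith, m2⟩) (by positivity)
    exact_mod_cast this
  · have : (0 : ℝ) < n := by rw [hn]; positivity
    exact_mod_cast this
  · have : (n : ℝ) ≤ 9 * (s : ℝ) ^ 2 := by
      rw [hn, ht2]
      exact mul_le_mul_of_nonneg_right m4 (by positivity)
    exact_mod_cast this
  · have hb' : (b : ℝ) ^ 3 + A * (b : ℝ) ^ 2 + (n + t * A - 3 * (t : ℝ) ^ 2) * b -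
        2 * (t : ℝ) ^ 2 * A + 2 * (t : ℝ) ^ 3 + t * (A : ℝ) ^ 2 - 2 * t * n = 0 := by
      exact_mod_cast hb
    obtain ⟨β, hβ⟩ : ∃ β : ℝ, β = b / t := ⟨_, rfl⟩
    have hb2 : (b : ℝ) = β * t := by rw [hβ]; field_simp
    rw [hA, hn, hb2] at hb'
    have e1 : (t : ℝ) ^ 3 * (β ^ 3 + a * β ^ 2 + (u + a - 3) * β - 2 * a + 2 + a ^ 2 - 2 * u) =
        0 := by
      rw [← hb']
      ring
    have e2 := (mul_eq_zero.1 e1).resolve_left (pow_ne_zero 3 ht0)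
    have e3 := t10_rt m1 m2 m3 m4 e2
    have : |(b : ℝ)| ≤ 9 * s := by
      rw [hb2, abs_mul, hta]
      exact mul_le_mul_of_nonneg_right e3 (by positivity)
    exact_mod_cast this

theorem t10 (_ : T1) : T10 := by
  classical
  refine ⟨257, by norm_num, fun s t hs ht => ?_⟩
  obtain ⟨G, hG⟩ : ∃ G : Finset (ℤ × ℤ), G =
      (Finset.Icc (-6 * (s : ℤ)) (6 * s) ×ˢ Finset.Icc (-9 * (s : ℤ)) (9 * s)).image
        (fun x => (x.1, -(x.2 ^ 3 + x.1 * x.2 ^ 2 + (t * x.1 - 3 * t ^ 2) * x.2 -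
          2 * t ^ 2 * x.1 + 2 * t ^ 3 + t * x.1 ^ 2) / (x.2 - 2 * t))) ∪
      (Finset.Icc (1 : ℤ) (9 * (s : ℤ) ^ 2)).image (fun n => (-2 * t, n)) := ⟨_, rfl⟩
  have ht0 : t ≠ 0 := by
    rcases ht with h | h
    · omega
    · omega
  have hsub : {x : ℤ × ℤ | Reg t x.1 x.2 ∧ ∃ b, Rt t x.1 x.2 b} ⊆ (G : Set (ℤ × ℤ)) := by
    rintro ⟨A, n⟩ ⟨hR, b, hb⟩
    obtain ⟨h1, h2, h3, h4⟩ := t10_bound hs ht hR
    have h5 := h4 b hb
    dsimp only at hb h1 h2 h3 h5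
    have hb' : b ^ 3 + A * b ^ 2 + (n + t * A - 3 * t ^ 2) * b - 2 * t ^ 2 * A + 2 * t ^ 3 +
      t * A ^ 2 - 2 * t * n = 0 := hb
    rw [Finset.mem_coe, hG, Finset.mem_union]
    by_cases hbt : b = 2 * t
    · right
      have h6 : t * (A + 2 * t) ^ 2 = 0 := by
        rw [← hb', hbt]
        ring
      have h7 := (mul_eq_zero.1 h6).resolve_left ht0
      have h8 : A + 2 * t = 0 := by
        exact pow_eq_zero_iff (two_ne_zero) |>.1 h7
      rw [Finset.mem_image]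
      refine ⟨n, Finset.mem_Icc.2 ⟨by omega, h3⟩, ?_⟩
      rw [Prod.mk.injEq]
      exact ⟨by linarith, rfl⟩
    · left
      rw [Finset.mem_image]
      refine ⟨(A, b), ?_, ?_⟩
      · rw [Finset.mem_product, Finset.mem_Icc, Finset.mem_Icc]
        rw [abs_le] at h1 h5
        dsimp only
        exact ⟨⟨by linarith, h1.2⟩, ⟨by linarith, h5.2⟩⟩
      · rw [Prod.mk.injEq]
        refine ⟨rfl, ?_⟩
        dsimp only
        have hne : b - 2 * t ≠ 0 := sub_ne_zero.2 hbt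
        rw [show -(b ^ 3 + A * b ^ 2 + (t * A - 3 * t ^ 2) * b - 2 * t ^ 2 * A + 2 * t ^ 3 +
          t * A ^ 2) = n * (b - 2 * t) by linear_combination -hb']
        exact Int.mul_ediv_cancel _ hne
  refine ⟨G.finite_toSet.subset hsub, ?_⟩
  have hcard : G.card ≤ (12 * s + 1) * (18 * s + 1) + 9 * s ^ 2 := by
    rw [hG]
    refine (Finset.card_union_le _ _).trans (add_le_add ?_ ?_)
    · refine Finset.card_image_le.trans ?_
      rw [Finset.card_product, Int.card_Icc, Int.card_Icc]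
      refine Nat.mul_le_mul ?_ ?_
      · omega
      · omega
    · refine Finset.card_image_le.trans ?_
      rw [Int.card_Icc]
      have : (9 * (s : ℤ) ^ 2 + 1 - 1).toNat = 9 * s ^ 2 := by
        have : 9 * (s : ℤ) ^ 2 + 1 - 1 = ((9 * s ^ 2 : ℕ) : ℤ) := by push_cast; ring
        rw [this, Int.toNat_natCast]
      rw [this]
  have h1 := (Set.ncard_le_ncard hsub G.finite_toSet).trans
    ((Set.ncard_coe_finset G).le.trans hcard)
  have h2 : (({x : ℤ × ℤ | Reg t x.1 x.2 ∧ ∃ b, Rt t x.1 x.2 b}.ncard : ℕ) : ℝ) ≤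
      (12 * s + 1) * (18 * s + 1) + 9 * (s : ℝ) ^ 2 := by
    exact_mod_cast h1
  have hs1 : (1 : ℝ) ≤ s := by exact_mod_cast hs
  refine h2.trans ?_
  nlinarith

end Pool.Agent.H878.TF10
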