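import Pool.Agent.H857.TF.Core

/-!
# T1a: a real cubic and its discriminant
-/

set_option autoImplicit false

namespace Pool.Agent.H42.TF1a

open Module Polynomial Pool.Agent.W521.Descent Pool.Agent.W521.Density Pool.Agent.W521.Count
  Pool.Agent.X297.UB Pool.Agent.H857.PB Pool.Agent.H857.PA Pool.Agent.H857.HK Pool.Agent.H857.EF
  Pool.Agent.H857.WT Pool.Agent.H857.SG Pool.Agent.H857.PD Pool.Agent.H857.TF

/-- a real cubic polynomial has a real root -/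
theorem exists_root (a b c : ℝ) : ∃ r : ℝ, r ^ 3 + a * r ^ 2 + b * r + c = 0 := by
  have hcont : Continuous fun r : ℝ => r ^ 3 + a * r ^ 2 + b * r + c := by fun_prop
  obtain ⟨s, hs⟩ : ∃ s : ℝ, s = |a| + |b| + |c| := ⟨_, rfl⟩
  have ha := abs_nonneg a
  have hb := abs_nonneg b
  have hc := abs_nonneg c
  have hs0 : 0 ≤ s := by rw [hs]; positivity
  have hM : 1 ≤ 1 + s := by linarith
  have h2 : (1 + s) ^ 2 ≥ 1 + s := by nlinarith
  have h3 : (1 + s) ^ 2 ≥ 1 := by nlinarith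
  have k1 : |a| * (1 + s) ^ 2 + |b| * (1 + s) + |c| ≤ s * (1 + s) ^ 2 := by
    rw [hs] at h2 h3 ⊢
    nlinarith [mul_le_mul_of_nonneg_left h2 hb, mul_le_mul_of_nonneg_left h3 hc]
  have hpos : 0 ≤ (1 + s) ^ 3 + a * (1 + s) ^ 2 + b * (1 + s) + c := by
    have l1 : -(|a| * (1 + s) ^ 2) ≤ a * (1 + s) ^ 2 := by
      nlinarith [neg_abs_le a, sq_nonneg (1 + s)]
    have l2 : -(|b| * (1 + s)) ≤ b * (1 + s) := by
      nlinarith [neg_abs_le b]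
    have l3 := neg_abs_le c
    nlinarith [sq_nonneg (1 + s)]
  have hneg : (-(1 + s)) ^ 3 + a * (-(1 + s)) ^ 2 + b * (-(1 + s)) + c ≤ 0 := by
    have l1 : a * (1 + s) ^ 2 ≤ |a| * (1 + s) ^ 2 := by
      nlinarith [le_abs_self a, sq_nonneg (1 + s)]
    have l2 : -(b * (1 + s)) ≤ |b| * (1 + s) := by
      nlinarith [neg_abs_le b]
    have l3 := le_abs_self c
    nlinarith [sq_nonneg (1 + s)]
  obtain ⟨r, hr⟩ := mem_range_of_exists_le_of_exists_ge hcont ⟨_, hneg⟩ ⟨_, hpos⟩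
  exact ⟨r, hr⟩

/-- real roots of a cubic polynomial with a nonnegative discriminant -/
theorem roots_of_disc {a b c : ℝ}
    (hd : 0 ≤ a ^ 2 * b ^ 2 - 4 * b ^ 3 - 4 * a ^ 3 * c + 18 * a * b * c - 27 * c ^ 2) :
    ∃ x y z : ℝ, x + y + z = -a ∧ x * y + y * z + z * x = b ∧ x * y * z = -c := by
  obtain ⟨r, hr⟩ := exists_root a b c
  obtain ⟨u, hu⟩ : ∃ u : ℝ, u = a + r := ⟨_, rfl⟩
  obtain ⟨v, hv⟩ : ∃ v : ℝ, v = b + r * u := ⟨_, rfl⟩
  have hc : c = -(r * v) := by rw [hv, hu]; linear_combination hr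
  have hb : b = v - r * u := by rw [hv]; ring
  have ha : a = u - r := by rw [hu]; ring
  have hdisc : a ^ 2 * b ^ 2 - 4 * b ^ 3 - 4 * a ^ 3 * c + 18 * a * b * c - 27 * c ^ 2 =
      (u ^ 2 - 4 * v) * (r ^ 2 + u * r + v) ^ 2 := by
    rw [hc, hb, ha]; ring
  rw [hdisc] at hd
  have key : ∃ y z : ℝ, y + z = -u ∧ y * z = v := by
    by_cases h0 : r ^ 2 + u * r + v = 0
    · exact ⟨r, -u - r, by ring, by linear_combination -h0⟩
    · have h1 : 0 < (r ^ 2 + u * r + v) ^ 2 := by positivity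
      have h2 : 0 ≤ u ^ 2 - 4 * v := nonneg_of_mul_nonneg_left hd h1
      refine ⟨(-u + Real.sqrt (u ^ 2 - 4 * v)) / 2, (-u - Real.sqrt (u ^ 2 - 4 * v)) / 2,
        by ring, ?_⟩
      have h3 := Real.mul_self_sqrt h2
      linear_combination (-1 / 4) * h3
  obtain ⟨y, z, hyz, hyz2⟩ := key
  refine ⟨r, y, z, ?_, ?_, ?_⟩
  · linear_combination hyz - hu
  · linear_combination r * hyz + hyz2 - hb
  · linear_combination r * hyz2 + hc

theorem t1a : T1a := by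
  intro t A n hA
  have hA' : (A : ℝ) ^ 2 < 4 * n := by exact_mod_cast hA
  have hring : ((A : ℝ) ^ 2 * (n + t * A - 3 * t ^ 2 : ℝ) ^ 2 - 4 * (n + t * A - 3 * t ^ 2 : ℝ) ^ 3 -
      4 * (A : ℝ) ^ 3 * (-(2 * t ^ 2 * A - 2 * t ^ 3 - t * A ^ 2 + 2 * t * n)) +
      18 * A * (n + t * A - 3 * t ^ 2 : ℝ) *
        (-(2 * t ^ 2 * A - 2 * t ^ 3 - t * A ^ 2 + 2 * t * n)) -
      27 * (-(2 * t ^ 2 * A - 2 * t ^ 3 - t * A ^ 2 + 2 * t * n : ℝ)) ^ 2) =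
      (4 * n - (A : ℝ) ^ 2) *
        (4 * t * (A + 3 * t) ^ 3 - (n + 6 * A * t + 9 * t ^ 2) ^ 2) := by
    ring
  constructor
  · rintro ⟨-, h⟩
    have h' : ((n : ℝ) + 6 * A * t + 9 * t ^ 2) ^ 2 ≤ 4 * t * (A + 3 * t) ^ 3 := by
      exact_mod_cast h
    have hd : 0 ≤ (4 * n - (A : ℝ) ^ 2) *
        (4 * t * (A + 3 * t) ^ 3 - (n + 6 * A * t + 9 * t ^ 2) ^ 2) :=
      mul_nonneg (by linarith) (by linarith)
    rw [← hring] at hd
    obtain ⟨x, y, z, h1, h2, h3⟩ := roots_of_disc hd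
    exact ⟨x, y, z, h1, h2, by rw [h3]; ring⟩
  · rintro ⟨x, y, z, h1, h2, h3⟩
    refine ⟨hA, ?_⟩
    have hd : ((A : ℝ) ^ 2 * (n + t * A - 3 * t ^ 2 : ℝ) ^ 2 -
        4 * (n + t * A - 3 * t ^ 2 : ℝ) ^ 3 -
        4 * (A : ℝ) ^ 3 * (-(2 * t ^ 2 * A - 2 * t ^ 3 - t * A ^ 2 + 2 * t * n)) +
        18 * A * (n + t * A - 3 * t ^ 2 : ℝ) *
          (-(2 * t ^ 2 * A - 2 * t ^ 3 - t * A ^ 2 + 2 * t * n)) -
        27 * (-(2 * t ^ 2 * A - 2 * t ^ 3 - t * A ^ 2 + 2 * t * n : ℝ)) ^ 2) =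
        ((x - y) * (y - z) * (z - x)) ^ 2 := by
      rw [← h3, ← h2, show (A : ℝ) = -(x + y + z) by rw [h1]; ring]
      ring
    rw [hring] at hd
    have h4 : 0 ≤ (4 * n - (A : ℝ) ^ 2) *
        (4 * t * (A + 3 * t) ^ 3 - (n + 6 * A * t + 9 * t ^ 2) ^ 2) := by
      rw [hd]; positivity
    have h5 := nonneg_of_mul_nonneg_right h4 (by linarith)
    have h6 : ((n : ℝ) + 6 * A * t + 9 * t ^ 2) ^ 2 ≤ 4 * t * (A + 3 * t) ^ 3 := by linarith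
    exact_mod_cast h6

end Pool.Agent.H42.TF1a
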