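import Pool.Agent.H857.TF.Core

/-!
# T2: counting (helper233 for helper857)
-/

set_option autoImplicit false

namespace Pool.Agent.H233.TFt2

open Module Polynomial Pool.Agent.W521.Descent Pool.Agent.W521.Density Pool.Agent.W521.Count
  Pool.Agent.X297.UB Pool.Agent.H857.PB Pool.Agent.H857.PA Pool.Agent.H857.HK Pool.Agent.H857.EF
  Pool.Agent.H857.WT Pool.Agent.H857.SG Pool.Agent.H857.PD Pool.Agent.H857.TF

theorem t2 (ha : T2a) (hb : T2b) : T2 := by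
  classical
  obtain ⟨Ca, hCa, ha⟩ := ha
  obtain ⟨Cb, hCb, hb⟩ := hb
  refine ⟨10 * Cb + Ca, by positivity, fun s m hs hm hms Ω k hk => ?_⟩
  have : NeZero m := ⟨hm.ne'⟩
  have hsR : (0 : ℝ) < s := by exact_mod_cast hs
  have hs1 : (1 : ℝ) ≤ s := by exact_mod_cast hs
  have hmR : (0 : ℝ) < m := by exact_mod_cast hm
  have hmsR : (m : ℝ) ≤ s := by exact_mod_cast hms
  -- `k ≤ m`
  have hkm : k ≤ m := by
    rw [← hk 0]
    have h1 := Set.ncard_le_ncard (Set.subset_univ (Ω 0)) (Set.toFinite _)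
    rwa [Set.ncard_univ, Nat.card_zmod] at h1
  have hkm1 : (k : ℝ) / m ≤ 1 := by
    rw [div_le_one hmR]
    exact_mod_cast hkm
  have hkm0 : 0 ≤ (k : ℝ) / m := by positivity
  -- the fibres
  have hfin : ∀ A : ℤ, {n : ℤ | Reg s A n ∧ (n : ZMod m) ∈ Ω A}.Finite := fun A =>
    (hb s m hs hm (Ω A) A).1
  set I : Finset ℤ := Finset.Icc (-3 * (s : ℤ)) (6 * s) with hI
  let t : ℤ → Finset (ℤ × ℤ) := fun A =>
    (hfin A).toFinset.map ⟨fun n => (A, n), fun a b h => (Prod.mk.inj h).2⟩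
  have hmem : ∀ (A : ℤ) (x : ℤ × ℤ), x ∈ t A ↔
      x.1 = A ∧ Reg s A x.2 ∧ (x.2 : ZMod m) ∈ Ω A := by
    intro A x
    simp only [t, Finset.mem_map, Set.Finite.mem_toFinset, Set.mem_ofPred_eq,
      Function.Embedding.coeFn_mk]
    constructor
    · rintro ⟨n, hn, rfl⟩
      exact ⟨rfl, hn⟩
    · rintro ⟨h1, h2⟩
      exact ⟨x.2, h2, Prod.ext h1.symm rfl⟩
  have hset : {x : ℤ × ℤ | Reg s x.1 x.2 ∧ (x.2 : ZMod m) ∈ Ω x.1} = ↑(I.biUnion t) := by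
    ext x
    rw [Finset.mem_coe, Finset.mem_biUnion, Set.mem_ofPred_eq]
    constructor
    · intro hx
      have h1 := (hb s m hs hm (Ω x.1) x.1).2.1 ⟨x.2, hx⟩
      exact ⟨x.1, Finset.mem_Icc.2 h1, (hmem _ _).2 ⟨rfl, hx⟩⟩
    · rintro ⟨A, _, hx⟩
      obtain ⟨rfl, h2⟩ := (hmem _ _).1 hx
      exact h2
  have hcard : (I.biUnion t).card =
      ∑ A ∈ I, {n : ℤ | Reg s A n ∧ (n : ZMod m) ∈ Ω A}.ncard := by
    rw [Finset.card_biUnion]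
    · refine Finset.sum_congr rfl fun A _ => ?_
      rw [Set.ncard_eq_toFinset_card _ (hfin A), Finset.card_map]
    · intro A _ A' _ hne
      refine Finset.disjoint_left.2 ?_
      intro x hx hx'
      exact hne (((hmem _ _).1 hx).1.symm.trans ((hmem _ _).1 hx').1)
  rw [hset]
  refine ⟨Finset.finite_toSet _, ?_⟩
  rw [Set.ncard_coe_finset, hcard]
  push_cast
  -- the estimates
  have h1 : |∑ A ∈ I, (({n : ℤ | Reg s A n ∧ (n : ZMod m) ∈ Ω A}.ncard : ℝ) -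
      ((k : ℝ) / m) * ((s : ℝ) ^ 2 * len (A / s)))| ≤ (9 * s + 1) * (Cb * m) := by
    refine (Finset.abs_sum_le_sum_abs _ _).trans ?_
    have h2 : ∀ A ∈ I, |({n : ℤ | Reg s A n ∧ (n : ZMod m) ∈ Ω A}.ncard : ℝ) -
        ((k : ℝ) / m) * ((s : ℝ) ^ 2 * len (A / s))| ≤ Cb * m := by
      intro A hA
      rw [hI, Finset.mem_Icc] at hA
      have h3 := (hb s m hs hm (Ω A) A).2.2 hA.1 hA.2
      rwa [hk A] at h3
    refine (Finset.sum_le_sum h2).trans ?_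
    rw [Finset.sum_const, nsmul_eq_mul, hI, Int.card_Icc]
    have h4 : (6 * (s : ℤ) + 1 - -3 * (s : ℤ)).toNat = 9 * s + 1 := by omega
    rw [h4]
    push_cast
    exact le_rfl
  have h2 := ha s hs
  rw [Finset.sum_sub_distrib, ← Finset.mul_sum] at h1
  set X : ℝ := ∑ A ∈ I, ({n : ℤ | Reg s A n ∧ (n : ZMod m) ∈ Ω A}.ncard : ℝ) with hX
  set Y : ℝ := ∑ A ∈ I, (s : ℝ) ^ 2 * len (A / s) with hY
  have h5 : X - 128 / 15 * ((k : ℝ) / m) * (s : ℝ) ^ 3 =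
      (X - ((k : ℝ) / m) * Y) + ((k : ℝ) / m) * (Y - 128 / 15 * (s : ℝ) ^ 3) := by ring
  rw [h5]
  have h6 : |((k : ℝ) / m) * (Y - 128 / 15 * (s : ℝ) ^ 3)| ≤ Ca * (s : ℝ) ^ 2 := by
    rw [abs_mul, abs_of_nonneg hkm0]
    calc (k : ℝ) / m * |Y - 128 / 15 * (s : ℝ) ^ 3| ≤ 1 * |Y - 128 / 15 * (s : ℝ) ^ 3| :=
          mul_le_mul_of_nonneg_right hkm1 (abs_nonneg _)
      _ ≤ _ := by
          rw [one_mul]
          exact h2
  have h7 : (9 * (s : ℝ) + 1) * (Cb * m) ≤ 10 * Cb * (s : ℝ) ^ 2 := by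
    have h8 : (9 * (s : ℝ) + 1) ≤ 10 * s := by linarith
    have h9 : Cb * m ≤ Cb * s := mul_le_mul_of_nonneg_left hmsR hCb.le
    calc (9 * (s : ℝ) + 1) * (Cb * m) ≤ (10 * s) * (Cb * s) :=
          mul_le_mul h8 h9 (by positivity) (by positivity)
      _ = 10 * Cb * (s : ℝ) ^ 2 := by ring
  calc |(X - ((k : ℝ) / m) * Y) + ((k : ℝ) / m) * (Y - 128 / 15 * (s : ℝ) ^ 3)|
      ≤ |X - ((k : ℝ) / m) * Y| + |((k : ℝ) / m) * (Y - 128 / 15 * (s : ℝ) ^ 3)| :=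
        abs_add_le _ _
    _ ≤ 10 * Cb * (s : ℝ) ^ 2 + Ca * (s : ℝ) ^ 2 := add_le_add (h1.trans h7) h6
    _ = (10 * Cb + Ca) * (s : ℝ) ^ 2 := by ring

end Pool.Agent.H233.TFt2
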