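import Pool.Agent.H857.TF.Core

/-!
# TF T2a: a Riemann sum (helper345)
-/

set_option autoImplicit false

namespace Pool.Agent.H345.TFT2a

open Module Polynomial Pool.Agent.W521.Descent Pool.Agent.W521.Density Pool.Agent.W521.Count
  Pool.Agent.X297.UB Pool.Agent.H857.PB Pool.Agent.H857.PA Pool.Agent.H857.HK Pool.Agent.H857.EF
  Pool.Agent.H857.WT Pool.Agent.H857.SG Pool.Agent.H857.PD Pool.Agent.H857.TF

/-- twice the antiderivative on the second interval -/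
noncomputable def Pf (x : ℝ) : ℝ := 27 / 2 * x ^ 2 - 9 / 2 * x ^ 4 + 8 / 5 * x ^ 5 - x ^ 6 / 6

theorem qbound (c d : ℝ) (hc : 0 ≤ c) (hd : 0 ≤ d) (hc3 : c ≤ 3) (hd3 : d ≤ 3) :
    0 ≤ (d - c) ^ 2 * (4 / 5 * d ^ 3 + 8 / 5 * c * d ^ 2 + 12 / 5 * c ^ 2 * d + 6 / 5 * c ^ 3) ∧
    (d - c) ^ 2 * (4 / 5 * d ^ 3 + 8 / 5 * c * d ^ 2 + 12 / 5 * c ^ 2 * d + 6 / 5 * c ^ 3) ≤
      36 / 5 * (d ^ 2 - c ^ 2) ^ 2 := by
  refine ⟨by positivity, ?_⟩
  have h1 : 4 / 5 * d ^ 3 + 8 / 5 * c * d ^ 2 + 12 / 5 * c ^ 2 * d + 6 / 5 * c ^ 3 ≤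
      6 / 5 * (c + d) * (c + d) ^ 2 := by
    have e : 6 / 5 * (c + d) * (c + d) ^ 2 =
        (4 / 5 * d ^ 3 + 8 / 5 * c * d ^ 2 + 12 / 5 * c ^ 2 * d + 6 / 5 * c ^ 3) +
          (2 / 5 * d ^ 3 + 2 * c * d ^ 2 + 6 / 5 * c ^ 2 * d) := by ring
    have : 0 ≤ 2 / 5 * d ^ 3 + 2 * c * d ^ 2 + 6 / 5 * c ^ 2 * d := by positivity
    linarith
  have h2 : 6 / 5 * (c + d) * (c + d) ^ 2 ≤ 36 / 5 * (c + d) ^ 2 := by
    have : 0 ≤ (c + d) ^ 2 := by positivity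
    nlinarith
  calc (d - c) ^ 2 * (4 / 5 * d ^ 3 + 8 / 5 * c * d ^ 2 + 12 / 5 * c ^ 2 * d + 6 / 5 * c ^ 3)
      ≤ (d - c) ^ 2 * (36 / 5 * (c + d) ^ 2) :=
        mul_le_mul_of_nonneg_left (h1.trans h2) (by positivity)
    _ = 36 / 5 * (d ^ 2 - c ^ 2) ^ 2 := by ring

theorem e1 (c d : ℝ) (hc : 0 ≤ c) (hd : 0 ≤ d) (hc3 : c ≤ 3) (hd3 : d ≤ 3) :
    |8 / 5 * d ^ 5 - 8 / 5 * c ^ 5 - (d ^ 2 - c ^ 2) * (4 * c ^ 3)| ≤
      15 * (d ^ 2 - c ^ 2) ^ 2 := by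
  obtain ⟨h1, h2⟩ := qbound c d hc hd hc3 hd3
  have h0 : 0 ≤ (d ^ 2 - c ^ 2) ^ 2 := by positivity
  have e : 8 / 5 * d ^ 5 - 8 / 5 * c ^ 5 - (d ^ 2 - c ^ 2) * (4 * c ^ 3) =
      2 * ((d - c) ^ 2 *
        (4 / 5 * d ^ 3 + 8 / 5 * c * d ^ 2 + 12 / 5 * c ^ 2 * d + 6 / 5 * c ^ 3)) := by ring
  rw [e, abs_le]
  constructor <;> linarith

theorem e2 (c d : ℝ) (hc : 0 ≤ c) (hd : 0 ≤ d) (hc3 : c ≤ 3) (hd3 : d ≤ 3) :
    |(Pf d - Pf c) / 2 - (d ^ 2 - c ^ 2) * ((3 - c) ^ 3 * (c + 1) / 4)| ≤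
      15 * (d ^ 2 - c ^ 2) ^ 2 := by
  obtain ⟨h1, h2⟩ := qbound c d hc hd hc3 hd3
  have h0 : 0 ≤ (d ^ 2 - c ^ 2) ^ 2 := by positivity
  have e : (Pf d - Pf c) / 2 - (d ^ 2 - c ^ 2) * ((3 - c) ^ 3 * (c + 1) / 4) =
      (d - c) ^ 2 *
        (4 / 5 * d ^ 3 + 8 / 5 * c * d ^ 2 + 12 / 5 * c ^ 2 * d + 6 / 5 * c ^ 3) -
      9 / 4 * (d ^ 2 - c ^ 2) ^ 2 - 1 / 12 * ((d ^ 2 - c ^ 2) ^ 2 * (d ^ 2 + 2 * c ^ 2)) := by
    unfold Pf
    ring
  have h3 : 0 ≤ (d ^ 2 - c ^ 2) ^ 2 * (d ^ 2 + 2 * c ^ 2) := by positivity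
  have h4 : (d ^ 2 - c ^ 2) ^ 2 * (d ^ 2 + 2 * c ^ 2) ≤ (d ^ 2 - c ^ 2) ^ 2 * 27 := by
    apply mul_le_mul_of_nonneg_left _ h0
    nlinarith
  rw [e, abs_le]
  constructor <;> linarith

/-- the antiderivative of `len` -/
noncomputable def G (a : ℝ) : ℝ :=
  if a ≤ -2 then 8 / 5 * Real.sqrt (a + 3) ^ 5 else
    8 / 5 + (Pf (Real.sqrt (a + 3)) - Pf 1) / 2

theorem sqrt_one' : Real.sqrt (-2 + 3 : ℝ) = 1 := by
  rw [show (-2 + 3 : ℝ) = 1 by norm_num, Real.sqrt_one]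

theorem G_right {a : ℝ} (h : -2 ≤ a) : G a = 8 / 5 + (Pf (Real.sqrt (a + 3)) - Pf 1) / 2 := by
  unfold G
  split_ifs with h1
  · have : a = -2 := le_antisymm h1 h
    rw [this, sqrt_one']
    norm_num
  · rfl

theorem G_left {a : ℝ} (h : a ≤ -2) : G a = 8 / 5 * Real.sqrt (a + 3) ^ 5 := by
  unfold G
  rw [if_pos h]

theorem len_left {a : ℝ} (h : a ≤ -2) : len a = 4 * Real.sqrt (a + 3) ^ 3 := by
  unfold len
  rw [if_pos h]

theorem len_right {a : ℝ} (h : -2 ≤ a) (h6 : a ≤ 6) :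
    len a = (3 - Real.sqrt (a + 3)) ^ 3 * (Real.sqrt (a + 3) + 1) / 4 := by
  unfold len
  split_ifs with h1
  · have : a = -2 := le_antisymm h1 h
    rw [this, sqrt_one']
    norm_num
  · rfl

theorem sqrt_nine : Real.sqrt (6 + 3 : ℝ) = 3 := by
  rw [show (6 + 3 : ℝ) = 3 ^ 2 by norm_num]
  exact Real.sqrt_sq (by norm_num)

theorem step {a b : ℝ} (ha : -3 ≤ a) (hab : a ≤ b) (hb : b ≤ 6) (h : b ≤ -2 ∨ -2 ≤ a) :
    |G b - G a - (b - a) * len a| ≤ 15 * (b - a) ^ 2 := by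
  have hca : Real.sqrt (a + 3) ^ 2 = a + 3 := Real.sq_sqrt (by linarith)
  have hcb : Real.sqrt (b + 3) ^ 2 = b + 3 := Real.sq_sqrt (by linarith)
  have hba : Real.sqrt (b + 3) ^ 2 - Real.sqrt (a + 3) ^ 2 = b - a := by
    rw [hca, hcb]
    ring
  have h3 : ∀ x : ℝ, x ≤ 6 → Real.sqrt (x + 3) ≤ 3 := by
    intro x hx
    exact (Real.sqrt_le_sqrt (by linarith : x + 3 ≤ 6 + 3)).trans_eq sqrt_nine
  have ga := Real.sqrt_nonneg (a + 3)
  have gb := Real.sqrt_nonneg (b + 3)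
  rcases h with h | h
  · rw [G_left h, G_left (hab.trans h), len_left (hab.trans h), ← hba]
    exact e1 _ _ ga gb (h3 a (hab.trans hb)) (h3 b hb)
  · rw [G_right h, G_right (h.trans hab), len_right h (hab.trans hb), ← hba]
    have := e2 _ _ ga gb (h3 a (hab.trans hb)) (h3 b hb)
    have e : 8 / 5 + (Pf (Real.sqrt (b + 3)) - Pf 1) / 2 -
        (8 / 5 + (Pf (Real.sqrt (a + 3)) - Pf 1) / 2) =
        (Pf (Real.sqrt (b + 3)) - Pf (Real.sqrt (a + 3))) / 2 := by ring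
    rw [e]
    exact this

theorem G_six : G 6 = 128 / 15 := by
  rw [G_right (by norm_num), sqrt_nine]
  unfold Pf
  norm_num

theorem G_start : G (-3) = 0 := by
  rw [G_left (by norm_num)]
  norm_num

theorem len_six : len 6 = 0 := by
  rw [len_right (by norm_num) le_rfl, sqrt_nine]
  norm_num

theorem t2a : T2a := by
  refine ⟨135, by norm_num, fun s hs => ?_⟩
  have hs0 : (0 : ℝ) < s := by exact_mod_cast hs
  -- the points
  obtain ⟨f, hf⟩ : ∃ f : ℕ → ℝ, ∀ k, f k = ((-3 * (s : ℤ) + k : ℤ) : ℝ) / s := ⟨_, fun _ => rfl⟩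
  have hf' : ∀ k : ℕ, f k = -3 + k / s := by
    intro k
    rw [hf]
    push_cast
    field_simp
  have hsum : ∑ A ∈ Finset.Icc (-3 * (s : ℤ)) (6 * s), (s : ℝ) ^ 2 * len (A / s) =
      ∑ k ∈ Finset.range (9 * s + 1), (s : ℝ) ^ 2 * len (f k) := by
    symm
    refine Finset.sum_bij (fun k _ => (-3 * (s : ℤ) + k : ℤ)) ?_ ?_ ?_ ?_
    · intro k hk
      have := Finset.mem_range.1 hk
      rw [Finset.mem_Icc]
      constructor
      · linarith [Int.natCast_nonneg k]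
      · have : (k : ℤ) ≤ 9 * s := by exact_mod_cast Nat.lt_succ_iff.1 this
        linarith
    · intro a _ b _ hab
      have : (a : ℤ) = b := by linarith
      exact_mod_cast this
    · intro A hA
      rw [Finset.mem_Icc] at hA
      refine ⟨(A + 3 * s).toNat, ?_, ?_⟩
      · rw [Finset.mem_range]
        omega
      · have : ((A + 3 * s).toNat : ℤ) = A + 3 * s := Int.toNat_of_nonneg (by linarith)
        rw [this]
        ring
    · intro k _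
      rw [hf]
  rw [hsum, Finset.sum_range_succ]
  have h9 : f (9 * s) = 6 := by
    rw [hf']
    push_cast
    field_simp
    norm_num
  have h00 : f 0 = -3 := by
    rw [hf']
    simp
  rw [h9, len_six, mul_zero, add_zero]
  have htel : ∑ k ∈ Finset.range (9 * s), (G (f (k + 1)) - G (f k)) = 128 / 15 := by
    rw [Finset.sum_range_sub (fun k => G (f k)), h9, h00, G_six, G_start, sub_zero]
  have hstep : ∀ k ∈ Finset.range (9 * s),
      |(s : ℝ) ^ 2 * len (f k) - (s : ℝ) ^ 3 * (G (f (k + 1)) - G (f k))| ≤ 15 * (s : ℝ) := by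
    intro k hk
    have hk9 : k + 1 ≤ 9 * s := Finset.mem_range.1 hk
    have hd : f (k + 1) - f k = 1 / s := by
      rw [hf', hf']
      push_cast
      ring
    have hk9' : ((k : ℝ) + 1) / s ≤ 9 := by
      rw [div_le_iff₀ hs0]
      exact_mod_cast hk9
    have h1 : -3 ≤ f k := by
      rw [hf']
      have : 0 ≤ (k : ℝ) / s := by positivity
      linarith
    have h2 : f k ≤ f (k + 1) := by
      have : 0 < 1 / (s : ℝ) := by positivity
      linarith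
    have h3 : f (k + 1) ≤ 6 := by
      rw [hf']
      push_cast
      linarith
    have h4 : f (k + 1) ≤ -2 ∨ -2 ≤ f k := by
      rcases Nat.lt_or_ge k s with h | h
      · left
        rw [hf']
        have : ((k + 1 : ℕ) : ℝ) / s ≤ 1 := by
          rw [div_le_one hs0]
          exact_mod_cast h
        linarith
      · right
        rw [hf']
        have : 1 ≤ (k : ℝ) / s := by
          rw [one_le_div hs0]
          exact_mod_cast h
        linarith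
    have h5 := step h1 h2 h3 h4
    rw [hd] at h5
    have e : (s : ℝ) ^ 2 * len (f k) - (s : ℝ) ^ 3 * (G (f (k + 1)) - G (f k)) =
        -((s : ℝ) ^ 3 * (G (f (k + 1)) - G (f k) - 1 / s * len (f k))) := by
      field_simp
      ring
    rw [e, abs_neg, abs_mul, abs_of_pos (by positivity : (0 : ℝ) < (s : ℝ) ^ 3)]
    calc (s : ℝ) ^ 3 * |G (f (k + 1)) - G (f k) - 1 / s * len (f k)|
        ≤ (s : ℝ) ^ 3 * (15 * (1 / s) ^ 2) := by gcongr
      _ = 15 * (s : ℝ) := by field_simp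
  have hfin : ∑ k ∈ Finset.range (9 * s), (s : ℝ) ^ 2 * len (f k) - 128 / 15 * (s : ℝ) ^ 3 =
      ∑ k ∈ Finset.range (9 * s),
        ((s : ℝ) ^ 2 * len (f k) - (s : ℝ) ^ 3 * (G (f (k + 1)) - G (f k))) := by
    rw [Finset.sum_sub_distrib, ← Finset.mul_sum (Finset.range (9 * s))
      (fun k => G (f (k + 1)) - G (f k)), htel]
    ring
  rw [hfin]
  calc |∑ k ∈ Finset.range (9 * s),
        ((s : ℝ) ^ 2 * len (f k) - (s : ℝ) ^ 3 * (G (f (k + 1)) - G (f k)))|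
      ≤ ∑ k ∈ Finset.range (9 * s),
        |(s : ℝ) ^ 2 * len (f k) - (s : ℝ) ^ 3 * (G (f (k + 1)) - G (f k))| :=
        Finset.abs_sum_le_sum_abs _ _
    _ ≤ ∑ k ∈ Finset.range (9 * s), 15 * (s : ℝ) := Finset.sum_le_sum hstep
    _ = 135 * (s : ℝ) ^ 2 := by
        rw [Finset.sum_const, Finset.card_range, nsmul_eq_mul]
        push_cast
        ring

end Pool.Agent.H345.TFT2a
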