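import Pool.Agent.H857.TF.Core

set_option autoImplicit false

namespace Pool.Agent.H79.TFt2b

open Pool.Agent.H857.TF

/-- one residue class -/
theorem cls (m : ℕ) (hm : 0 < m) (X Y : ℤ) (hXY : X ≤ Y) (r : ZMod m) :
    |(((Finset.Ioc X Y).filter (fun n : ℤ => (n : ZMod m) = r)).card : ℝ) -
      ((Y : ℝ) - X) / m| ≤ 1 := by
  have hne : NeZero m := ⟨hm.ne'⟩
  have hm' : (0 : ℤ) < (m : ℤ) := by exact_mod_cast hm
  have hmq : (0 : ℚ) < (m : ℚ) := by exact_mod_cast hm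
  have h1 : (Finset.Ioc X Y).filter (fun n : ℤ => (n : ZMod m) = r) =
      (Finset.Ioc X Y).filter (fun n : ℤ => n ≡ (r.val : ℤ) [ZMOD (m : ℤ)]) := by
    refine Finset.filter_congr fun n _ => ?_
    rw [← ZMod.intCast_eq_intCast_iff]
    simp
  have h2 := Int.Ioc_filter_modEq_card X Y hm' (r.val : ℤ)
  rw [← h1] at h2
  have h3 : ⌊((X : ℚ) - ((r.val : ℤ) : ℚ)) / ((m : ℤ) : ℚ)⌋ ≤
      ⌊((Y : ℚ) - ((r.val : ℤ) : ℚ)) / ((m : ℤ) : ℚ)⌋ := by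
    refine Int.floor_le_floor (div_le_div_of_nonneg_right ?_ ?_)
    · have : (X : ℚ) ≤ Y := by exact_mod_cast hXY
      linarith
    · exact_mod_cast hm.le
  rw [max_eq_left (by linarith)] at h2
  have h4 : ((((Finset.Ioc X Y).filter (fun n : ℤ => (n : ZMod m) = r)).card : ℤ) : ℚ) =
      (⌊((Y : ℚ) - ((r.val : ℤ) : ℚ)) / ((m : ℤ) : ℚ)⌋ : ℚ) -
        (⌊((X : ℚ) - ((r.val : ℤ) : ℚ)) / ((m : ℤ) : ℚ)⌋ : ℚ) := by
    rw [h2]
    push_cast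
    ring
  have h5 := Int.floor_le (((Y : ℚ) - ((r.val : ℤ) : ℚ)) / ((m : ℤ) : ℚ))
  have h6 := Int.lt_floor_add_one (((Y : ℚ) - ((r.val : ℤ) : ℚ)) / ((m : ℤ) : ℚ))
  have h7 := Int.floor_le (((X : ℚ) - ((r.val : ℤ) : ℚ)) / ((m : ℤ) : ℚ))
  have h8 := Int.lt_floor_add_one (((X : ℚ) - ((r.val : ℤ) : ℚ)) / ((m : ℤ) : ℚ))
  have h9 : ((Y : ℚ) - ((r.val : ℤ) : ℚ)) / ((m : ℤ) : ℚ) -
      ((X : ℚ) - ((r.val : ℤ) : ℚ)) / ((m : ℤ) : ℚ) = ((Y : ℚ) - X) / (m : ℚ) := by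
    push_cast
    ring
  have h10 : |((((Finset.Ioc X Y).filter (fun n : ℤ => (n : ZMod m) = r)).card : ℕ) : ℚ) -
      ((Y : ℚ) - X) / (m : ℚ)| ≤ 1 := by
    rw [Int.cast_natCast] at h4
    rw [h4, ← h9, abs_le]
    constructor <;> linarith
  exact_mod_cast h10

/-- all residue classes -/
theorem cnt (m : ℕ) (hm : 0 < m) (Ω : Set (ZMod m)) (lo hi : ℝ) (h : lo ≤ hi) (S : Set ℤ)
    (h1 : ∀ n : ℤ, lo < n → (n : ℝ) ≤ hi → n ∈ S) (h2 : ∀ n ∈ S, lo ≤ (n : ℝ) ∧ (n : ℝ) ≤ hi) :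
    |({n : ℤ | n ∈ S ∧ (n : ZMod m) ∈ Ω}.ncard : ℝ) - ((Ω.ncard : ℝ) / m) * (hi - lo)| ≤
      3 * m := by
  classical
  have hne : NeZero m := ⟨hm.ne'⟩
  have hmr : (1 : ℝ) ≤ m := by exact_mod_cast hm
  have hm0 : (0 : ℝ) < m := by linarith
  set O : Finset (ZMod m) := Set.Finite.toFinset (Set.toFinite Ω) with hO
  have hOm : ∀ x, x ∈ O ↔ x ∈ Ω := fun x => Set.Finite.mem_toFinset _
  have hOc : Ω.ncard = O.card := Set.ncard_eq_toFinset_card Ω (Set.toFinite Ω)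
  set T0 : Finset ℤ := (Finset.Ioc ⌊lo⌋ ⌊hi⌋).filter (fun n : ℤ => (n : ZMod m) ∈ O) with hT0
  have hXY : ⌊lo⌋ ≤ ⌊hi⌋ := Int.floor_le_floor h
  -- the set lies between `T0` and `insert ⌊lo⌋ T0`
  have ha : (T0 : Set ℤ) ⊆ {n : ℤ | n ∈ S ∧ (n : ZMod m) ∈ Ω} := by
    intro n hn
    rw [Finset.mem_coe, hT0, Finset.mem_filter, Finset.mem_Ioc] at hn
    exact ⟨h1 n (Int.floor_lt.1 hn.1.1) (Int.le_floor.1 hn.1.2), (hOm _).1 hn.2⟩
  have hb : {n : ℤ | n ∈ S ∧ (n : ZMod m) ∈ Ω} ⊆ ((insert ⌊lo⌋ T0 : Finset ℤ) : Set ℤ) := by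
    intro n hn
    obtain ⟨hn1, hn2⟩ := h2 n hn.1
    rw [Finset.mem_coe, Finset.mem_insert]
    rcases hn1.eq_or_lt with h3 | h3
    · left
      rw [h3, Int.floor_intCast]
    · right
      rw [hT0, Finset.mem_filter, Finset.mem_Ioc]
      exact ⟨⟨Int.floor_lt.2 h3, Int.le_floor.2 hn2⟩, (hOm _).2 hn.2⟩
  have hfin : {n : ℤ | n ∈ S ∧ (n : ZMod m) ∈ Ω}.Finite := (Finset.finite_toSet _).subset hb
  have hc1 : T0.card ≤ {n : ℤ | n ∈ S ∧ (n : ZMod m) ∈ Ω}.ncard := by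
    rw [← Set.ncard_coe_finset]
    exact Set.ncard_le_ncard ha hfin
  have hc2 : {n : ℤ | n ∈ S ∧ (n : ZMod m) ∈ Ω}.ncard ≤ T0.card + 1 := by
    have h3 := Set.ncard_le_ncard hb (Finset.finite_toSet _)
    rw [Set.ncard_coe_finset] at h3
    exact h3.trans (Finset.card_insert_le _ _)
  -- the number of the elements of `T0`
  have hT : T0.card = ∑ r ∈ O, ((Finset.Ioc ⌊lo⌋ ⌊hi⌋).filter
      (fun n : ℤ => (n : ZMod m) = r)).card := by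
    have h3 : Set.MapsTo (fun n : ℤ => (n : ZMod m)) T0 O := by
      intro n hn
      rw [hT0] at hn
      exact (Finset.mem_filter.1 (Finset.mem_coe.1 hn)).2
    rw [Finset.card_eq_sum_card_fiberwise h3]
    refine Finset.sum_congr rfl fun r hr => ?_
    congr 1
    ext n
    rw [hT0, Finset.mem_filter, Finset.mem_filter, Finset.mem_filter]
    constructor
    · rintro ⟨⟨h3, _⟩, h4⟩
      exact ⟨h3, h4⟩
    · rintro ⟨h3, h4⟩
      exact ⟨⟨h3, h4 ▸ hr⟩, h4⟩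
  have hT' : |(T0.card : ℝ) - O.card * (((⌊hi⌋ : ℝ) - ⌊lo⌋) / m)| ≤ O.card := by
    have h3 : (T0.card : ℝ) - O.card * (((⌊hi⌋ : ℝ) - ⌊lo⌋) / m) =
        ∑ r ∈ O, ((((Finset.Ioc ⌊lo⌋ ⌊hi⌋).filter
          (fun n : ℤ => (n : ZMod m) = r)).card : ℝ) - ((⌊hi⌋ : ℝ) - ⌊lo⌋) / m) := by
      rw [hT, Finset.sum_sub_distrib, Finset.sum_const, nsmul_eq_mul]
      push_cast
      rfl
    rw [h3]
    refine (Finset.abs_sum_le_sum_abs _ _).trans ?_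
    refine (Finset.sum_le_sum fun r _ => cls m hm _ _ hXY r).trans ?_
    rw [Finset.sum_const, nsmul_eq_mul, mul_one]
  have hOm' : (O.card : ℝ) ≤ m := by
    have h3 := Finset.card_le_univ O
    rw [ZMod.card] at h3
    exact_mod_cast h3
  have hO0 : (0 : ℝ) ≤ (O.card : ℝ) / m := by positivity
  have hO1 : (O.card : ℝ) / m ≤ 1 := by
    rw [div_le_one hm0]
    exact hOm'
  have hf1 := Int.floor_le lo
  have hf2 := Int.lt_floor_add_one lo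
  have hf3 := Int.floor_le hi
  have hf4 := Int.lt_floor_add_one hi
  rw [hOc]
  have he : (O.card : ℝ) * (((⌊hi⌋ : ℝ) - ⌊lo⌋) / m) = (O.card : ℝ) / m * ((⌊hi⌋ : ℝ) - ⌊lo⌋) := by
    ring
  rw [he, abs_le] at hT'
  have hd : |(O.card : ℝ) / m * ((⌊hi⌋ : ℝ) - ⌊lo⌋) - (O.card : ℝ) / m * (hi - lo)| ≤ 1 := by
    rw [← mul_sub, abs_mul, abs_of_nonneg hO0]
    have h3 : |((⌊hi⌋ : ℝ) - ⌊lo⌋) - (hi - lo)| ≤ 1 := by
      rw [abs_le]
      constructor <;> linarith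
    nlinarith [abs_nonneg (((⌊hi⌋ : ℝ) - ⌊lo⌋) - (hi - lo))]
  rw [abs_le] at hd
  have hc1' : (T0.card : ℝ) ≤ ({n : ℤ | n ∈ S ∧ (n : ZMod m) ∈ Ω}.ncard : ℝ) := by
    exact_mod_cast hc1
  have hc2' : ({n : ℤ | n ∈ S ∧ (n : ZMod m) ∈ Ω}.ncard : ℝ) ≤ T0.card + 1 := by
    exact_mod_cast hc2
  rw [abs_le]
  constructor <;> linarith [hT'.1, hT'.2, hd.1, hd.2]

/-- the region in the coordinate `c` -/
theorem reg_iff (s : ℕ) (hs : 0 < s) (A n : ℤ) (c : ℝ) (hc : 0 ≤ c)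
    (hA : (A : ℝ) = s * (c ^ 2 - 3)) : Reg s A n ↔ (s : ℝ) ^ 2 * ((c ^ 2 - 3) ^ 2 / 4) < n ∧
      (s : ℝ) ^ 2 * (9 - 6 * c ^ 2 - 2 * c ^ 3) ≤ n ∧
      n ≤ (s : ℝ) ^ 2 * (9 - 6 * c ^ 2 + 2 * c ^ 3) := by
  have hs' : (0 : ℝ) < s := by exact_mod_cast hs
  have h1 : Reg s A n ↔ (A : ℝ) ^ 2 < 4 * n ∧
      ((n : ℝ) + 6 * A * s + 9 * s ^ 2) ^ 2 ≤ 4 * s * (A + 3 * s) ^ 3 := by
    unfold Reg
    constructor
    · rintro ⟨h1, h2⟩
      exact ⟨by exact_mod_cast h1, by exact_mod_cast h2⟩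
    · rintro ⟨h1, h2⟩
      exact ⟨by exact_mod_cast h1, by exact_mod_cast h2⟩
  rw [h1, hA]
  have h2 : 4 * (s : ℝ) * (s * (c ^ 2 - 3) + 3 * s) ^ 3 = (2 * s ^ 2 * c ^ 3) ^ 2 := by ring
  rw [h2, sq_le_sq, abs_of_nonneg (a := 2 * (s : ℝ) ^ 2 * c ^ 3) (by positivity), abs_le]
  constructor
  · rintro ⟨h3, h4, h5⟩
    refine ⟨?_, ?_, ?_⟩ <;> nlinarith
  · rintro ⟨h3, h4, h5⟩
    refine ⟨?_, ?_, ?_⟩ <;> nlinarith

theorem pow_pos_of_ne {x : ℤ} (h : x ≠ 0) : 0 < x ^ 2 := by positivity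

/-- the region is empty for `A < -3 s` and for `A > 6 s` -/
theorem reg_range (s : ℕ) (hs : 0 < s) (A n : ℤ) (h : Reg s A n) :
    -3 * (s : ℤ) ≤ A ∧ A ≤ 6 * s := by
  have hs' : (0 : ℝ) < s := by exact_mod_cast hs
  have h1 : -3 * (s : ℤ) ≤ A := by
    by_contra hcon
    have h2 := h.2
    have h3 : (A : ℤ) + 3 * s < 0 := by linarith
    have h4 : 4 * (s : ℤ) * (A + 3 * s) ^ 3 < 0 := by
      have hs'' : (0 : ℤ) < s := by exact_mod_cast hs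
      have h5 : ((A : ℤ) + 3 * s) ^ 3 < 0 := by
        have h6 : ((A : ℤ) + 3 * s) ^ 3 = (A + 3 * s) * (A + 3 * s) ^ 2 := by ring
        rw [h6]
        exact mul_neg_of_neg_of_pos h3 (pow_pos_of_ne h3.ne)
      exact mul_neg_of_pos_of_neg (by positivity) h5
    nlinarith [sq_nonneg ((n : ℤ) + 6 * A * s + 9 * s ^ 2)]
  refine ⟨h1, ?_⟩
  by_contra hcon
  rw [not_le] at hcon
  have h1' : (-3 : ℝ) * s ≤ A := by exact_mod_cast h1
  have hcon' : (6 : ℝ) * s < A := by exact_mod_cast hcon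
  have h2 : (0 : ℝ) ≤ (A : ℝ) / s + 3 := by
    rw [div_add' _ _ _ hs'.ne']
    exact div_nonneg (by linarith) hs'.le
  have h3 : (A : ℝ) = s * (Real.sqrt ((A : ℝ) / s + 3) ^ 2 - 3) := by
    rw [Real.sq_sqrt h2]
    field_simp
    ring
  have h4 := (reg_iff s hs A n _ (Real.sqrt_nonneg _) h3).1 h
  have h5 : 3 < Real.sqrt ((A : ℝ) / s + 3) := by
    rw [Real.lt_sqrt (by norm_num), div_add' _ _ _ hs'.ne', lt_div_iff₀ hs']
    linarith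
  set c := Real.sqrt ((A : ℝ) / s + 3)
  have h6 : (s : ℝ) ^ 2 * ((c ^ 2 - 3) ^ 2 / 4) < (s : ℝ) ^ 2 * (9 - 6 * c ^ 2 + 2 * c ^ 3) :=
    h4.1.trans_le h4.2.2
  have h7 : (c ^ 2 - 3) ^ 2 / 4 < 9 - 6 * c ^ 2 + 2 * c ^ 3 := lt_of_mul_lt_mul_left h6
    (by positivity)
  have h8 : 0 < (c - 3) ^ 3 * (c + 1) := mul_pos (pow_pos (by linarith) 3) (by linarith)
  nlinarith

theorem t2b : T2b := by
  refine ⟨3, by norm_num, ?_⟩
  intro s m hs hm Ω A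
  have hs' : (0 : ℝ) < s := by exact_mod_cast hs
  refine ⟨?_, ?_, ?_⟩
  · -- finiteness
    refine (Set.finite_Icc (-(4 * (s : ℤ) * (A + 3 * s) ^ 3) - 6 * A * s - 9 * s ^ 2)
      ((4 * (s : ℤ) * (A + 3 * s) ^ 3) - 6 * A * s - 9 * s ^ 2)).subset ?_
    rintro n ⟨hn, _⟩
    have h1 := hn.2
    have h2 : |n + 6 * A * s + 9 * (s : ℤ) ^ 2| ≤ (n + 6 * A * s + 9 * (s : ℤ) ^ 2) ^ 2 := by
      generalize n + 6 * A * s + 9 * (s : ℤ) ^ 2 = w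
      rw [← sq_abs]
      exact Int.le_self_sq _
    have h3 := abs_le.1 (h2.trans h1)
    rw [Set.mem_Icc]
    constructor <;> linarith [h3.1, h3.2]
  · rintro ⟨n, hn, _⟩
    exact reg_range s hs A n hn
  · intro h1 h2
    have h1' : (-3 : ℝ) * s ≤ A := by exact_mod_cast h1
    have h2' : (A : ℝ) ≤ 6 * s := by exact_mod_cast h2
    have h3 : (0 : ℝ) ≤ (A : ℝ) / s + 3 := by
      rw [div_add' _ _ _ hs'.ne']
      exact div_nonneg (by linarith) hs'.le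
    have h4 : (A : ℝ) = s * (Real.sqrt ((A : ℝ) / s + 3) ^ 2 - 3) := by
      rw [Real.sq_sqrt h3]
      field_simp
      ring
    have h5 : (A : ℝ) / s ≤ 6 := by
      rw [div_le_iff₀ hs']
      exact h2'
    have hc3 : Real.sqrt ((A : ℝ) / s + 3) ≤ 3 := by
      rw [Real.sqrt_le_left (by norm_num)]
      linarith
    have hreg := fun n => reg_iff s hs A n _ (Real.sqrt_nonneg _) h4
    have hc0 := Real.sqrt_nonneg ((A : ℝ) / s + 3)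
    unfold len
    by_cases ha : (A : ℝ) / s ≤ -2
    · rw [if_pos ha]
      have hc1 : Real.sqrt ((A : ℝ) / s + 3) ≤ 1 := by
        rw [Real.sqrt_le_left (by norm_num)]
        linarith
      set c := Real.sqrt ((A : ℝ) / s + 3)
      have h6 : (s : ℝ) ^ 2 * ((c ^ 2 - 3) ^ 2 / 4) ≤
          (s : ℝ) ^ 2 * (9 - 6 * c ^ 2 - 2 * c ^ 3) := by
        refine mul_le_mul_of_nonneg_left ?_ (by positivity)
        have h8 : 0 ≤ (1 - c) * (c + 3) ^ 3 := mul_nonneg (by linarith)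
          (pow_nonneg (by linarith) 3)
        nlinarith
      have h7 := cnt m hm Ω ((s : ℝ) ^ 2 * (9 - 6 * c ^ 2 - 2 * c ^ 3))
        ((s : ℝ) ^ 2 * (9 - 6 * c ^ 2 + 2 * c ^ 3)) (by
          refine mul_le_mul_of_nonneg_left ?_ (by positivity)
          have : 0 ≤ c ^ 3 := by positivity
          linarith) {n : ℤ | Reg s A n} (by
          intro n hn1 hn2
          exact (hreg n).2 ⟨h6.trans_lt hn1, hn1.le, hn2⟩) (by
          intro n hn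
          have h8 := (hreg n).1 hn
          exact ⟨h8.2.1, h8.2.2⟩)
      have h8 : (s : ℝ) ^ 2 * (9 - 6 * c ^ 2 + 2 * c ^ 3) -
          (s : ℝ) ^ 2 * (9 - 6 * c ^ 2 - 2 * c ^ 3) = (s : ℝ) ^ 2 * (4 * c ^ 3) := by ring
      rw [h8] at h7
      exact h7
    · rw [if_neg ha, if_pos h5]
      rw [not_le] at ha
      have hc1 : 1 ≤ Real.sqrt ((A : ℝ) / s + 3) := by
        rw [Real.one_le_sqrt]
        linarith
      set c := Real.sqrt ((A : ℝ) / s + 3)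
      have h6 : (s : ℝ) ^ 2 * (9 - 6 * c ^ 2 - 2 * c ^ 3) ≤
          (s : ℝ) ^ 2 * ((c ^ 2 - 3) ^ 2 / 4) := by
        refine mul_le_mul_of_nonneg_left ?_ (by positivity)
        have h8 : 0 ≤ (c - 1) * (c + 3) ^ 3 := mul_nonneg (by linarith)
          (pow_nonneg (by linarith) 3)
        nlinarith
      have h8 : (s : ℝ) ^ 2 * (9 - 6 * c ^ 2 + 2 * c ^ 3) -
          (s : ℝ) ^ 2 * ((c ^ 2 - 3) ^ 2 / 4) = (s : ℝ) ^ 2 * ((3 - c) ^ 3 * (c + 1) / 4) := by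
        ring
      have h9 : 0 ≤ (s : ℝ) ^ 2 * ((3 - c) ^ 3 * (c + 1) / 4) := by
        have h10 : 0 ≤ (3 - c) ^ 3 := pow_nonneg (by linarith) 3
        positivity
      have h7 := cnt m hm Ω ((s : ℝ) ^ 2 * ((c ^ 2 - 3) ^ 2 / 4))
        ((s : ℝ) ^ 2 * (9 - 6 * c ^ 2 + 2 * c ^ 3)) (by linarith) {n : ℤ | Reg s A n} (by
          intro n hn1 hn2
          exact (hreg n).2 ⟨hn1, h6.trans hn1.le, hn2⟩) (by
          intro n hn
          have h8 := (hreg n).1 hn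
          exact ⟨h8.1.le, h8.2.2⟩)
      rw [h8] at h7
      exact h7

end Pool.Agent.H79.TFt2b
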