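import Pool.Agent.H857.TF.Core

/-!
# T4b: the polynomials of odd Weil type with a factor with real constant term

The lemmas `int_of_rat`, `quad_repr`, `conj_int`, `re_int`, `func` are from the proof of P17
(helper790).
-/

set_option autoImplicit false

namespace Pool.Agent.H142.TFt4b

open Module Polynomial Pool.Agent.W521.Descent Pool.Agent.H857.WT Pool.Agent.H857.PD
  Pool.Agent.H857.TF

/-- Rational algebraic integers are integers. -/
lemma int_of_rat {r : ℚ} (h : IsIntegral ℤ (r : ℂ)) : ∃ n : ℤ, (r : ℂ) = n := by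
  have h1 : IsIntegral ℤ r := by
    have := (isIntegral_algebraMap_iff (R := ℤ) (A := ℚ) (B := ℂ) (x := r)
      (algebraMap ℚ ℂ).injective)
    exact this.1 (by simpa using h)
  obtain ⟨n, hn⟩ := IsIntegrallyClosed.isIntegral_iff.1 h1
  exact ⟨n, by rw [← hn]; simp⟩

lemma quad_repr {D : ℕ} {z : ℂ} (h : z ∈ quadField D) : ∃ x y : ℚ,
    z = x + y * (Real.sqrt D * Complex.I) ∧
    (starRingEnd ℂ) z = x - y * (Real.sqrt D * Complex.I) := by
  obtain ⟨x, y, rfl⟩ := h
  refine ⟨x, y, rfl, ?_⟩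
  simp only [map_add, map_mul, map_ratCast, Complex.conj_ofReal, Complex.conj_I]
  ring

lemma conj_int {z : ℂ} (h : IsIntegral ℤ z) : IsIntegral ℤ ((starRingEnd ℂ) z) :=
  map_isIntegral_int (starRingEnd ℂ) h

lemma re_int {D : ℕ} {z : ℂ} (h : z ∈ quadField D) (hz : IsIntegral ℤ z) :
    ∃ n : ℤ, z + (starRingEnd ℂ) z = n := by
  obtain ⟨x, y, h1, h2⟩ := quad_repr h
  have h3 : z + (starRingEnd ℂ) z = ((2 * x : ℚ) : ℂ) := by
    rw [h2]; nth_rw 1 [h1]; push_cast; ring
  obtain ⟨n, hn⟩ := int_of_rat (r := 2 * x) (by rw [← h3]; exact hz.add (conj_int hz))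
  exact ⟨n, by rw [h3, hn]⟩

/-- The functional equation for the coefficients. -/
lemma func {h : ℂ[X]} (hm : h.Monic) {n q : ℕ} (hdeg : h.natDegree = n)
    (hr : ∀ z, h.IsRoot z → ‖z‖ ^ 2 = q) (i : ℕ) (hi : i ≤ n) :
    h.coeff i * (q : ℂ) ^ i = h.coeff 0 * (starRingEnd ℂ) (h.coeff (n - i)) := by
  have hprod : h = (h.roots.map (fun a => X - C a)).prod :=
    (IsAlgClosed.splits h).eq_prod_roots_of_monic hm
  have hcard : Multiset.card h.roots = n := by
    rw [← (IsAlgClosed.splits h).natDegree_eq_card_roots, hdeg]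
  have hz : ∀ z ∈ h.roots, z * (starRingEnd ℂ) z = q := by
    intro z hz
    rw [Complex.mul_conj, Complex.normSq_eq_norm_sq, hr z (isRoot_of_mem_roots hz)]
    simp
  have hev : ∀ x : ℂ, h.eval x = (h.roots.map (fun a => x - a)).prod := by
    intro x
    conv_lhs => rw [hprod]
    rw [eval_multiset_prod, Multiset.map_map]
    simp
  have hevb : ∀ x : ℂ, (h.map (starRingEnd ℂ)).eval x =
      (h.roots.map (fun a => x - (starRingEnd ℂ) a)).prod := by
    intro x
    conv_lhs => rw [hprod]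
    rw [Polynomial.map_multiset_prod, eval_multiset_prod, Multiset.map_map, Multiset.map_map]
    simp
  have hc0 : (starRingEnd ℂ) (h.coeff 0) =
      (h.roots.map (fun a => -(starRingEnd ℂ) a)).prod := by
    rw [coeff_zero_eq_eval_zero, hev, map_multiset_prod, Multiset.map_map]
    simp
  have hfe : ∀ x : ℂ, x ≠ 0 → x ^ n * (h.map (starRingEnd ℂ)).eval ((q : ℂ) / x) =
      (starRingEnd ℂ) (h.coeff 0) * h.eval x := by
    intro x hx
    rw [hevb, hc0, hev, ← hcard, ← Multiset.prod_replicate, ← Multiset.map_const',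
      ← Multiset.prod_map_mul, ← Multiset.prod_map_mul]
    congr 1
    refine Multiset.map_congr rfl fun a ha => ?_
    rw [← hz a ha]
    field_simp
    ring
  set P : ℂ[X] := ∑ j ∈ Finset.range (n + 1),
    C ((starRingEnd ℂ) (h.coeff j) * (q : ℂ) ^ j) * X ^ (n - j) with hP
  have hPe : ∀ x : ℂ, x ≠ 0 → P.eval x = x ^ n * (h.map (starRingEnd ℂ)).eval ((q : ℂ) / x) := by
    intro x hx
    rw [eval_eq_sum_range' (p := h.map (starRingEnd ℂ)) (n := n + 1) (by
      rw [natDegree_map, hdeg]; exact Nat.lt_succ_self n), hP, eval_finsetSum, Finset.mul_sum]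
    refine Finset.sum_congr rfl fun j hj => ?_
    have hj' : j ≤ n := Nat.lt_succ_iff.1 (Finset.mem_range.1 hj)
    rw [eval_mul, eval_C, eval_pow, eval_X, coeff_map, div_pow]
    have : x ^ n = x ^ (n - j) * x ^ j := by rw [← pow_add, Nat.sub_add_cancel hj']
    rw [this]
    field_simp
  have hPh : P = C ((starRingEnd ℂ) (h.coeff 0)) * h := by
    have h1 : X * P = X * (C ((starRingEnd ℂ) (h.coeff 0)) * h) := by
      refine Polynomial.funext fun x => ?_
      by_cases hx : x = 0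
      · subst hx; simp
      · rw [eval_mul, eval_mul, hPe x hx, hfe x hx, eval_mul, eval_C]
    exact mul_left_cancel₀ X_ne_zero h1
  have h2 : P.coeff (n - i) = (starRingEnd ℂ) (h.coeff i) * (q : ℂ) ^ i := by
    rw [hP, finsetSum_coeff, Finset.sum_eq_single i]
    · rw [coeff_C_mul, coeff_X_pow]; simp
    · intro j hj hji
      have hj' : j ≤ n := Nat.lt_succ_iff.1 (Finset.mem_range.1 hj)
      rw [coeff_C_mul, coeff_X_pow, if_neg (by omega), mul_zero]
    · intro hni
      exact absurd (Finset.mem_range.2 (Nat.lt_succ_iff.2 hi)) hni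
  have h3 : P.coeff (n - i) = (starRingEnd ℂ) (h.coeff 0) * h.coeff (n - i) := by
    rw [hPh, coeff_C_mul]
  have h4 := congrArg (starRingEnd ℂ) (h2.symm.trans h3)
  simpa using h4

lemma norm_int {D : ℕ} {z : ℂ} (h : z ∈ quadField D) (hz : IsIntegral ℤ z) :
    ∃ n : ℤ, z * (starRingEnd ℂ) z = n := by
  obtain ⟨x, y, h1, h2⟩ := quad_repr h
  have hs : ((Real.sqrt D : ℝ) : ℂ) * ((Real.sqrt D : ℝ) : ℂ) = (D : ℂ) := by
    rw [← Complex.ofReal_mul, Real.mul_self_sqrt (Nat.cast_nonneg D)]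
    simp
  have h3 : z * (starRingEnd ℂ) z = ((x ^ 2 + y ^ 2 * D : ℚ) : ℂ) := by
    rw [h2]
    nth_rw 1 [h1]
    push_cast
    have : (x + y * (Real.sqrt D * Complex.I)) * (x - y * (Real.sqrt D * Complex.I)) =
        (x : ℂ) ^ 2 - y ^ 2 * (((Real.sqrt D : ℝ) : ℂ) * ((Real.sqrt D : ℝ) : ℂ)) *
          (Complex.I * Complex.I) := by ring
    rw [this, hs, Complex.I_mul_I]
    ring
  obtain ⟨n, hn⟩ := int_of_rat (r := x ^ 2 + y ^ 2 * D) (by
    rw [← h3]
    exact hz.mul (conj_int hz))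
  exact ⟨n, by rw [h3, hn]⟩

theorem t4b : T4b := by
  intro s f hs hf hW hNR
  obtain ⟨D, h, hD, hh, hquad, hfac, hcop, N, hN, h0N⟩ := hW
  have him : (h.coeff 0).im = 0 := by
    by_contra him
    exact hNR ⟨D, h, hD, hh, hquad, hfac, hcop, ⟨N, hN, h0N⟩, him⟩
  obtain ⟨hfm, hfdeg, -, hfr⟩ := hf
  have hhc : (h.map (starRingEnd ℂ)).Monic := hh.map _
  have hdeg : h.natDegree = 3 := by
    have h1 : (f.map (Int.castRingHom ℂ)).natDegree = h.natDegree + h.natDegree := by
      rw [hfac, hh.natDegree_mul hhc, natDegree_map]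
    rw [hfm.natDegree_map, hfdeg] at h1
    omega
  have hroot : ∀ z, h.IsRoot z → ‖z‖ ^ 2 = ((s ^ 2 : ℕ) : ℝ) := by
    intro z hz
    refine hfr z ?_
    have h1 : (f.map (Int.castRingHom ℂ)).eval z = 0 := by
      rw [hfac, eval_mul, hz.eq_zero, zero_mul]
    rw [eval_map] at h1
    exact h1
  have hint : ∀ i, IsIntegral ℤ (h.coeff i) := fun i =>
    isIntegral_coeff_of_dvd f h hfm hh (Dvd.intro _ hfac.symm) i
  have hfun := func hh hdeg hroot
  -- the constant term
  obtain ⟨t, ht, ht0⟩ : ∃ t : ℤ, (t = s ∨ t = -s) ∧ h.coeff 0 = (t : ℂ) ^ 3 := by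
    have h1 : h.coeff 0 = (((h.coeff 0).re : ℝ) : ℂ) := by
      apply Complex.ext
      · simp
      · simp [him]
    set w : ℝ := (h.coeff 0).re with hw
    have h2 : w ^ (2 * N) = ((s : ℝ) ^ 3) ^ (2 * N) := by
      have h3 : ((w ^ (2 * N) : ℝ) : ℂ) = ((((s : ℝ) ^ 3) ^ (2 * N) : ℝ) : ℂ) := by
        push_cast
        rw [← h1, h0N]
        push_cast
        rw [← pow_mul, ← pow_mul, ← pow_mul]
        congr 1
        ring
      exact_mod_cast h3
    have h3 : |w| = (s : ℝ) ^ 3 := by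
      have h4 : |w| ^ (2 * N) = ((s : ℝ) ^ 3) ^ (2 * N) := by
        rw [← abs_pow, h2, abs_of_nonneg (by positivity)]
      exact (pow_left_inj₀ (abs_nonneg _) (by positivity) (by omega)).1 h4
    rcases abs_eq (by positivity : (0 : ℝ) ≤ (s : ℝ) ^ 3) |>.1 h3 with h4 | h4
    · refine ⟨s, Or.inl rfl, ?_⟩
      rw [h1, h4]
      push_cast
      ring
    · refine ⟨-s, Or.inr rfl, ?_⟩
      rw [h1, h4]
      push_cast
      ring
  have hts : (t : ℂ) ^ 2 = (s : ℂ) ^ 2 := by
    rcases ht with rfl | rfl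
    · push_cast
      ring
    · push_cast
      ring
  have hs0 : (s : ℂ) ≠ 0 := by exact_mod_cast hs.ne'
  have ht2 : (t : ℂ) ^ 2 ≠ 0 := by
    rw [hts]
    exact pow_ne_zero _ hs0
  obtain ⟨A, hA⟩ := re_int (hquad 2) (hint 2)
  obtain ⟨n, hn⟩ := norm_int (hquad 2) (hint 2)
  set α := h.coeff 2 with hα
  have hc1 : h.coeff 1 = t * (starRingEnd ℂ) α := by
    have h1 := hfun 1 (by norm_num)
    rw [ht0] at h1
    have h2 : h.coeff 1 * (t : ℂ) ^ 2 = t * (starRingEnd ℂ) α * (t : ℂ) ^ 2 := by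
      have h3 : ((s ^ 2 : ℕ) : ℂ) ^ 1 = (t : ℂ) ^ 2 := by
        rw [hts]
        push_cast
        ring
      rw [h3] at h1
      rw [h1]
      have h4 : (3 : ℕ) - 1 = 2 := rfl
      rw [h4]
      ring
    exact mul_right_cancel₀ ht2 h2
  have hc3 : h.coeff 3 = 1 := by
    have := hh.coeff_natDegree
    rwa [hdeg] at this
  have hH : h = X ^ 3 + C α * X ^ 2 + C ((t : ℂ) * (starRingEnd ℂ) α) * X + C ((t : ℂ) ^ 3) := by
    rw [h.as_sum_range_C_mul_X_pow, hdeg]
    simp only [Finset.sum_range_succ, Finset.sum_range_zero]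
    rw [hc3, hc1, ht0, ← hα]
    simp only [pow_zero, mul_one, pow_one, zero_add, C_1, one_mul]
    ring
  have hHc : h.map (starRingEnd ℂ) =
      X ^ 3 + C ((starRingEnd ℂ) α) * X ^ 2 + C ((t : ℂ) * α) * X + C ((t : ℂ) ^ 3) := by
    have e1 : (starRingEnd ℂ) ((t : ℂ) * (starRingEnd ℂ) α) = (t : ℂ) * α := by simp
    have e2 : (starRingEnd ℂ) ((t : ℂ) ^ 3) = (t : ℂ) ^ 3 := by simp
    rw [hH]
    simp only [Polynomial.map_add, Polynomial.map_mul, Polynomial.map_pow, Polynomial.map_X,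
      Polynomial.map_C, e1, e2]
  refine ⟨t, A, n, ht, ?_, ?_⟩
  · -- the discriminant
    have him2 : α.im ≠ 0 := by
      intro h0
      have h1 : (starRingEnd ℂ) α = α := Complex.conj_eq_iff_im.2 h0
      have h2 : h.map (starRingEnd ℂ) = h := by
        rw [hHc, h1]
        conv_rhs => rw [hH, h1]
      rw [h2, isCoprime_self] at hcop
      have h3 := natDegree_eq_zero_of_isUnit hcop
      omega
    have h1 : ((A ^ 2 - 4 * n : ℤ) : ℂ) = ((-(4 * α.im ^ 2) : ℝ) : ℂ) := by
      push_cast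
      rw [← hA, ← hn]
      have h2 : α - (starRingEnd ℂ) α = 2 * (α.im : ℂ) * Complex.I := by
        apply Complex.ext
        · simp
        · simp
          ring
      have h3 : (α - (starRingEnd ℂ) α) ^ 2 = (2 * (α.im : ℂ) * Complex.I) ^ 2 := by rw [h2]
      linear_combination h3 + 4 * (α.im : ℂ) ^ 2 * Complex.I_sq
    have h2 : ((A ^ 2 - 4 * n : ℤ) : ℝ) = -(4 * α.im ^ 2) := by exact_mod_cast h1
    have h3 : ((A ^ 2 - 4 * n : ℤ) : ℝ) < 0 := by
      rw [h2]
      have : 0 < α.im ^ 2 := by positivity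
      linarith
    have h4 : (A ^ 2 - 4 * n : ℤ) < 0 := by exact_mod_cast h3
    linarith
  · apply Polynomial.map_injective (Int.castRingHom ℂ) (Int.cast_injective)
    rw [hfac, hHc, hH]
    unfold F
    simp only [Polynomial.map_add, Polynomial.map_mul, Polynomial.map_pow, Polynomial.map_X,
      Polynomial.map_C]
    simp only [eq_intCast (Int.castRingHom ℂ), Int.cast_mul, Int.cast_add, Int.cast_sub,
      Int.cast_pow, Int.cast_ofNat]
    rw [← hA, ← hn]
    have e3 : C (2 : ℂ) = (2 : ℂ[X]) := rfl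
    simp only [C_mul, C_add, C_pow, C_sub, e3]
    ring

end Pool.Agent.H142.TFt4b
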