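import Pool.Agent.H857.TF.Core

/-!
# T4c: there are no others if `q` is not a square (helper383 for helper857)
-/

set_option autoImplicit false

namespace Pool.Agent.H383.TFt4c

open Module Polynomial Pool.Agent.W521.Descent Pool.Agent.W521.Density Pool.Agent.W521.Count
  Pool.Agent.X297.UB Pool.Agent.H857.PB Pool.Agent.H857.PA Pool.Agent.H857.HK Pool.Agent.H857.EF
  Pool.Agent.H857.WT Pool.Agent.H857.SG Pool.Agent.H857.PD Pool.Agent.H857.TF

/-- A real element of an imaginary quadratic field is rational. -/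
lemma rat_of_im {D : ℕ} (hD : 0 < D) {z : ℂ} (hz : z ∈ quadField D) (him : z.im = 0) :
    ∃ x : ℚ, z = (x : ℂ) := by
  obtain ⟨x, y, hxy⟩ := hz
  have hs : 0 < Real.sqrt D := Real.sqrt_pos.mpr (by exact_mod_cast hD)
  have him2 : z.im = (y : ℝ) * Real.sqrt D := by
    rw [hxy]
    simp
  rw [him] at him2
  have hy : (y : ℝ) = 0 := by
    rcases mul_eq_zero.mp him2.symm with h | h
    · exact h
    · exact absurd h hs.ne'
  have hy0 : y = 0 := by exact_mod_cast hy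
  refine ⟨x, ?_⟩
  rw [hxy, hy0]
  simp

theorem t4c : T4c := by
  intro q f hq hsq hf
  obtain ⟨D, h, hD, hm, hc, hfac, hcop, N, hN, hpow⟩ := hf
  refine ⟨D, h, hD, hm, hc, hfac, hcop, ⟨N, hN, hpow⟩, ?_⟩
  intro him
  obtain ⟨x, hx⟩ := rat_of_im hD (hc 0) him
  rw [hx] at hpow
  have h1 : (x ^ 2) ^ N = ((q : ℚ) ^ 3) ^ N := by
    rw [← pow_mul]
    exact_mod_cast hpow
  have h2 : x ^ 2 = (q : ℚ) ^ 3 :=
    (pow_left_inj₀ (sq_nonneg x) (by positivity) hN.ne').mp h1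
  apply hsq
  rw [← Rat.isSquare_natCast_iff]
  have hq0 : (q : ℚ) ≠ 0 := by
    exact_mod_cast hq.ne'
  refine ⟨x / q, ?_⟩
  have h3 : x / q * (x / q) = x ^ 2 / (q : ℚ) ^ 2 := by ring
  rw [h3, h2]
  field_simp

end Pool.Agent.H383.TFt4c
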