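import Pool.Agent.H857.TF.Core

/-! T5: integral Newton polygons. -/

set_option autoImplicit false

namespace Pool.Agent.H894.TFT5

open Module Polynomial Pool.Agent.W521.Descent Pool.Agent.W521.Density Pool.Agent.W521.Count
  Pool.Agent.X297.UB Pool.Agent.H857.PB Pool.Agent.H857.PA Pool.Agent.H857.HK Pool.Agent.H857.EF
  Pool.Agent.H857.WT Pool.Agent.H857.SG Pool.Agent.H857.PD Pool.Agent.H857.TF

theorem coeff3 (t A n : ℤ) : (F t A n).coeff 3 = t * (2 * t ^ 2 + A ^ 2 - 2 * n) := by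
  unfold F
  simp only [coeff_add, coeff_X_pow, coeff_C_mul, coeff_X, coeff_C]
  norm_num

theorem coeff4 (t A n : ℤ) : (F t A n).coeff (3 + 1) = n + t * A := by
  unfold F
  simp only [coeff_add, coeff_X_pow, coeff_C_mul, coeff_X, coeff_C]
  norm_num

theorem t5 (h1 : T1) (h3 : O3n) (h7 : O7) : T5 := by
  intro p _ b t A n hb ht hReg hn
  have hp : p.Prime := Fact.out
  have hs : 0 < p ^ b := pow_pos hp.pos b
  have ht' : t = ((p ^ b : ℕ) : ℤ) ∨ t = -((p ^ b : ℕ) : ℤ) := by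
    rw [Nat.cast_pow]
    exact ht
  have hw : F t A n ∈ weilPolys (p ^ (2 * b)) 3 := by
    have h := (h1 (p ^ b) t A n hs ht' hReg.1).2 hReg
    rwa [← pow_mul, mul_comm b 2] at h
  have hdt : (p : ℤ) ^ b ∣ t := by
    rcases ht with h | h
    · rw [h]
    · rw [h]
      exact (dvd_neg).2 dvd_rfl
  have hpt : (p : ℤ) ∣ t := (dvd_pow_self (p : ℤ) hb.ne').trans hdt
  have hc3 : (p : ℤ) ^ b ∣ (F t A n).coeff 3 := by
    rw [coeff3]
    exact hdt.mul_right _
  have hc4 : ¬ (p : ℤ) ∣ (F t A n).coeff (3 + 1) := by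
    rw [coeff4]
    intro h
    exact hn ((dvd_add_left (hpt.mul_right A)).1 h)
  refine ⟨h3 p b 3 (F t A n) hb (by norm_num) hw hc3 hc4, ?_⟩
  exact h7 p (p ^ (2 * b)) 3 (F t A n) hp (dvd_pow_self p (by omega)) (by norm_num) hw hc4

end Pool.Agent.H894.TFT5
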