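import Pool.Agent.H857.TF.Core

/-!
# T6: irreducibility and exotic relations
-/

set_option autoImplicit false

namespace Pool.Agent.H903.TFT6

open Module Polynomial Pool.Agent.W521.Descent Pool.Agent.W521.Density Pool.Agent.W521.Count
  Pool.Agent.X297.UB Pool.Agent.H857.PB Pool.Agent.H857.PA Pool.Agent.H857.HK Pool.Agent.H857.EF
  Pool.Agent.H857.WT Pool.Agent.H857.SG Pool.Agent.H857.PD Pool.Agent.H857.TF

open scoped IntermediateField

/-- The cubic `H` with `F = X ^ 3 H (X + t ^ 2 / X)`. -/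
noncomputable def Hc (t A n : ℤ) : ℤ[X] :=
  X ^ 3 + C A * X ^ 2 + C (n + t * A - 3 * t ^ 2) * X +
    C (-(2 * t ^ 2 * A) + 2 * t ^ 3 + t * A ^ 2 - 2 * t * n)

theorem Hc_deg (t A n : ℤ) : (Hc t A n).natDegree = 3 := by
  unfold Hc
  compute_degree!

theorem Hc_monic (t A n : ℤ) : (Hc t A n).Monic := by
  unfold Hc
  monicity!

theorem Hc_eval (t A n b : ℤ) : (Hc t A n).eval b = b ^ 3 + A * b ^ 2 +
    (n + t * A - 3 * t ^ 2) * b - 2 * t ^ 2 * A + 2 * t ^ 3 + t * A ^ 2 - 2 * t * n := by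
  unfold Hc
  simp only [eval_add, eval_mul, eval_pow, eval_X, eval_C]
  ring

theorem Hc_irr {t A n : ℤ} (hR : ∀ b, ¬ Rt t A n b) : Irreducible (Hc t A n) := by
  rw [(Hc_monic t A n).irreducible_iff_roots_eq_zero_of_degree_le_three
    (by rw [Hc_deg]; norm_num) (by rw [Hc_deg])]
  rw [Multiset.eq_zero_iff_forall_notMem]
  intro b hb
  have h1 := (mem_roots'.1 hb).2
  rw [IsRoot.def, Hc_eval] at h1
  exact hR b h1

theorem F_aeval (t A n : ℤ) (z : ℂ) : aeval z (F t A n) = z ^ 6 + A * z ^ 5 +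
    (n + t * A) * z ^ 4 + (t * (2 * t ^ 2 + A ^ 2 - 2 * n)) * z ^ 3 +
    (t ^ 2 * (n + t * A)) * z ^ 2 + (t ^ 4 * A) * z + t ^ 6 := by
  unfold F
  simp only [map_add, map_mul, map_pow, aeval_X, aeval_C]
  simp

theorem Hc_aeval (t A n : ℤ) (x : ℂ) : aeval x (Hc t A n) = x ^ 3 + A * x ^ 2 +
    (n + t * A - 3 * t ^ 2) * x +
    (-(2 * t ^ 2 * A) + 2 * t ^ 3 + t * A ^ 2 - 2 * t * n) := by
  unfold Hc
  simp only [map_add, map_mul, map_pow, aeval_X, aeval_C]
  simp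

theorem root_H {t A n : ℤ} {z : ℂ} (hz0 : z ≠ 0) (hz : aeval z (F t A n) = 0) :
    aeval (z + (t : ℂ) ^ 2 / z) (Hc t A n) = 0 := by
  rw [F_aeval] at hz
  rw [Hc_aeval]
  have h1 : z ^ 3 * ((z + (t : ℂ) ^ 2 / z) ^ 3 + A * (z + (t : ℂ) ^ 2 / z) ^ 2 +
    (n + t * A - 3 * t ^ 2) * (z + (t : ℂ) ^ 2 / z) +
    (-(2 * t ^ 2 * A) + 2 * t ^ 3 + t * A ^ 2 - 2 * t * n)) = z ^ 6 + A * z ^ 5 +
    (n + t * A) * z ^ 4 + (t * (2 * t ^ 2 + A ^ 2 - 2 * n)) * z ^ 3 +
    (t ^ 2 * (n + t * A)) * z ^ 2 + (t ^ 4 * A) * z + t ^ 6 := by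
    field_simp
    ring
  rw [hz] at h1
  rcases mul_eq_zero.1 h1 with h2 | h2
  · exact absurd h2 (pow_ne_zero 3 hz0)
  · exact h2

theorem sq_eq {s : ℕ} {t : ℤ} (ht : t = s ∨ t = -s) : (t : ℂ) ^ 2 = (s : ℂ) ^ 2 := by
  rcases ht with h | h
  · rw [h]
    push_cast
    ring
  · rw [h]
    push_cast
    ring

theorem minp {s : ℕ} {t A n : ℤ} (hs : 1 < s) (ht : t = s ∨ t = -s)
    (hF : F t A n ∈ weilPolys (s ^ 2) 3) (hR : ∀ b, ¬ Rt t A n b) {z : ℂ}
    (hz : aeval z (F t A n) = 0) : minpoly ℚ z = (F t A n).map (algebraMap ℤ ℚ) := by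
  obtain ⟨hm, hdeg, h0, hroot⟩ := hF
  have hz2 := hroot z hz
  have hs0 : (s : ℝ) ≠ 0 := by
    have : s ≠ 0 := by omega
    exact_mod_cast this
  have hz0 : z ≠ 0 := by
    rintro rfl
    rw [norm_zero] at hz2
    push_cast at hz2
    apply pow_ne_zero 2 hs0
    rw [← hz2]
    norm_num
  have ht2 := sq_eq ht
  have hθH := root_H hz0 hz
  obtain ⟨θ, hθ⟩ : ∃ θ : ℂ, θ = z + (t : ℂ) ^ 2 / z := ⟨_, rfl⟩
  rw [← hθ] at hθH
  have hzc : (t : ℂ) ^ 2 / z = (starRingEnd ℂ) z := by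
    rw [ht2, div_eq_iff hz0, mul_comm, Complex.mul_conj, Complex.normSq_eq_norm_sq, hz2]
    push_cast
    ring
  have hθre : θ = ((2 * z.re : ℝ) : ℂ) := by
    rw [hθ, hzc, Complex.add_conj]
  -- integrality
  have hFm : ((F t A n).map (algebraMap ℤ ℚ)).Monic := hm.map _
  have hFz : aeval z ((F t A n).map (algebraMap ℤ ℚ)) = 0 := by
    rw [aeval_map_algebraMap]
    exact hz
  have hint : IsIntegral ℚ z := ⟨_, hFm, by
    have := hFz
    rwa [aeval_def] at this⟩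
  have hHm : ((Hc t A n).map (algebraMap ℤ ℚ)).Monic := (Hc_monic t A n).map _
  have hHz : aeval θ ((Hc t A n).map (algebraMap ℤ ℚ)) = 0 := by
    rw [aeval_map_algebraMap]
    exact hθH
  have hintθ : IsIntegral ℚ θ := ⟨_, hHm, by
    have := hHz
    rwa [aeval_def] at this⟩
  have hHi : Irreducible ((Hc t A n).map (algebraMap ℤ ℚ)) :=
    ((Hc_monic t A n).irreducible_iff_irreducible_map_fraction_map (K := ℚ)).1 (Hc_irr hR)
  have hmθ : minpoly ℚ θ = (Hc t A n).map (algebraMap ℤ ℚ) :=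
    (minpoly.eq_of_irreducible_of_monic hHi hHz hHm).symm
  have hd3 : finrank ℚ ℚ⟮θ⟯ = 3 := by
    rw [IntermediateField.adjoin.finrank hintθ, hmθ, (Hc_monic t A n).natDegree_map, Hc_deg]
  have hle : ℚ⟮θ⟯ ≤ ℚ⟮z⟯ := by
    rw [IntermediateField.adjoin_simple_le_iff, hθ]
    have h1 : z ∈ ℚ⟮z⟯ := IntermediateField.mem_adjoin_simple_self ℚ z
    have h2 : ((t : ℂ)) ∈ ℚ⟮z⟯ := intCast_mem _ t
    exact add_mem h1 (div_mem (pow_mem h2 2) h1)
  have hdz : finrank ℚ ℚ⟮z⟯ = (minpoly ℚ z).natDegree := IntermediateField.adjoin.finrank hint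
  have hdvd : 3 ∣ (minpoly ℚ z).natDegree := by
    rw [← hdz, ← hd3]
    exact IntermediateField.finrank_dvd_of_le_right hle
  have hmd : minpoly ℚ z ∣ (F t A n).map (algebraMap ℤ ℚ) := minpoly.dvd ℚ z hFz
  have hdF : ((F t A n).map (algebraMap ℤ ℚ)).natDegree = 6 := by
    rw [hm.natDegree_map, hdeg]
  have hle6 : (minpoly ℚ z).natDegree ≤ 6 := by
    rw [← hdF]
    exact natDegree_le_of_dvd hmd hFm.ne_zero
  have hpos : 0 < (minpoly ℚ z).natDegree := minpoly.natDegree_pos hint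
  have hne3 : (minpoly ℚ z).natDegree ≠ 3 := by
    intro h3
    have hfd : FiniteDimensional ℚ ℚ⟮z⟯ := IntermediateField.adjoin.finiteDimensional hint
    have heq : ℚ⟮θ⟯ = ℚ⟮z⟯ := IntermediateField.eq_of_le_of_finrank_eq hle (by
      rw [hd3, hdz, h3])
    have hreal : ℚ⟮θ⟯ ≤ ((Algebra.ofId ℝ ℂ).restrictScalars ℚ).fieldRange := by
      rw [IntermediateField.adjoin_simple_le_iff, AlgHom.mem_fieldRange]
      exact ⟨2 * z.re, by rw [hθre]; rfl⟩
    have hzr : z ∈ ((Algebra.ofId ℝ ℂ).restrictScalars ℚ).fieldRange := by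
      apply hreal
      rw [heq]
      exact IntermediateField.mem_adjoin_simple_self ℚ z
    rw [AlgHom.mem_fieldRange] at hzr
    obtain ⟨x, hx⟩ := hzr
    have hx' : z = (x : ℂ) := by
      rw [← hx]
      rfl
    have hx2 : x ^ 2 = (s : ℝ) ^ 2 := by
      rw [hx', Complex.norm_real, Real.norm_eq_abs, sq_abs] at hz2
      rw [hz2]
      push_cast
      rfl
    have hθ2 : θ = 2 * (x : ℂ) := by
      rw [hθre, hx']
      push_cast
      rw [Complex.ofReal_re]
    rcases sq_eq_sq_iff_eq_or_eq_neg.1 hx2 with h4 | h4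
    · have h5 : θ = ((2 * s : ℤ) : ℂ) := by
        rw [hθ2, h4]
        push_cast
        ring
      rw [h5, Hc_aeval] at hθH
      apply hR (2 * s)
      unfold Rt
      have h6 : ((2 * s : ℤ) : ℂ) ^ 3 + A * ((2 * s : ℤ) : ℂ) ^ 2 +
        (n + t * A - 3 * t ^ 2) * ((2 * s : ℤ) : ℂ) - 2 * t ^ 2 * A + 2 * t ^ 3 + t * A ^ 2 -
        2 * t * n = 0 := by
        rw [← hθH]
        ring
      exact_mod_cast h6
    · have h5 : θ = ((-2 * s : ℤ) : ℂ) := by
        rw [hθ2, h4]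
        push_cast
        ring
      rw [h5, Hc_aeval] at hθH
      apply hR (-2 * s)
      unfold Rt
      have h6 : ((-2 * s : ℤ) : ℂ) ^ 3 + A * ((-2 * s : ℤ) : ℂ) ^ 2 +
        (n + t * A - 3 * t ^ 2) * ((-2 * s : ℤ) : ℂ) - 2 * t ^ 2 * A + 2 * t ^ 3 + t * A ^ 2 -
        2 * t * n = 0 := by
        rw [← hθH]
        ring
      exact_mod_cast h6
  have hd6 : (minpoly ℚ z).natDegree = 6 := by omega
  exact (Polynomial.eq_of_monic_of_dvd_of_natDegree_le (minpoly.monic hint) hFm hmd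
    (by rw [hdF, hd6])).symm

/-- The complement of a pair with product `q` is supersingular. -/
theorem pair_sup {q N : ℕ} {t : ℤ} {a b c : ℂ} (hq : (q : ℂ) ≠ 0) (ht : (t : ℂ) ^ 2 = q)
    (h : a * b * c = -(t : ℂ) ^ 3) (hN : (a * b) ^ N = (q : ℂ) ^ N) :
    c ^ (2 * N) = (q : ℂ) ^ N := by
  have h1 : (a * b * c) ^ (2 * N) = (q : ℂ) ^ N * ((q : ℂ) ^ N * (q : ℂ) ^ N) := by
    have h3 : (-(t : ℂ) ^ 3) ^ (2 * N) = ((t : ℂ) ^ 2) ^ (N + (N + N)) := by
      rw [pow_mul, neg_sq, ← pow_mul, ← pow_mul, ← pow_mul]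
      congr 1
      ring
    rw [h, h3, ht, pow_add, pow_add]
  rw [mul_pow, mul_comm 2 N, pow_mul, hN, mul_comm N 2] at h1
  have h2 : ((q : ℂ) ^ N) ^ 2 = (q : ℂ) ^ N * (q : ℂ) ^ N := sq _
  rw [h2, mul_comm] at h1
  exact mul_right_cancel₀ (mul_ne_zero (pow_ne_zero N hq) (pow_ne_zero N hq)) h1

theorem t6' : T6 := by
  intro s t A n hs ht hA hF hR hns
  have hmp := fun z hz => minp (z := z) hs ht hF hR hz
  obtain ⟨w, hw, hws⟩ := hns
  have hm := hF.1
  have hroot := hF.2.2.2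
  have hFm : ((F t A n).map (algebraMap ℤ ℚ)).Monic := hm.map _
  have hs0 : (s : ℂ) ≠ 0 := by
    have : s ≠ 0 := by omega
    exact_mod_cast this
  have hq0 : ((s ^ 2 : ℕ) : ℂ) ≠ 0 := by
    push_cast
    exact pow_ne_zero 2 hs0
  have ht2 : (t : ℂ) ^ 2 = ((s ^ 2 : ℕ) : ℂ) := by
    rw [sq_eq ht]
    push_cast
    rfl
  -- no root is supersingular
  have hsup : ∀ z : ℂ, aeval z (F t A n) = 0 → ∀ M : ℕ, 0 < M →
      z ^ (2 * M) ≠ ((s ^ 2 : ℕ) : ℂ) ^ M := by
    intro z hz M hM h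
    apply hws M hM
    have h1 : minpoly ℚ z ∣ (X ^ (2 * M) - C (((s ^ 2 : ℕ) : ℚ) ^ M) : ℚ[X]) := by
      apply minpoly.dvd
      rw [map_sub, map_pow, aeval_X, aeval_C, h]
      simp
    rw [hmp z hz, ← hmp w hw] at h1
    have h2 := aeval_eq_zero_of_dvd_aeval_eq_zero h1 (minpoly.aeval ℚ w)
    rw [map_sub, map_pow, aeval_X, aeval_C, sub_eq_zero] at h2
    rw [h2]
    simp
  refine ⟨?_, ?_⟩
  · rw [hm.irreducible_iff_irreducible_map_fraction_map (K := ℚ), ← hmp w hw]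
    apply minpoly.irreducible
    refine ⟨_, hFm, ?_⟩
    rw [← aeval_def, aeval_map_algebraMap]
    exact hw
  · -- the factor
    obtain ⟨D, hD⟩ : ∃ D : ℝ, D ^ 2 = 4 * n - A ^ 2 := by
      have : (0 : ℝ) ≤ 4 * n - A ^ 2 := by
        have h1 : ((A ^ 2 : ℤ) : ℝ) < ((4 * n : ℤ) : ℝ) := by exact_mod_cast hA
        push_cast at h1
        linarith
      exact ⟨Real.sqrt (4 * n - A ^ 2), Real.sq_sqrt this⟩
    have hDc : (D : ℂ) ^ 2 = 4 * n - A ^ 2 := by
      exact_mod_cast hD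
    obtain ⟨α, hα⟩ : ∃ α : ℂ, α = (A + D * Complex.I) / 2 := ⟨_, rfl⟩
    obtain ⟨β, hβ⟩ : ∃ β : ℂ, β = (A - D * Complex.I) / 2 := ⟨_, rfl⟩
    have hs1 : α + β = A := by
      rw [hα, hβ]
      ring
    have hs2 : α * β = n := by
      have h1 : α * β = (A ^ 2 - D ^ 2 * Complex.I ^ 2) / 4 := by
        rw [hα, hβ]
        ring
      rw [h1, hDc, Complex.I_sq]
      ring
    obtain ⟨h, hh⟩ : ∃ h : ℂ[X], h = X ^ 3 + C α * X ^ 2 + C (t * β) * X + C ((t : ℂ) ^ 3) :=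
      ⟨_, rfl⟩
    have hhm : h.Monic := by
      rw [hh]
      monicity!
    have hhd : h.natDegree = 3 := by
      rw [hh]
      compute_degree!
    have hhF : ∀ z : ℂ, h.eval z = 0 → aeval z (F t A n) = 0 := by
      intro z hz
      rw [hh] at hz
      simp only [eval_add, eval_mul, eval_pow, eval_X, eval_C] at hz
      have h1 : aeval z (F t A n) = (z ^ 3 + α * z ^ 2 + t * β * z + (t : ℂ) ^ 3) *
          (z ^ 3 + β * z ^ 2 + t * α * z + (t : ℂ) ^ 3) := by
        rw [F_aeval, ← hs1, ← hs2]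
        ring
      rw [h1, hz, zero_mul]
    have hcard : Multiset.card h.roots = 3 := by
      rw [← (IsAlgClosed.splits h).natDegree_eq_card_roots, hhd]
    obtain ⟨a, b, c, habc⟩ := Multiset.card_eq_three.1 hcard
    have hprod : h = (X - C a) * (X - C b) * (X - C c) := by
      have h1 := (IsAlgClosed.splits h).eq_prod_roots_of_monic hhm
      rw [habc] at h1
      rw [h1]
      simp [mul_assoc]
    have habc3 : a * b * c = -(t : ℂ) ^ 3 := by
      have h1 := congrArg (eval 0) hprod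
      rw [hh] at h1
      simp only [eval_add, eval_mul, eval_pow, eval_X, eval_C, eval_sub] at h1
      linear_combination h1
    have ha : aeval a (F t A n) = 0 := hhF a (by
      rw [hprod]
      simp)
    have hb : aeval b (F t A n) = 0 := hhF b (by
      rw [hprod]
      simp)
    have hc : aeval c (F t A n) = 0 := hhF c (by
      rw [hprod]
      simp)
    have hself : ∀ z : ℂ, aeval z (F t A n) = 0 → ¬ PairRel (s ^ 2) z z := by
      rintro z hz ⟨N, hN, hN2⟩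
      apply hsup z hz N hN
      rw [← hN2]
      ring
    have hother : ∀ x y z : ℂ, x * y * z = -(t : ℂ) ^ 3 → aeval z (F t A n) = 0 →
        ¬ PairRel (s ^ 2) x y := by
      rintro x y z hxyz hz ⟨N, hN, hN2⟩
      exact hsup z hz N hN (pair_sup hq0 ht2 hxyz hN2)
    refine ⟨[a, b, c, a, b, c], by simp, ?_, ?_, ?_⟩
    · intro z hz
      simp only [List.mem_cons, List.not_mem_nil, or_false] at hz
      rcases hz with rfl | rfl | rfl | rfl | rfl | rfl <;> assumption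
    · refine ⟨1, one_pos, 3, ?_⟩
      have h1 : ([a, b, c, a, b, c] : List ℂ).prod = (a * b * c) ^ 2 := by
        simp only [List.prod_cons, List.prod_nil]
        ring
      rw [h1, habc3, pow_one, neg_sq, ← pow_mul, mul_comm 3 2, pow_mul, ht2]
      norm_cast
    · apply List.pairwise_of_forall_mem_list
      intro x hx y hy
      simp only [List.mem_cons, List.not_mem_nil, or_false] at hx hy
      have hx' : x = a ∨ x = b ∨ x = c := by tauto
      have hy' : y = a ∨ y = b ∨ y = c := by tauto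
      rcases hx' with rfl | rfl | rfl <;> rcases hy' with rfl | rfl | rfl
      · exact hself _ ha
      · exact hother _ _ c habc3 hc
      · exact hother _ _ b (by rw [← habc3]; ring) hb
      · exact hother _ _ c (by rw [← habc3]; ring) hc
      · exact hself _ hb
      · exact hother _ _ a (by rw [← habc3]; ring) ha
      · exact hother _ _ b (by rw [← habc3]; ring) hb
      · exact hother _ _ a (by rw [← habc3]; ring) ha
      · exact hself _ hc

/-- `T6` (the hypothesis is not needed) -/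
theorem t6 (_h6 : O6) : T6 := t6'

end Pool.Agent.H903.TFT6
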