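import Pool.Agent.H857.TF.Core

/-!
# T9: collisions
-/

set_option autoImplicit false

namespace Pool.Agent.H975.TFt9

open Module Polynomial Pool.Agent.W521.Descent Pool.Agent.W521.Density Pool.Agent.W521.Count
  Pool.Agent.X297.UB Pool.Agent.H857.PB Pool.Agent.H857.PA Pool.Agent.H857.HK Pool.Agent.H857.EF
  Pool.Agent.H857.WT Pool.Agent.H857.SG Pool.Agent.H857.PD Pool.Agent.H857.TF

theorem reg_bounds {s A n : ℤ} (hs : 0 < s) (h : Reg s A n) : -3 * s ≤ A ∧ A ≤ 6 * s := by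
  obtain ⟨h1, h2⟩ := h
  constructor
  · by_contra hlt
    push Not at hlt
    have h3 : A + 3 * s < 0 := by linarith
    have h4 : (A + 3 * s) ^ 3 < 0 := by
      have : (A + 3 * s) ^ 3 = (A + 3 * s) ^ 2 * (A + 3 * s) := by ring
      rw [this]
      exact mul_neg_of_pos_of_neg (sq_pos_of_neg h3) h3
    have h5 : 4 * s * (A + 3 * s) ^ 3 < 0 := mul_neg_of_pos_of_neg (by linarith) h4
    have h6 := sq_nonneg (n + 6 * A * s + 9 * s ^ 2)
    linarith
  · by_contra hlt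
    push Not at hlt
    have hA : 0 < A := by linarith
    have hv : 0 < A ^ 2 + 24 * A * s + 36 * s ^ 2 := by positivity
    have hu : A ^ 2 + 24 * A * s + 36 * s ^ 2 < 4 * (n + 6 * A * s + 9 * s ^ 2) := by linarith
    have h3 : (A ^ 2 + 24 * A * s + 36 * s ^ 2) ^ 2 < (4 * (n + 6 * A * s + 9 * s ^ 2)) ^ 2 :=
      pow_lt_pow_left₀ hu hv.le two_ne_zero
    have h4 : (A ^ 2 + 24 * A * s + 36 * s ^ 2) ^ 2 =
        16 * (4 * s * (A + 3 * s) ^ 3) + (A - 6 * s) ^ 3 * (A + 2 * s) := by ring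
    have h5 : 0 < (A - 6 * s) ^ 3 * (A + 2 * s) :=
      mul_pos (pow_pos (by linarith) 3) (by linarith)
    have h6 : (4 * (n + 6 * A * s + 9 * s ^ 2)) ^ 2 = 16 * (n + 6 * A * s + 9 * s ^ 2) ^ 2 := by
      ring
    linarith

theorem coll {s A n A' n' : ℤ} (hs : 0 < s) (h : F s A n = F (-s) A' n') :
    2 * n = 2 * s ^ 2 + A ^ 2 - 2 * s * A := by
  have c5 := congrArg (fun p : ℤ[X] => p.coeff 5) h
  have c4 := congrArg (fun p : ℤ[X] => p.coeff 4) h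
  have c3 := congrArg (fun p : ℤ[X] => p.coeff 3) h
  unfold F at c5 c4 c3
  simp only [coeff_add, coeff_C_mul, coeff_X_pow, coeff_C, coeff_X] at c5 c4 c3
  norm_num at c5 c4 c3
  subst c5
  have h3 : s * (2 * s ^ 2 + A ^ 2 - 2 * n) = s * (-(2 * s ^ 2 + A ^ 2 - 2 * n')) := by
    linarith
  have h4 := mul_left_cancel₀ hs.ne' h3
  linarith

theorem t9 : T9 := by
  classical
  refine ⟨10, by norm_num, fun s hs => ?_⟩
  have hs' : (0 : ℤ) < s := by exact_mod_cast hs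
  have hsub : {x : ℤ × ℤ | Reg s x.1 x.2 ∧ ∃ A n : ℤ, F s x.1 x.2 = F (-s) A n} ⊆
      (((Finset.Icc (-3 * (s : ℤ)) (6 * s)).image
        (fun A : ℤ => (A, (2 * (s : ℤ) ^ 2 + A ^ 2 - 2 * s * A) / 2)) : Finset (ℤ × ℤ)) :
          Set (ℤ × ℤ)) := by
    rintro ⟨A, n⟩ ⟨h1, A', n', h2⟩
    simp only at h1 h2
    obtain ⟨h3, h4⟩ := reg_bounds hs' h1
    have h5 := coll hs' h2
    rw [Finset.mem_coe, Finset.mem_image]
    refine ⟨A, Finset.mem_Icc.2 ⟨h3, h4⟩, ?_⟩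
    rw [← h5]
    simp
  refine ⟨Set.Finite.subset (Finset.finite_toSet _) hsub, ?_⟩
  have h1 := Set.ncard_le_ncard hsub (Finset.finite_toSet _)
  rw [Set.ncard_coe_finset] at h1
  have h2 := h1.trans Finset.card_image_le
  rw [Int.card_Icc] at h2
  have h3 : (6 * (s : ℤ) + 1 - -3 * (s : ℤ)).toNat ≤ 10 * s ^ 2 := by
    have : (s : ℤ) ≤ (s : ℤ) ^ 2 := by nlinarith
    have h4 : 6 * (s : ℤ) + 1 - -3 * (s : ℤ) ≤ 10 * (s : ℤ) ^ 2 := by linarith
    rw [Int.toNat_le]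
    push_cast
    exact h4
  exact_mod_cast h2.trans h3

end Pool.Agent.H975.TFt9
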