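import Pool.Agent.H857.TF.Core2

/-!
# The sections of the region are intervals
-/

set_option autoImplicit false

namespace Pool.Agent.H857.TF

/-- The region in terms of the real parameter `c`. -/
lemma U1x.reg_iff {s : ℕ} (hs : 0 < s) {A : ℤ} {c : ℝ} (hc : 0 ≤ c)
    (hA : (A : ℝ) = s * (c ^ 2 - 3)) (n : ℤ) :
    Reg s A n ↔ (A : ℝ) ^ 2 / 4 < n ∧ (s : ℝ) ^ 2 * (9 - 6 * c ^ 2 - 2 * c ^ 3) ≤ n ∧
      (n : ℝ) ≤ (s : ℝ) ^ 2 * (9 - 6 * c ^ 2 + 2 * c ^ 3) := by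
  have hS : (0 : ℝ) < s := by exact_mod_cast hs
  have h1 : A ^ 2 < 4 * n ↔ (A : ℝ) ^ 2 / 4 < n := by
    rw [div_lt_iff₀ (by norm_num)]
    constructor
    · intro h
      have h' : ((A ^ 2 : ℤ) : ℝ) < ((4 * n : ℤ) : ℝ) := by exact_mod_cast h
      push_cast at h'
      linarith
    · intro h
      have h' : ((A ^ 2 : ℤ) : ℝ) < ((4 * n : ℤ) : ℝ) := by
        push_cast
        linarith
      exact_mod_cast h'
  have h2 : (n + 6 * A * (s : ℤ) + 9 * (s : ℤ) ^ 2) ^ 2 ≤ 4 * (s : ℤ) * (A + 3 * (s : ℤ)) ^ 3 ↔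
      ((n : ℝ) - (s : ℝ) ^ 2 * (9 - 6 * c ^ 2)) ^ 2 ≤ (2 * (s : ℝ) ^ 2 * c ^ 3) ^ 2 := by
    have e1 : ((n : ℝ) - (s : ℝ) ^ 2 * (9 - 6 * c ^ 2)) ^ 2 =
        (((n + 6 * A * (s : ℤ) + 9 * (s : ℤ) ^ 2) ^ 2 : ℤ) : ℝ) := by
      push_cast
      rw [hA]
      ring
    have e2 : (2 * (s : ℝ) ^ 2 * c ^ 3) ^ 2 =
        ((4 * (s : ℤ) * (A + 3 * (s : ℤ)) ^ 3 : ℤ) : ℝ) := by
      push_cast
      rw [hA]
      ring
    rw [e1, e2, Int.cast_le]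
  have hR : 0 ≤ 2 * (s : ℝ) ^ 2 * c ^ 3 := by positivity
  rw [Reg, h1, h2, sq_le_sq, abs_of_nonneg hR, abs_le]
  constructor
  · rintro ⟨h3, h4, h5⟩
    exact ⟨h3, by linarith, by linarith⟩
  · rintro ⟨h3, h4, h5⟩
    exact ⟨h3, by linarith, by linarith⟩

/-- The case of the nonempty sections. -/
lemma U1x.main {s : ℕ} (hs : 0 < s) {A : ℤ} (hA1 : -3 * (s : ℤ) ≤ A) (hA2 : A ≤ 6 * s) :
    ∃ lo hi : ℤ, {n : ℤ | Reg s A n} = Set.Icc lo hi ∧ hi - lo ≤ 9 * (s : ℤ) ^ 2 ∧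
      -1 ≤ hi - lo ∧ |(((hi - lo : ℤ) : ℝ)) - (s : ℝ) ^ 2 * len (A / s)| ≤ 3 := by
  have hS : (0 : ℝ) < s := by exact_mod_cast hs
  have hA1' : -3 * (s : ℝ) ≤ A := by exact_mod_cast hA1
  have hA2' : (A : ℝ) ≤ 6 * s := by exact_mod_cast hA2
  have ha1 : (-3 : ℝ) ≤ (A : ℝ) / s := by rwa [le_div_iff₀ hS]
  have ha2 : (A : ℝ) / s ≤ 6 := by rwa [div_le_iff₀ hS]
  obtain ⟨c, hc⟩ : ∃ c, c = Real.sqrt ((A : ℝ) / s + 3) := ⟨_, rfl⟩
  have hc0 : 0 ≤ c := hc ▸ Real.sqrt_nonneg _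
  have hc2 : c ^ 2 = (A : ℝ) / s + 3 := by
    rw [hc]
    exact Real.sq_sqrt (by linarith)
  have hc3 : c ≤ 3 := by nlinarith
  have hA : (A : ℝ) = s * (c ^ 2 - 3) := by
    rw [hc2]
    field_simp
    ring
  obtain ⟨L, hL⟩ : ∃ L, L = (s : ℝ) ^ 2 * (9 - 6 * c ^ 2 - 2 * c ^ 3) := ⟨_, rfl⟩
  obtain ⟨U, hU⟩ : ∃ U, U = (s : ℝ) ^ 2 * (9 - 6 * c ^ 2 + 2 * c ^ 3) := ⟨_, rfl⟩
  obtain ⟨Q, hQ⟩ : ∃ Q, Q = (A : ℝ) ^ 2 / 4 := ⟨_, rfl⟩
  have hUQ : U - Q = (s : ℝ) ^ 2 * ((3 - c) ^ 3 * (c + 1) / 4) := by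
    rw [hU, hQ, hA]
    ring
  have hUL : U - L = (s : ℝ) ^ 2 * (4 * c ^ 3) := by
    rw [hU, hL]
    ring
  have hQL : Q - L = (s : ℝ) ^ 2 * ((c + 3) ^ 3 * (c - 1) / 4) := by
    rw [hQ, hL, hA]
    ring
  -- the length
  have hlen : 0 ≤ len ((A : ℝ) / s) ∧ len ((A : ℝ) / s) ≤ 9 ∧
      U - max L Q = (s : ℝ) ^ 2 * len ((A : ℝ) / s) := by
    have hca : (A : ℝ) / s = c ^ 2 - 3 := by rw [hc2]; ring
    by_cases h : (A : ℝ) / s ≤ -2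
    · have hc1 : c ≤ 1 := by nlinarith
      have hle : Q ≤ L := by
        have h1 : 0 ≤ (c + 3) ^ 3 * (1 - c) := mul_nonneg (by positivity) (by linarith)
        have h2 : Q - L = -((s : ℝ) ^ 2 * ((c + 3) ^ 3 * (1 - c) / 4)) := by
          rw [hQL]
          ring
        have h3 : 0 ≤ (s : ℝ) ^ 2 * ((c + 3) ^ 3 * (1 - c) / 4) := by positivity
        linarith
      have hl : len ((A : ℝ) / s) = 4 * c ^ 3 := by
        rw [len, if_pos h, ← hc]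
      refine ⟨by rw [hl]; positivity, ?_, by rw [max_eq_left hle, hl, hUL]⟩
      rw [hl]
      have h4 : c ^ 3 ≤ 1 := pow_le_one₀ hc0 hc1
      linarith
    · have hc1 : 1 ≤ c := by
        by_contra hcon
        push Not at h hcon
        nlinarith
      have hle : L ≤ Q := by
        have h1 : 0 ≤ (c + 3) ^ 3 * (c - 1) := mul_nonneg (by positivity) (by linarith)
        have h3 : 0 ≤ (s : ℝ) ^ 2 * ((c + 3) ^ 3 * (c - 1) / 4) := by positivity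
        linarith
      have hl : len ((A : ℝ) / s) = (3 - c) ^ 3 * (c + 1) / 4 := by
        rw [len, if_neg h, if_pos ha2, ← hc]
      have h5 : 0 ≤ (3 - c) ^ 3 := pow_nonneg (by linarith) 3
      refine ⟨by rw [hl]; positivity, ?_, by rw [max_eq_right hle, hl, hUQ]⟩
      rw [hl]
      have h4 : (3 - c) ^ 3 ≤ 2 ^ 3 := pow_le_pow_left₀ (by linarith) (by linarith) 3
      have h6 : (3 - c) ^ 3 * (c + 1) ≤ 2 ^ 3 * 4 := mul_le_mul h4 (by linarith) (by linarith)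
        (by norm_num)
      linarith
  obtain ⟨hl0, hl9, hlX⟩ := hlen
  have hLX : L ≤ max L Q := le_max_left _ _
  have hQX : Q ≤ max L Q := le_max_right _ _
  obtain ⟨X, hX⟩ : ∃ X, X = max L Q := ⟨_, rfl⟩
  rw [← hX] at hlX hLX hQX
  have hXU : X ≤ U := by
    have : 0 ≤ (s : ℝ) ^ 2 * len ((A : ℝ) / s) := by positivity
    linarith
  -- the ends
  have hlo1 : X ≤ ((max ⌈L⌉ (⌊Q⌋ + 1) : ℤ) : ℝ) := by
    rw [hX]
    push_cast
    refine max_le ((Int.le_ceil L).trans (le_max_left _ _)) ?_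
    exact (Int.lt_floor_add_one Q).le.trans (le_max_right _ _)
  have hlo2 : ((max ⌈L⌉ (⌊Q⌋ + 1) : ℤ) : ℝ) ≤ X + 1 := by
    push_cast
    refine max_le ?_ ?_
    · have := Int.ceil_lt_add_one L
      linarith
    · have := Int.floor_le Q
      linarith
  have hhi1 : ((⌊U⌋ : ℤ) : ℝ) ≤ U := Int.floor_le U
  have hhi2 : U - 1 < ((⌊U⌋ : ℤ) : ℝ) := Int.sub_one_lt_floor U
  obtain ⟨lo, hlo⟩ : ∃ lo, lo = max ⌈L⌉ (⌊Q⌋ + 1) := ⟨_, rfl⟩
  obtain ⟨hi, hhi⟩ : ∃ hi, hi = ⌊U⌋ := ⟨_, rfl⟩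
  rw [← hlo] at hlo1 hlo2
  rw [← hhi] at hhi1 hhi2
  refine ⟨lo, hi, ?_, ?_, ?_, ?_⟩
  · ext n
    rw [Set.mem_ofPred_eq, U1x.reg_iff hs hc0 hA n, Set.mem_Icc, ← hL, ← hU, ← hQ, hlo, hhi,
      max_le_iff, Int.ceil_le, Int.add_one_le_iff, Int.floor_lt, Int.le_floor]
    tauto
  · have h1 : (s : ℝ) ^ 2 * len ((A : ℝ) / s) ≤ (s : ℝ) ^ 2 * 9 :=
      mul_le_mul_of_nonneg_left hl9 (by positivity)
    have h2 : ((hi - lo : ℤ) : ℝ) ≤ ((9 * (s : ℤ) ^ 2 : ℤ) : ℝ) := by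
      push_cast
      linarith
    exact_mod_cast h2
  · have h2 : ((-2 : ℤ) : ℝ) < ((hi - lo : ℤ) : ℝ) := by
      push_cast
      linarith
    have h3 : (-2 : ℤ) < hi - lo := by exact_mod_cast h2
    omega
  · rw [← hlX, abs_le]
    push_cast
    constructor <;> linarith

theorem u1 : U1 := by
  intro s A hs
  by_cases h : -3 * (s : ℤ) ≤ A ∧ A ≤ 6 * s
  · obtain ⟨lo, hi, h1, h2, h3, h4⟩ := U1x.main hs h.1 h.2
    exact ⟨lo, hi, h1, h2, fun _ => h, fun _ _ => ⟨h3, h4⟩⟩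
  · refine ⟨1, 0, ?_, ?_, fun h1 => absurd h1 (by norm_num), fun h1 h2 => absurd ⟨h1, h2⟩ h⟩
    · rw [Set.Icc_eq_empty (by norm_num)]
      rw [Set.eq_empty_iff_forall_notMem]
      intro n hn
      apply h
      rw [Set.mem_ofPred_eq] at hn
      have hS : (0 : ℝ) < s := by exact_mod_cast hs
      have hs' : (0 : ℤ) < s := by exact_mod_cast hs
      have h1 : -3 * (s : ℤ) ≤ A := by
        by_contra hcon
        push Not at hcon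
        have h2 : (A + 3 * (s : ℤ)) ^ 3 < 0 := by
          have h3 : A + 3 * (s : ℤ) < 0 := by linarith
          exact Odd.pow_neg (by decide) h3
        have h4 : 4 * (s : ℤ) * (A + 3 * (s : ℤ)) ^ 3 < 0 :=
          mul_neg_of_pos_of_neg (by linarith) h2
        have h5 := hn.2
        have h6 := sq_nonneg (n + 6 * A * (s : ℤ) + 9 * (s : ℤ) ^ 2)
        linarith
      refine ⟨h1, ?_⟩
      by_contra hcon
      push Not at hcon
      have hA1' : -3 * (s : ℝ) ≤ A := by exact_mod_cast h1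
      have hA2' : 6 * (s : ℝ) < A := by exact_mod_cast hcon
      have ha2 : 6 < (A : ℝ) / s := by rwa [lt_div_iff₀ hS]
      obtain ⟨c, hc⟩ : ∃ c, c = Real.sqrt ((A : ℝ) / s + 3) := ⟨_, rfl⟩
      have hc0 : 0 ≤ c := hc ▸ Real.sqrt_nonneg _
      have hc2 : c ^ 2 = (A : ℝ) / s + 3 := by
        rw [hc]
        exact Real.sq_sqrt (by linarith)
      have hc3 : 3 < c := by nlinarith
      have hA : (A : ℝ) = s * (c ^ 2 - 3) := by
        rw [hc2]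
        field_simp
        ring
      obtain ⟨g1, -, g3⟩ := (U1x.reg_iff hs hc0 hA n).1 hn
      have h7 : (s : ℝ) ^ 2 * (9 - 6 * c ^ 2 + 2 * c ^ 3) - (A : ℝ) ^ 2 / 4 =
          -((s : ℝ) ^ 2 * ((c - 3) ^ 3 * (c + 1) / 4)) := by
        rw [hA]
        ring
      have h8 : 0 < (c - 3) ^ 3 := pow_pos (by linarith) 3
      have h9 : 0 < (s : ℝ) ^ 2 * ((c - 3) ^ 3 * (c + 1) / 4) := by positivity
      linarith
    · have : (0 : ℤ) ≤ 9 * (s : ℤ) ^ 2 := by positivity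
      linarith

end Pool.Agent.H857.TF
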