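import Pool.Agent.H857.TF.Core2
import Pool.Agent.H857.TF.P.T2a

/-!
# TF U2: Riemann sums over residue classes (helper118)
-/

set_option autoImplicit false

namespace Pool.Agent.H118.TFu2

open Module Polynomial Pool.Agent.W521.Descent Pool.Agent.W521.Density Pool.Agent.W521.Count
  Pool.Agent.X297.UB Pool.Agent.H857.PB Pool.Agent.H857.PA Pool.Agent.H857.HK Pool.Agent.H857.EF
  Pool.Agent.H857.WT Pool.Agent.H857.SG Pool.Agent.H857.PD Pool.Agent.H857.TF

open Pool.Agent.H345.TFT2a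

/-- the antiderivative of `len` on `[-3, ∞)` -/
noncomputable def Gt (x : ℝ) : ℝ := G (min x 6)

theorem Gt_eq {x : ℝ} (h : x ≤ 6) : Gt x = G x := by
  unfold Gt
  rw [min_eq_left h]

theorem Gt_ge {x : ℝ} (h : 6 ≤ x) : Gt x = 128 / 15 := by
  unfold Gt
  rw [min_eq_right h, G_six]

theorem len_ge {x : ℝ} (h : 6 ≤ x) : len x = 0 := by
  rcases h.lt_or_eq with h | h
  · unfold len
    rw [if_neg (by linarith), if_neg (by linarith)]
  · rw [← h, len_six]

theorem sq_bd {a : ℝ} (h3 : -3 ≤ a) (h6 : a ≤ 6) :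
    0 ≤ Real.sqrt (a + 3) ∧ Real.sqrt (a + 3) ≤ 3 ∧ Real.sqrt (a + 3) ^ 2 = a + 3 :=
  ⟨Real.sqrt_nonneg _, (Real.sqrt_le_sqrt (by linarith : a + 3 ≤ 6 + 3)).trans_eq sqrt_nine,
    Real.sq_sqrt (by linarith)⟩

theorem len_bd {a : ℝ} (h3 : -3 ≤ a) : 0 ≤ len a ∧ len a ≤ 8 := by
  rcases le_or_gt a 6 with h6 | h6
  · obtain ⟨hc0, hc3, hc⟩ := sq_bd h3 h6
    rcases le_or_gt a (-2) with h | h
    · have hc1 : Real.sqrt (a + 3) ≤ 1 := by
        by_contra hcon
        rw [not_le] at hcon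
        nlinarith
      rw [len_left h]
      have : Real.sqrt (a + 3) ^ 3 ≤ 1 := pow_le_one₀ hc0 hc1
      exact ⟨by positivity, by linarith⟩
    · rw [len_right h.le h6]
      obtain ⟨c, hcd⟩ : ∃ c : ℝ, c = Real.sqrt (a + 3) := ⟨_, rfl⟩
      rw [← hcd] at hc0 hc3 hc ⊢
      have hc1 : 1 ≤ c := by
        by_contra hcon
        rw [not_le] at hcon
        nlinarith
      have h1 : 0 ≤ (3 - c) ^ 3 := pow_nonneg (by linarith) 3
      have h2 : (3 - c) ^ 3 ≤ 2 ^ 3 := pow_le_pow_left₀ (by linarith) (by linarith) 3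
      constructor
      · have : 0 ≤ (3 - c) ^ 3 * (c + 1) := mul_nonneg h1 (by linarith)
        linarith
      · have : (3 - c) ^ 3 * (c + 1) ≤ 2 ^ 3 * 4 :=
          mul_le_mul h2 (by linarith) (by linarith) (by norm_num)
        linarith
  · rw [len_ge h6.le]
    norm_num

theorem len_two : len (-2) = 4 := by
  rw [len_left le_rfl, sqrt_one']
  norm_num

/-- Lipschitz bound to the left of `-2` -/
theorem lip_two {a : ℝ} (h3 : -3 ≤ a) (h2 : a ≤ -2) : |len (-2) - len a| ≤ 6 * (-2 - a) := by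
  obtain ⟨hc0, -, hc⟩ := sq_bd h3 (by linarith)
  rw [len_two, len_left h2]
  obtain ⟨c, hcd⟩ : ∃ c : ℝ, c = Real.sqrt (a + 3) := ⟨_, rfl⟩
  rw [← hcd] at hc0 hc ⊢
  have hc1 : c ≤ 1 := by
    by_contra hcon
    rw [not_le] at hcon
    nlinarith
  have ha : -2 - a = 1 - c ^ 2 := by linarith
  have h1 : c ^ 3 ≤ 1 := pow_le_one₀ hc0 hc1
  rw [ha, abs_of_nonneg (by linarith)]
  have h4 : 6 * (1 - c ^ 2) - (4 - 4 * c ^ 3) = 2 * (1 - c) * ((1 - c) * (1 + 2 * c)) := by ring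
  have h5 : 0 ≤ 2 * (1 - c) * ((1 - c) * (1 + 2 * c)) :=
    mul_nonneg (by linarith) (mul_nonneg (by linarith) (by linarith))
  linarith

/-- Lipschitz bound to the left of `6` -/
theorem lip_six {a : ℝ} (h3 : -3 ≤ a) (h6 : a ≤ 6) : |len 6 - len a| ≤ 6 * (6 - a) := by
  obtain ⟨hc0, hc3, hc⟩ := sq_bd h3 h6
  obtain ⟨h1, h2⟩ := len_bd h3
  rw [len_six, zero_sub, abs_neg, abs_of_nonneg h1]
  rcases le_or_gt a (-2) with h | h
  · linarith
  · rw [len_right h.le h6]
    obtain ⟨c, hcd⟩ : ∃ c : ℝ, c = Real.sqrt (a + 3) := ⟨_, rfl⟩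
    rw [← hcd] at hc0 hc3 hc ⊢
    have ha : 6 - a = (3 - c) * (3 + c) := by
      have : 6 - a = 9 - c ^ 2 := by linarith
      rw [this]
      ring
    rw [ha]
    have h4 : (3 - c) ^ 2 ≤ 3 ^ 2 := pow_le_pow_left₀ (by linarith) (by linarith) 2
    have h5 : (3 - c) ^ 2 * (c + 1) ≤ 3 ^ 2 * (3 + c) :=
      mul_le_mul h4 (by linarith) (by linarith) (by norm_num)
    have h6 : (3 - c) ^ 3 * (c + 1) / 4 = (3 - c) * ((3 - c) ^ 2 * (c + 1) / 4) := by ring
    have h7 : 6 * ((3 - c) * (3 + c)) = (3 - c) * (6 * (3 + c)) := by ring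
    rw [h6, h7]
    exact mul_le_mul_of_nonneg_left (by linarith) (by linarith)

/-- gluing -/
theorem glue {a x b : ℝ} (hax : a ≤ x) (hxb : x ≤ b)
    (h1 : |Gt x - Gt a - (x - a) * len a| ≤ 15 * (x - a) ^ 2)
    (h2 : |Gt b - Gt x - (b - x) * len x| ≤ 15 * (b - x) ^ 2)
    (h3 : |len x - len a| ≤ 6 * (x - a)) :
    |Gt b - Gt a - (b - a) * len a| ≤ 15 * (b - a) ^ 2 := by
  have e : Gt b - Gt a - (b - a) * len a = (Gt x - Gt a - (x - a) * len a) +
      (Gt b - Gt x - (b - x) * len x) + (b - x) * (len x - len a) := by ring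
  rw [e]
  have h4 : |(b - x) * (len x - len a)| ≤ (b - x) * (6 * (x - a)) := by
    rw [abs_mul, abs_of_nonneg (sub_nonneg.2 hxb)]
    exact mul_le_mul_of_nonneg_left h3 (sub_nonneg.2 hxb)
  have h5 : 0 ≤ (b - x) * (x - a) := mul_nonneg (sub_nonneg.2 hxb) (sub_nonneg.2 hax)
  have h6 : 15 * (b - a) ^ 2 = 15 * (x - a) ^ 2 + 15 * (b - x) ^ 2 + 30 * ((b - x) * (x - a)) := by
    ring
  have h7 := abs_add_le ((Gt x - Gt a - (x - a) * len a) + (Gt b - Gt x - (b - x) * len x))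
    ((b - x) * (len x - len a))
  have h8 := abs_add_le (Gt x - Gt a - (x - a) * len a) (Gt b - Gt x - (b - x) * len x)
  have h9 : (b - x) * (6 * (x - a)) = 6 * ((b - x) * (x - a)) := by ring
  linarith

theorem step_six {a b : ℝ} (ha : -3 ≤ a) (hab : a ≤ b) (hb : b ≤ 6) :
    |Gt b - Gt a - (b - a) * len a| ≤ 15 * (b - a) ^ 2 := by
  rcases le_or_gt b (-2) with h | h
  · rw [Gt_eq hb, Gt_eq (hab.trans hb)]
    exact step ha hab hb (Or.inl h)
  rcases le_or_gt (-2) a with h' | h'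
  · rw [Gt_eq hb, Gt_eq (hab.trans hb)]
    exact step ha hab hb (Or.inr h')
  refine glue (x := -2) h'.le h.le ?_ ?_ (lip_two ha h'.le)
  · rw [Gt_eq (by norm_num), Gt_eq (hab.trans hb)]
    exact step ha h'.le (by norm_num) (Or.inl le_rfl)
  · rw [Gt_eq hb, Gt_eq (by norm_num)]
    exact step (by norm_num) h.le hb (Or.inr le_rfl)

theorem step_all {a b : ℝ} (ha : -3 ≤ a) (hab : a ≤ b) :
    |Gt b - Gt a - (b - a) * len a| ≤ 15 * (b - a) ^ 2 := by
  rcases le_or_gt b 6 with hb | hb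
  · exact step_six ha hab hb
  have h6 : ∀ x : ℝ, 6 ≤ x → x ≤ b → |Gt b - Gt x - (b - x) * len x| ≤ 15 * (b - x) ^ 2 := by
    intro x hx _
    rw [Gt_ge hb.le, Gt_ge hx, len_ge hx, sub_self, mul_zero, sub_zero, abs_zero]
    positivity
  rcases le_or_gt 6 a with h | h
  · exact h6 a h hab
  exact glue (x := 6) h.le hb.le (step_six ha h.le le_rfl) (h6 6 le_rfl hb.le) (lip_six ha h.le)

theorem u2 : U2 := by
  refine ⟨405, by norm_num, fun s m c hs hm => ?_⟩
  have hs0 : (0 : ℝ) < s := by exact_mod_cast hs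
  have hm0 : (0 : ℝ) < m := by exact_mod_cast hm
  have hmz : (0 : ℤ) < m := by exact_mod_cast hm
  have hsz : (0 : ℤ) < s := by exact_mod_cast hs
  obtain ⟨r, hr⟩ : ∃ r : ℤ, r = (c + 3 * s) % m := ⟨_, rfl⟩
  have hr0 : 0 ≤ r := by
    rw [hr]
    exact Int.emod_nonneg _ hmz.ne'
  have hrm : r < m := by
    rw [hr]
    exact Int.emod_lt_of_pos _ hmz
  obtain ⟨N, hN⟩ : ∃ N : ℕ, N = 9 * s / m + 1 := ⟨_, rfl⟩
  obtain ⟨g, hg⟩ : ∃ g : ℕ → ℤ, ∀ k, g k = -3 * (s : ℤ) + r + m * k := ⟨_, fun _ => rfl⟩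
  have hginj : Function.Injective g := by
    intro j k hjk
    rw [hg, hg] at hjk
    have h1 : (m : ℤ) * j = m * k := by linarith
    have h2 := mul_left_cancel₀ hmz.ne' h1
    exact_mod_cast h2
  have hgc : ∀ k, g k % m = c % m := by
    intro k
    rw [hg, Int.add_mul_emod_self_left, hr, Int.add_emod, Int.emod_emod_of_dvd _ (dvd_refl _),
      ← Int.add_emod]
    congr 1
    ring
  have hNm : 9 * s < m * N := by
    rw [hN]
    have := Nat.lt_div_mul_add (a := 9 * s) hm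
    calc 9 * s < 9 * s / m * m + m := this
      _ = m * (9 * s / m + 1) := by ring
  -- the points
  obtain ⟨f, hf⟩ : ∃ f : ℕ → ℝ, ∀ k, f k = (g k : ℝ) / s := ⟨_, fun _ => rfl⟩
  have hsum : ∑ A ∈ Finset.Icc (-3 * (s : ℤ)) (6 * s) with A % m = c % m,
      (s : ℝ) ^ 2 * len (A / s) = ∑ k ∈ Finset.range N, (s : ℝ) ^ 2 * len (f k) := by
    have h1 : ∑ k ∈ Finset.range N, (s : ℝ) ^ 2 * len (f k) =
        ∑ A ∈ (Finset.range N).image g, (s : ℝ) ^ 2 * len (A / s) := by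
      rw [Finset.sum_image fun j _ k _ h => hginj h]
      exact Finset.sum_congr rfl fun k _ => by rw [hf]
    rw [h1]
    refine Finset.sum_subset (fun A hA => ?_) fun A hA hA' => ?_
    · rw [Finset.mem_filter, Finset.mem_Icc] at hA
      obtain ⟨⟨hA1, hA2⟩, hA3⟩ := hA
      -- `A + 3 s = r + m k`
      have h2 : (A + 3 * s) % m = r := by
        rw [hr, Int.add_emod, hA3, ← Int.add_emod]
      obtain ⟨k, hk⟩ : ∃ k : ℤ, k = (A + 3 * s) / m := ⟨_, rfl⟩
      have h3 : r + m * k = A + 3 * s := by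
        rw [← h2, hk]
        exact Int.emod_add_mul_ediv _ _
      have hk0 : 0 ≤ k := by
        rw [hk]
        exact Int.ediv_nonneg (by linarith) hmz.le
      have hkN : k < N := by
        have h4 : (m : ℤ) * k ≤ 9 * s := by linarith
        have h5 : (9 * s : ℤ) < m * N := by exact_mod_cast hNm
        exact lt_of_mul_lt_mul_left (h4.trans_lt h5) hmz.le
      rw [Finset.mem_image]
      refine ⟨k.toNat, ?_, ?_⟩
      · rw [Finset.mem_range]
        omega
      · rw [hg, Int.toNat_of_nonneg hk0]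
        linarith
    · obtain ⟨k, hk, rfl⟩ := Finset.mem_image.1 hA
      rw [Finset.mem_filter, Finset.mem_Icc] at hA'
      have h2 : ¬ g k ≤ 6 * s := by
        intro h3
        refine hA' ⟨⟨?_, h3⟩, hgc k⟩
        rw [hg]
        have : (0 : ℤ) ≤ m * k := by positivity
        linarith
      have h3 : (6 : ℝ) ≤ (g k : ℝ) / s := by
        rw [le_div_iff₀ hs0]
        have : 6 * (s : ℤ) ≤ g k := (not_le.1 h2).le
        exact_mod_cast this
      rw [len_ge h3, mul_zero]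
  rw [hsum]
  have hf0 : ∀ k, -3 ≤ f k := by
    intro k
    rw [hf, le_div_iff₀ hs0]
    have h1 : -3 * (s : ℤ) ≤ g k := by
      rw [hg]
      have : (0 : ℤ) ≤ m * k := by positivity
      linarith
    exact_mod_cast h1
  have hfs : ∀ k, f (k + 1) - f k = m / s := by
    intro k
    rw [hf, hf, hg, hg]
    push_cast
    ring
  have hmul : (m : ℝ) * ((m : ℝ) / s) = m ^ 2 / s := by ring
  rcases Nat.lt_or_ge (9 * s) m with hbig | hsmall
  · -- one term
    have hN1 : N = 1 := by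
      rw [hN, Nat.div_eq_of_lt hbig]
    rw [hN1, Finset.sum_range_one]
    obtain ⟨h1, h2⟩ := len_bd (hf0 0)
    have h3 : 128 / 15 * (s : ℝ) ^ 3 / m ≤ (s : ℝ) ^ 2 := by
      rw [div_le_iff₀ hm0]
      have h4 : 9 * (s : ℝ) ≤ m := by exact_mod_cast hbig.le
      have h5 : (s : ℝ) ^ 2 * (9 * s) ≤ (s : ℝ) ^ 2 * m :=
        mul_le_mul_of_nonneg_left h4 (by positivity)
      have h6 : 0 < (s : ℝ) ^ 3 := by positivity
      linarith [show (s : ℝ) ^ 2 * (9 * s) = 9 * (s : ℝ) ^ 3 by ring]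
    have h4 : 0 ≤ 128 / 15 * (s : ℝ) ^ 3 / m := by positivity
    have h5 : 0 ≤ (s : ℝ) ^ 2 * len (f 0) := mul_nonneg (by positivity) h1
    have h6 : (s : ℝ) ^ 2 * len (f 0) ≤ (s : ℝ) ^ 2 * 8 :=
      mul_le_mul_of_nonneg_left h2 (by positivity)
    have h7 : 0 < (s : ℝ) ^ 2 := by positivity
    rw [abs_le]
    constructor <;> linarith
  · have hms : (m : ℝ) ≤ 9 * s := by exact_mod_cast hsmall
    have htel : ∑ k ∈ Finset.range N, (Gt (f (k + 1)) - Gt (f k)) = 128 / 15 - Gt (f 0) := by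
      rw [Finset.sum_range_sub (fun k => Gt (f k))]
      have h1 : (6 : ℝ) ≤ f N := by
        rw [hf, le_div_iff₀ hs0, hg]
        have h2 : (9 * s : ℤ) < m * N := by exact_mod_cast hNm
        have h3 : (6 * s : ℤ) ≤ -3 * (s : ℤ) + r + m * N := by linarith
        exact_mod_cast h3
      rw [Gt_ge h1]
    have hG3 : Gt (-3) = 0 := by
      rw [Gt_eq (by norm_num), G_start]
    have hlen3 : len (-3) = 0 := by
      rw [len_left (by norm_num)]
      norm_num
    have hfirst : |Gt (f 0)| ≤ 15 * (m / s) ^ 2 := by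
      have h1 := step_all (a := -3) (b := f 0) le_rfl (hf0 0)
      rw [hG3, hlen3, mul_zero, sub_zero, sub_zero] at h1
      refine h1.trans ?_
      have h2 : 0 ≤ f 0 - -3 := by linarith [hf0 0]
      have h3 : f 0 - -3 ≤ m / s := by
        rw [hf, hg, le_div_iff₀ hs0]
        have h4 : (r : ℝ) ≤ m := by exact_mod_cast hrm.le
        push_cast
        field_simp
        linarith
      have h4 := pow_le_pow_left₀ h2 h3 2
      linarith
    have hstep : ∀ k ∈ Finset.range N,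
        |(s : ℝ) ^ 2 * len (f k) - (s : ℝ) ^ 3 / m * (Gt (f (k + 1)) - Gt (f k))| ≤
          15 * (s * m) := by
      intro k _
      have h1 : f k ≤ f (k + 1) := by
        have : 0 < (m : ℝ) / s := by positivity
        linarith [hfs k]
      have h5 := step_all (hf0 k) h1
      rw [hfs] at h5
      have e : (s : ℝ) ^ 2 * len (f k) - (s : ℝ) ^ 3 / m * (Gt (f (k + 1)) - Gt (f k)) =
          -((s : ℝ) ^ 3 / m * (Gt (f (k + 1)) - Gt (f k) - m / s * len (f k))) := by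
        field_simp
        ring
      rw [e, abs_neg, abs_mul, abs_of_pos (by positivity : (0 : ℝ) < (s : ℝ) ^ 3 / m)]
      calc (s : ℝ) ^ 3 / m * |Gt (f (k + 1)) - Gt (f k) - m / s * len (f k)|
          ≤ (s : ℝ) ^ 3 / m * (15 * (m / s) ^ 2) :=
            mul_le_mul_of_nonneg_left h5 (by positivity)
        _ = 15 * (s * m) := by field_simp
    have hfin : ∑ k ∈ Finset.range N, (s : ℝ) ^ 2 * len (f k) - 128 / 15 * (s : ℝ) ^ 3 / m =
        (∑ k ∈ Finset.range N,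
          ((s : ℝ) ^ 2 * len (f k) - (s : ℝ) ^ 3 / m * (Gt (f (k + 1)) - Gt (f k)))) -
          (s : ℝ) ^ 3 / m * Gt (f 0) := by
      rw [Finset.sum_sub_distrib, ← Finset.mul_sum (Finset.range N)
        (fun k => Gt (f (k + 1)) - Gt (f k)), htel]
      ring
    rw [hfin]
    have h1 : |∑ k ∈ Finset.range N,
          ((s : ℝ) ^ 2 * len (f k) - (s : ℝ) ^ 3 / m * (Gt (f (k + 1)) - Gt (f k)))| ≤
        270 * (s : ℝ) ^ 2 := by
      refine (Finset.abs_sum_le_sum_abs _ _).trans ((Finset.sum_le_sum hstep).trans ?_)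
      rw [Finset.sum_const, Finset.card_range, nsmul_eq_mul]
      have h2 : (N : ℝ) * m ≤ 9 * s + m := by
        have h3 : N * m ≤ 9 * s + m := by
          rw [hN, add_mul, one_mul]
          have := Nat.div_mul_le_self (9 * s) m
          omega
        exact_mod_cast h3
      have h4 : (N : ℝ) * m ≤ 18 * s := by linarith
      calc (N : ℝ) * (15 * (s * m)) = 15 * s * (N * m) := by ring
        _ ≤ 15 * s * (18 * s) := mul_le_mul_of_nonneg_left h4 (by positivity)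
        _ = 270 * (s : ℝ) ^ 2 := by ring
    have h2 : |(s : ℝ) ^ 3 / m * Gt (f 0)| ≤ 135 * (s : ℝ) ^ 2 := by
      rw [abs_mul, abs_of_pos (by positivity : (0 : ℝ) < (s : ℝ) ^ 3 / m)]
      calc (s : ℝ) ^ 3 / m * |Gt (f 0)| ≤ (s : ℝ) ^ 3 / m * (15 * (m / s) ^ 2) :=
            mul_le_mul_of_nonneg_left hfirst (by positivity)
        _ = 15 * s * m := by field_simp
        _ ≤ 15 * s * (9 * s) := mul_le_mul_of_nonneg_left hms (by positivity)
        _ = 135 * (s : ℝ) ^ 2 := by ring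
    have h3 := abs_sub (∑ k ∈ Finset.range N,
          ((s : ℝ) ^ 2 * len (f k) - (s : ℝ) ^ 3 / m * (Gt (f (k + 1)) - Gt (f k))))
          ((s : ℝ) ^ 3 / m * Gt (f 0))
    linarith

end Pool.Agent.H118.TFu2
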