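import Pool.Agent.H857.TF.Core2
import Mathlib.NumberTheory.Padics.Hensel
import Mathlib.NumberTheory.Padics.RingHoms

/-!
# Local densities in intervals, odd `p`
-/

set_option autoImplicit false

namespace Pool.Agent.H864.TFU3

open Polynomial Finset Pool.Agent.H857.TF

/-- Square roots of units. -/
theorem hensel_sqrt {p : ℕ} [Fact p.Prime] (hp : p ≠ 2) (D : ℤ) (w : ZMod p)
    (hw : w ^ 2 = (D : ZMod p)) (hD : (D : ZMod p) ≠ 0) : ∃ δ : ℤ_[p], δ ^ 2 = (D : ℤ_[p]) := by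
  obtain ⟨v, rfl⟩ := ZMod.intCast_surjective w
  have hdv : (p : ℤ) ∣ v ^ 2 - D := by
    rw [← ZMod.intCast_zmod_eq_zero_iff_dvd]
    push_cast
    rw [hw, sub_self]
  have hnv : ¬ (p : ℤ) ∣ 2 * v := by
    intro h
    rcases Int.Prime.dvd_mul' (Fact.out : p.Prime) h with h | h
    · have h2 : p ∣ 2 := by exact_mod_cast h
      exact hp ((Nat.prime_dvd_prime_iff_eq (Fact.out : p.Prime) Nat.prime_two).1 h2)
    · rw [← ZMod.intCast_zmod_eq_zero_iff_dvd] at h
      rw [h] at hw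
      exact hD (by rw [← hw]; ring)
  set F₀ : ℤ_[p][X] := X ^ 2 - C (D : ℤ_[p]) with hF₀
  have h1 : aeval (v : ℤ_[p]) F₀ = ((v ^ 2 - D : ℤ) : ℤ_[p]) := by
    rw [hF₀]
    simp
  have h2 : aeval (v : ℤ_[p]) (derivative F₀) = ((2 * v : ℤ) : ℤ_[p]) := by
    rw [hF₀]
    simp
    left
    norm_num
  have h3 : ‖aeval (v : ℤ_[p]) F₀‖ < ‖aeval (v : ℤ_[p]) (derivative F₀)‖ ^ 2 := by
    have h4 : ‖((v ^ 2 - D : ℤ) : ℤ_[p])‖ < 1 := (PadicInt.norm_int_lt_one_iff_dvd _).2 hdv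
    have h5 : ‖((2 * v : ℤ) : ℤ_[p])‖ = 1 := by
      by_contra hne
      exact hnv ((PadicInt.norm_int_lt_one_iff_dvd _).1
        (lt_of_le_of_ne (PadicInt.norm_le_one _) hne))
    rw [h1, h2, h5, one_pow]
    exact h4
  obtain ⟨z, hz, -⟩ := hensels_lemma h3
  refine ⟨z, ?_⟩
  rw [hF₀] at hz
  simpa [sub_eq_zero] using hz

section local_part

variable {p : ℕ} [hp : Fact p.Prime]

theorem nonsq_unit (hp2 : p ≠ 2) {D : ℤ} (hD : ¬ (p : ℤ) ∣ D) :
    NonSq p D ↔ ¬ IsSquare (D : ZMod p) := by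
  have hD0 : (D : ZMod p) ≠ 0 := fun h => hD ((ZMod.intCast_zmod_eq_zero_iff_dvd D p).1 h)
  constructor
  · rintro h ⟨w, hw⟩
    obtain ⟨δ, hδ⟩ := hensel_sqrt hp2 D w (by rw [hw, sq]) hD0
    apply h (δ : ℚ_[p])
    have := congrArg (fun x : ℤ_[p] => (x : ℚ_[p])) hδ
    push_cast at this
    exact this
  · intro h w hw
    have h1 : ‖w‖ ≤ 1 := by
      have h2 : ‖w‖ ^ 2 ≤ 1 := by
        rw [← norm_pow, hw]
        exact Padic.norm_int_le_one D
      nlinarith [norm_nonneg w]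
    apply h
    obtain ⟨w', hw'⟩ : ∃ w' : ℤ_[p], (w' : ℚ_[p]) = w := ⟨⟨w, h1⟩, rfl⟩
    refine ⟨PadicInt.toZMod w', ?_⟩
    have h2 : w' * w' = (D : ℤ_[p]) := by
      apply PadicInt.ext
      rw [PadicInt.coe_mul, hw', PadicInt.coe_intCast, ← hw, sq]
    rw [← map_mul, h2, map_intCast]

theorem p_ne : (p : ℚ_[p]) ≠ 0 := by
  exact_mod_cast hp.out.ne_zero

theorem nonsq_two (D : ℤ) : NonSq p (p * (p * D)) ↔ NonSq p D := by
  have h0 : (p : ℚ_[p]) ≠ 0 := p_ne
  constructor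
  · intro h w hw
    apply h (p * w)
    push_cast
    rw [mul_pow, hw]
    ring
  · intro h w hw
    apply h (w / p)
    rw [div_pow, hw]
    push_cast
    field_simp

theorem nonsq_one {D : ℤ} (hD : ¬ (p : ℤ) ∣ D) : NonSq p (p * D) := by
  intro w hw
  have h1 : ‖(D : ℚ_[p])‖ = 1 := by
    refine le_antisymm (Padic.norm_int_le_one D) ?_
    by_contra h
    push Not at h
    exact hD (Padic.norm_intCast_lt_one_iff.1 h)
  have h2 : ‖w‖ ^ 2 = (p : ℝ)⁻¹ := by
    rw [← norm_pow, hw]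
    push_cast
    rw [norm_mul, h1, mul_one, Padic.norm_p]
  have hw0 : w ≠ 0 := by
    rintro rfl
    rw [norm_zero] at h2
    have : (0 : ℝ) < (p : ℝ)⁻¹ := inv_pos.2 (by exact_mod_cast hp.out.pos)
    norm_num at h2
    exact hp.out.ne_zero (by exact_mod_cast h2.symm)
  rw [Padic.norm_eq_zpow_neg_valuation hw0, ← zpow_natCast, ← zpow_mul, ← zpow_neg_one] at h2
  have h3 := zpow_right_injective₀ (by exact_mod_cast hp.out.pos : (0 : ℝ) < p)
    (by exact_mod_cast hp.out.one_lt.ne' : (p : ℝ) ≠ 1) h2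
  push_cast at h3
  omega

/-- the part of the condition which is visible modulo `p^b` -/
def Q (p : ℕ) [Fact p.Prime] (b : ℕ) (D : ℤ) : Prop := ¬ (p : ℤ) ^ b ∣ D ∧ NonSq p D

theorem Q_zero (D : ℤ) : ¬ Q p 0 D := by
  rintro ⟨h, -⟩
  exact h (by rw [pow_zero]; exact one_dvd D)

theorem Q_unit (hp2 : p ≠ 2) (b : ℕ) {D : ℤ} (hD : ¬ (p : ℤ) ∣ D) :
    Q p (b + 1) D ↔ ¬ IsSquare (D : ZMod p) := by
  rw [← nonsq_unit hp2 hD]
  refine ⟨fun h => h.2, fun h => ⟨fun h2 => hD ?_, h⟩⟩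
  exact (dvd_pow_self (p : ℤ) (Nat.succ_ne_zero b)).trans h2

theorem Q_one (b : ℕ) {D : ℤ} (hD : ¬ (p : ℤ) ∣ D) : Q p (b + 2) (p * D) := by
  refine ⟨fun h => hD ?_, nonsq_one hD⟩
  have h0 : (p : ℤ) ≠ 0 := by exact_mod_cast hp.out.ne_zero
  rw [pow_succ', mul_dvd_mul_iff_left h0] at h
  exact (dvd_pow_self (p : ℤ) (Nat.succ_ne_zero b)).trans h

theorem Q_two (b : ℕ) (D : ℤ) : Q p (b + 2) (p * (p * D)) ↔ Q p b D := by
  have h0 : (p : ℤ) ≠ 0 := by exact_mod_cast hp.out.ne_zero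
  unfold Q
  rw [nonsq_two, pow_succ', pow_succ', mul_dvd_mul_iff_left h0, mul_dvd_mul_iff_left h0]

theorem Q_congr (hp2 : p ≠ 2) (b : ℕ) : ∀ D D' : ℤ, (p : ℤ) ^ b ∣ D - D' → Q p b D →
    Q p b D' := by
  have h0 : (p : ℤ) ≠ 0 := by exact_mod_cast hp.out.ne_zero
  induction b using Nat.twoStepInduction with
  | zero =>
    intro D D' _ h
    exact absurd h (Q_zero D)
  | one =>
    intro D D' h1 h
    rw [pow_one] at h1
    have hD : ¬ (p : ℤ) ∣ D := by
      have := h.1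
      rwa [pow_one] at this
    have hD' : ¬ (p : ℤ) ∣ D' := fun h2 => hD (by
      have := dvd_add h1 h2
      rwa [sub_add_cancel] at this)
    have e : (D : ZMod p) = D' := by
      rw [← sub_eq_zero, ← Int.cast_sub]
      exact (ZMod.intCast_zmod_eq_zero_iff_dvd _ p).2 h1
    rw [Q_unit hp2 0 hD, e] at h
    rwa [Q_unit hp2 0 hD']
  | more b ih _ =>
    intro D D' h1 h
    have h1' : (p : ℤ) ∣ D - D' := (dvd_pow_self (p : ℤ) (by omega)).trans h1
    by_cases hD : (p : ℤ) ∣ D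
    · have hD' : (p : ℤ) ∣ D' := (dvd_sub_right hD).1 h1'
      obtain ⟨E, rfl⟩ := hD
      obtain ⟨E', rfl⟩ := hD'
      rw [← mul_sub, pow_succ', mul_dvd_mul_iff_left h0] at h1
      have h1'' : (p : ℤ) ∣ E - E' := (dvd_pow_self (p : ℤ) (by omega)).trans h1
      by_cases hE : (p : ℤ) ∣ E
      · have hE' : (p : ℤ) ∣ E' := (dvd_sub_right hE).1 h1''
        obtain ⟨G, rfl⟩ := hE
        obtain ⟨G', rfl⟩ := hE'
        rw [← mul_sub, pow_succ', mul_dvd_mul_iff_left h0] at h1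
        rw [Q_two] at h ⊢
        exact ih G G' h1 h
      · have hE' : ¬ (p : ℤ) ∣ E' := fun h2 => hE (by
          have := dvd_add h1'' h2
          rwa [sub_add_cancel] at this)
        exact Q_one b hE'
    · have hD' : ¬ (p : ℤ) ∣ D' := fun h2 => hD (by
        have := dvd_add h1' h2
        rwa [sub_add_cancel] at this)
      have e : (D : ZMod p) = D' := by
        rw [← sub_eq_zero, ← Int.cast_sub]
        exact (ZMod.intCast_zmod_eq_zero_iff_dvd _ p).2 h1'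
      rw [Q_unit hp2 (b + 1) hD, e] at h
      rwa [Q_unit hp2 (b + 1) hD']

end local_part

section counting

theorem sum_range_mul (f : ℕ → ℝ) (N p : ℕ) :
    ∑ r ∈ range (N * p), f r = ∑ q ∈ range N, ∑ s ∈ range p, f (p * q + s) := by
  induction N with
  | zero => simp
  | succ N ih =>
    rw [Finset.sum_range_succ, ← ih, add_mul, one_mul, Finset.sum_range_add]
    congr 1
    refine Finset.sum_congr rfl fun s _ => ?_
    rw [mul_comm p N]

variable {p : ℕ} [hp : Fact p.Prime]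

/-- the number of the nonresidues -/
theorem count_nonres (hp2 : p ≠ 2) : open Classical in
    ∑ s ∈ range p, (if ¬ IsSquare ((s : ℤ) : ZMod p) then (1 : ℝ) else 0) = ((p : ℝ) - 1) / 2 := by
  classical
  have h1 : ∑ s ∈ range p, (if ¬ IsSquare ((s : ℤ) : ZMod p) then (1 : ℝ) else 0) =
      ∑ x : ZMod p, (if ¬ IsSquare x then (1 : ℝ) else 0) := by
    refine Finset.sum_nbij' (fun s => ((s : ℤ) : ZMod p)) (fun x => x.val) ?_ ?_ ?_ ?_ ?_
    · intro s _
      exact Finset.mem_univ _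
    · intro x _
      exact Finset.mem_range.2 (ZMod.val_lt x)
    · intro s hs
      rw [Int.cast_natCast]
      exact ZMod.val_natCast_of_lt (Finset.mem_range.1 hs)
    · intro x _
      rw [Int.cast_natCast]
      exact ZMod.natCast_zmod_val x
    · intro s _
      rfl
  rw [h1]
  have h2 : ∀ x : ZMod p, (if ¬ IsSquare x then (1 : ℝ) else 0) =
      (1 - (if x = 0 then (1 : ℝ) else 0) - ((quadraticChar (ZMod p) x : ℤ) : ℝ)) / 2 := by
    intro x
    by_cases hx : x = 0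
    · subst hx
      rw [if_neg (by rw [not_not]; exact IsSquare.zero), if_pos rfl, quadraticChar_zero]
      norm_num
    · by_cases hs : IsSquare x
      · rw [if_neg (by rw [not_not]; exact hs), if_neg hx,
          (quadraticChar_one_iff_isSquare hx).2 hs]
        norm_num
      · rw [if_pos hs, if_neg hx, quadraticChar_neg_one_iff_not_isSquare.2 hs]
        norm_num
  rw [Finset.sum_congr rfl fun x _ => h2 x, ← Finset.sum_div, Finset.sum_sub_distrib,
    Finset.sum_sub_distrib, ← Int.cast_sum,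
    quadraticChar_sum_zero (by rw [ZMod.ringChar_zmod_n]; exact hp2)]
  simp [ZMod.card]

open Classical in
/-- the number of the classes -/
noncomputable def M (p : ℕ) [Fact p.Prime] (b : ℕ) : ℝ :=
  ∑ r ∈ range (p ^ b), if Q p b ((r : ℕ) : ℤ) then (1 : ℝ) else 0

theorem M_zero : M p 0 = 0 := by
  classical
  unfold M
  refine Finset.sum_eq_zero fun r _ => ?_
  rw [if_neg (Q_zero _)]

omit hp in
theorem ndvd {s q : ℕ} (hs : s < p) (hs0 : s ≠ 0) : ¬ (p : ℤ) ∣ ((p * q + s : ℕ) : ℤ) := by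
  intro h
  have h1 : p ∣ p * q + s := by exact_mod_cast h
  have h2 : p ∣ s := (Nat.dvd_add_right (dvd_mul_right p q)).1 h1
  exact hs0 (Nat.eq_zero_of_dvd_of_lt h2 hs)

theorem inner_sum (hp2 : p ≠ 2) (b q : ℕ) : open Classical in
    ∑ s ∈ range p, (if Q p (b + 1) ((p * q + s : ℕ) : ℤ) then (1 : ℝ) else 0) =
      (if Q p (b + 1) ((p * q : ℕ) : ℤ) then (1 : ℝ) else 0) + ((p : ℝ) - 1) / 2 := by
  classical
  rw [← count_nonres hp2]
  have h1 : ∀ s ∈ range p, (if Q p (b + 1) ((p * q + s : ℕ) : ℤ) then (1 : ℝ) else 0) =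
      (if s = 0 then (if Q p (b + 1) ((p * q : ℕ) : ℤ) then (1 : ℝ) else 0) else 0) +
        (if ¬ IsSquare ((s : ℤ) : ZMod p) then (1 : ℝ) else 0) := by
    intro s hs
    rw [Finset.mem_range] at hs
    by_cases hs0 : s = 0
    · subst hs0
      have h2 : ¬ ¬ IsSquare (((0 : ℕ) : ℤ) : ZMod p) := by
        rw [not_not]
        simp
      rw [if_pos rfl, if_neg h2, add_zero, add_zero]
    · rw [if_neg hs0, zero_add]
      have h2 := Q_unit hp2 b (ndvd (q := q) hs hs0)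
      have h3 : (((p * q + s : ℕ) : ℤ) : ZMod p) = ((s : ℤ) : ZMod p) := by
        push_cast
        rw [ZMod.natCast_self, zero_mul, zero_add]
      rw [h3] at h2
      simp only [h2]
  rw [Finset.sum_congr rfl h1, Finset.sum_add_distrib, Finset.sum_ite_eq' (range p) 0,
    if_pos (Finset.mem_range.2 hp.out.pos)]

theorem inner_sum2 (b q : ℕ) : open Classical in
    ∑ s ∈ range p, (if Q p (b + 2) ((p * (p * q + s) : ℕ) : ℤ) then (1 : ℝ) else 0) =
      (if Q p b ((q : ℕ) : ℤ) then (1 : ℝ) else 0) + ((p : ℝ) - 1) := by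
  classical
  have h1 : ∀ s ∈ range p, (if Q p (b + 2) ((p * (p * q + s) : ℕ) : ℤ) then (1 : ℝ) else 0) =
      (if s = 0 then ((if Q p b ((q : ℕ) : ℤ) then (1 : ℝ) else 0) - 1) else 0) + 1 := by
    intro s hs
    rw [Finset.mem_range] at hs
    by_cases hs0 : s = 0
    · subst hs0
      rw [if_pos rfl, sub_add_cancel, add_zero]
      have h2 := Q_two (p := p) b (q : ℤ)
      push_cast
      simp only [h2]
    · rw [if_neg hs0, zero_add]
      have h2 := Q_one b (ndvd (q := q) hs hs0)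
      have h3 : ((p * (p * q + s) : ℕ) : ℤ) = (p : ℤ) * ((p * q + s : ℕ) : ℤ) := by push_cast; ring
      rw [h3, if_pos h2]
  rw [Finset.sum_congr rfl h1, Finset.sum_add_distrib, Finset.sum_ite_eq' (range p) 0,
    if_pos (Finset.mem_range.2 hp.out.pos), Finset.sum_const, Finset.card_range, nsmul_eq_mul]
  ring

theorem M_one (hp2 : p ≠ 2) : M p 1 = ((p : ℝ) - 1) / 2 := by
  classical
  have h1 : M p 1 = ∑ r ∈ range (1 * p), if Q p 1 ((r : ℕ) : ℤ) then (1 : ℝ) else 0 := by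
    unfold M
    rw [pow_one, one_mul]
  rw [h1, sum_range_mul, Finset.sum_range_one]
  rw [inner_sum hp2 0 0, if_neg, zero_add]
  rintro ⟨h, -⟩
  apply h
  simp

theorem M_succ (hp2 : p ≠ 2) (b : ℕ) : M p (b + 2) =
    M p b + (p : ℝ) ^ b * (((p : ℝ) - 1) * (p + 2) / 2) := by
  classical
  have h1 : M p (b + 2) = ∑ q ∈ range (p ^ b * p),
      ((if Q p (b + 2) ((p * q : ℕ) : ℤ) then (1 : ℝ) else 0) + ((p : ℝ) - 1) / 2) := by
    have h2 : p ^ (b + 2) = (p ^ b * p) * p := by ring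
    unfold M
    rw [h2, sum_range_mul]
    refine Finset.sum_congr rfl fun q _ => ?_
    exact inner_sum hp2 (b + 1) q
  rw [h1, Finset.sum_add_distrib, sum_range_mul, Finset.sum_congr rfl fun q _ => inner_sum2 b q,
    Finset.sum_add_distrib, Finset.sum_const, Finset.sum_const, Finset.card_range,
    Finset.card_range, nsmul_eq_mul, nsmul_eq_mul]
  unfold M
  push_cast
  ring

theorem M_bound (hp2 : p ≠ 2) (b : ℕ) :
    |M p b - ((p : ℝ) + 2) / (2 * ((p : ℝ) + 1)) * (p : ℝ) ^ b| ≤ 1 := by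
  have hp0 : (0 : ℝ) < p := by exact_mod_cast hp.out.pos
  induction b using Nat.twoStepInduction with
  | zero =>
    rw [M_zero, pow_zero, mul_one, zero_sub, abs_neg, abs_of_nonneg (by positivity),
      div_le_one (by positivity)]
    linarith
  | one =>
    rw [M_one hp2, pow_one]
    have e : ((p : ℝ) - 1) / 2 - ((p : ℝ) + 2) / (2 * ((p : ℝ) + 1)) * p =
        -((2 * (p : ℝ) + 1) / (2 * ((p : ℝ) + 1))) := by
      field_simp
      ring
    rw [e, abs_neg, abs_of_nonneg (by positivity), div_le_one (by positivity)]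
    linarith
  | more b ih _ =>
    rw [M_succ hp2]
    have e : M p b + (p : ℝ) ^ b * (((p : ℝ) - 1) * (p + 2) / 2) -
        ((p : ℝ) + 2) / (2 * ((p : ℝ) + 1)) * (p : ℝ) ^ (b + 2) =
        M p b - ((p : ℝ) + 2) / (2 * ((p : ℝ) + 1)) * (p : ℝ) ^ b := by
      field_simp
      ring
    rw [e]
    exact ih

end counting

section intervals

/-- one class -/
theorem count_class {m : ℕ} (hm : 0 < m) {lo hi : ℤ} (h : lo ≤ hi) (v : ℤ) :
    |((((Icc lo hi).filter fun n => n ≡ v [ZMOD (m : ℤ)]).card : ℕ) : ℝ) -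
      ((hi - lo : ℤ) : ℝ) / m| ≤ 2 := by
  have hm' : (0 : ℤ) < m := by exact_mod_cast hm
  have hmR : (1 : ℝ) ≤ m := by exact_mod_cast hm
  have hmQ : (0 : ℚ) < m := by exact_mod_cast hm
  have h1 : Icc lo hi = Ico lo (hi + 1) := by
    ext x
    rw [Finset.mem_Icc, Finset.mem_Ico, Int.lt_add_one_iff]
  have h2 := Int.Ico_filter_modEq_card lo (hi + 1) hm' v
  rw [← h1] at h2
  have h3 : ⌈((lo : ℚ) - v) / (m : ℤ)⌉ ≤ ⌈(((hi + 1 : ℤ) : ℚ) - v) / (m : ℤ)⌉ := by
    apply Int.ceil_le_ceil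
    have h4 : (lo : ℚ) ≤ ((hi + 1 : ℤ) : ℚ) := by exact_mod_cast (by omega : lo ≤ hi + 1)
    have hmQ' : (0 : ℚ) < ((m : ℤ) : ℚ) := by exact_mod_cast hm
    exact div_le_div_of_nonneg_right (by linarith) hmQ'.le
  rw [max_eq_left (by omega)] at h2
  obtain ⟨a, ha⟩ : ∃ a : ℤ, a = ⌈(((hi + 1 : ℤ) : ℚ) - v) / (m : ℤ)⌉ := ⟨_, rfl⟩
  obtain ⟨c, hc⟩ : ∃ c : ℤ, c = ⌈((lo : ℚ) - v) / (m : ℤ)⌉ := ⟨_, rfl⟩
  rw [← ha, ← hc] at h2
  have a1 := Int.ceil_lt_add_one ((((hi + 1 : ℤ) : ℚ) - v) / (m : ℤ))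
  have a2 := Int.le_ceil ((((hi + 1 : ℤ) : ℚ) - v) / (m : ℤ))
  have c1 := Int.ceil_lt_add_one (((lo : ℚ) - v) / (m : ℤ))
  have c2 := Int.le_ceil (((lo : ℚ) - v) / (m : ℤ))
  rw [← ha] at a1 a2
  rw [← hc] at c1 c2
  have hcard : ((((Icc lo hi).filter fun n => n ≡ v [ZMOD (m : ℤ)]).card : ℕ) : ℚ) = a - c := by
    have := congrArg (fun x : ℤ => (x : ℚ)) h2
    push_cast at this
    exact this
  have key : |((((Icc lo hi).filter fun n => n ≡ v [ZMOD (m : ℤ)]).card : ℕ) : ℚ) -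
      ((hi - lo : ℤ) : ℚ) / m| ≤ 2 := by
    rw [hcard]
    have e : (((hi + 1 : ℤ) : ℚ) - v) / (m : ℤ) - ((lo : ℚ) - v) / (m : ℤ) =
        ((hi - lo : ℤ) : ℚ) / m + 1 / m := by
      push_cast
      field_simp
      ring
    have e1 : (1 : ℚ) / m ≤ 1 := by
      rw [div_le_one hmQ]
      exact_mod_cast hm
    have e2 : (0 : ℚ) < 1 / m := by positivity
    rw [abs_le]
    constructor <;> linarith
  have := (Rat.cast_le (K := ℝ)).2 key
  push_cast at this ⊢
  exact this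

/-- one class of `A^2 - 4 n` -/
theorem count_class' {m : ℕ} (hm : 0 < m) (hodd : IsCoprime (4 : ℤ) m) {lo hi : ℤ} (h : lo ≤ hi)
    (A r : ℤ) :
    |((((Icc lo hi).filter fun n => (m : ℤ) ∣ A ^ 2 - 4 * n - r).card : ℕ) : ℝ) -
      ((hi - lo : ℤ) : ℝ) / m| ≤ 2 := by
  obtain ⟨u, w, huw⟩ := hodd
  have e : ((Icc lo hi).filter fun n => (m : ℤ) ∣ A ^ 2 - 4 * n - r) =
      (Icc lo hi).filter fun n => n ≡ u * (A ^ 2 - r) [ZMOD (m : ℤ)] := by
    apply Finset.filter_congr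
    intro n _
    rw [Int.modEq_iff_dvd]
    constructor
    · intro h1
      have h2 : u * (A ^ 2 - r) - n = u * (A ^ 2 - 4 * n - r) + (-(w * n)) * m := by
        linear_combination (n) * huw
      rw [h2]
      exact dvd_add (dvd_mul_of_dvd_right h1 u) (dvd_mul_left _ _)
    · intro h1
      have h2 : A ^ 2 - 4 * n - r = 4 * (u * (A ^ 2 - r) - n) + (w * (A ^ 2 - r)) * m := by
        linear_combination (-(A ^ 2 - r)) * huw
      rw [h2]
      exact dvd_add (dvd_mul_of_dvd_right h1 4) (dvd_mul_left _ _)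
  rw [e]
  exact count_class hm h _

open Classical in
/-- periodic conditions -/
theorem count_periodic {m : ℕ} (hm : 0 < m) (hodd : IsCoprime (4 : ℤ) m) {lo hi : ℤ}
    (h : lo ≤ hi) (A : ℤ) (P : ℤ → Prop) (hP : ∀ D D' : ℤ, (m : ℤ) ∣ D - D' → P D → P D')
    (S : ℝ) (hS : S = ∑ r ∈ range m, if P ((r : ℕ) : ℤ) then (1 : ℝ) else 0) :
    |((((Icc lo hi).filter fun n => P (A ^ 2 - 4 * n)).card : ℕ) : ℝ) -
      S / m * ((hi - lo : ℤ) : ℝ)| ≤ 2 * m := by
  have hm' : (0 : ℤ) < m := by exact_mod_cast hm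
  have h1 : ((((Icc lo hi).filter fun n => P (A ^ 2 - 4 * n)).card : ℕ) : ℝ) =
      ∑ r ∈ range m, (if P ((r : ℕ) : ℤ) then (1 : ℝ) else 0) *
        ((((Icc lo hi).filter
          fun n => (m : ℤ) ∣ A ^ 2 - 4 * n - ((r : ℕ) : ℤ)).card : ℕ) : ℝ) := by
    have h2 : ∀ n ∈ (Icc lo hi).filter (fun n => P (A ^ 2 - 4 * n)),
        ((A ^ 2 - 4 * n) % (m : ℤ)).toNat ∈ range m := by
      intro n _
      have a1 := Int.emod_nonneg (A ^ 2 - 4 * n) hm'.ne'
      have a2 := Int.emod_lt_of_pos (A ^ 2 - 4 * n) hm'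
      rw [Finset.mem_range]
      omega
    rw [Finset.card_eq_sum_card_fiberwise h2]
    push_cast
    refine Finset.sum_congr rfl fun r hr => ?_
    rw [Finset.mem_range] at hr
    have key : ∀ n : ℤ, (((A ^ 2 - 4 * n) % (m : ℤ)).toNat = r) ↔
        (m : ℤ) ∣ A ^ 2 - 4 * n - ((r : ℕ) : ℤ) := by
      intro n
      have a1 := Int.emod_nonneg (A ^ 2 - 4 * n) hm'.ne'
      constructor
      · intro h3
        have h4 : (A ^ 2 - 4 * n) % (m : ℤ) = r := by omega
        rw [← h4, Int.emod_def, sub_sub_cancel]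
        exact dvd_mul_right _ _
      · intro h3
        have h4 : ((r : ℕ) : ℤ) % m = (A ^ 2 - 4 * n) % (m : ℤ) := Int.modEq_iff_dvd.2 h3
        have h5 : ((r : ℕ) : ℤ) % m = r := Int.emod_eq_of_lt (by omega) (by omega)
        omega
    by_cases hr2 : P ((r : ℕ) : ℤ)
    · rw [if_pos hr2, one_mul]
      congr 2
      ext n
      simp only [Finset.mem_filter]
      rw [key n]
      constructor
      · rintro ⟨⟨a1, -⟩, a3⟩
        exact ⟨a1, a3⟩
      · rintro ⟨a1, a3⟩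
        refine ⟨⟨a1, hP _ _ ?_ hr2⟩, a3⟩
        rw [← dvd_neg, neg_sub]
        exact a3
    · rw [if_neg hr2, zero_mul]
      rw [Nat.cast_eq_zero, Finset.card_eq_zero, Finset.filter_eq_empty_iff]
      intro n hn h3
      rw [Finset.mem_filter] at hn
      exact hr2 (hP _ _ ((key n).1 h3) hn.2)
  rw [h1, hS, Finset.sum_div, Finset.sum_mul, ← Finset.sum_sub_distrib]
  refine (Finset.abs_sum_le_sum_abs _ _).trans ?_
  have h2 : ∀ r ∈ range m, |(if P ((r : ℕ) : ℤ) then (1 : ℝ) else 0) *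
        ((((Icc lo hi).filter fun n => (m : ℤ) ∣ A ^ 2 - 4 * n - ((r : ℕ) : ℤ)).card : ℕ) : ℝ) -
        (if P ((r : ℕ) : ℤ) then (1 : ℝ) else 0) / m * ((hi - lo : ℤ) : ℝ)| ≤ 2 := by
    intro r _
    by_cases hr : P ((r : ℕ) : ℤ)
    · rw [if_pos hr, one_mul]
      have := count_class' hm hodd h A ((r : ℕ) : ℤ)
      rw [div_mul_eq_mul_div, one_mul]
      exact this
    · rw [if_neg hr]
      norm_num
  refine (Finset.sum_le_sum h2).trans ?_
  rw [Finset.sum_const, Finset.card_range, nsmul_eq_mul]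
  linarith

end intervals

theorem u3 : U3 := by
  classical
  refine ⟨40, by norm_num, ?_⟩
  intro p hp hp2 b A lo hi hb hlh hlen
  have hp0 : (0 : ℝ) < p := by exact_mod_cast hp.out.pos
  have hp1 : (1 : ℝ) ≤ p := by exact_mod_cast hp.out.one_lt.le
  have hcop : ∀ k : ℕ, IsCoprime (4 : ℤ) ((p ^ k : ℕ) : ℤ) := by
    intro k
    have h1 : Nat.Coprime 4 (p ^ k) := by
      apply Nat.Coprime.pow_right
      have h2 : Nat.Coprime 2 p := (Nat.coprime_primes Nat.prime_two hp.out).2 (Ne.symm hp2)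
      exact Nat.Coprime.mul_left h2 h2
    exact_mod_cast Nat.isCoprime_iff_coprime.2 h1
  have h4 : ¬ (p : ℤ) ∣ 4 := by
    intro h
    have h1 : p ∣ 2 ^ 2 := by exact_mod_cast h
    have h2 := hp.out.dvd_of_dvd_pow h1
    exact hp2 ((Nat.prime_dvd_prime_iff_eq hp.out Nat.prime_two).1 h2)
  have hset : {n : ℤ | lo ≤ n ∧ n ≤ hi ∧ ¬ (p : ℤ) ∣ n ∧ NonSq p (A ^ 2 - 4 * n)} =
      (((Icc lo hi).filter fun n => ¬ (p : ℤ) ∣ n ∧ NonSq p (A ^ 2 - 4 * n) : Finset ℤ) :
        Set ℤ) := by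
    ext n
    rw [Finset.mem_coe, Finset.mem_filter, Finset.mem_Icc, and_assoc]
    exact Iff.rfl
  rw [hset, Set.ncard_coe_finset]
  have hpb : (1 : ℝ) ≤ (p : ℝ) ^ b := one_le_pow₀ hp1
  by_cases hA : (p : ℤ) ∣ A
  · have hkap : kap p A = ((p : ℝ) - 1) / (2 * p) := by
      unfold kap
      rw [if_neg hp2, if_pos hA]
    have hpn : ∀ n : ℤ, (p : ℤ) ∣ n ↔ (p : ℤ) ∣ A ^ 2 - 4 * n := by
      intro n
      constructor
      · intro h
        exact dvd_sub (dvd_pow hA two_ne_zero) (dvd_mul_of_dvd_right h 4)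
      · intro h
        have h1 : (p : ℤ) ∣ 4 * n := (dvd_sub_right (dvd_pow hA two_ne_zero)).1 h
        have h2 : Prime (p : ℤ) := Int.prime_iff_natAbs_prime.2 (by simpa using hp.out)
        exact (h2.dvd_or_dvd h1).resolve_left h4
    have hcount := count_periodic (m := p ^ 1) (by rw [pow_one]; exact hp.out.pos) (hcop 1) hlh A
      (Q p 1) (by
        intro D D' h
        refine Q_congr hp2 1 D D' ?_
        push_cast at h
        exact h) (M p 1) rfl
    have hfil : ((Icc lo hi).filter fun n => ¬ (p : ℤ) ∣ n ∧ NonSq p (A ^ 2 - 4 * n)) =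
        (Icc lo hi).filter fun n => Q p 1 (A ^ 2 - 4 * n) := by
      apply Finset.filter_congr
      intro n _
      unfold Q
      rw [pow_one, hpn n]
    rw [hfil, hkap]
    rw [M_one hp2] at hcount
    push_cast at hcount ⊢
    rw [pow_one, div_div] at hcount
    refine hcount.trans ?_
    have : (p : ℝ) ≤ (p : ℝ) ^ b := by
      calc (p : ℝ) = (p : ℝ) ^ 1 := (pow_one _).symm
        _ ≤ _ := pow_le_pow_right₀ hp1 hb
    linarith
  · have hkap : kap p A = ((p : ℝ) + 2) / (2 * ((p : ℝ) + 1)) := by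
      unfold kap
      rw [if_neg hp2, if_neg hA]
    have hpn : ∀ n : ℤ, NonSq p (A ^ 2 - 4 * n) → ¬ (p : ℤ) ∣ n := by
      intro n h h1
      have hD : ¬ (p : ℤ) ∣ A ^ 2 - 4 * n := by
        intro h2
        have h3 : (p : ℤ) ∣ A ^ 2 := by
          have := dvd_add h2 (dvd_mul_of_dvd_right h1 4)
          rwa [sub_add_cancel] at this
        exact hA ((Int.prime_iff_natAbs_prime.2 (by simpa using hp.out)).dvd_of_dvd_pow h3)
      rw [nonsq_unit hp2 hD] at h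
      apply h
      refine ⟨(A : ZMod p), ?_⟩
      have h2 : (n : ZMod p) = 0 := (ZMod.intCast_zmod_eq_zero_iff_dvd n p).2 h1
      push_cast
      rw [h2]
      ring
    have hcount := count_periodic (m := p ^ b) (pow_pos hp.out.pos b) (hcop b) hlh A
      (Q p b) (by
        intro D D' h
        refine Q_congr hp2 b D D' ?_
        push_cast at h
        exact h) (M p b) rfl
    have hcl := count_class' (pow_pos hp.out.pos b) (hcop b) hlh A 0
    have hfil1 : ((Icc lo hi).filter fun n => Q p b (A ^ 2 - 4 * n)) ⊆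
        (Icc lo hi).filter fun n => ¬ (p : ℤ) ∣ n ∧ NonSq p (A ^ 2 - 4 * n) := by
      intro n hn
      rw [Finset.mem_filter] at hn ⊢
      exact ⟨hn.1, hpn n hn.2.2, hn.2.2⟩
    have hfil2 : ((Icc lo hi).filter fun n => ¬ (p : ℤ) ∣ n ∧ NonSq p (A ^ 2 - 4 * n)) ⊆
        ((Icc lo hi).filter fun n => Q p b (A ^ 2 - 4 * n)) ∪
        ((Icc lo hi).filter fun n => ((p ^ b : ℕ) : ℤ) ∣ A ^ 2 - 4 * n - 0) := by
      intro n hn
      rw [Finset.mem_filter] at hn
      rw [Finset.mem_union, Finset.mem_filter, Finset.mem_filter]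
      by_cases h : (p : ℤ) ^ b ∣ A ^ 2 - 4 * n
      · right
        refine ⟨hn.1, ?_⟩
        rw [sub_zero]
        push_cast
        exact h
      · left
        exact ⟨hn.1, h, hn.2.2⟩
    have hc1 := Finset.card_le_card hfil1
    have hc2 := (Finset.card_le_card hfil2).trans (Finset.card_union_le _ _)
    obtain ⟨N, hN⟩ : ∃ N : ℕ, N = ((Icc lo hi).filter fun n =>
      ¬ (p : ℤ) ∣ n ∧ NonSq p (A ^ 2 - 4 * n)).card := ⟨_, rfl⟩
    obtain ⟨N1, hN1⟩ : ∃ N : ℕ, N = ((Icc lo hi).filter fun n =>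
      Q p b (A ^ 2 - 4 * n)).card := ⟨_, rfl⟩
    obtain ⟨N2, hN2⟩ : ∃ N : ℕ, N = ((Icc lo hi).filter fun n =>
      ((p ^ b : ℕ) : ℤ) ∣ A ^ 2 - 4 * n - 0).card := ⟨_, rfl⟩
    rw [← hN, ← hN1] at hc1
    rw [← hN, ← hN1, ← hN2] at hc2
    rw [← hN1] at hcount
    rw [← hN2] at hcl
    rw [← hN, hkap]
    have hc1' : (N1 : ℝ) ≤ N := by exact_mod_cast hc1
    have hc2' : (N : ℝ) ≤ N1 + N2 := by exact_mod_cast hc2
    have hM := M_bound hp2 b
    push_cast at hcount hcl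
    obtain ⟨l, hl⟩ : ∃ l : ℝ, l = (hi : ℝ) - lo := ⟨_, rfl⟩
    have hl0 : 0 ≤ l := by
      rw [hl]
      have : (lo : ℝ) ≤ hi := by exact_mod_cast hlh
      linarith
    have hl9 : l ≤ 9 * ((p : ℝ) ^ b * (p : ℝ) ^ b) := by
      have h1 : ((hi - lo : ℤ) : ℝ) ≤ ((9 * (p : ℤ) ^ (2 * b) : ℤ) : ℝ) := by exact_mod_cast hlen
      push_cast at h1
      rw [hl]
      refine h1.trans (le_of_eq ?_)
      rw [two_mul, pow_add]
    rw [← hl] at hcount hcl
    push_cast
    rw [← hl]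
    obtain ⟨P, hP⟩ : ∃ P : ℝ, P = (p : ℝ) ^ b := ⟨_, rfl⟩
    rw [← hP] at hcount hcl hM hl9 hpb ⊢
    obtain ⟨κ, hκ⟩ : ∃ κ : ℝ, κ = ((p : ℝ) + 2) / (2 * ((p : ℝ) + 1)) := ⟨_, rfl⟩
    rw [← hκ] at hM ⊢
    have hP0 : 0 < P := by linarith
    have hlP : l / P ≤ 9 * P := by
      rw [div_le_iff₀ hP0]
      linarith
    have hlP0 : 0 ≤ l / P := div_nonneg hl0 hP0.le
    have h5 : |M p b / P * l - κ * l| ≤ 9 * P := by
      have e : M p b / P * l - κ * l = (M p b - κ * P) * (l / P) := by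
        field_simp
      rw [e, abs_mul, abs_of_nonneg hlP0]
      calc |M p b - κ * P| * (l / P) ≤ 1 * (l / P) := mul_le_mul_of_nonneg_right hM hlP0
        _ ≤ 9 * P := by linarith
    rw [abs_le] at hcount hcl h5 ⊢
    constructor <;> linarith [hcount.1, hcount.2, hcl.1, hcl.2, h5.1, h5.2]

end Pool.Agent.H864.TFU3
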