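import Pool.Agent.H857.TF.Core2

/-!
# U4: the numbers in an interval which are not squares in the field of 2-adic numbers
-/

set_option autoImplicit false

namespace Pool.Agent.H618.TFU4

open Pool.Agent.H857.TF
open Polynomial

section
variable [Fact (Nat.Prime 2)]

theorem lift_sq {m : ℤ} {w : ℚ_[2]} (h : w ^ 2 = (m : ℚ_[2])) :
    ∃ z : ℤ_[2], z ^ 2 = (m : ℤ_[2]) := by
  have h1 : ‖w‖ ≤ 1 := by
    have h2 : ‖w‖ ^ 2 ≤ 1 := by
      rw [← norm_pow, h]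
      exact Padic.norm_int_le_one m
    nlinarith [norm_nonneg w]
  refine ⟨⟨w, h1⟩, ?_⟩
  apply Subtype.ext
  push_cast
  exact h

omit [Fact (Nat.Prime 2)] in
theorem zmod8 : ∀ z : ZMod 8, z ^ 2 = 0 ∨ z ^ 2 = 1 ∨ z ^ 2 = 4 := by decide

theorem nonSq_of_mod {m : ℤ} (h : m % 8 = 2 ∨ m % 8 = 3 ∨ m % 8 = 5 ∨ m % 8 = 6 ∨ m % 8 = 7) :
    NonSq 2 m := by
  intro w hw
  obtain ⟨z, hz⟩ := lift_sq hw
  have h1 := congrArg (PadicInt.toZModPow (p := 2) 3) hz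
  rw [map_pow, map_intCast] at h1
  have e8 : (2 : ℕ) ^ 3 = 8 := by norm_num
  have key : ∃ y : ZMod 8, y ^ 2 = (m : ZMod 8) := by
    have hgen : ∀ N : ℕ, N = 8 → (∃ y : ZMod N, y ^ 2 = (m : ZMod N)) →
        ∃ y : ZMod 8, y ^ 2 = (m : ZMod 8) := by
      rintro N rfl hN
      exact hN
    exact hgen (2 ^ 3) e8 ⟨_, h1⟩
  obtain ⟨y, hy⟩ := key
  have hm : (m : ZMod 8) = ((m % 8 : ℤ) : ZMod 8) := by
    rw [ZMod.intCast_eq_intCast_iff]
    exact (Int.mod_modEq m 8).symm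
  rw [hm] at hy
  rcases h with h | h | h | h | h <;> rw [h] at hy <;> revert hy <;> revert y <;> decide

theorem sq_of_mod {m : ℤ} (h : m % 8 = 1) : ¬ NonSq 2 m := by
  have hF := hensels_lemma (p := 2) (R := ℤ) (F := (X ^ 2 - C m : ℤ[X])) (a := (1 : ℤ_[2])) (by
    simp only [map_sub, map_pow, aeval_X, aeval_C, derivative_X_pow, derivative_C,
      one_pow, sub_zero]
    have e1 : ‖(1 : ℤ_[2]) - algebraMap ℤ ℤ_[2] m‖ ≤ (2 : ℝ) ^ (-3 : ℤ) := by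
      have e2 : (1 : ℤ_[2]) - algebraMap ℤ ℤ_[2] m = ((1 - m : ℤ) : ℤ_[2]) := by
        push_cast
        rfl
      rw [e2]
      have e3 := (PadicInt.norm_int_le_pow_iff_dvd (p := 2) (k := 1 - m) (n := 3)).2 (by
        norm_num
        omega)
      exact_mod_cast e3
    refine e1.trans_lt ?_
    have e4 : ‖(aeval (1 : ℤ_[2])) (C (((2 : ℕ) : ℤ)) * X ^ (2 - 1) : ℤ[X])‖ = 2⁻¹ := by
      simp only [map_mul, aeval_C, map_pow, aeval_X, one_pow, mul_one]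
      have : (algebraMap ℤ ℤ_[2]) ((2 : ℕ) : ℤ) = ((2 : ℕ) : ℤ_[2]) := by
        simp
      rw [this]
      exact_mod_cast PadicInt.norm_p (p := 2)
    rw [e4]
    norm_num)
  obtain ⟨z, hz, -⟩ := hF
  intro hn
  simp only [map_sub, map_pow, aeval_X, aeval_C] at hz
  apply hn (z : ℚ_[2])
  have h1 : z ^ 2 = (algebraMap ℤ ℤ_[2]) m := sub_eq_zero.1 hz
  have h2 := congrArg (fun t : ℤ_[2] => (t : ℚ_[2])) h1
  simpa using h2

theorem nonSq_four (m : ℤ) : NonSq 2 (4 * m) ↔ NonSq 2 m := by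
  constructor
  · intro h w hw
    apply h (2 * w)
    rw [mul_pow, hw]
    push_cast
    norm_num
  · intro h w hw
    apply h (w / 2)
    rw [div_pow, hw]
    push_cast
    norm_num

omit [Fact (Nat.Prime 2)] in
theorem fin_set (P : ℤ → Prop) (L H : ℤ) : {m : ℤ | L ≤ m ∧ m ≤ H ∧ P m}.Finite :=
  (Set.finite_Icc L H).subset fun _ hm => ⟨hm.1, hm.2.1⟩

/-- the number of the `m` in the interval with the property -/
noncomputable def cnt (P : ℤ → Prop) (L H : ℤ) : ℝ := ({m : ℤ | L ≤ m ∧ m ≤ H ∧ P m}.ncard : ℝ)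

omit [Fact (Nat.Prime 2)] in
theorem cnt_nonneg (P : ℤ → Prop) (L H : ℤ) : 0 ≤ cnt P L H := Nat.cast_nonneg _

omit [Fact (Nat.Prime 2)] in
theorem cnt_le (P : ℤ → Prop) {L H : ℤ} (h : L ≤ H + 1) : cnt P L H ≤ ((H - L : ℤ) : ℝ) + 1 := by
  unfold cnt
  have h1 : {m : ℤ | L ≤ m ∧ m ≤ H ∧ P m}.ncard ≤ (Set.Icc L H).ncard :=
    Set.ncard_le_ncard (fun m hm => ⟨hm.1, hm.2.1⟩) (Set.finite_Icc L H)
  have h3 : (Set.Icc L H).ncard = (H + 1 - L).toNat := by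
    rw [← Finset.coe_Icc, Set.ncard_coe_finset, Int.card_Icc]
  rw [h3] at h1
  have h4 : (({m : ℤ | L ≤ m ∧ m ≤ H ∧ P m}.ncard : ℕ) : ℤ) ≤ H + 1 - L := by omega
  have h5 : ((({m : ℤ | L ≤ m ∧ m ≤ H ∧ P m}.ncard : ℕ) : ℤ) : ℝ) ≤ ((H + 1 - L : ℤ) : ℝ) := by
    exact_mod_cast h4
  push_cast at h5 ⊢
  linarith

omit [Fact (Nat.Prime 2)] in
theorem cnt_congr {P Q : ℤ → Prop} {L H : ℤ} (h : ∀ m, P m ↔ Q m) : cnt P L H = cnt Q L H := by
  have : P = Q := funext fun m => propext (h m)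
  rw [this]

omit [Fact (Nat.Prime 2)] in
theorem cnt_or {P Q : ℤ → Prop} (L H : ℤ) (h : ∀ m, P m → Q m → False) :
    cnt (fun m => P m ∨ Q m) L H = cnt P L H + cnt Q L H := by
  unfold cnt
  rw [← Nat.cast_add, ← Set.ncard_union_eq (by
    rw [Set.disjoint_left]
    intro m h1 h2
    exact h m h1.2.2 h2.2.2) (fin_set P L H) (fin_set Q L H)]
  congr 2
  ext m
  simp only [Set.mem_union, Set.mem_ofPred_eq]
  tauto

omit [Fact (Nat.Prime 2)] in
/-- one residue class -/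
theorem cnt_res {r : ℤ} (hr : 0 < r) (c : ℤ) {L H : ℤ} (h : L ≤ H + 1) :
    |cnt (fun m => m % r = c % r) L H - ((H - L : ℤ) : ℝ) / r| ≤ 2 := by
  have h1 : cnt (fun m => m % r = c % r) L H =
      ((max (⌊((H : ℤ) - c : ℚ) / (r : ℚ)⌋ - ⌊((L - 1 : ℤ) - c : ℚ) / (r : ℚ)⌋) 0 : ℤ) : ℝ) := by
    have h2 := Int.Ioc_filter_modEq_card (L - 1) H hr c
    unfold cnt
    have h4 : {m : ℤ | L ≤ m ∧ m ≤ H ∧ m % r = c % r} =
        (((Finset.Ioc (L - 1) H).filter (fun x => x ≡ c [ZMOD r]) : Finset ℤ) : Set ℤ) := by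
      ext m
      simp only [Set.mem_ofPred_eq, Finset.coe_filter, Finset.mem_Ioc]
      constructor
      · rintro ⟨g1, g2, g3⟩
        exact ⟨⟨by omega, g2⟩, g3⟩
      · rintro ⟨⟨g1, g2⟩, g3⟩
        exact ⟨by omega, g2, g3⟩
    rw [h4, Set.ncard_coe_finset, ← Int.cast_natCast, h2]
  rw [h1]
  have hrr : (0 : ℝ) < r := by exact_mod_cast hr
  have hrq : (0 : ℚ) < r := by exact_mod_cast hr
  obtain ⟨u, hu⟩ : ∃ u, u = ⌊((H : ℤ) - c : ℚ) / (r : ℚ)⌋ := ⟨_, rfl⟩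
  obtain ⟨v, hv⟩ : ∃ v, v = ⌊((L - 1 : ℤ) - c : ℚ) / (r : ℚ)⌋ := ⟨_, rfl⟩
  rw [← hu, ← hv]
  have a1 : (u : ℚ) ≤ ((H : ℤ) - c : ℚ) / (r : ℚ) := hu ▸ Int.floor_le _
  have a2 : ((H : ℤ) - c : ℚ) / (r : ℚ) < u + 1 := hu ▸ Int.lt_floor_add_one _
  have a3 : (v : ℚ) ≤ ((L - 1 : ℤ) - c : ℚ) / (r : ℚ) := hv ▸ Int.floor_le _
  have a4 : ((L - 1 : ℤ) - c : ℚ) / (r : ℚ) < v + 1 := hv ▸ Int.lt_floor_add_one _
  rw [le_div_iff₀ hrq] at a1 a3
  rw [div_lt_iff₀ hrq] at a2 a4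
  have b1 : u * r ≤ H - c := by exact_mod_cast a1
  have b2 : H - c < (u + 1) * r := by exact_mod_cast a2
  have b3 : v * r ≤ L - 1 - c := by exact_mod_cast a3
  have b4 : L - 1 - c < (v + 1) * r := by exact_mod_cast a4
  have huv : v ≤ u := by
    by_contra hc
    have : u + 1 ≤ v := by omega
    nlinarith
  rw [max_eq_left (by omega)]
  have c1 : ((u - v : ℤ) : ℝ) * r ≤ ((H - L : ℤ) : ℝ) + 1 + r := by
    have : (u - v) * r ≤ (H - L) + 1 + r := by nlinarith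
    exact_mod_cast this
  have c2 : ((H - L : ℤ) : ℝ) + 1 - r ≤ ((u - v : ℤ) : ℝ) * r := by
    have : (H - L) + 1 - r ≤ (u - v) * r := by nlinarith
    exact_mod_cast this
  have hr1 : (1 : ℝ) ≤ r := by exact_mod_cast hr
  have e : ((u - v : ℤ) : ℝ) - ((H - L : ℤ) : ℝ) / r =
      (((u - v : ℤ) : ℝ) * r - ((H - L : ℤ) : ℝ)) / r := by
    field_simp
  rw [e, abs_le]
  constructor
  · rw [le_div_iff₀ hrr]
    linarith
  · rw [div_le_iff₀ hrr]
    linarith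

/-- splitting off the multiples of `4` -/
theorem cnt_four (L H : ℤ) : cnt (fun m => m % 4 = 0 ∧ NonSq 2 m) L H =
    cnt (NonSq 2) ((L + 3) / 4) (H / 4) := by
  unfold cnt
  have h1 : {m : ℤ | L ≤ m ∧ m ≤ H ∧ m % 4 = 0 ∧ NonSq 2 m} =
      (fun m => 4 * m) '' {m : ℤ | (L + 3) / 4 ≤ m ∧ m ≤ H / 4 ∧ NonSq 2 m} := by
    ext m
    simp only [Set.mem_ofPred_eq, Set.mem_image]
    constructor
    · rintro ⟨g1, g2, g3, g4⟩
      have e : 4 * (m / 4) = m := by omega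
      refine ⟨m / 4, ⟨by omega, by omega, ?_⟩, e⟩
      rw [← nonSq_four, e]
      exact g4
    · rintro ⟨y, ⟨g1, g2, g3⟩, rfl⟩
      exact ⟨by omega, by omega, by omega, (nonSq_four y).2 g3⟩
  rw [h1, Set.ncard_image_of_injective _ (fun a b hab => by simpa using hab)]

theorem nonSq_iff (m : ℤ) : NonSq 2 m ↔
    ((((m % 8 = 2 % 8 ∨ m % 8 = 6 % 8) ∨ m % 8 = 3 % 8) ∨ m % 8 = 5 % 8) ∨ m % 8 = 7 % 8) ∨
      (m % 4 = 0 ∧ NonSq 2 m) := by
  constructor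
  · intro h
    by_cases h0 : m % 4 = 0
    · exact Or.inr ⟨h0, h⟩
    · by_cases h1 : m % 8 = 1
      · exact absurd h (sq_of_mod h1)
      · left
        omega
  · rintro (h | ⟨-, h⟩)
    · apply nonSq_of_mod
      omega
    · exact h

/-- the density `5 / 6` of the nonsquares -/
theorem main_cnt (k : ℕ) : ∀ L H : ℤ, L ≤ H + 1 → H - L ≤ 4 ^ k →
    |cnt (NonSq 2) L H - 5 / 6 * ((H - L : ℤ) : ℝ)| ≤ 14 * (k + 1) := by
  induction k with
  | zero =>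
    intro L H h1 h2
    have g1 := cnt_nonneg (NonSq 2) L H
    have g2 := cnt_le (NonSq 2) h1
    have g3 : ((H - L : ℤ) : ℝ) ≤ 1 := by exact_mod_cast h2
    have g4 : (-1 : ℝ) ≤ ((H - L : ℤ) : ℝ) := by exact_mod_cast (by omega : -1 ≤ H - L)
    rw [abs_le]
    push_cast at *
    constructor <;> linarith
  | succ k ih =>
    intro L H h1 h2
    have g1 : (L + 3) / 4 ≤ H / 4 + 1 := by omega
    have g2 : H / 4 - (L + 3) / 4 ≤ 4 ^ k := by
      have : (4 : ℤ) ^ (k + 1) = 4 * 4 ^ k := by ring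
      rw [this] at h2
      omega
    have g3 := ih _ _ g1 g2
    have e1 : cnt (NonSq 2) L H = ((((cnt (fun m => m % 8 = 2 % 8) L H +
        cnt (fun m => m % 8 = 6 % 8) L H) + cnt (fun m => m % 8 = 3 % 8) L H) +
        cnt (fun m => m % 8 = 5 % 8) L H) + cnt (fun m => m % 8 = 7 % 8) L H) +
        cnt (NonSq 2) ((L + 3) / 4) (H / 4) := by
      rw [cnt_congr nonSq_iff, cnt_or, cnt_or, cnt_or, cnt_or, cnt_or, cnt_four]
      all_goals (intro m; omega)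
    have c2 := abs_le.1 (cnt_res (r := 8) (by norm_num) 2 h1)
    have c6 := abs_le.1 (cnt_res (r := 8) (by norm_num) 6 h1)
    have c3 := abs_le.1 (cnt_res (r := 8) (by norm_num) 3 h1)
    have c5 := abs_le.1 (cnt_res (r := 8) (by norm_num) 5 h1)
    have c7 := abs_le.1 (cnt_res (r := 8) (by norm_num) 7 h1)
    have g4 := abs_le.1 g3
    have d1 : 4 * ((H / 4 - (L + 3) / 4 : ℤ) : ℝ) ≤ ((H - L : ℤ) : ℝ) := by
      exact_mod_cast (by omega : 4 * (H / 4 - (L + 3) / 4) ≤ H - L)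
    have d2 : ((H - L : ℤ) : ℝ) - 6 ≤ 4 * ((H / 4 - (L + 3) / 4 : ℤ) : ℝ) := by
      exact_mod_cast (by omega : H - L - 6 ≤ 4 * (H / 4 - (L + 3) / 4))
    rw [e1, abs_le]
    push_cast at *
    constructor <;> linarith

omit [Fact (Nat.Prime 2)] in
/-- reflection of the interval -/
theorem cnt_refl (P : ℤ → Prop) (s lo hi : ℤ) :
    ({n : ℤ | lo ≤ n ∧ n ≤ hi ∧ P (s - n)}.ncard : ℝ) = cnt P (s - hi) (s - lo) := by
  unfold cnt
  have h1 : {m : ℤ | s - hi ≤ m ∧ m ≤ s - lo ∧ P m} =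
      (fun n => s - n) '' {n : ℤ | lo ≤ n ∧ n ≤ hi ∧ P (s - n)} := by
    ext m
    simp only [Set.mem_ofPred_eq, Set.mem_image]
    constructor
    · rintro ⟨g1, g2, g3⟩
      refine ⟨s - m, ⟨by omega, by omega, ?_⟩, by omega⟩
      have e : s - (s - m) = m := by omega
      rw [e]
      exact g3
    · rintro ⟨y, ⟨g1, g2, g3⟩, rfl⟩
      exact ⟨by omega, by omega, g3⟩
  rw [h1, Set.ncard_image_of_injective _ (fun a b hab => by simpa using hab)]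

end

theorem u4_aux [Fact (Nat.Prime 2)] (b : ℕ) (A lo hi : ℤ) (hlo : lo ≤ hi)
    (hhi : hi - lo ≤ 9 * 2 ^ (2 * b)) :
    |({n : ℤ | lo ≤ n ∧ n ≤ hi ∧ ¬ (2 : ℤ) ∣ n ∧ NonSq 2 (A ^ 2 - 4 * n)}.ncard : ℝ) -
      kap 2 A * ((hi - lo : ℤ) : ℝ)| ≤ 100 * (2 : ℝ) ^ b := by
  have hb2 : (b : ℝ) + 1 ≤ 2 ^ b := by
    have : b + 1 ≤ 2 ^ b := Nat.lt_two_pow_self
    exact_mod_cast this
  have hb0 : (0 : ℝ) ≤ b := Nat.cast_nonneg b
  rcases Int.even_or_odd' A with ⟨a, rfl | rfl⟩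
  · have h4 : ∀ n : ℤ, NonSq 2 ((2 * a) ^ 2 - 4 * n) ↔ NonSq 2 (a ^ 2 - n) := by
      intro n
      have e : (2 * a) ^ 2 - 4 * n = 4 * (a ^ 2 - n) := by ring
      rw [e]
      exact nonSq_four _
    rcases Int.even_or_odd' a with ⟨c, rfl | rfl⟩
    · have hk : kap 2 (2 * (2 * c)) = 3 / 8 := by
        unfold kap
        rw [if_pos rfl, if_neg (by omega), if_pos (by omega)]
      rw [hk]
      have e1 : {n : ℤ | lo ≤ n ∧ n ≤ hi ∧ ¬ (2 : ℤ) ∣ n ∧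
          NonSq 2 ((2 * (2 * c)) ^ 2 - 4 * n)} = {n : ℤ | lo ≤ n ∧ n ≤ hi ∧
          (fun m => (m % 8 = 3 % 8 ∨ m % 8 = 5 % 8) ∨ m % 8 = 7 % 8) ((2 * c) ^ 2 - n)} := by
        ext n
        simp only [Set.mem_ofPred_eq]
        have e2 : (2 * c) ^ 2 = 4 * c ^ 2 := by ring
        obtain ⟨w, hw⟩ : ∃ w, w = c ^ 2 := ⟨_, rfl⟩
        rw [h4 n]
        constructor
        · rintro ⟨g1, g2, g3, g4⟩
          refine ⟨g1, g2, ?_⟩
          by_cases h1 : ((2 * c) ^ 2 - n) % 8 = 1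
          · exact absurd g4 (sq_of_mod h1)
          · rw [e2, ← hw] at h1 ⊢
            omega
        · rintro ⟨g1, g2, g3⟩
          refine ⟨g1, g2, ?_, nonSq_of_mod (by omega)⟩
          rw [e2, ← hw] at g3
          omega
      rw [e1, cnt_refl (fun m => (m % 8 = 3 % 8 ∨ m % 8 = 5 % 8) ∨ m % 8 = 7 % 8), cnt_or, cnt_or]
      · have hL : (2 * c) ^ 2 - hi ≤ (2 * c) ^ 2 - lo + 1 := by omega
        have c3 := abs_le.1 (cnt_res (r := 8) (by norm_num) 3 hL)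
        have c5 := abs_le.1 (cnt_res (r := 8) (by norm_num) 5 hL)
        have c7 := abs_le.1 (cnt_res (r := 8) (by norm_num) 7 hL)
        have e3 : (2 * c) ^ 2 - lo - ((2 * c) ^ 2 - hi) = hi - lo := by ring
        rw [e3] at c3 c5 c7
        rw [abs_le]
        push_cast at *
        constructor <;> linarith
      · intro m; omega
      · intro m; omega
    · have hk : kap 2 (2 * (2 * c + 1)) = 11 / 24 := by
        unfold kap
        rw [if_pos rfl, if_neg (by omega), if_neg (by omega)]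
      rw [hk]
      have e1 : {n : ℤ | lo ≤ n ∧ n ≤ hi ∧ ¬ (2 : ℤ) ∣ n ∧
          NonSq 2 ((2 * (2 * c + 1)) ^ 2 - 4 * n)} = {n : ℤ | lo ≤ n ∧ n ≤ hi ∧
          (fun m => (m % 8 = 2 % 8 ∨ m % 8 = 6 % 8) ∨ (m % 4 = 0 ∧ NonSq 2 m))
            ((2 * c + 1) ^ 2 - n)} := by
        ext n
        simp only [Set.mem_ofPred_eq]
        have e2 : (2 * c + 1) ^ 2 = 4 * (c ^ 2 + c) + 1 := by ring
        obtain ⟨w, hw⟩ : ∃ w, w = c ^ 2 + c := ⟨_, rfl⟩
        rw [h4 n]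
        constructor
        · rintro ⟨g1, g2, g3, g4⟩
          refine ⟨g1, g2, ?_⟩
          by_cases h1 : ((2 * c + 1) ^ 2 - n) % 4 = 0
          · exact Or.inr ⟨h1, g4⟩
          · left
            rw [e2, ← hw] at h1 ⊢
            omega
        · rintro ⟨g1, g2, g3⟩
          refine ⟨g1, g2, ?_, ?_⟩
          · rw [e2, ← hw] at g3
            rcases g3 with g3 | ⟨g3, -⟩ <;> omega
          · rcases g3 with g3 | ⟨-, g3⟩
            · exact nonSq_of_mod (by omega)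
            · exact g3
      rw [e1, cnt_refl (fun m => (m % 8 = 2 % 8 ∨ m % 8 = 6 % 8) ∨ (m % 4 = 0 ∧ NonSq 2 m)),
        cnt_or, cnt_or, cnt_four]
      · have hL : (2 * c + 1) ^ 2 - hi ≤ (2 * c + 1) ^ 2 - lo + 1 := by omega
        have c2 := abs_le.1 (cnt_res (r := 8) (by norm_num) 2 hL)
        have c6 := abs_le.1 (cnt_res (r := 8) (by norm_num) 6 hL)
        have e3 : (2 * c + 1) ^ 2 - lo - ((2 * c + 1) ^ 2 - hi) = hi - lo := by ring
        rw [e3] at c2 c6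
        obtain ⟨L, hLd⟩ : ∃ L, L = (2 * c + 1) ^ 2 - hi := ⟨_, rfl⟩
        obtain ⟨H, hHd⟩ : ∃ H, H = (2 * c + 1) ^ 2 - lo := ⟨_, rfl⟩
        have hHL : H - L = hi - lo := by omega
        rw [← hLd, ← hHd] at c2 c6 hL ⊢
        have g1 : (L + 3) / 4 ≤ H / 4 + 1 := by omega
        have g2 : H / 4 - (L + 3) / 4 ≤ 4 ^ (b + 1) := by
          have e5 : (4 : ℤ) ^ (b + 1) = 4 * 2 ^ (2 * b) := by
            rw [pow_succ, pow_mul]
            norm_num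
            ring
          have : (0 : ℤ) < 2 ^ (2 * b) := by positivity
          rw [e5]
          omega
        have g3 := abs_le.1 (main_cnt (b + 1) _ _ g1 g2)
        have d1 : 4 * ((H / 4 - (L + 3) / 4 : ℤ) : ℝ) ≤ ((hi - lo : ℤ) : ℝ) := by
          exact_mod_cast (by omega : 4 * (H / 4 - (L + 3) / 4) ≤ hi - lo)
        have d2 : ((hi - lo : ℤ) : ℝ) - 6 ≤ 4 * ((H / 4 - (L + 3) / 4 : ℤ) : ℝ) := by
          exact_mod_cast (by omega : hi - lo - 6 ≤ 4 * (H / 4 - (L + 3) / 4))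
        rw [abs_le]
        push_cast at *
        constructor <;> linarith
      · intro m; omega
      · intro m; omega
  · have hk : kap 2 (2 * a + 1) = 1 / 2 := by
      unfold kap
      rw [if_pos rfl, if_pos (by omega)]
    rw [hk]
    have e1 : {n : ℤ | lo ≤ n ∧ n ≤ hi ∧ ¬ (2 : ℤ) ∣ n ∧ NonSq 2 ((2 * a + 1) ^ 2 - 4 * n)} =
        {n : ℤ | lo ≤ n ∧ n ≤ hi ∧ n % 2 = 1 % 2} := by
      ext n
      simp only [Set.mem_ofPred_eq]
      constructor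
      · rintro ⟨g1, g2, g3, -⟩
        exact ⟨g1, g2, by omega⟩
      · rintro ⟨g1, g2, g3⟩
        refine ⟨g1, g2, by omega, nonSq_of_mod ?_⟩
        obtain ⟨t, ht⟩ := Int.even_mul_succ_self a
        have e2 : (2 * a + 1) ^ 2 = 4 * (a * (a + 1)) + 1 := by ring
        rw [e2, ht]
        omega
    have c1 := abs_le.1 (cnt_res (r := 2) (by norm_num) 1 (by omega : lo ≤ hi + 1))
    rw [e1]
    unfold cnt at c1
    rw [abs_le]
    push_cast at *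
    constructor <;> linarith

/-- **U4.** -/
theorem u4 : U4 := by
  refine ⟨100, by norm_num, ?_⟩
  intro p _ hp b A lo hi _ hlo hhi
  subst hp
  exact_mod_cast u4_aux b A lo hi hlo (by exact_mod_cast hhi)

end Pool.Agent.H618.TFU4
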