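import Pool.Agent.H857.TF.Core2

/-!
# U5: the number of the good parameters
-/

set_option autoImplicit false

namespace Pool.Agent.H972.TF

open Module Polynomial Pool.Agent.W521.Descent Pool.Agent.W521.Density Pool.Agent.W521.Count
  Pool.Agent.X297.UB Pool.Agent.H857.PB Pool.Agent.H857.PA Pool.Agent.H857.HK Pool.Agent.H857.EF
  Pool.Agent.H857.WT Pool.Agent.H857.SG Pool.Agent.H857.PD Pool.Agent.H857.TF

theorem kap_bds (p : ℕ) [Fact p.Prime] (A : ℤ) : 0 ≤ kap p A ∧ kap p A ≤ 1 := by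
  have hp : (2 : ℝ) ≤ p := by exact_mod_cast (Fact.out : p.Prime).two_le
  unfold kap
  split_ifs
  · norm_num
  · norm_num
  · norm_num
  · refine ⟨div_nonneg (by linarith) (by linarith), ?_⟩
    rw [div_le_one (by linarith)]
    linarith
  · refine ⟨div_nonneg (by linarith) (by linarith), ?_⟩
    rw [div_le_one (by linarith)]
    linarith

/-- the number of elements of a set of pairs, by the sections -/
theorem ncard_sections (S : Set (ℤ × ℤ)) (I : Finset ℤ) (hI : ∀ x ∈ S, x.1 ∈ I)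
    (hfin : ∀ A ∈ I, {n : ℤ | (A, n) ∈ S}.Finite) :
    S.Finite ∧ S.ncard = ∑ A ∈ I, {n : ℤ | (A, n) ∈ S}.ncard := by
  classical
  have hS : S.Finite := by
    have h : S ⊆ ⋃ A ∈ I, (Prod.mk A) '' {n : ℤ | (A, n) ∈ S} := by
      rintro ⟨A, n⟩ hx
      simp only [Set.mem_iUnion]
      exact ⟨A, hI _ hx, n, hx, rfl⟩
    exact (Set.Finite.biUnion I.finite_toSet (fun A hA => (hfin A hA).image _)).subset h
  refine ⟨hS, ?_⟩
  rw [Set.ncard_eq_toFinset_card _ hS,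
    Finset.card_eq_sum_card_fiberwise (f := Prod.fst) (t := I)]
  · refine Finset.sum_congr rfl fun A _ => ?_
    rw [← Set.ncard_coe_finset, ← Set.ncard_image_of_injective {n : ℤ | (A, n) ∈ S}
      (Prod.mk_right_injective A)]
    congr 1
    ext ⟨a, n⟩
    simp only [Finset.coe_filter, Set.Finite.mem_toFinset, Set.mem_ofPred_eq, Set.mem_image,
      Prod.mk.injEq]
    constructor
    · rintro ⟨h1, rfl⟩
      exact ⟨n, h1, rfl, rfl⟩
    · rintro ⟨m, h1, rfl, rfl⟩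
      exact ⟨h1, rfl⟩
  · intro x hx
    exact hI x (hS.mem_toFinset.1 hx)

/-- the main term -/
theorem u5_sum (h2 : U2) : ∃ C : ℝ, 0 < C ∧ ∀ (p : ℕ) [Fact p.Prime] (s : ℕ), 0 < s →
    |∑ A ∈ Finset.Icc (-3 * (s : ℤ)) (6 * s), kap p A * ((s : ℝ) ^ 2 * len (A / s)) -
      128 / 15 * kbar p * (s : ℝ) ^ 3| ≤ C * (s : ℝ) ^ 2 := by
  obtain ⟨C, hC, h⟩ := h2
  refine ⟨2 * C, by linarith, ?_⟩
  intro p hpf s hs
  have hp2 : 2 ≤ p := (Fact.out : p.Prime).two_le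
  have hp : (2 : ℝ) ≤ p := by exact_mod_cast hp2
  have hX : 0 ≤ C * (s : ℝ) ^ 2 := by positivity
  by_cases hp' : p = 2
  · subst hp'
    obtain ⟨f, hf⟩ : ∃ f : ℤ → ℝ, f = fun A : ℤ => (s : ℝ) ^ 2 * len ((A : ℝ) / s) := ⟨_, rfl⟩
    obtain ⟨g, hg⟩ : ∃ g : ℤ → ℝ, g = fun c : ℤ =>
        ∑ A ∈ Finset.Icc (-3 * (s : ℤ)) (6 * s) with A % ((4 : ℕ) : ℤ) = c % ((4 : ℕ) : ℤ), f A :=
      ⟨_, rfl⟩
    have h0 := h s 4 0 hs (by norm_num)
    have h1 := h s 4 1 hs (by norm_num)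
    have h2 := h s 4 2 hs (by norm_num)
    have h3 := h s 4 3 hs (by norm_num)
    have hsum : ∑ A ∈ Finset.Icc (-3 * (s : ℤ)) (6 * s), kap 2 A * ((s : ℝ) ^ 2 * len (A / s)) =
        3 / 8 * g 0 + 1 / 2 * g 1 + 11 / 24 * g 2 + 1 / 2 * g 3 := by
      rw [hg]
      simp only [Finset.sum_filter]
      rw [Finset.mul_sum, Finset.mul_sum, Finset.mul_sum, Finset.mul_sum,
        ← Finset.sum_add_distrib, ← Finset.sum_add_distrib, ← Finset.sum_add_distrib]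
      refine Finset.sum_congr rfl fun A _ => ?_
      rw [hf]
      simp only [Nat.cast_ofNat]
      have hA : A % 4 = 0 ∨ A % 4 = 1 ∨ A % 4 = 2 ∨ A % 4 = 3 := by omega
      unfold kap
      rcases hA with hA | hA | hA | hA
      · have h5 : ¬ A % 2 = 1 := by omega
        simp [hA, h5]
      · have h5 : A % 2 = 1 := by omega
        simp [hA, h5]
      · have h5 : ¬ A % 2 = 1 := by omega
        simp [hA, h5]
      · have h5 : A % 2 = 1 := by omega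
        simp [hA, h5]
    have hk : kbar 2 = 11 / 24 := by
      unfold kbar
      norm_num
    rw [hsum, hk]
    have e0 : |g 0 - 128 / 15 * (s : ℝ) ^ 3 / 4| ≤ C * (s : ℝ) ^ 2 := by
      rw [hg, hf]
      exact_mod_cast h0
    have e1 : |g 1 - 128 / 15 * (s : ℝ) ^ 3 / 4| ≤ C * (s : ℝ) ^ 2 := by
      rw [hg, hf]
      exact_mod_cast h1
    have e2 : |g 2 - 128 / 15 * (s : ℝ) ^ 3 / 4| ≤ C * (s : ℝ) ^ 2 := by
      rw [hg, hf]
      exact_mod_cast h2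
    have e3 : |g 3 - 128 / 15 * (s : ℝ) ^ 3 / 4| ≤ C * (s : ℝ) ^ 2 := by
      rw [hg, hf]
      exact_mod_cast h3
    rw [abs_le] at e0 e1 e2 e3 ⊢
    obtain ⟨a0, b0⟩ := e0
    obtain ⟨a1, b1⟩ := e1
    obtain ⟨a2, b2⟩ := e2
    obtain ⟨a3, b3⟩ := e3
    constructor <;> linarith
  · obtain ⟨f, hf⟩ : ∃ f : ℤ → ℝ, f = fun A : ℤ => (s : ℝ) ^ 2 * len ((A : ℝ) / s) := ⟨_, rfl⟩
    have h0 := h s 1 0 hs one_pos
    have h1 := h s p 0 hs (by omega)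
    have hsum : ∑ A ∈ Finset.Icc (-3 * (s : ℤ)) (6 * s), kap p A * ((s : ℝ) ^ 2 * len (A / s)) =
        ((p : ℝ) + 2) / (2 * ((p : ℝ) + 1)) *
          (∑ A ∈ Finset.Icc (-3 * (s : ℤ)) (6 * s) with A % ((1 : ℕ) : ℤ) = 0 % ((1 : ℕ) : ℤ), f A) +
        (((p : ℝ) - 1) / (2 * p) - ((p : ℝ) + 2) / (2 * ((p : ℝ) + 1))) *
          (∑ A ∈ Finset.Icc (-3 * (s : ℤ)) (6 * s) with A % (p : ℤ) = 0 % (p : ℤ), f A) := by
      simp only [Finset.sum_filter]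
      rw [Finset.mul_sum, Finset.mul_sum, ← Finset.sum_add_distrib]
      refine Finset.sum_congr rfl fun A _ => ?_
      rw [hf]
      unfold kap
      by_cases hA : (p : ℤ) ∣ A
      · have h5 : A % (p : ℤ) = 0 := Int.emod_eq_zero_of_dvd hA
        simp only [hp', hA, h5, if_true, if_false, Int.zero_emod, Nat.cast_one, Int.emod_one]
        ring
      · have h5 : ¬ A % (p : ℤ) = 0 := fun h => hA (Int.dvd_of_emod_eq_zero h)
        simp only [hp', hA, h5, if_true, if_false, Int.zero_emod, Nat.cast_one, Int.emod_one]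
        ring
    rw [hsum]
    obtain ⟨g0, hg0⟩ : ∃ g0 : ℝ, g0 =
      (∑ A ∈ Finset.Icc (-3 * (s : ℤ)) (6 * s) with A % ((1 : ℕ) : ℤ) = 0 % ((1 : ℕ) : ℤ), f A) :=
      ⟨_, rfl⟩
    obtain ⟨g1, hg1⟩ : ∃ g1 : ℝ, g1 =
      (∑ A ∈ Finset.Icc (-3 * (s : ℤ)) (6 * s) with A % (p : ℤ) = 0 % (p : ℤ), f A) := ⟨_, rfl⟩
    have e0 : |g0 - 128 / 15 * (s : ℝ) ^ 3| ≤ C * (s : ℝ) ^ 2 := by
      rw [hg0, hf]
      have h0' := h0
      rw [Nat.cast_one (R := ℝ), div_one] at h0'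
      exact h0'
    have e1 : |g1 - 128 / 15 * (s : ℝ) ^ 3 / p| ≤ C * (s : ℝ) ^ 2 := by
      rw [hg1, hf]
      exact h1
    rw [← hg0, ← hg1]
    obtain ⟨k1, hk1⟩ : ∃ k1 : ℝ, k1 = ((p : ℝ) + 2) / (2 * ((p : ℝ) + 1)) := ⟨_, rfl⟩
    obtain ⟨k2, hk2⟩ : ∃ k2 : ℝ, k2 = ((p : ℝ) - 1) / (2 * p) := ⟨_, rfl⟩
    have hb1 : 0 ≤ k1 ∧ k1 ≤ 1 := by
      rw [hk1]
      refine ⟨div_nonneg (by linarith) (by linarith), ?_⟩
      rw [div_le_one (by linarith)]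
      linarith
    have hb2 : 0 ≤ k2 ∧ k2 ≤ 1 := by
      rw [hk2]
      refine ⟨div_nonneg (by linarith) (by linarith), ?_⟩
      rw [div_le_one (by linarith)]
      linarith
    have hkb : kbar p = k1 + (k2 - k1) / p := by
      rw [hk1, hk2]
      unfold kbar
      have : (p : ℝ) ≠ 0 := by linarith
      have : (p : ℝ) + 1 ≠ 0 := by linarith
      field_simp
      ring
    rw [← hk1, ← hk2, hkb]
    have hdec : k1 * g0 + (k2 - k1) * g1 - 128 / 15 * (k1 + (k2 - k1) / p) * (s : ℝ) ^ 3 =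
        k1 * (g0 - 128 / 15 * (s : ℝ) ^ 3) + (k2 - k1) * (g1 - 128 / 15 * (s : ℝ) ^ 3 / p) := by
      ring
    rw [hdec]
    refine (abs_add_le _ _).trans ?_
    rw [abs_mul, abs_mul]
    have hk12 : |k2 - k1| ≤ 1 := by
      rw [abs_le]
      constructor <;> linarith [hb1.1, hb1.2, hb2.1, hb2.2]
    have hk1' : |k1| ≤ 1 := by
      rw [abs_le]
      constructor <;> linarith [hb1.1, hb1.2]
    have t1 : |k1| * |g0 - 128 / 15 * (s : ℝ) ^ 3| ≤ 1 * (C * (s : ℝ) ^ 2) :=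
      mul_le_mul hk1' e0 (abs_nonneg _) zero_le_one
    have t2 : |k2 - k1| * |g1 - 128 / 15 * (s : ℝ) ^ 3 / p| ≤ 1 * (C * (s : ℝ) ^ 2) :=
      mul_le_mul hk12 e1 (abs_nonneg _) zero_le_one
    linarith

/-- U5: the number of the good parameters. -/
theorem u5 (h1 : U1) (h2 : U2) (h3 : U3) (h4 : U4) : U5 := by
  obtain ⟨C2, hC2, h2'⟩ := u5_sum h2
  obtain ⟨C3, hC3, h3'⟩ := h3
  obtain ⟨C4, hC4, h4'⟩ := h4
  refine ⟨10 * (C3 + C4 + 4) + C2, by positivity, ?_⟩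
  intro p hpf b hb
  have hp2 : 2 ≤ p := (Fact.out : p.Prime).two_le
  obtain ⟨s, hs⟩ : ∃ s : ℕ, s = p ^ b := ⟨_, rfl⟩
  have hs0 : 0 < s := by rw [hs]; positivity
  have hs1 : (1 : ℝ) ≤ s := by exact_mod_cast hs0
  have hsZ : (p : ℤ) ^ b = (s : ℤ) := by rw [hs]; push_cast; ring
  have hsR : (p : ℝ) ^ b = (s : ℝ) := by rw [hs]; push_cast; ring
  have hsZ2 : (p : ℤ) ^ (2 * b) = (s : ℤ) ^ 2 := by rw [← hsZ]; ring
  rw [hsZ, hsR]
  -- one line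
  have hline : ∀ A : ℤ, ∃ lo hi : ℤ, {n : ℤ | Reg s A n} = Set.Icc lo hi ∧
      (lo ≤ hi → -3 * (s : ℤ) ≤ A ∧ A ≤ 6 * s) ∧
      (-3 * (s : ℤ) ≤ A → A ≤ 6 * s →
      |({n : ℤ | lo ≤ n ∧ n ≤ hi ∧ ¬ (p : ℤ) ∣ n ∧ NonSq p (A ^ 2 - 4 * n)}.ncard : ℝ) -
        kap p A * ((s : ℝ) ^ 2 * len (A / s))| ≤ (C3 + C4 + 4) * s) := by
    intro A
    obtain ⟨lo, hi, e1, e2, e3, e4⟩ := h1 s A hs0
    refine ⟨lo, hi, e1, e3, fun a1 a2 => ?_⟩
    obtain ⟨e5, e6⟩ := e4 a1 a2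
    obtain ⟨k0, k1⟩ := kap_bds p A
    have hmain : |({n : ℤ | lo ≤ n ∧ n ≤ hi ∧ ¬ (p : ℤ) ∣ n ∧
        NonSq p (A ^ 2 - 4 * n)}.ncard : ℝ) - kap p A * ((hi - lo : ℤ) : ℝ)| ≤
          (C3 + C4) * s + 1 := by
      by_cases hlh : lo ≤ hi
      · by_cases hp' : p = 2
        · have := h4' p hp' b A lo hi hb hlh (by rw [hsZ2]; exact e2)
          rw [hsR] at this
          refine this.trans ?_
          nlinarith
        · have := h3' p hp' b A lo hi hb hlh (by rw [hsZ2]; exact e2)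
          rw [hsR] at this
          refine this.trans ?_
          nlinarith
      · have h5 : hi - lo = -1 := by omega
        have h6 : {n : ℤ | lo ≤ n ∧ n ≤ hi ∧ ¬ (p : ℤ) ∣ n ∧ NonSq p (A ^ 2 - 4 * n)} = ∅ := by
          ext n
          simp only [Set.mem_ofPred_eq, Set.mem_empty_iff_false, iff_false]
          rintro ⟨b1, b2, _⟩
          omega
        rw [h5, h6, Set.ncard_empty]
        push_cast
        have h7 : (0 : ℝ) - kap p A * -1 = kap p A := by ring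
        rw [h7, abs_of_nonneg k0]
        nlinarith
    have hsec : |kap p A * ((hi - lo : ℤ) : ℝ) - kap p A * ((s : ℝ) ^ 2 * len (A / s))| ≤ 3 := by
      rw [← mul_sub, abs_mul, abs_of_nonneg k0]
      nlinarith [abs_nonneg (((hi - lo : ℤ) : ℝ) - (s : ℝ) ^ 2 * len (A / s))]
    have htri := abs_sub_le (({n : ℤ | lo ≤ n ∧ n ≤ hi ∧ ¬ (p : ℤ) ∣ n ∧
        NonSq p (A ^ 2 - 4 * n)}.ncard : ℝ)) (kap p A * ((hi - lo : ℤ) : ℝ))
        (kap p A * ((s : ℝ) ^ 2 * len (A / s)))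
    nlinarith
  choose lo hi g1 g2 g3 using hline
  obtain ⟨S, hS⟩ : ∃ S : Set (ℤ × ℤ), S = {x : ℤ × ℤ | Reg (s : ℤ) x.1 x.2 ∧ ¬ (p : ℤ) ∣ x.2 ∧
    NonSq p (x.1 ^ 2 - 4 * x.2)} := ⟨_, rfl⟩
  have hmem : ∀ A n : ℤ, Reg s A n ↔ lo A ≤ n ∧ n ≤ hi A := by
    intro A n
    have : n ∈ {n : ℤ | Reg s A n} ↔ n ∈ Set.Icc (lo A) (hi A) := by rw [g1 A]
    exact this
  have hsect : ∀ A : ℤ, {n : ℤ | (A, n) ∈ S} =
      {n : ℤ | lo A ≤ n ∧ n ≤ hi A ∧ ¬ (p : ℤ) ∣ n ∧ NonSq p (A ^ 2 - 4 * n)} := by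
    intro A
    ext n
    rw [hS]
    simp only [Set.mem_ofPred_eq, hmem A n, and_assoc]
  obtain ⟨hfin, hcard⟩ := ncard_sections S (Finset.Icc (-3 * (s : ℤ)) (6 * s)) (by
      rintro ⟨A, n⟩ hx
      rw [hS] at hx
      obtain ⟨c1, c2⟩ := (hmem A n).1 hx.1
      exact Finset.mem_Icc.2 (g2 A (c1.trans c2))) (by
      intro A _
      rw [hsect]
      exact (Set.finite_Icc (lo A) (hi A)).subset fun n hn => ⟨hn.1, hn.2.1⟩)
  rw [← hS]
  refine ⟨hfin, ?_⟩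
  have hsumerr : |(S.ncard : ℝ) - ∑ A ∈ Finset.Icc (-3 * (s : ℤ)) (6 * s),
      kap p A * ((s : ℝ) ^ 2 * len (A / s))| ≤ 10 * (C3 + C4 + 4) * (s : ℝ) ^ 2 := by
    rw [hcard]
    push_cast
    rw [← Finset.sum_sub_distrib]
    refine (Finset.abs_sum_le_sum_abs _ _).trans ?_
    have h5 : ∀ A ∈ Finset.Icc (-3 * (s : ℤ)) (6 * s),
        |({n : ℤ | (A, n) ∈ S}.ncard : ℝ) - kap p A * ((s : ℝ) ^ 2 * len (A / s))| ≤
          (C3 + C4 + 4) * s := by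
      intro A hA
      rw [hsect]
      obtain ⟨a1, a2⟩ := Finset.mem_Icc.1 hA
      exact g3 A a1 a2
    refine (Finset.sum_le_card_nsmul _ _ _ h5).trans ?_
    rw [nsmul_eq_mul, Int.card_Icc]
    have h6 : (6 * (s : ℤ) + 1 - -3 * (s : ℤ)).toNat = 9 * s + 1 := by omega
    rw [h6]
    push_cast
    have h7 : (0 : ℝ) ≤ (C3 + C4 + 4) * s := by positivity
    nlinarith
  have := abs_sub_le (S.ncard : ℝ) (∑ A ∈ Finset.Icc (-3 * (s : ℤ)) (6 * s),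
      kap p A * ((s : ℝ) ^ 2 * len (A / s))) (128 / 15 * kbar p * (s : ℝ) ^ 3)
  have h8 := h2' p s hs0
  linarith

end Pool.Agent.H972.TF
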