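import Pool.Agent.H857.TF.Core2

/-!
# U6: the condition of Honda and Tate (helper897, after T7 of helper795)
-/

set_option autoImplicit false

namespace Pool.Agent.H897.TFu6

open Module Polynomial Pool.Agent.W521.Descent Pool.Agent.W521.Density Pool.Agent.W521.Count
  Pool.Agent.X297.UB Pool.Agent.H857.PB Pool.Agent.H857.PA Pool.Agent.H857.HK Pool.Agent.H857.EF
  Pool.Agent.H857.WT Pool.Agent.H857.SG Pool.Agent.H857.PD Pool.Agent.H857.TF

theorem coeff_three (t A n : ℤ) :
    (F t A n).coeff 3 = t * (2 * t ^ 2 + A ^ 2 - 2 * n) := by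
  unfold F
  simp only [coeff_add, coeff_X_pow, coeff_C_mul, coeff_X, coeff_C]
  norm_num

theorem coeff_four (t A n : ℤ) : (F t A n).coeff 4 = n + t * A := by
  unfold F
  simp only [coeff_add, coeff_X_pow, coeff_C_mul, coeff_X, coeff_C]
  norm_num

theorem coeff_six (t A n : ℤ) : (F t A n).coeff 6 = 1 := by
  unfold F
  simp only [coeff_add, coeff_X_pow, coeff_C_mul, coeff_X, coeff_C]
  norm_num

theorem aeval_F {R : Type} [CommRing R] (t A n : ℤ) (w : R) :
    aeval w (F t A n) = w ^ 6 + (A : R) * w ^ 5 + ((n : R) + t * A) * w ^ 4 +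
      (t : R) * (2 * (t : R) ^ 2 + (A : R) ^ 2 - 2 * n) * w ^ 3 +
      (t : R) ^ 2 * (n + t * A) * w ^ 2 + (t : R) ^ 4 * A * w + (t : R) ^ 6 := by
  unfold F
  simp only [map_add, map_mul, map_pow, aeval_X, map_sub, map_ofNat, eq_intCast, map_intCast]

theorem sq_id {R : Type} [CommRing R] (t A n w : R) :
    4 * (w ^ 6 + A * w ^ 5 + (n + t * A) * w ^ 4 + t * (2 * t ^ 2 + A ^ 2 - 2 * n) * w ^ 3 +
      t ^ 2 * (n + t * A) * w ^ 2 + t ^ 4 * A * w + t ^ 6) =
    (2 * w ^ 3 + A * w ^ 2 + t * A * w + 2 * t ^ 3) ^ 2 +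
      (4 * n - A ^ 2) * (w ^ 2 - t * w) ^ 2 := by ring

theorem u6 (h1 : T1) (h17 : O17a) : U6 := by
  intro p _ b t A n hb ht hReg hpn hns hirr
  have hp := Fact.out (p := p.Prime)
  have htp : (p : ℤ) ^ b ∣ t := by
    rcases ht with h | h
    · rw [h]
    · rw [h, dvd_neg]
  have hpt : (p : ℤ) ∣ t := (dvd_pow_self _ hb.ne').trans htp
  have hpb : ((p : ℤ) ^ b) ≠ 0 := pow_ne_zero _ (by exact_mod_cast hp.ne_zero)
  have ht0 : t ≠ 0 := by
    rcases ht with h | h
    · rw [h]; exact hpb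
    · rw [h]; exact neg_ne_zero.2 hpb
  have hW : F t A n ∈ weilPolys (p ^ (2 * b)) 3 := by
    have h := (h1 (p ^ b) t A n (pow_pos hp.pos b) (by push_cast; exact ht) hReg.1).2 hReg
    rwa [← pow_mul, mul_comm b 2] at h
  refine h17 p b 3 _ hb (by norm_num) hW ?_ ?_ ?_
  · rw [coeff_three]
    exact htp.mul_right _
  · show ¬ (p : ℤ) ∣ (F t A n).coeff 4
    rw [coeff_four]
    intro h
    exact hpn ((Int.dvd_add_left (hpt.mul_right A)).1 h)
  · intro w hw
    rw [aeval_F] at hw
    have hid := sq_id (t : ℚ_[p]) A n w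
    rw [hw, mul_zero] at hid
    by_cases h0 : w ^ 2 - (t : ℚ_[p]) * w = 0
    · have h2 : w * (w - t) = 0 := by linear_combination h0
      rcases mul_eq_zero.1 h2 with h3 | h3
      · rw [h3] at hw
        have h4 : (t : ℚ_[p]) ^ 6 = 0 := by linear_combination hw
        have h5 : (t : ℚ_[p]) = 0 := (pow_eq_zero_iff (by norm_num)).1 h4
        exact ht0 (by exact_mod_cast h5)
      · have h4 : w = t := sub_eq_zero.1 h3
        rw [h4] at hw
        have h5 : (aeval t (F t A n) : ℤ) = 0 := by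
          rw [aeval_F]
          have h6 : ((t ^ 6 + A * t ^ 5 + (n + t * A) * t ^ 4 +
              t * (2 * t ^ 2 + A ^ 2 - 2 * n) * t ^ 3 +
              t ^ 2 * (n + t * A) * t ^ 2 + t ^ 4 * A * t + t ^ 6 : ℤ) : ℚ_[p]) = 0 := by
            push_cast
            exact hw
          have h7 := (Int.cast_eq_zero (α := ℚ_[p])).1 h6
          simpa using h7
        have h6 : (X - C t) ∣ F t A n := by
          rw [dvd_iff_isRoot, IsRoot, ← h5]
          rfl
        obtain ⟨g, hg⟩ := h6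
        rcases hirr.isUnit_or_isUnit hg with h7 | h7
        · exact not_isUnit_X_sub_C t h7
        · have h8 : (F t A n).natDegree ≤ 1 := by
            rw [hg]
            refine natDegree_mul_le.trans ?_
            rw [natDegree_X_sub_C, natDegree_eq_zero_of_isUnit h7]
          have h9 := coeff_six t A n
          rw [coeff_eq_zero_of_natDegree_lt (by omega)] at h9
          exact zero_ne_one h9
    · -- `A ^ 2 - 4 n` is a square
      obtain ⟨u, hu⟩ : ∃ u : ℚ_[p], u ^ 2 = (A : ℚ_[p]) ^ 2 - 4 * n := by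
        refine ⟨(2 * w ^ 3 + A * w ^ 2 + t * A * w + 2 * t ^ 3) / (w ^ 2 - t * w), ?_⟩
        rw [div_pow, div_eq_iff (pow_ne_zero 2 h0)]
        linear_combination -hid
      apply hns u
      rw [hu]
      push_cast
      rfl

end Pool.Agent.H897.TFu6
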