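import Pool.Agent.H857.TF.Core2

/-!
# A consequence of the condition of Honda and Tate (U7)
-/

set_option autoImplicit false

namespace Pool.Agent.H382.TFu7

open Module Polynomial Pool.Agent.W521.Descent Pool.Agent.W521.Density Pool.Agent.W521.Count
  Pool.Agent.X297.UB Pool.Agent.H857.PB Pool.Agent.H857.PA Pool.Agent.H857.HK Pool.Agent.H857.EF
  Pool.Agent.H857.WT Pool.Agent.H857.SG Pool.Agent.H857.PD Pool.Agent.H857.TF

/-- The condition for all monic divisors. -/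
theorem monic_dvd {p : ℕ} [Fact p.Prime] {a : ℕ} {f : ℤ[X]} (hf : HondaTate p a f) :
    ∀ (d : ℕ) (g : ℚ_[p][X]), g.natDegree = d → g.Monic →
      g ∣ f.map (Int.castRingHom ℚ_[p]) → ∃ n : ℕ, ‖g.coeff 0‖ = (((p : ℝ) ^ a)⁻¹) ^ n := by
  intro d
  induction d using Nat.strong_induction_on with
  | _ d ih =>
    intro g hd hg hgf
    rcases Nat.eq_zero_or_pos d with h0 | h0
    · have h1 : g = 1 := (Polynomial.Monic.natDegree_eq_zero hg).1 (hd.trans h0)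
      refine ⟨0, ?_⟩
      rw [h1, coeff_one_zero, NormOneClass.norm_one, pow_zero]
    · have hu : ¬ IsUnit g := by
        intro hu
        have := Polynomial.natDegree_eq_zero_of_isUnit hu
        omega
      obtain ⟨g₁, hg₁, hirr, g₂, rfl⟩ := Polynomial.exists_monic_irreducible_factor g hu
      have hg₂ : g₂.Monic := hg₁.of_mul_monic_left hg
      obtain ⟨n₁, hn₁⟩ := hf g₁ hg₁ hirr (dvd_trans (dvd_mul_right _ _) hgf)
      have hdeg : (g₁ * g₂).natDegree = g₁.natDegree + g₂.natDegree := hg₁.natDegree_mul hg₂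
      have hpos : 0 < g₁.natDegree := hirr.natDegree_pos
      obtain ⟨n₂, hn₂⟩ := ih g₂.natDegree (by omega) g₂ rfl hg₂
        (dvd_trans (dvd_mul_left _ _) hgf)
      refine ⟨n₁ + n₂, ?_⟩
      rw [mul_coeff_zero, norm_mul, hn₁, hn₂, pow_add]

theorem u7 : U7 := by
  intro p _ b t A n hb ht hHT δ hw
  have hδ : δ ^ 2 = (A : ℚ_[p]) ^ 2 - 4 * n := by
    rw [hw]
    push_cast
    ring
  set α : ℚ_[p] := (A + δ) / 2 with hα
  set β : ℚ_[p] := (A - δ) / 2 with hβ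
  have hs : α + β = A := by
    rw [hα, hβ]
    ring
  have hm : α * β = n := by
    rw [hα, hβ]
    linear_combination (-1 / 4 : ℚ_[p]) * hδ
  set h : ℚ_[p][X] := X ^ 3 + C α * X ^ 2 + C ((t : ℚ_[p]) * β) * X + C ((t : ℚ_[p]) ^ 3) with hh
  set k : ℚ_[p][X] := X ^ 3 + C β * X ^ 2 + C ((t : ℚ_[p]) * α) * X + C ((t : ℚ_[p]) ^ 3) with hk
  have hmon : h.Monic := by
    rw [hh]
    monicity!
  have hfac : (F t A n).map (Int.castRingHom ℚ_[p]) = h * k := by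
    have e1 : C ((A : ℤ) : ℚ_[p]) = C α + C β := by rw [← hs, C_add]
    have e2 : C ((n : ℤ) : ℚ_[p]) = C α * C β := by rw [← hm, C_mul]
    have e3 : (F t A n).map (Int.castRingHom ℚ_[p]) = X ^ 6 + C ((A : ℤ) : ℚ_[p]) * X ^ 5 +
        (C ((n : ℤ) : ℚ_[p]) + C ((t : ℤ) : ℚ_[p]) * C ((A : ℤ) : ℚ_[p])) * X ^ 4 +
        (C ((t : ℤ) : ℚ_[p]) * (2 * C ((t : ℤ) : ℚ_[p]) ^ 2 + C ((A : ℤ) : ℚ_[p]) ^ 2 -
          2 * C ((n : ℤ) : ℚ_[p]))) * X ^ 3 +
        (C ((t : ℤ) : ℚ_[p]) ^ 2 * (C ((n : ℤ) : ℚ_[p]) +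
          C ((t : ℤ) : ℚ_[p]) * C ((A : ℤ) : ℚ_[p]))) * X ^ 2 +
        (C ((t : ℤ) : ℚ_[p]) ^ 4 * C ((A : ℤ) : ℚ_[p])) * X + C ((t : ℤ) : ℚ_[p]) ^ 6 := by
      unfold F
      simp
    rw [e3, hh, hk, e1, e2]
    simp only [C_mul, C_pow]
    ring
  obtain ⟨N, hN⟩ := monic_dvd hHT _ h rfl hmon (by rw [hfac]; exact dvd_mul_right _ _)
  have hc0 : h.coeff 0 = (t : ℚ_[p]) ^ 3 := by
    rw [hh, coeff_zero_eq_eval_zero]
    simp
  have hp0 : (0 : ℝ) < p := by exact_mod_cast (Fact.out : p.Prime).pos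
  have ht' : ‖(t : ℚ_[p])‖ = ((p : ℝ)⁻¹) ^ b := by
    rcases ht with ht | ht
    · rw [ht]
      push_cast
      rw [norm_pow, Padic.norm_p]
    · rw [ht]
      push_cast
      rw [norm_neg, norm_pow, Padic.norm_p]
  rw [hc0, norm_pow, ht', ← inv_pow, ← pow_mul, ← pow_mul] at hN
  have hlt : (p : ℝ)⁻¹ < 1 := inv_lt_one_of_one_lt₀ (by exact_mod_cast (Fact.out : p.Prime).one_lt)
  have hpos : (0 : ℝ) < (p : ℝ)⁻¹ := inv_pos.2 hp0
  have hinj := (pow_right_injective₀ hpos hlt.ne) hN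
  have h1 : b * 3 = b * (2 * N) := by rw [hinj]; ring
  have h2 := Nat.eq_of_mul_eq_mul_left hb h1
  omega

end Pool.Agent.H382.TFu7
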