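import Pool.Agent.H857.TF.Core2

/-!
# U8: the Newton polygon argument (helper120)
-/

set_option autoImplicit false
set_option linter.unusedSectionVars false

namespace Pool.Agent.H120.TFU

open Module Polynomial Pool.Agent.W521.Descent Pool.Agent.W521.Density Pool.Agent.W521.Count
  Pool.Agent.X297.UB Pool.Agent.H857.PB Pool.Agent.H857.PA Pool.Agent.H857.HK Pool.Agent.H857.EF
  Pool.Agent.H857.WT Pool.Agent.H857.SG Pool.Agent.H857.PD Pool.Agent.H857.TF

section gen

variable {K : Type*} [NormedField K] [IsUltrametricDist K]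

theorem esymm_zero' (s : Multiset K) : s.esymm 0 = 1 := by
  simp [Multiset.esymm]

theorem esymm_cons' (a : K) (s : Multiset K) (k : ℕ) :
    (a ::ₘ s).esymm (k + 1) = s.esymm (k + 1) + a * s.esymm k := by
  unfold Multiset.esymm
  rw [Multiset.powersetCard_cons, Multiset.map_add, Multiset.sum_add, Multiset.map_map,
    ← Multiset.sum_map_mul_left]
  simp

theorem esymm_empty (k : ℕ) : (0 : Multiset K).esymm (k + 1) = 0 := by
  simp [Multiset.esymm]

open scoped Classical in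
/-- The elementary symmetric functions of numbers of absolute value at most `r`. -/
theorem esymm_norm {r : ℝ} (hr : 0 < r) (s : Multiset K) (hs : ∀ y ∈ s, ‖y‖ ≤ r) :
    (∀ k, ‖s.esymm k‖ ≤ r ^ k) ∧
    (∀ k, s.countP (fun y => ‖y‖ = r) < k → ‖s.esymm k‖ < r ^ k) ∧
    ‖s.esymm (s.countP fun y => ‖y‖ = r)‖ = r ^ (s.countP fun y => ‖y‖ = r) := by
  induction s using Multiset.induction_on with
  | empty =>
    refine ⟨fun k => ?_, fun k hk => ?_, ?_⟩
    · rcases k with _ | k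
      · rw [esymm_zero', NormOneClass.norm_one, pow_zero]
      · rw [esymm_empty, norm_zero]
        positivity
    · rcases k with _ | k
      · exact absurd hk (Nat.not_lt_zero _)
      · rw [esymm_empty, norm_zero]
        positivity
    · rw [Multiset.countP_zero, esymm_zero', NormOneClass.norm_one, pow_zero]
  | cons a s ih =>
    obtain ⟨h1, h2, h3⟩ := ih fun y hy => hs y (Multiset.mem_cons_of_mem hy)
    have ha : ‖a‖ ≤ r := hs a (Multiset.mem_cons_self a s)
    have hmul : ∀ k, ‖a * s.esymm k‖ ≤ r ^ (k + 1) := by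
      intro k
      rw [norm_mul, pow_succ, mul_comm (r ^ k)]
      exact mul_le_mul ha (h1 k) (norm_nonneg _) hr.le
    have hle : ∀ k, ‖(a ::ₘ s).esymm k‖ ≤ r ^ k := by
      intro k
      rcases k with _ | k
      · rw [esymm_zero', NormOneClass.norm_one, pow_zero]
      · rw [esymm_cons']
        exact (IsUltrametricDist.norm_add_le_max _ _).trans (max_le (h1 _) (hmul k))
    refine ⟨hle, ?_⟩
    by_cases har : ‖a‖ = r
    · rw [Multiset.countP_cons_of_pos s har]
      constructor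
      · intro k hk
        rcases k with _ | k
        · exact absurd hk (Nat.not_lt_zero _)
        · rw [esymm_cons']
          refine lt_of_le_of_lt (IsUltrametricDist.norm_add_le_max _ _) (max_lt ?_ ?_)
          · exact h2 _ (by omega)
          · rw [norm_mul, har, pow_succ, mul_comm (r ^ k)]
            exact mul_lt_mul_of_pos_left (h2 k (by omega)) hr
      · rw [esymm_cons']
        have e1 : ‖a * s.esymm (s.countP fun y => ‖y‖ = r)‖ =
            r ^ ((s.countP fun y => ‖y‖ = r) + 1) := by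
          rw [norm_mul, har, h3, pow_succ, mul_comm]
        have e2 := h2 ((s.countP fun y => ‖y‖ = r) + 1) (Nat.lt_succ_self _)
        have e3 : ‖s.esymm ((s.countP fun y => ‖y‖ = r) + 1)‖ ≠
            ‖a * s.esymm (s.countP fun y => ‖y‖ = r)‖ := by
          rw [e1]
          exact e2.ne
        rw [IsUltrametricDist.norm_add_eq_max_of_norm_ne_norm e3, e1]
        exact max_eq_right e2.le
    · have har' : ‖a‖ < r := lt_of_le_of_ne ha har
      have hmul' : ∀ k, ‖a * s.esymm k‖ < r ^ (k + 1) := by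
        intro k
        rw [norm_mul, pow_succ, mul_comm (r ^ k)]
        exact mul_lt_mul_of_lt_of_le_of_nonneg_of_pos har' (h1 k) (norm_nonneg _)
          (pow_pos hr k)
      rw [Multiset.countP_cons_of_neg s har]
      constructor
      · intro k hk
        rcases k with _ | k
        · exact absurd hk (Nat.not_lt_zero _)
        · rw [esymm_cons']
          exact lt_of_le_of_lt (IsUltrametricDist.norm_add_le_max _ _)
            (max_lt (h2 _ hk) (hmul' k))
      · rcases hm : (s.countP fun y => ‖y‖ = r) with _ | m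
        · rw [esymm_zero', NormOneClass.norm_one, pow_zero]
        · rw [esymm_cons']
          rw [hm] at h3
          have e3 : ‖s.esymm (m + 1)‖ ≠ ‖a * s.esymm m‖ := by
            rw [h3]
            exact (hmul' m).ne'
          rw [IsUltrametricDist.norm_add_eq_max_of_norm_ne_norm e3, h3]
          exact max_eq_left (hmul' m).le

open scoped Classical in
/-- The Newton polygon with one slope: if `|e_2| = r ^ 2` and `|e_k| ≤ r ^ k` for all `k`, with
strict inequality for `k ≥ 3`, then there is a number of absolute value `r` and there are at most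
two. -/
theorem newton {r : ℝ} (hr : 0 < r) (s : Multiset K) (h1 : ∀ k, ‖s.esymm k‖ ≤ r ^ k)
    (h2 : ‖s.esymm 2‖ = r ^ 2) (h3 : ∀ k, 3 ≤ k → ‖s.esymm k‖ < r ^ k) :
    (∃ y ∈ s, ‖y‖ = r) ∧ s.countP (fun y => ‖y‖ = r) ≤ 2 := by
  have hne : s.toFinset.Nonempty := by
    rw [Finset.nonempty_iff_ne_empty]
    intro h0
    rw [Multiset.toFinset_eq_empty] at h0
    rw [h0, esymm_empty, norm_zero] at h2
    exact absurd h2 (by positivity)
  obtain ⟨y, hy, hmax⟩ := s.toFinset.exists_max_image (fun y => ‖y‖) hne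
  have hys : y ∈ s := Multiset.mem_toFinset.1 hy
  have hmax' : ∀ z ∈ s, ‖z‖ ≤ ‖y‖ := fun z hz => hmax z (Multiset.mem_toFinset.2 hz)
  have hyr : r ≤ ‖y‖ := by
    by_contra hcon
    push Not at hcon
    have h4 := (esymm_norm hr s fun z hz => (hmax' z hz).trans hcon.le).2.1 2 (by
      rw [Multiset.countP_eq_zero.2]
      · norm_num
      · intro z hz hzr
        have := hmax' z hz
        linarith)
    linarith
  have hy0 : 0 < ‖y‖ := lt_of_lt_of_le hr hyr
  have hm1 : 0 < s.countP fun z => ‖z‖ = ‖y‖ := Multiset.countP_pos.2 ⟨y, hys, rfl⟩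
  have hyr2 : ‖y‖ = r := by
    by_contra hcon
    have hlt : r < ‖y‖ := lt_of_le_of_ne hyr (Ne.symm hcon)
    have h4 := (esymm_norm hy0 s hmax').2.2
    have h5 := h1 (s.countP fun z => ‖z‖ = ‖y‖)
    have h6 := pow_lt_pow_left₀ hlt hr.le hm1.ne'
    linarith
  refine ⟨⟨y, hys, hyr2⟩, ?_⟩
  by_contra hcon
  push Not at hcon
  rw [hyr2] at hmax'
  have h4 := (esymm_norm hr s hmax').2.2
  have h5 := h3 _ hcon
  linarith

end gen

variable {p : ℕ} [hp : Fact p.Prime]

theorem sq_of_lt (x : ℚ_[p]) (hx : ‖x‖ < 1) : ∃ w : ℚ_[p], w ^ 2 = 1 - 4 * x := by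
  let x' : ℤ_[p] := ⟨x, hx.le⟩
  have hx' : ‖x'‖ < 1 := hx
  have h1 : aeval (0 : ℤ_[p]) (X ^ 2 - X + C x' : ℤ_[p][X]) = x' := by
    simp
  have h2 : aeval (0 : ℤ_[p]) (derivative (X ^ 2 - X + C x' : ℤ_[p][X])) = -1 := by
    simp
  obtain ⟨z, hz, -⟩ := hensels_lemma (p := p) (F := (X ^ 2 - X + C x' : ℤ_[p][X])) (a := 0) (by
    rw [h1, h2, norm_neg, NormOneClass.norm_one, one_pow]
    exact hx')
  have hz' : z ^ 2 - z + x' = 0 := by
    simpa using hz
  refine ⟨1 - 2 * (z : ℚ_[p]), ?_⟩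
  have h3 : ((z ^ 2 - z + x' : ℤ_[p]) : ℚ_[p]) = 0 := by rw [hz']; rfl
  have h4 : (z : ℚ_[p]) ^ 2 - z + x = 0 := by
    have h5 : ((z ^ 2 - z + x' : ℤ_[p]) : ℚ_[p]) = (z : ℚ_[p]) ^ 2 - z + x := by
      push_cast
      rfl
    rw [← h5]
    exact h3
  linear_combination 4 * h4

/-- the constant term of an irreducible polynomial and the absolute value of a root -/
theorem norm_coeff_zero {h : ℚ_[p][X]} (hm : h.Monic)
    (hi : Irreducible h) {α : PadicAlgCl p} (hα : aeval α h = 0) :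
    ‖h.coeff 0‖ = ‖α‖ ^ h.natDegree := by
  have e1 : h = minpoly ℚ_[p] α := minpoly.eq_of_irreducible_of_monic hi hα hm
  have e2 : ‖α‖ = ‖h.coeff 0‖ ^ (1 / h.natDegree : ℝ) := by
    rw [e1]
    exact spectralNorm.spectralNorm_eq_norm_coeff_zero_rpow ℚ_[p] _ α
  have hd : (h.natDegree : ℝ) ≠ 0 := by
    exact_mod_cast hi.natDegree_pos.ne'
  rw [e2, ← Real.rpow_natCast, ← Real.rpow_mul (norm_nonneg _), one_div_mul_cancel hd,
    Real.rpow_one]

/-- the roots of an irreducible polynomial have the same absolute value -/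
theorem norm_root_eq {h : ℚ_[p][X]} (hm : h.Monic) (hi : Irreducible h)
    {α β : PadicAlgCl p} (hα : aeval α h = 0) (hβ : aeval β h = 0) : ‖α‖ = ‖β‖ := by
  have e1 := norm_coeff_zero hm hi hα
  have e2 := norm_coeff_zero hm hi hβ
  have hd : h.natDegree ≠ 0 := hi.natDegree_pos.ne'
  exact (pow_left_inj₀ (norm_nonneg _) (norm_nonneg _) hd).1 (e1.symm.trans e2)

theorem monic_F' (t A n : ℤ) : (F t A n).Monic := by
  unfold F
  monicity!

theorem natDegree_F' (t A n : ℤ) : (F t A n).natDegree = 6 := by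
  unfold F
  compute_degree!

theorem c0 (t A n : ℤ) : (F t A n).coeff 0 = t ^ 6 := by
  unfold F
  simp only [coeff_add, coeff_C_mul, coeff_X_pow, coeff_C, coeff_X]
  norm_num
theorem c1 (t A n : ℤ) : (F t A n).coeff 1 = t ^ 4 * A := by
  unfold F
  simp only [coeff_add, coeff_C_mul, coeff_X_pow, coeff_C, coeff_X]
  norm_num
theorem c2 (t A n : ℤ) : (F t A n).coeff 2 = t ^ 2 * (n + t * A) := by
  unfold F
  simp only [coeff_add, coeff_C_mul, coeff_X_pow, coeff_C, coeff_X]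
  norm_num
theorem c3 (t A n : ℤ) : (F t A n).coeff 3 = t * (2 * t ^ 2 + A ^ 2 - 2 * n) := by
  unfold F
  simp only [coeff_add, coeff_C_mul, coeff_X_pow, coeff_C, coeff_X]
  norm_num
theorem c4 (t A n : ℤ) : (F t A n).coeff 4 = n + t * A := by
  unfold F
  simp only [coeff_add, coeff_C_mul, coeff_X_pow, coeff_C, coeff_X]
  norm_num
theorem c5 (t A n : ℤ) : (F t A n).coeff 5 = A := by
  unfold F
  simp only [coeff_add, coeff_C_mul, coeff_X_pow, coeff_C, coeff_X]
  norm_num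

theorem norm_two_le : ‖(2 : ℚ_[p])‖ ≤ 1 := by
  have := Padic.norm_int_le_one (p := p) 2
  exact_mod_cast this

theorem norm_int' (n : ℤ) : ‖(n : PadicAlgCl p)‖ = ‖(n : ℚ_[p])‖ := by
  have h4 : (n : PadicAlgCl p) = algebraMap ℚ_[p] (PadicAlgCl p) (n : ℚ_[p]) := by
    rw [map_intCast]
  rw [h4, PadicAlgCl.norm_extends]

/-- the first step -/
theorem normA (A n : ℤ) (hns : NonSq p (A ^ 2 - 4 * n)) :
    ‖(A : ℚ_[p])‖ ^ 2 ≤ ‖(n : ℚ_[p])‖ := by
  by_contra hcon
  push Not at hcon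
  have hA : (A : ℚ_[p]) ≠ 0 := by
    intro h0
    rw [h0, norm_zero] at hcon
    have := norm_nonneg (n : ℚ_[p])
    norm_num at hcon
    linarith
  have hA0 : 0 < ‖(A : ℚ_[p])‖ := norm_pos_iff.2 hA
  obtain ⟨w, hw⟩ := sq_of_lt ((n : ℚ_[p]) / (A : ℚ_[p]) ^ 2) (by
    rw [norm_div, norm_pow, div_lt_one (by positivity)]
    exact hcon)
  apply hns ((A : ℚ_[p]) * w)
  rw [mul_pow, hw]
  push_cast
  field_simp

theorem u8 : U8 := by
  intro p _ b t A n hb ht hns hHT hpn
  classical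
  by_cases hn0 : n = 0
  · rw [hn0]
    exact dvd_zero _
  by_contra hnd
  have hp1 : (1 : ℝ) < p := by exact_mod_cast (Fact.out : p.Prime).one_lt
  have hp0 : (0 : ℝ) < p := by linarith
  have hN1 : ‖(n : ℚ_[p])‖ < 1 := Padic.norm_intCast_lt_one_iff.2 hpn
  have hN0 : 0 < ‖(n : ℚ_[p])‖ := norm_pos_iff.2 (by exact_mod_cast hn0)
  have hN2 : ((p : ℝ) ^ (2 * b))⁻¹ < ‖(n : ℚ_[p])‖ := by
    by_contra hcon
    push Not at hcon
    apply hnd
    have := (Padic.norm_int_le_pow_iff_dvd (p := p) n (2 * b)).1 (by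
      rw [zpow_neg, zpow_natCast]
      exact hcon)
    exact_mod_cast this
  set τ : ℝ := ((p : ℝ) ^ b)⁻¹ with hτ
  have hτ0 : 0 < τ := by positivity
  have hτ2 : τ ^ 2 = ((p : ℝ) ^ (2 * b))⁻¹ := by
    rw [hτ, inv_pow, ← pow_mul, mul_comm b 2]
  have hnt : ‖(t : ℚ_[p])‖ = τ := by
    rcases ht with rfl | rfl
    · push_cast
      rw [norm_pow, Padic.norm_p, inv_pow]
    · push_cast
      rw [norm_neg, norm_pow, Padic.norm_p, inv_pow]
  set r : ℝ := √‖(n : ℚ_[p])‖ with hr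
  have hr2 : r ^ 2 = ‖(n : ℚ_[p])‖ := Real.sq_sqrt hN0.le
  have hr0 : 0 < r := Real.sqrt_pos.2 hN0
  have hr1 : r < 1 := by
    by_contra hcon
    push Not at hcon
    have : 1 ≤ r ^ 2 := one_le_pow₀ hcon
    linarith
  have hτr : τ < r := by
    apply lt_of_pow_lt_pow_left₀ 2 hr0.le
    rw [hτ2, hr2]
    exact hN2
  have hA : ‖(A : ℚ_[p])‖ ≤ r := by
    apply le_of_sq_le_sq _ hr0.le
    rw [hr2]
    exact normA A n hns
  have hA0 := norm_nonneg (A : ℚ_[p])
  -- the coefficients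
  have htA : ‖(t : ℚ_[p]) * A‖ < r ^ 2 := by
    rw [norm_mul, hnt]
    calc τ * ‖(A : ℚ_[p])‖ ≤ τ * r := mul_le_mul_of_nonneg_left hA hτ0.le
      _ < r * r := mul_lt_mul_of_pos_right hτr hr0
      _ = r ^ 2 := by ring
  have hc4 : ‖((n : ℚ_[p]) + (t : ℚ_[p]) * A)‖ = r ^ 2 := by
    have hne : ‖(n : ℚ_[p])‖ ≠ ‖(t : ℚ_[p]) * A‖ := by
      rw [← hr2]
      exact htA.ne'
    rw [IsUltrametricDist.norm_add_eq_max_of_norm_ne_norm hne, ← hr2]
    exact max_eq_left htA.le
  have hin : ‖(2 * (t : ℚ_[p]) ^ 2 + (A : ℚ_[p]) ^ 2 - 2 * n)‖ ≤ r ^ 2 := by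
    have hh2 := norm_two_le (p := p)
    rw [sub_eq_add_neg]
    refine (IsUltrametricDist.norm_add_le_max _ _).trans (max_le
      ((IsUltrametricDist.norm_add_le_max _ _).trans (max_le ?_ ?_)) ?_)
    · rw [norm_mul, norm_pow, hnt]
      calc ‖(2 : ℚ_[p])‖ * τ ^ 2 ≤ 1 * τ ^ 2 := mul_le_mul_of_nonneg_right hh2 (by positivity)
        _ = τ ^ 2 := one_mul _
        _ ≤ r ^ 2 := pow_le_pow_left₀ hτ0.le hτr.le 2
    · rw [norm_pow]
      exact pow_le_pow_left₀ hA0 hA 2
    · rw [norm_neg, norm_mul, ← hr2]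
      calc ‖(2 : ℚ_[p])‖ * r ^ 2 ≤ 1 * r ^ 2 := mul_le_mul_of_nonneg_right hh2 (by positivity)
        _ = r ^ 2 := one_mul _
  have hc3 : ‖(t : ℚ_[p]) * (2 * (t : ℚ_[p]) ^ 2 + (A : ℚ_[p]) ^ 2 - 2 * n)‖ < r ^ 3 := by
    rw [norm_mul, hnt]
    calc τ * ‖(2 * (t : ℚ_[p]) ^ 2 + (A : ℚ_[p]) ^ 2 - 2 * n)‖ ≤ τ * r ^ 2 :=
          mul_le_mul_of_nonneg_left hin hτ0.le
      _ < r * r ^ 2 := mul_lt_mul_of_pos_right hτr (by positivity)
      _ = r ^ 3 := by ring
  have hc2 : ‖(t : ℚ_[p]) ^ 2 * ((n : ℚ_[p]) + (t : ℚ_[p]) * A)‖ < r ^ 4 := by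
    rw [norm_mul, norm_pow, hnt, hc4]
    calc τ ^ 2 * r ^ 2 < r ^ 2 * r ^ 2 :=
          mul_lt_mul_of_pos_right (pow_lt_pow_left₀ hτr hτ0.le two_ne_zero) (by positivity)
      _ = r ^ 4 := by ring
  have hc1 : ‖(t : ℚ_[p]) ^ 4 * A‖ < r ^ 5 := by
    rw [norm_mul, norm_pow, hnt]
    calc τ ^ 4 * ‖(A : ℚ_[p])‖ ≤ τ ^ 4 * r := mul_le_mul_of_nonneg_left hA (by positivity)
      _ < r ^ 4 * r :=
          mul_lt_mul_of_pos_right (pow_lt_pow_left₀ hτr hτ0.le (by norm_num)) hr0
      _ = r ^ 5 := by ring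
  have hc0 : ‖(t : ℚ_[p]) ^ 6‖ < r ^ 6 := by
    rw [norm_pow, hnt]
    exact pow_lt_pow_left₀ hτr hτ0.le (by norm_num)
  -- the roots
  set P : (PadicAlgCl p)[X] := (F t A n).map (Int.castRingHom (PadicAlgCl p)) with hP
  have hPm : P.Monic := (monic_F' t A n).map _
  have hPd : P.natDegree = 6 := by
    rw [hP, (monic_F' t A n).natDegree_map, natDegree_F']
  have hPc : P.roots.card = P.natDegree := IsAlgClosed.card_roots_eq_natDegree
  have hes : ∀ j, j ≤ 6 → ‖P.roots.esymm (6 - j)‖ = ‖(((F t A n).coeff j : ℤ) : ℚ_[p])‖ := by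
    intro j hj
    have h1 := Polynomial.coeff_eq_esymm_roots_of_card hPc (k := j) (by rw [hPd]; exact hj)
    rw [hPm.leadingCoeff, one_mul, hPd] at h1
    have h2 : P.coeff j = (((F t A n).coeff j : ℤ) : PadicAlgCl p) := by
      rw [hP, coeff_map, eq_intCast]
    have h3 := congrArg (fun z => ‖z‖) h1
    simp only [norm_mul, norm_pow, norm_neg, NormOneClass.norm_one, one_pow, one_mul] at h3
    rw [← h3, h2, norm_int']
  have e1 : ‖P.roots.esymm 1‖ ≤ r ^ 1 := by
    have h1 := hes 5 (by norm_num)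
    rw [c5] at h1
    norm_num at h1
    rw [h1, pow_one]
    exact hA
  have e2 : ‖P.roots.esymm 2‖ = r ^ 2 := by
    have h1 := hes 4 (by norm_num)
    rw [c4] at h1
    push_cast at h1
    rw [← hc4, ← h1]
  have e3 : ‖P.roots.esymm 3‖ < r ^ 3 := by
    have h1 := hes 3 (by norm_num)
    rw [c3] at h1
    push_cast at h1
    have h2 : ‖P.roots.esymm 3‖ = ‖P.roots.esymm (6 - 3)‖ := rfl
    rw [h2, h1]
    exact hc3
  have e4 : ‖P.roots.esymm 4‖ < r ^ 4 := by
    have h1 := hes 2 (by norm_num)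
    rw [c2] at h1
    push_cast at h1
    have h2 : ‖P.roots.esymm 4‖ = ‖P.roots.esymm (6 - 2)‖ := rfl
    rw [h2, h1]
    exact hc2
  have e5 : ‖P.roots.esymm 5‖ < r ^ 5 := by
    have h1 := hes 1 (by norm_num)
    rw [c1] at h1
    push_cast at h1
    have h2 : ‖P.roots.esymm 5‖ = ‖P.roots.esymm (6 - 1)‖ := rfl
    rw [h2, h1]
    exact hc1
  have e6 : ‖P.roots.esymm 6‖ < r ^ 6 := by
    have h1 := hes 0 (by norm_num)
    rw [c0] at h1
    push_cast at h1
    have h2 : ‖P.roots.esymm 6‖ = ‖P.roots.esymm (6 - 0)‖ := rfl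
    rw [h2, h1]
    exact hc0
  have e7 : ∀ k, 3 ≤ k → ‖P.roots.esymm k‖ < r ^ k := by
    intro k hk
    rcases Nat.lt_or_ge 6 k with h6 | h6
    · have h7 : Multiset.powersetCard k P.roots = 0 :=
        Multiset.powersetCard_eq_empty k (by rw [hPc, hPd]; exact h6)
      have h8 : P.roots.esymm k = 0 := by
        unfold Multiset.esymm
        rw [h7, Multiset.map_zero, Multiset.sum_zero]
      rw [h8, norm_zero]
      positivity
    · interval_cases k
      · exact e3
      · exact e4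
      · exact e5
      · exact e6
  obtain ⟨⟨y, hys, hyr⟩, hcount⟩ := newton hr0 P.roots (by
    intro k
    rcases Nat.lt_or_ge k 3 with h3 | h3
    · interval_cases k
      · rw [esymm_zero', NormOneClass.norm_one, pow_zero]
      · exact e1
      · exact e2.le
    · exact (e7 k h3).le) e2 e7
  -- the minimal polynomial
  have hyi : IsIntegral ℚ_[p] y := Algebra.IsIntegral.isIntegral y
  set h : ℚ_[p][X] := minpoly ℚ_[p] y with hh
  have hm : h.Monic := minpoly.monic hyi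
  have hi : Irreducible h := minpoly.irreducible hyi
  have hy0 : aeval y h = 0 := minpoly.aeval _ _
  have hmap : ((F t A n).map (Int.castRingHom ℚ_[p])).map (algebraMap ℚ_[p] (PadicAlgCl p)) =
      P := by
    rw [hP, Polynomial.map_map]
    exact congrArg (fun e => (F t A n).map e) (RingHom.ext_int _ _)
  have hdvd : h ∣ (F t A n).map (Int.castRingHom ℚ_[p]) := by
    apply minpoly.dvd
    rw [aeval_def, ← eval_map, hmap]
    exact (mem_roots hPm.ne_zero).1 hys
  have hle : h.aroots (PadicAlgCl p) ≤ P.roots := by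
    rw [aroots_def]
    apply Polynomial.roots.le_of_dvd hPm.ne_zero
    rw [← hmap]
    exact Polynomial.map_dvd _ hdvd
  have hhcard : (h.aroots (PadicAlgCl p)).card = h.natDegree := by
    rw [aroots_def, IsAlgClosed.card_roots_eq_natDegree, hm.natDegree_map]
  have hcnt : (h.aroots (PadicAlgCl p)).countP (fun x => ‖x‖ = r) =
      (h.aroots (PadicAlgCl p)).card := by
    rw [Multiset.countP_eq_card]
    intro x hx
    rw [norm_root_eq hm hi (mem_aroots.1 hx).2 hy0]
    exact hyr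
  have hd2 : h.natDegree ≤ 2 := by
    rw [← hhcard, ← hcnt]
    exact (Multiset.countP_le_of_le _ hle).trans hcount
  have hd1 : 0 < h.natDegree := hi.natDegree_pos
  obtain ⟨N, hN⟩ := hHT h hm hi hdvd
  rw [norm_coeff_zero hm hi hy0, hyr] at hN
  have hq0 : 0 < ((p : ℝ) ^ (2 * b))⁻¹ := by positivity
  have hq1 : ((p : ℝ) ^ (2 * b))⁻¹ ≤ 1 := (hN2.trans hN1).le
  have hrd : r ^ 2 ≤ r ^ h.natDegree := pow_le_pow_of_le_one hr0.le hr1.le hd2
  rcases N with _ | N
  · rw [pow_zero] at hN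
    have := pow_lt_one₀ hr0.le hr1 hd1.ne'
    linarith
  · have h1 : (((p : ℝ) ^ (2 * b))⁻¹) ^ (N + 1) ≤ ((p : ℝ) ^ (2 * b))⁻¹ :=
      pow_le_of_le_one hq0.le hq1 (Nat.succ_ne_zero N)
    rw [hr2] at hrd
    linarith

end Pool.Agent.H120.TFU
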