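import Pool.Agent.H857.TF.Core2

/-!
# U9: few divisible ones (helper383 for helper857)
-/

set_option autoImplicit false

namespace Pool.Agent.H383.TFu9

open Module Polynomial Pool.Agent.W521.Descent Pool.Agent.W521.Density Pool.Agent.W521.Count
  Pool.Agent.X297.UB Pool.Agent.H857.PB Pool.Agent.H857.PA Pool.Agent.H857.HK Pool.Agent.H857.EF
  Pool.Agent.H857.WT Pool.Agent.H857.SG Pool.Agent.H857.PD Pool.Agent.H857.TF

theorem reg_bounds {s A n : ℤ} (hs : 0 < s) (h : Reg s A n) : -3 * s ≤ A ∧ A ≤ 6 * s := by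
  obtain ⟨h1, h2⟩ := h
  constructor
  · by_contra hlt
    push Not at hlt
    have h3 : A + 3 * s < 0 := by linarith
    have h4 : (A + 3 * s) ^ 3 < 0 := by
      have : (A + 3 * s) ^ 3 = (A + 3 * s) ^ 2 * (A + 3 * s) := by ring
      rw [this]
      exact mul_neg_of_pos_of_neg (sq_pos_of_neg h3) h3
    have h5 : 4 * s * (A + 3 * s) ^ 3 < 0 := mul_neg_of_pos_of_neg (by linarith) h4
    have h6 := sq_nonneg (n + 6 * A * s + 9 * s ^ 2)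
    linarith
  · by_contra hlt
    push Not at hlt
    have hA : 0 < A := by linarith
    have hv : 0 < A ^ 2 + 24 * A * s + 36 * s ^ 2 := by positivity
    have hu : A ^ 2 + 24 * A * s + 36 * s ^ 2 < 4 * (n + 6 * A * s + 9 * s ^ 2) := by linarith
    have h3 : (A ^ 2 + 24 * A * s + 36 * s ^ 2) ^ 2 < (4 * (n + 6 * A * s + 9 * s ^ 2)) ^ 2 :=
      pow_lt_pow_left₀ hu hv.le two_ne_zero
    have h4 : (A ^ 2 + 24 * A * s + 36 * s ^ 2) ^ 2 =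
        16 * (4 * s * (A + 3 * s) ^ 3) + (A - 6 * s) ^ 3 * (A + 2 * s) := by ring
    have h5 : 0 < (A - 6 * s) ^ 3 * (A + 2 * s) :=
      mul_pos (pow_pos (by linarith) 3) (by linarith)
    have h6 : (4 * (n + 6 * A * s + 9 * s ^ 2)) ^ 2 = 16 * (n + 6 * A * s + 9 * s ^ 2) ^ 2 := by
      ring
    linarith

theorem reg_n {s A n : ℤ} (hs : 0 < s) (h : Reg s A n) : 0 < n ∧ n ≤ 63 * s ^ 2 := by
  obtain ⟨ha, hb⟩ := reg_bounds hs h
  obtain ⟨h1, h2⟩ := h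
  constructor
  · have := sq_nonneg A
    linarith
  · by_contra hlt
    push Not at hlt
    have h3 : -(18 * s ^ 2) ≤ 6 * A * s := by nlinarith
    have h4 : 54 * s ^ 2 < n + 6 * A * s + 9 * s ^ 2 := by linarith
    have h5 : (54 * s ^ 2) ^ 2 < (n + 6 * A * s + 9 * s ^ 2) ^ 2 :=
      pow_lt_pow_left₀ h4 (by positivity) two_ne_zero
    have h6 : (A + 3 * s) ^ 3 ≤ (9 * s) ^ 3 :=
      pow_le_pow_left₀ (by linarith) (by linarith) 3
    have h7 : 4 * s * (A + 3 * s) ^ 3 ≤ 4 * s * (9 * s) ^ 3 :=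
      mul_le_mul_of_nonneg_left h6 (by linarith)
    have h8 : 4 * s * (9 * s) ^ 3 = (54 * s ^ 2) ^ 2 := by ring
    linarith

theorem reg_neg {s A n : ℤ} (h : Reg (-s) A n) : Reg s (-A) n := by
  obtain ⟨h1, h2⟩ := h
  refine ⟨by rw [neg_sq]; exact h1, ?_⟩
  have e1 : n + 6 * -A * s + 9 * s ^ 2 = n + 6 * A * -s + 9 * (-s) ^ 2 := by ring
  have e2 : 4 * s * (-A + 3 * s) ^ 3 = 4 * -s * (A + 3 * -s) ^ 3 := by ring
  rw [e1, e2]
  exact h2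

theorem reg_all {s t A n : ℤ} (hs : 0 < s) (ht : t = s ∨ t = -s) (h : Reg t A n) :
    -6 * s ≤ A ∧ A ≤ 6 * s ∧ 0 < n ∧ n ≤ 63 * s ^ 2 := by
  rcases ht with rfl | rfl
  · obtain ⟨h1, h2⟩ := reg_bounds hs h
    obtain ⟨h3, h4⟩ := reg_n hs h
    exact ⟨by linarith, h2, h3, h4⟩
  · obtain ⟨h1, h2⟩ := reg_bounds hs (reg_neg h)
    obtain ⟨h3, h4⟩ := reg_n hs (reg_neg h)
    exact ⟨by linarith, by linarith, h3, h4⟩

theorem u9 : U9 := by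
  classical
  refine ⟨819, by norm_num, fun s t hs ht => ?_⟩
  have hs' : (0 : ℤ) < s := by exact_mod_cast hs
  have hs2 : (0 : ℤ) < (s : ℤ) ^ 2 := by positivity
  have hsub : {x : ℤ × ℤ | Reg t x.1 x.2 ∧ (s : ℤ) ^ 2 ∣ x.2} ⊆
      (((Finset.Icc (-6 * (s : ℤ)) (6 * s) ×ˢ Finset.Icc (1 : ℤ) 63).image
        (fun y : ℤ × ℤ => (y.1, (s : ℤ) ^ 2 * y.2)) : Finset (ℤ × ℤ)) : Set (ℤ × ℤ)) := by
    rintro ⟨A, n⟩ ⟨h1, h2⟩
    change Reg t A n at h1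
    change (s : ℤ) ^ 2 ∣ n at h2
    obtain ⟨j, rfl⟩ := h2
    obtain ⟨h3, h4, h5, h6⟩ := reg_all hs' ht h1
    rw [Finset.mem_coe, Finset.mem_image]
    refine ⟨(A, j), Finset.mem_product.2 ⟨Finset.mem_Icc.2 ⟨h3, h4⟩, Finset.mem_Icc.2 ⟨?_, ?_⟩⟩,
      rfl⟩
    · change 1 ≤ j
      have h7 : 0 < j := (mul_pos_iff_of_pos_left hs2).1 h5
      linarith
    · change j ≤ 63
      have h7 : (s : ℤ) ^ 2 * j ≤ (s : ℤ) ^ 2 * 63 := by linarith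
      exact le_of_mul_le_mul_left h7 hs2
  refine ⟨Set.Finite.subset (Finset.finite_toSet _) hsub, ?_⟩
  have h1 := Set.ncard_le_ncard hsub (Finset.finite_toSet _)
  rw [Set.ncard_coe_finset] at h1
  have h2 := h1.trans Finset.card_image_le
  rw [Finset.card_product, Int.card_Icc, Int.card_Icc] at h2
  have h3 : (6 * (s : ℤ) + 1 - -6 * (s : ℤ)).toNat ≤ 13 * s ^ 2 := by
    have : (s : ℤ) ≤ (s : ℤ) ^ 2 := by nlinarith
    have h4 : 6 * (s : ℤ) + 1 - -6 * (s : ℤ) ≤ 13 * (s : ℤ) ^ 2 := by linarith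
    rw [Int.toNat_le]
    push_cast
    exact h4
  have h4 : ((63 : ℤ) + 1 - 1).toNat = 63 := rfl
  rw [h4] at h2
  have h5 : {x : ℤ × ℤ | Reg t x.1 x.2 ∧ (s : ℤ) ^ 2 ∣ x.2}.ncard ≤ 13 * s ^ 2 * 63 :=
    h2.trans (Nat.mul_le_mul_right 63 h3)
  have h6 : ({x : ℤ × ℤ | Reg t x.1 x.2 ∧ (s : ℤ) ^ 2 ∣ x.2}.ncard : ℝ) ≤
      ((13 * s ^ 2 * 63 : ℕ) : ℝ) := by exact_mod_cast h5
  refine h6.trans (le_of_eq ?_)
  push_cast
  ring

end Pool.Agent.H383.TFu9
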