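import Pool.Agent.H857.TF.Core3

/-!
# N1: polynomials of odd Weil type over fields with a nonsquare number of elements (helper4)

The lemmas up to `rat_of_im` are from the files T4b (helper142, helper790) and T4c (helper383).
-/

set_option autoImplicit false

namespace Pool.Agent.H4.TFN1

open Module Polynomial Pool.Agent.W521.Descent Pool.Agent.W521.Density Pool.Agent.W521.Count
  Pool.Agent.X297.UB Pool.Agent.H857.PB Pool.Agent.H857.PA Pool.Agent.H857.HK Pool.Agent.H857.EF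
  Pool.Agent.H857.WT Pool.Agent.H857.SG Pool.Agent.H857.PD Pool.Agent.H857.TF

/-- Rational algebraic integers are integers. -/
lemma int_of_rat {r : ℚ} (h : IsIntegral ℤ (r : ℂ)) : ∃ n : ℤ, (r : ℂ) = n := by
  have h1 : IsIntegral ℤ r := by
    have := (isIntegral_algebraMap_iff (R := ℤ) (A := ℚ) (B := ℂ) (x := r)
      (algebraMap ℚ ℂ).injective)
    exact this.1 (by simpa using h)
  obtain ⟨n, hn⟩ := IsIntegrallyClosed.isIntegral_iff.1 h1
  exact ⟨n, by rw [← hn]; simp⟩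

lemma quad_repr {D : ℕ} {z : ℂ} (h : z ∈ quadField D) : ∃ x y : ℚ,
    z = x + y * (Real.sqrt D * Complex.I) ∧
    (starRingEnd ℂ) z = x - y * (Real.sqrt D * Complex.I) := by
  obtain ⟨x, y, rfl⟩ := h
  refine ⟨x, y, rfl, ?_⟩
  simp only [map_add, map_mul, map_ratCast, Complex.conj_ofReal, Complex.conj_I]
  ring

lemma conj_int {z : ℂ} (h : IsIntegral ℤ z) : IsIntegral ℤ ((starRingEnd ℂ) z) :=
  map_isIntegral_int (starRingEnd ℂ) h

lemma re_int {D : ℕ} {z : ℂ} (h : z ∈ quadField D) (hz : IsIntegral ℤ z) :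
    ∃ n : ℤ, z + (starRingEnd ℂ) z = n := by
  obtain ⟨x, y, h1, h2⟩ := quad_repr h
  have h3 : z + (starRingEnd ℂ) z = ((2 * x : ℚ) : ℂ) := by
    rw [h2]; nth_rw 1 [h1]; push_cast; ring
  obtain ⟨n, hn⟩ := int_of_rat (r := 2 * x) (by rw [← h3]; exact hz.add (conj_int hz))
  exact ⟨n, by rw [h3, hn]⟩

/-- The functional equation for the coefficients. -/
lemma func {h : ℂ[X]} (hm : h.Monic) {n q : ℕ} (hdeg : h.natDegree = n)
    (hr : ∀ z, h.IsRoot z → ‖z‖ ^ 2 = q) (i : ℕ) (hi : i ≤ n) :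
    h.coeff i * (q : ℂ) ^ i = h.coeff 0 * (starRingEnd ℂ) (h.coeff (n - i)) := by
  have hprod : h = (h.roots.map (fun a => X - C a)).prod :=
    (IsAlgClosed.splits h).eq_prod_roots_of_monic hm
  have hcard : Multiset.card h.roots = n := by
    rw [← (IsAlgClosed.splits h).natDegree_eq_card_roots, hdeg]
  have hz : ∀ z ∈ h.roots, z * (starRingEnd ℂ) z = q := by
    intro z hz
    rw [Complex.mul_conj, Complex.normSq_eq_norm_sq, hr z (isRoot_of_mem_roots hz)]
    simp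
  have hev : ∀ x : ℂ, h.eval x = (h.roots.map (fun a => x - a)).prod := by
    intro x
    conv_lhs => rw [hprod]
    rw [eval_multiset_prod, Multiset.map_map]
    simp
  have hevb : ∀ x : ℂ, (h.map (starRingEnd ℂ)).eval x =
      (h.roots.map (fun a => x - (starRingEnd ℂ) a)).prod := by
    intro x
    conv_lhs => rw [hprod]
    rw [Polynomial.map_multiset_prod, eval_multiset_prod, Multiset.map_map, Multiset.map_map]
    simp
  have hc0 : (starRingEnd ℂ) (h.coeff 0) =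
      (h.roots.map (fun a => -(starRingEnd ℂ) a)).prod := by
    rw [coeff_zero_eq_eval_zero, hev, map_multiset_prod, Multiset.map_map]
    simp
  have hfe : ∀ x : ℂ, x ≠ 0 → x ^ n * (h.map (starRingEnd ℂ)).eval ((q : ℂ) / x) =
      (starRingEnd ℂ) (h.coeff 0) * h.eval x := by
    intro x hx
    rw [hevb, hc0, hev, ← hcard, ← Multiset.prod_replicate, ← Multiset.map_const',
      ← Multiset.prod_map_mul, ← Multiset.prod_map_mul]
    congr 1
    refine Multiset.map_congr rfl fun a ha => ?_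
    rw [← hz a ha]
    field_simp
    ring
  set P : ℂ[X] := ∑ j ∈ Finset.range (n + 1),
    C ((starRingEnd ℂ) (h.coeff j) * (q : ℂ) ^ j) * X ^ (n - j) with hP
  have hPe : ∀ x : ℂ, x ≠ 0 → P.eval x = x ^ n * (h.map (starRingEnd ℂ)).eval ((q : ℂ) / x) := by
    intro x hx
    rw [eval_eq_sum_range' (p := h.map (starRingEnd ℂ)) (n := n + 1) (by
      rw [natDegree_map, hdeg]; exact Nat.lt_succ_self n), hP, eval_finsetSum, Finset.mul_sum]
    refine Finset.sum_congr rfl fun j hj => ?_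
    have hj' : j ≤ n := Nat.lt_succ_iff.1 (Finset.mem_range.1 hj)
    rw [eval_mul, eval_C, eval_pow, eval_X, coeff_map, div_pow]
    have : x ^ n = x ^ (n - j) * x ^ j := by rw [← pow_add, Nat.sub_add_cancel hj']
    rw [this]
    field_simp
  have hPh : P = C ((starRingEnd ℂ) (h.coeff 0)) * h := by
    have h1 : X * P = X * (C ((starRingEnd ℂ) (h.coeff 0)) * h) := by
      refine Polynomial.funext fun x => ?_
      by_cases hx : x = 0
      · subst hx; simp
      · rw [eval_mul, eval_mul, hPe x hx, hfe x hx, eval_mul, eval_C]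
    exact mul_left_cancel₀ X_ne_zero h1
  have h2 : P.coeff (n - i) = (starRingEnd ℂ) (h.coeff i) * (q : ℂ) ^ i := by
    rw [hP, finsetSum_coeff, Finset.sum_eq_single i]
    · rw [coeff_C_mul, coeff_X_pow]; simp
    · intro j hj hji
      have hj' : j ≤ n := Nat.lt_succ_iff.1 (Finset.mem_range.1 hj)
      rw [coeff_C_mul, coeff_X_pow, if_neg (by omega), mul_zero]
    · intro hni
      exact absurd (Finset.mem_range.2 (Nat.lt_succ_iff.2 hi)) hni
  have h3 : P.coeff (n - i) = (starRingEnd ℂ) (h.coeff 0) * h.coeff (n - i) := by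
    rw [hPh, coeff_C_mul]
  have h4 := congrArg (starRingEnd ℂ) (h2.symm.trans h3)
  simpa using h4

lemma norm_int {D : ℕ} {z : ℂ} (h : z ∈ quadField D) (hz : IsIntegral ℤ z) :
    ∃ n : ℤ, z * (starRingEnd ℂ) z = n := by
  obtain ⟨x, y, h1, h2⟩ := quad_repr h
  have hs : ((Real.sqrt D : ℝ) : ℂ) * ((Real.sqrt D : ℝ) : ℂ) = (D : ℂ) := by
    rw [← Complex.ofReal_mul, Real.mul_self_sqrt (Nat.cast_nonneg D)]
    simp
  have h3 : z * (starRingEnd ℂ) z = ((x ^ 2 + y ^ 2 * D : ℚ) : ℂ) := by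
    rw [h2]
    nth_rw 1 [h1]
    push_cast
    have : (x + y * (Real.sqrt D * Complex.I)) * (x - y * (Real.sqrt D * Complex.I)) =
        (x : ℂ) ^ 2 - y ^ 2 * (((Real.sqrt D : ℝ) : ℂ) * ((Real.sqrt D : ℝ) : ℂ)) *
          (Complex.I * Complex.I) := by ring
    rw [this, hs, Complex.I_mul_I]
    ring
  obtain ⟨n, hn⟩ := int_of_rat (r := x ^ 2 + y ^ 2 * D) (by
    rw [← h3]
    exact hz.mul (conj_int hz))
  exact ⟨n, by rw [h3, hn]⟩

/-- A real element of an imaginary quadratic field is rational. -/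
lemma rat_of_im {D : ℕ} (hD : 0 < D) {z : ℂ} (hz : z ∈ quadField D) (him : z.im = 0) :
    ∃ x : ℚ, z = (x : ℂ) := by
  obtain ⟨x, y, hxy⟩ := hz
  have hs : 0 < Real.sqrt D := Real.sqrt_pos.mpr (by exact_mod_cast hD)
  have him2 : z.im = (y : ℝ) * Real.sqrt D := by
    rw [hxy]
    simp
  rw [him] at him2
  have hy : (y : ℝ) = 0 := by
    rcases mul_eq_zero.mp him2.symm with h | h
    · exact h
    · exact absurd h hs.ne'
  have hy0 : y = 0 := by exact_mod_cast hy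
  refine ⟨x, ?_⟩
  rw [hxy, hy0]
  simp

lemma quad_mul {D : ℕ} {z w : ℂ} (hz : z ∈ quadField D) (hw : w ∈ quadField D) :
    z * w ∈ quadField D := by
  obtain ⟨x, y, rfl⟩ := hz
  obtain ⟨x', y', rfl⟩ := hw
  have hs : ((Real.sqrt D : ℝ) : ℂ) * ((Real.sqrt D : ℝ) : ℂ) = (D : ℂ) := by
    rw [← Complex.ofReal_mul, Real.mul_self_sqrt (Nat.cast_nonneg D)]
    simp
  refine ⟨x * x' - D * (y * y'), x * y' + y * x', ?_⟩
  push_cast
  rw [← hs]
  have := Complex.I_mul_I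
  linear_combination (y : ℂ) * y' * ((Real.sqrt D : ℝ) : ℂ) ^ 2 * this

lemma quad_rat {D : ℕ} (r : ℚ) : ((r : ℚ) : ℂ) ∈ quadField D := ⟨r, 0, by simp⟩

lemma quad_add {D : ℕ} {z w : ℂ} (hz : z ∈ quadField D) (hw : w ∈ quadField D) :
    z + w ∈ quadField D := by
  obtain ⟨x, y, rfl⟩ := hz
  obtain ⟨x', y', rfl⟩ := hw
  refine ⟨x + x', y + y', ?_⟩
  push_cast
  ring

lemma quad_conj {D : ℕ} {z : ℂ} (hz : z ∈ quadField D) :
    (starRingEnd ℂ) z ∈ quadField D := by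
  obtain ⟨x, y, -, h2⟩ := quad_repr hz
  refine ⟨x, -y, ?_⟩
  rw [h2]
  push_cast
  ring

/-- `k q ^ 3` is not a square. -/
lemma not_sq {p : ℕ} (hp : p.Prime) {k b : ℕ} (hk : 0 < k) (hkp : k < p) :
    ¬ IsSquare (k * (p ^ (2 * b + 1)) ^ 3) := by
  rintro ⟨y, hy⟩
  have hq : (p ^ (2 * b + 1)) ^ 3 ≠ 0 := pow_ne_zero _ (pow_ne_zero _ hp.ne_zero)
  have hy0 : y ≠ 0 := by
    rintro rfl
    rw [mul_zero] at hy
    rcases mul_eq_zero.1 hy with h | h
    · exact hk.ne' h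
    · exact hq h
  have h1 := congrArg (fun m : ℕ => m.factorization p) hy
  rw [Nat.factorization_mul hk.ne' hq, Nat.factorization_mul hy0 hy0, ← pow_mul,
    hp.factorization_pow] at h1
  simp only [Finsupp.coe_add, Pi.add_apply, Finsupp.single_eq_same] at h1
  have h2 : k.factorization p = 0 :=
    Nat.factorization_eq_zero_of_not_dvd fun h => absurd (Nat.le_of_dvd hk h) (by omega)
  omega

/-- An element of the field whose square is a positive rational number is rational. -/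
lemma sq_of_quad {D : ℕ} (hD : 0 < D) {v : ℂ} {m : ℕ} (hv : v ∈ quadField D) (hm : 0 < m)
    (h : v ^ 2 = (m : ℂ)) : IsSquare m := by
  have him : v.im = 0 := by
    have h1 := congrArg Complex.re h
    have h2 := congrArg Complex.im h
    rw [pow_two, Complex.mul_re, Complex.natCast_re] at h1
    rw [pow_two, Complex.mul_im, Complex.natCast_im] at h2
    by_contra h0
    have h3 : v.re = 0 := by
      have h4 : v.re * v.im = 0 := by linarith
      rcases mul_eq_zero.1 h4 with h5 | h5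
      · exact h5
      · exact absurd h5 h0
    rw [h3] at h1
    have h4 : (0 : ℝ) < m := by exact_mod_cast hm
    nlinarith [mul_self_nonneg v.im]
  obtain ⟨x, hx⟩ := rat_of_im hD hv him
  rw [hx] at h
  have h1 : x ^ 2 = (m : ℚ) := by exact_mod_cast h
  rw [← Rat.isSquare_natCast_iff]
  exact ⟨x, by rw [← h1]; ring⟩

/-- The square of the constant term is `-q ^ 3`. -/
lemma const_sq {p : ℕ} (hp : p.Prime) (hp5 : 5 ≤ p) {b D N : ℕ} (hD : 0 < D) (hN : 0 < N) {w : ℂ}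
    (hw : w ∈ quadField D) (h0 : w ^ (2 * N) = (((p ^ (2 * b + 1) : ℕ) : ℂ) ^ 3) ^ N) :
    w ^ 2 = -(((p ^ (2 * b + 1) : ℕ) : ℂ) ^ 3) := by
  obtain ⟨q, hq⟩ : ∃ q : ℕ, q = p ^ (2 * b + 1) := ⟨_, rfl⟩
  rw [← hq] at h0 ⊢
  have hq0 : 0 < q := by rw [hq]; exact pow_pos hp.pos _
  have hqc : (q : ℂ) ≠ 0 := by exact_mod_cast hq0.ne'
  have hqg : (q : ℂ) ^ 3 ≠ 0 := pow_ne_zero _ hqc
  have hbad : ∀ (k : ℕ) (v : ℂ), 0 < k → k < p → v ∈ quadField D →
      v ^ 2 = (k : ℂ) * (q : ℂ) ^ 3 → False := by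
    intro k v hk hkp hv h
    have h1 : v ^ 2 = ((k * q ^ 3 : ℕ) : ℂ) := by
      rw [h]
      push_cast
      ring
    have h2 := sq_of_quad hD hv (by positivity) h1
    rw [hq] at h2
    exact not_sq hp hk hkp h2
  obtain ⟨z, hz⟩ : ∃ z : ℂ, z = w ^ 2 / (q : ℂ) ^ 3 := ⟨_, rfl⟩
  have hwz : w ^ 2 = z * (q : ℂ) ^ 3 := by
    rw [hz, div_mul_cancel₀ _ hqg]
  have hzN : z ^ N = 1 := by
    rw [hz, div_pow, ← pow_mul, h0, div_self (pow_ne_zero _ hqg)]
  have hzq : z ∈ quadField D := by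
    have h1 : z = (w * w) * (((1 / (q : ℚ) ^ 3 : ℚ)) : ℂ) := by
      rw [hz]
      push_cast
      ring
    rw [h1]
    exact quad_mul (quad_mul hw hw) (quad_rat _)
  have hint : IsIntegral ℤ z := by
    refine ⟨X ^ N - C 1, monic_X_pow_sub_C _ hN.ne', ?_⟩
    simp [hzN]
  have hn : ‖z‖ = 1 := by
    have h1 : ‖z‖ ^ N = 1 := by rw [← norm_pow, hzN, NormOneClass.norm_one]
    exact (pow_eq_one_iff_of_nonneg (norm_nonneg _) hN.ne').1 h1
  obtain ⟨n, hn1⟩ := re_int hzq hint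
  have hprod : z * (starRingEnd ℂ) z = 1 := by
    rw [Complex.mul_conj, Complex.normSq_eq_norm_sq, hn]
    simp
  have hle : |(n : ℝ)| ≤ 2 := by
    have h1 : ‖((n : ℤ) : ℂ)‖ = |(n : ℝ)| := by
      rw [Complex.norm_intCast]
    rw [← h1, ← hn1]
    refine (norm_add_le _ _).trans ?_
    rw [Complex.norm_conj, hn]
    norm_num
  have hle2 : -2 ≤ n ∧ n ≤ 2 := by
    have h1 := abs_le.1 hle
    constructor
    · exact_mod_cast h1.1
    · exact_mod_cast h1.2
  have hqu : z ^ 2 = n * z - 1 := by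
    have h1 : (starRingEnd ℂ) z = n - z := by rw [← hn1]; ring
    rw [h1] at hprod
    linear_combination -hprod
  obtain ⟨hl, hu⟩ := hle2
  have hcases : n = -2 ∨ n = -1 ∨ n = 0 ∨ n = 1 ∨ n = 2 := by omega
  rcases hcases with rfl | rfl | rfl | rfl | rfl
  · have h2 : (z + 1) ^ 2 = 0 := by
      push_cast at hqu
      linear_combination hqu
    have h3 : z = -1 := by
      have := pow_eq_zero_iff (two_ne_zero) |>.1 h2
      linear_combination this
    rw [hwz, h3]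
    ring
  · exfalso
    push_cast at hqu
    have h3 : z ^ 3 = 1 := by linear_combination (z - 1) * hqu
    refine hbad 1 (w * z) (by norm_num) (by omega) (quad_mul hw hzq) ?_
    rw [mul_pow, hwz]
    push_cast
    linear_combination (q : ℂ) ^ 3 * h3
  · exfalso
    push_cast at hqu
    have h3 : z ^ 2 = -1 := by linear_combination hqu
    refine hbad 2 (w * (1 + z) * z) (by norm_num) (by omega) (quad_mul (quad_mul hw
      (quad_add (by simpa using quad_rat (D := D) 1) hzq)) hzq) ?_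
    rw [mul_pow, mul_pow, hwz]
    push_cast
    linear_combination (q : ℂ) ^ 3 * (z ^ 3 + 2 * z ^ 2 - 2) * h3
  · exfalso
    push_cast at hqu
    have h3 : z ^ 3 = -1 := by linear_combination (z + 1) * hqu
    have hs : (2 * z - 1) ^ 2 = -3 := by linear_combination 4 * hqu
    have hs2 : 2 * z - 1 ∈ quadField D := by
      have h4 : (2 * z - 1 : ℂ) = ((2 : ℚ) : ℂ) * z + (((-1 : ℚ)) : ℂ) := by
        push_cast
        ring
      rw [h4]
      exact quad_add (quad_mul (quad_rat _) hzq) (quad_rat _)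
    refine hbad 3 (w * z * (2 * z - 1)) (by norm_num) (by omega)
      (quad_mul (quad_mul hw hzq) hs2) ?_
    rw [mul_pow, mul_pow, hwz, hs]
    push_cast
    linear_combination -3 * (q : ℂ) ^ 3 * h3
  · exfalso
    have h2 : (z - 1) ^ 2 = 0 := by
      push_cast at hqu
      linear_combination hqu
    have h3 : z = 1 := by
      have := pow_eq_zero_iff (two_ne_zero) |>.1 h2
      linear_combination this
    refine hbad 1 w (by norm_num) (by omega) hw ?_
    rw [hwz, h3]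
    push_cast
    ring

/-- The integrality of `B`. -/
lemma b_int {p : ℕ} (hp : p.Prime) {B : ℚ} {m : ℤ} (h : (p : ℚ) * B ^ 2 = m) :
    ∃ k : ℤ, B = k := by
  have h1 : IsIntegral ℤ ((p : ℚ) * B) := by
    refine ⟨X ^ 2 - C ((p : ℤ) * m), monic_X_pow_sub_C _ two_ne_zero, ?_⟩
    rw [eval₂_sub, eval₂_pow, eval₂_X, eval₂_C]
    have e : (algebraMap ℤ ℚ) ((p : ℤ) * m) = (p : ℚ) * (m : ℚ) := by simp
    rw [e, ← h]
    ring
  obtain ⟨l, hl⟩ := IsIntegrallyClosed.isIntegral_iff.1 h1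
  have hl' : (l : ℚ) = (p : ℚ) * B := by rw [← hl]; simp
  have h2 : l ^ 2 = p * m := by
    have h3 : ((l ^ 2 : ℤ) : ℚ) = ((p * m : ℤ) : ℚ) := by
      push_cast
      rw [hl', ← h]
      ring
    exact_mod_cast h3
  have h3 : (p : ℤ) ∣ l := (Nat.prime_iff_prime_int.1 hp).dvd_of_dvd_pow ⟨m, h2⟩
  obtain ⟨k, rfl⟩ := h3
  have hp0 : (p : ℚ) ≠ 0 := by exact_mod_cast hp.ne_zero
  refine ⟨k, ?_⟩
  push_cast at hl'
  exact (mul_left_cancel₀ hp0 hl').symm

/-- The main part: `h` has the constant term `c ^ 3 p √-p`. -/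
lemma main {p b D : ℕ} (hp : p.Prime) {f : ℤ[X]} {h : ℂ[X]}
    (hf : f ∈ weilPolys (p ^ (2 * b + 1)) 3) (hh : h.Monic)
    (hquad : ∀ j, h.coeff j ∈ quadField D)
    (hfac : f.map (Int.castRingHom ℂ) = h * h.map (starRingEnd ℂ))
    (h0 : h.coeff 0 = (p : ℂ) ^ (3 * b + 1) * (Real.sqrt p * Complex.I)) :
    ∃ A B n : ℤ, 4 * n = A ^ 2 + p * B ^ 2 ∧ f = G ((p : ℤ) ^ b) p A B n := by
  obtain ⟨hfm, hfdeg, -, hfr⟩ := hf
  have hhc : (h.map (starRingEnd ℂ)).Monic := hh.map _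
  have hdeg : h.natDegree = 3 := by
    have h1 : (f.map (Int.castRingHom ℂ)).natDegree = h.natDegree + h.natDegree := by
      rw [hfac, hh.natDegree_mul hhc, natDegree_map]
    rw [hfm.natDegree_map, hfdeg] at h1
    omega
  have hroot : ∀ z, h.IsRoot z → ‖z‖ ^ 2 = ((p ^ (2 * b + 1) : ℕ) : ℝ) := by
    intro z hz
    refine hfr z ?_
    have h1 : (f.map (Int.castRingHom ℂ)).eval z = 0 := by
      rw [hfac, eval_mul, hz.eq_zero, zero_mul]
    rw [eval_map] at h1
    exact h1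
  have hint : ∀ i, IsIntegral ℤ (h.coeff i) := fun i =>
    isIntegral_coeff_of_dvd f h hfm hh (Dvd.intro _ hfac.symm) i
  have hfun := func hh hdeg hroot
  have hpc : (p : ℂ) ≠ 0 := by exact_mod_cast hp.ne_zero
  obtain ⟨s, hs⟩ : ∃ s : ℂ, s = Real.sqrt p * Complex.I := ⟨_, rfl⟩
  have hsq : ((Real.sqrt p : ℝ) : ℂ) * ((Real.sqrt p : ℝ) : ℂ) = (p : ℂ) := by
    rw [← Complex.ofReal_mul, Real.mul_self_sqrt (Nat.cast_nonneg p)]
    simp
  have hs2 : s ^ 2 = -(p : ℂ) := by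
    rw [hs, ← hsq]
    linear_combination ((Real.sqrt p : ℝ) : ℂ) ^ 2 * Complex.I_mul_I
  have hsc : (starRingEnd ℂ) s = -s := by
    rw [hs]
    simp
  rw [← hs] at h0
  obtain ⟨A, hA⟩ := re_int (hquad 2) (hint 2)
  obtain ⟨n, hn⟩ := norm_int (hquad 2) (hint 2)
  obtain ⟨c, hc⟩ : ∃ c : ℂ, c = (p : ℂ) ^ b := ⟨_, rfl⟩
  have h0' : h.coeff 0 = c ^ 3 * p * s := by
    rw [h0, hc]
    ring
  have hc0 : c ≠ 0 := by rw [hc]; exact pow_ne_zero _ hpc
  obtain ⟨α, hα⟩ : ∃ α : ℂ, α = h.coeff 2 := ⟨_, rfl⟩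
  rw [← hα] at hA hn
  have hc1 : h.coeff 1 = c * s * (starRingEnd ℂ) α := by
    have h1 := hfun 1 (by norm_num)
    have e1 : (3 : ℕ) - 1 = 2 := rfl
    rw [h0', e1, ← hα] at h1
    have h3 : ((p ^ (2 * b + 1) : ℕ) : ℂ) ^ 1 = c ^ 2 * p := by
      rw [hc]
      push_cast
      ring
    rw [h3] at h1
    refine mul_right_cancel₀ (mul_ne_zero (pow_ne_zero 2 hc0) hpc) ?_
    rw [h1]
    ring
  have hc3 : h.coeff 3 = 1 := by
    have := hh.coeff_natDegree
    rwa [hdeg] at this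
  have hH : h = X ^ 3 + C α * X ^ 2 + C (c * s * (starRingEnd ℂ) α) * X + C (c ^ 3 * p * s) := by
    rw [h.as_sum_range_C_mul_X_pow, hdeg]
    simp only [Finset.sum_range_succ, Finset.sum_range_zero]
    rw [hc3, hc1, h0', ← hα]
    simp only [pow_zero, mul_one, pow_one, zero_add, C_1, one_mul]
    ring
  have hcc : (starRingEnd ℂ) c = c := by
    rw [hc]
    simp
  have hHc : h.map (starRingEnd ℂ) =
      X ^ 3 + C ((starRingEnd ℂ) α) * X ^ 2 + C (-(c * s * α)) * X + C (-(c ^ 3 * p * s)) := by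
    have e1 : (starRingEnd ℂ) (c * s * (starRingEnd ℂ) α) = -(c * s * α) := by
      rw [map_mul, map_mul, hcc, hsc, Complex.conj_conj]
      ring
    have e2 : (starRingEnd ℂ) (c ^ 3 * p * s) = -(c ^ 3 * p * s) := by
      rw [map_mul, map_mul, map_pow, hcc, hsc, map_natCast]
      ring
    rw [hH]
    simp only [Polynomial.map_add, Polynomial.map_mul, Polynomial.map_pow, Polynomial.map_X,
      Polynomial.map_C, e1, e2]
  -- the number `B`
  obtain ⟨B, hB⟩ : ∃ B : ℚ, α - (starRingEnd ℂ) α = B * s := by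
    obtain ⟨x, y, h1, h2⟩ := quad_repr (hquad 2)
    obtain ⟨x', y', h1', h2'⟩ := quad_repr (hquad 0)
    rw [← hα] at h1 h2
    have e1 : α - (starRingEnd ℂ) α = 2 * y * (Real.sqrt D * Complex.I) := by
      rw [h2]
      nth_rw 1 [h1]
      ring
    have e2 : h.coeff 0 - (starRingEnd ℂ) (h.coeff 0) = 2 * y' * (Real.sqrt D * Complex.I) := by
      rw [h2']
      nth_rw 1 [h1']
      ring
    have e3 : h.coeff 0 - (starRingEnd ℂ) (h.coeff 0) = 2 * (c ^ 3 * p) * s := by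
      rw [h0', map_mul, map_mul, map_pow, hcc, hsc, map_natCast]
      ring
    have hs0 : s ≠ 0 := by
      intro h3
      rw [h3] at hs2
      apply hpc
      linear_combination hs2
    have hy' : (y' : ℂ) ≠ 0 := by
      intro h3
      rw [e3, h3] at e2
      have h4 : 2 * (c ^ 3 * p) * s ≠ 0 :=
        mul_ne_zero (mul_ne_zero two_ne_zero (mul_ne_zero (pow_ne_zero 3 hc0) hpc)) hs0
      apply h4
      rw [e2]
      ring
    refine ⟨2 * y * ((p : ℚ) ^ b) ^ 3 * p / y', ?_⟩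
    rw [e1]
    push_cast
    rw [← hc]
    have e4 : y' * (Real.sqrt D * Complex.I) = c ^ 3 * p * s := by
      have h3 := e2.symm.trans e3
      linear_combination (1 / 2 : ℂ) * h3
    rw [div_mul_eq_mul_div, eq_div_iff hy']
    linear_combination 2 * (y : ℂ) * e4
  have hpB : (p : ℚ) * B ^ 2 = ((4 * n - A ^ 2 : ℤ) : ℚ) := by
    have h1 : (((p : ℚ) * B ^ 2 : ℚ) : ℂ) = (((4 * n - A ^ 2 : ℤ) : ℚ) : ℂ) := by
      push_cast
      rw [← hA, ← hn]
      linear_combination (B : ℂ) ^ 2 * hs2 + (α - (starRingEnd ℂ) α + B * s) * hB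
    exact_mod_cast h1
  obtain ⟨k, hk⟩ := b_int hp hpB
  refine ⟨A, k, n, ?_, ?_⟩
  · rw [hk] at hpB
    have h1 : (p : ℤ) * k ^ 2 = 4 * n - A ^ 2 := by exact_mod_cast hpB
    linarith
  · have hBk : α - (starRingEnd ℂ) α = (k : ℂ) * s := by
      rw [hB, hk]
      push_cast
      ring
    apply Polynomial.map_injective (Int.castRingHom ℂ) (Int.cast_injective)
    rw [hfac, hHc, hH]
    unfold G
    simp only [Polynomial.map_add, Polynomial.map_mul, Polynomial.map_pow, Polynomial.map_X,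
      Polynomial.map_C]
    simp only [eq_intCast (Int.castRingHom ℂ), Int.cast_mul, Int.cast_add,
      Int.cast_pow, Int.cast_natCast]
    rw [← hA, ← hn, ← hc]
    have r1 : C α - C ((starRingEnd ℂ) α) = C (k : ℂ) * C s := by
      rw [← C_sub, hBk, C_mul]
    have r2 : C s ^ 2 = -C (p : ℂ) := by
      rw [← C_pow, hs2, C_neg]
    simp only [C_mul, C_add, C_pow, C_neg]
    linear_combination (-(C c * C s * X ^ 4) - C c * (C α + C ((starRingEnd ℂ) α)) * C s * X ^ 3 -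
      C c ^ 3 * C (p : ℂ) * C s * X ^ 2) * r1 +
      (-(C c * C (k : ℂ) * X ^ 4) - C c * (C α + C ((starRingEnd ℂ) α)) * C (k : ℂ) * X ^ 3 -
      (C c ^ 3 * C (p : ℂ) * C (k : ℂ) + C c ^ 2 * (C α * C ((starRingEnd ℂ) α))) * X ^ 2 -
      C c ^ 4 * C (p : ℂ) * (C α + C ((starRingEnd ℂ) α)) * X - C c ^ 6 * C (p : ℂ) ^ 2) * r2

theorem n1 : N1 := by
  intro p hpf b f hp5 hf hW
  have hp : p.Prime := hpf.out
  obtain ⟨D, h, hD, hh, hquad, hfac, -, N, hN, h0N⟩ := hW
  have hsq := const_sq hp hp5 hD hN (hquad 0) h0N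
  obtain ⟨W, hWd⟩ : ∃ W : ℂ, W = (p : ℂ) ^ (3 * b + 1) * (Real.sqrt p * Complex.I) := ⟨_, rfl⟩
  have hsq2 : ((Real.sqrt p : ℝ) : ℂ) * ((Real.sqrt p : ℝ) : ℂ) = (p : ℂ) := by
    rw [← Complex.ofReal_mul, Real.mul_self_sqrt (Nat.cast_nonneg p)]
    simp
  have hW2 : W ^ 2 = -(((p ^ (2 * b + 1) : ℕ) : ℂ) ^ 3) := by
    have e1 : (((p ^ (2 * b + 1) : ℕ) : ℂ) ^ 3) = (p : ℂ) ^ (3 * b + 1) * (p : ℂ) ^ (3 * b + 1) *
        p := by
      push_cast
      rw [← pow_mul, ← pow_add, ← pow_succ]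
      congr 1
      ring
    rw [e1, hWd]
    linear_combination ((p : ℂ) ^ (3 * b + 1)) ^ 2 * ((Real.sqrt p : ℝ) : ℂ) ^ 2 *
      Complex.I_mul_I - ((p : ℂ) ^ (3 * b + 1)) ^ 2 * hsq2
  have hcases : h.coeff 0 = W ∨ h.coeff 0 = -W := by
    have h1 : h.coeff 0 ^ 2 = W ^ 2 := by rw [hsq, hW2]
    exact sq_eq_sq_iff_eq_or_eq_neg.1 h1
  rcases hcases with h1 | h1
  · exact main hp hf hh hquad hfac (h1.trans hWd)
  · refine main (D := D) (h := h.map (starRingEnd ℂ)) hp hf (hh.map _) (fun j => ?_) ?_ ?_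
    · rw [coeff_map]
      exact quad_conj (hquad j)
    · rw [hfac, Polynomial.map_map, mul_comm]
      congr 1
      have e1 : (starRingEnd ℂ).comp (starRingEnd ℂ) = RingHom.id ℂ := by
        ext x
        simp
      rw [e1, Polynomial.map_id]
    · rw [coeff_map, h1, hWd]
      simp

end Pool.Agent.H4.TFN1
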