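import Pool.Agent.H857.TF.Core3

/-!
# N10a: three linear factors
-/

set_option autoImplicit false

namespace Pool.Agent.H80.TFn10a

open Module Polynomial Pool.Agent.W521.Descent Pool.Agent.W521.Density Pool.Agent.W521.Count
  Pool.Agent.X297.UB Pool.Agent.H857.PB Pool.Agent.H857.PA Pool.Agent.H857.HK Pool.Agent.H857.EF
  Pool.Agent.H857.WT Pool.Agent.H857.SG Pool.Agent.H857.PD Pool.Agent.H857.TF

instance normQB : Normal ℚ QB := by
  have h := algebraicClosure.isAlgClosure ℚ ℂ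
  exact @IsAlgClosure.normal ℚ (algebraicClosure ℚ ℂ) _ _ (algebraicClosure ℚ ℂ).algebra' h

/-- The slope minus one half. -/
noncomputable def vv (p : ℕ) [Fact p.Prime] (a : ℕ) (τ : QB →ₐ[ℚ] PadicAlgCl p) (w : QB) : ℝ :=
  slp p (τ w) - a / 2

lemma exists_comp {p : ℕ} [Fact p.Prime] (τ τ' : QB →ₐ[ℚ] PadicAlgCl p) :
    ∃ g : QB →ₐ[ℚ] QB, ∀ w, τ' w = τ (g w) := by
  let _ : Algebra QB (PadicAlgCl p) := τ.toRingHom.toAlgebra
  have : IsScalarTower ℚ QB (PadicAlgCl p) := IsScalarTower.of_algebraMap_eq fun x =>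
    (τ.commutes x).symm
  refine ⟨τ'.restrictNormal QB, fun w => ?_⟩
  exact (τ'.restrictNormal_commutes QB w).symm

lemma pairRel_of {p : ℕ} [Fact p.Prime] {a : ℕ} {f : ℤ[X]} (hf : f.Monic)
    (hn : ∀ z : ℂ, aeval z f = 0 → ‖z‖ ^ 2 = ((p ^ a : ℕ) : ℝ)) {w w' : QB}
    (hw : aeval w f = 0) (hw' : aeval w' f = 0)
    (h : ∀ τ : QB →ₐ[ℚ] PadicAlgCl p, vv p a τ w + vv p a τ w' = 0) :
    PairRel (p ^ a) (w : ℂ) (w' : ℂ) := by
  have hW : Pool.Agent.X297.UB.Weil p a ![w, w'] (fun _ => 1) := by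
    refine ⟨fun i => ⟨f, hf, ?_, fun z hz => ?_⟩⟩
    · fin_cases i
      · exact hw
      · exact hw'
    · rw [pow_one, hn z hz]
      push_cast
      rfl
  obtain ⟨s, hs, h1⟩ := (hW.rel_iff (fun _ => 1) 1 (by simp)).2 (fun τ => by
    have h2 := h τ
    unfold vv at h2
    rw [Fin.sum_univ_two]
    simp only [Matrix.cons_val_zero, Matrix.cons_val_one]
    push_cast
    linarith)
  refine ⟨s, hs, ?_⟩
  have h2 := congrArg (fun z : QB => (z : ℂ)) h1
  simp only [Fin.prod_univ_two, Matrix.cons_val_zero, Matrix.cons_val_one, pow_one] at h2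
  push_cast at h2
  rw [h2]
  push_cast
  rw [← pow_mul, mul_one]

lemma slp_list {p : ℕ} [Fact p.Prime] (τ : QB →ₐ[ℚ] PadicAlgCl p) (L : List QB)
    (hL : ∀ w ∈ L, w ≠ 0) : τ L.prod ≠ 0 ∧
      slp p (τ L.prod) = (L.map fun w => slp p (τ w)).sum := by
  induction L with
  | nil => simp [slp_one]
  | cons w L ih =>
    obtain ⟨h1, h2⟩ := ih fun w hw => hL w (List.mem_cons_of_mem _ hw)
    have h3 : τ w ≠ 0 := (map_ne_zero τ).2 (hL w List.mem_cons_self)
    rw [List.prod_cons, map_mul, List.map_cons, List.sum_cons, slp_mul h3 h1, h2]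
    exact ⟨mul_ne_zero h3 h1, rfl⟩

lemma norm_list {q : ℝ} (L : List ℂ) (hL : ∀ w ∈ L, ‖w‖ ^ 2 = q) :
    ‖L.prod‖ ^ 2 = q ^ L.length := by
  induction L with
  | nil => simp
  | cons w L ih =>
    rw [List.prod_cons, norm_mul, mul_pow, ih fun w hw => hL w (List.mem_cons_of_mem _ hw),
      hL w List.mem_cons_self, List.length_cons, pow_succ, mul_comm]

lemma sum_vv {p : ℕ} [Fact p.Prime] {a : ℕ} (ha : 0 < a) (L : List QB)
    (hL : ∀ w ∈ L, ‖(w : ℂ)‖ ^ 2 = ((p ^ a : ℕ) : ℝ)) {N : ℕ} (hN : 0 < N) {n : ℤ}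
    (h : (L.map (fun w : QB => (w : ℂ))).prod ^ N = ((p ^ a : ℕ) : ℂ) ^ (n * N)) :
    (L.length : ℤ) = 2 * n ∧
    ∀ τ : QB →ₐ[ℚ] PadicAlgCl p, (L.map fun w => vv p a τ w).sum = 0 := by
  have hpp : p.Prime := Fact.out
  have hq0 : (0 : ℝ) < ((p ^ a : ℕ) : ℝ) := by exact_mod_cast pow_pos hpp.pos a
  have hq1 : (1 : ℝ) < ((p ^ a : ℕ) : ℝ) := by
    exact_mod_cast Nat.one_lt_pow ha.ne' hpp.one_lt
  have hN' : (N : ℤ) ≠ 0 := by exact_mod_cast hN.ne'
  have h1 : ‖(L.map (fun w : QB => (w : ℂ))).prod‖ ^ 2 = ((p ^ a : ℕ) : ℝ) ^ L.length := by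
    rw [norm_list (q := ((p ^ a : ℕ) : ℝ)) _ ?_, List.length_map]
    intro w hw
    obtain ⟨w', hw', rfl⟩ := List.mem_map.1 hw
    exact hL w' hw'
  have hlen : (L.length : ℤ) = 2 * n := by
    have h2 := congrArg (fun z : ℂ => ‖z‖ ^ 2) h
    simp only [norm_pow, norm_zpow, Complex.norm_natCast] at h2
    rw [← pow_mul, mul_comm N 2, pow_mul, h1, ← pow_mul, ← zpow_natCast, ← zpow_natCast,
      ← zpow_mul] at h2
    have h3 := zpow_right_injective₀ hq0 hq1.ne' h2
    push_cast at h3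
    have h4 : (N : ℤ) * (L.length - 2 * n) = 0 := by linear_combination h3
    have h5 := (mul_eq_zero.1 h4).resolve_left hN'
    linarith
  refine ⟨hlen, fun τ => ?_⟩
  obtain ⟨k, hk⟩ : ∃ k : ℕ, n = k := ⟨n.toNat, by omega⟩
  subst hk
  have hlen' : L.length = 2 * k := by exact_mod_cast hlen
  have hne : ∀ w ∈ L, w ≠ 0 := by
    rintro w hw rfl
    have h2 := hL 0 hw
    rw [ZeroMemClass.coe_zero, norm_zero, zero_pow two_ne_zero] at h2
    exact hq0.ne h2
  have hprod : L.prod ^ N = ((p ^ a : ℕ) : QB) ^ (k * N) := by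
    have hinj : Function.Injective (algebraMap QB ℂ) := (algebraMap QB ℂ).injective
    apply hinj
    rw [map_pow, map_list_prod, map_pow, map_natCast]
    have h2 : (L.map (algebraMap QB ℂ)) = L.map (fun w : QB => (w : ℂ)) := rfl
    rw [h2, h, ← Nat.cast_mul, zpow_natCast]
  obtain ⟨h3, h4⟩ := slp_list τ L hne
  have h5 := congrArg (fun z => slp p (τ z)) hprod
  simp only [map_pow, map_natCast, slp_pow, Nat.cast_pow, slp_p] at h5
  rw [h4] at h5
  have h6 : (L.map fun w => vv p a τ w).sum =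
      (L.map fun w => slp p (τ w)).sum - L.length * (a / 2 : ℝ) := by
    clear h h1 hlen hlen' hprod h3 h4 h5 hL hne
    induction L with
    | nil => simp
    | cons w L ih =>
      rw [List.map_cons, List.sum_cons, ih, List.map_cons, List.sum_cons, List.length_cons, vv]
      push_cast
      ring
  rw [h6, hlen']
  have hNr : (N : ℝ) ≠ 0 := by exact_mod_cast hN.ne'
  apply mul_left_cancel₀ hNr
  push_cast at h5 ⊢
  linear_combination h5

/-- The main step. -/
lemma key {p : ℕ} [Fact p.Prime] {a : ℕ} {f : ℤ[X]} (hf : f.Monic)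
    (hn : ∀ z : ℂ, aeval z f = 0 → ‖z‖ ^ 2 = ((p ^ a : ℕ) : ℝ)) (L : List QB) (hL0 : L ≠ [])
    (hL : ∀ w ∈ L, aeval w f = 0) (hlen : Even L.length)
    (hquad : ∀ w ∈ L, ∃ x : ℤ, w ^ 2 + x * w + ((p ^ a : ℕ) : QB) = 0)
    (hsum : ∀ τ : QB →ₐ[ℚ] PadicAlgCl p, (L.map fun w => vv p a τ w).sum = 0) {κ : ℝ}
    (hκ : ∀ w ∈ L, ∀ τ : QB →ₐ[ℚ] PadicAlgCl p,
      vv p a τ w = 0 ∨ vv p a τ w = κ ∨ vv p a τ w = -κ)
    (hpw : L.Pairwise fun (y z : QB) => ¬ PairRel (p ^ a) (y : ℂ) (z : ℂ)) : False := by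
  classical
  have hpp : p.Prime := Fact.out
  have hq0 : ((p ^ a : ℕ) : QB) ≠ 0 := by
    have h : (p ^ a : ℕ) ≠ 0 := (pow_pos hpp.pos a).ne'
    exact_mod_cast h
  have hq0' : ((p ^ a : ℕ) : PadicAlgCl p) ≠ 0 := by
    have h : (p ^ a : ℕ) ≠ 0 := (pow_pos hpp.pos a).ne'
    exact_mod_cast h
  have hne : ∀ w ∈ L, w ≠ 0 := by
    rintro w hw rfl
    obtain ⟨x, hx⟩ := hquad 0 hw
    apply hq0
    rw [← hx]
    ring
  obtain ⟨τ⟩ : Nonempty (QB →ₐ[ℚ] PadicAlgCl p) := ⟨IsAlgClosed.lift⟩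
  -- the images under homomorphisms
  have hg : ∀ w ∈ L, ∀ g : QB →ₐ[ℚ] QB, g w = w ∨ g w = ((p ^ a : ℕ) : QB) / w := by
    intro w hw g
    obtain ⟨x, hx⟩ := hquad w hw
    have h1 := congrArg g hx
    rw [map_add, map_add, map_mul, map_pow, map_intCast, map_natCast, map_zero] at h1
    have hw0 := hne w hw
    have h2 : (g w - w) * (g w * w - ((p ^ a : ℕ) : QB)) = 0 := by
      linear_combination w * h1 - g w * hx
    rcases mul_eq_zero.1 h2 with h3 | h3
    · exact Or.inl (sub_eq_zero.1 h3)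
    · right
      rw [eq_div_iff hw0]
      exact sub_eq_zero.1 h3
  -- the characters
  have hchar : ∀ w ∈ L, ∃ χ : (QB →ₐ[ℚ] QB) →* ℝ, ∀ g : QB →ₐ[ℚ] QB,
      vv p a τ (g w) = χ g * vv p a τ w := by
    intro w hw
    have hw0 := hne w hw
    have hτw : τ w ≠ 0 := (map_ne_zero τ).2 hw0
    refine ⟨
      { toFun := fun g => if g w = w then 1 else -1
        map_one' := if_pos rfl
        map_mul' := fun g h => ?_ }, fun g => ?_⟩
    · have e : (g * h) w = g (h w) := rfl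
      rw [e]
      by_cases h1 : h w = w
      · rw [h1, if_pos rfl, mul_one]
      · have h2 := (hg w hw h).resolve_left h1
        rw [if_neg h1]
        have h3 : g (h w) = ((p ^ a : ℕ) : QB) / g w := by
          rw [h2, map_div₀, map_natCast]
        by_cases h4 : g w = w
        · rw [h3, h4, if_pos rfl, if_neg (by rw [← h2]; exact h1)]
          norm_num
        · have h5 := (hg w hw g).resolve_left h4
          rw [if_neg h4, h3, h5, if_pos (by field_simp)]
          norm_num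
    · change vv p a τ (g w) = (if g w = w then 1 else -1) * vv p a τ w
      split_ifs with h1
      · rw [h1, one_mul]
      · rw [(hg w hw g).resolve_left h1]
        have h2 : slp p (τ (((p ^ a : ℕ) : QB) / w)) + slp p (τ w) = a := by
          have h3 : τ (((p ^ a : ℕ) : QB) / w) ≠ 0 :=
            (map_ne_zero τ).2 (div_ne_zero hq0 hw0)
          rw [← slp_mul h3 hτw, ← map_mul, div_mul_cancel₀ _ hw0, map_natCast]
          push_cast
          rw [slp_pow, slp_p, mul_one]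
        unfold vv
        linarith
  have hg2 : ∀ g : QB →ₐ[ℚ] QB, (L.map fun w => vv p a τ (g w)).sum = 0 := fun g =>
    hsum (τ.comp g)
  -- indices
  have hmem : ∀ i : Fin L.length, L[(i : ℕ)] ∈ L := fun i => List.getElem_mem _
  choose! χ hχ using hchar
  have hpair : ∀ i j : Fin L.length, i ≠ j →
      ¬ PairRel (p ^ a) ((L[(i : ℕ)] : QB) : ℂ) ((L[(j : ℕ)] : QB) : ℂ) := by
    have h1 := List.pairwise_iff_getElem.1 hpw
    intro i j hij
    rcases lt_or_gt_of_ne hij with h2 | h2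
    · exact h1 i j i.2 j.2 h2
    · rintro ⟨N, hN, h3⟩
      exact h1 j i j.2 i.2 h2 ⟨N, hN, by rw [mul_comm]; exact h3⟩
  have hvv : ∀ w w' : QB, w ∈ L → w' ∈ L → (∀ g : QB →ₐ[ℚ] QB,
      vv p a τ (g w) + vv p a τ (g w') = 0) → PairRel (p ^ a) (w : ℂ) (w' : ℂ) := by
    intro w w' hw hw' h1
    refine pairRel_of hf hn (hL w hw) (hL w' hw') fun τ' => ?_
    obtain ⟨g, hg'⟩ := exists_comp τ τ'
    have h2 := h1 g
    unfold vv at h2 ⊢
    rw [hg', hg']
    exact h2
  let c : Fin L.length → ℝ := fun i => vv p a τ L[(i : ℕ)]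
  -- a nonzero entry
  have hex : ∃ i, c i ≠ 0 := by
    by_contra hcon
    push Not at hcon
    have h1 : 2 ≤ L.length := by
      obtain ⟨k, hk⟩ := hlen
      have h2 : L.length ≠ 0 := fun h0 => hL0 (List.length_eq_zero_iff.1 h0)
      omega
    refine hpair ⟨0, by omega⟩ ⟨1, by omega⟩ (by simp) (hvv _ _ (hmem _) (hmem _) fun g => ?_)
    rw [hχ _ (hmem _), hχ _ (hmem _)]
    have h3 := hcon ⟨0, by omega⟩
    have h4 := hcon ⟨1, by omega⟩
    change vv p a τ L[0] = 0 at h3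
    change vv p a τ L[1] = 0 at h4
    change χ L[0] g * vv p a τ L[0] + χ L[1] g * vv p a τ L[1] = 0
    rw [h3, h4, mul_zero, mul_zero, add_zero]
  obtain ⟨i, hi⟩ := hex
  -- independence of the characters
  have hlin : ∑ j : Fin L.length, Finsupp.single (χ L[(j : ℕ)]) (c j) = 0 := by
    refine linearIndependent_iff.1 (linearIndependent_monoidHom (QB →ₐ[ℚ] QB) ℝ) _ ?_
    rw [map_sum]
    simp only [Finsupp.linearCombination_single]
    funext g
    rw [Finset.sum_apply]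
    have h1 := hg2 g
    rw [← Fin.sum_univ_fun_getElem L fun w => vv p a τ (g w)] at h1
    rw [Pi.zero_apply, ← h1]
    refine Finset.sum_congr rfl fun j _ => ?_
    rw [Pi.smul_apply, smul_eq_mul, hχ _ (hmem j), mul_comm]
  have hcoef := DFunLike.congr_fun hlin (χ L[(i : ℕ)])
  rw [Finsupp.finsetSum_apply, Finsupp.zero_apply] at hcoef
  have hpos : 0 < ∑ j : Fin L.length,
      c i * (Finsupp.single (χ L[(j : ℕ)]) (c j) : _ →₀ ℝ) (χ L[(i : ℕ)]) := by
    refine Finset.sum_pos' (fun j _ => ?_) ⟨i, Finset.mem_univ _, ?_⟩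
    · rw [Finsupp.single_apply]
      split_ifs with h1
      · by_contra hneg
        push Not at hneg
        have hj : c j = - c i := by
          have e1 : c i = 0 ∨ c i = κ ∨ c i = -κ := hκ _ (hmem i) τ
          have e2 : c j = 0 ∨ c j = κ ∨ c j = -κ := hκ _ (hmem j) τ
          rcases e1 with e1 | e1 | e1 <;> rcases e2 with e2 | e2 | e2 <;>
            rw [e1, e2] at hneg ⊢ <;> nlinarith [sq_nonneg κ]
        have hij : j ≠ i := by
          rintro rfl
          apply hi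
          linarith
        refine hpair j i hij (hvv _ _ (hmem _) (hmem _) fun g => ?_)
        rw [hχ _ (hmem j), hχ _ (hmem i), h1]
        change χ L[(i : ℕ)] g * c j + χ L[(i : ℕ)] g * c i = 0
        rw [hj]
        ring
      · rw [mul_zero]
    · rw [Finsupp.single_eq_same]
      exact mul_self_pos.2 hi
  rw [← Finset.mul_sum, hcoef, mul_zero] at hpos
  exact lt_irrefl _ hpos

lemma quad_of {q : ℕ} (hq : q ≠ 0) {y : Fin 1 → ℤ} {w : ℂ} (hw : aeval w (wp q 1 y) = 0) :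
    w ^ 2 + y 0 * w + (q : ℂ) = 0 := by
  have h := lab_hp q 1 y
  have h2 := congrArg (Polynomial.eval 0) h
  simp only [hp, Fin.prod_univ_one, Fin.sum_univ_one, eval_add, eval_sub, eval_X, eval_C,
    eval_mul, eval_pow] at h2
  simp only [Fin.val_zero, pow_zero, mul_one, pow_one, zero_add, zero_sub] at h2
  have h3 := lab_mul q 1 y 0
  obtain ⟨j, hj⟩ := (lab_root hq y w).1 hw
  obtain rfl : j = 0 := Subsingleton.elim _ _
  rcases hj with rfl | rfl
  · linear_combination (labA q 1 y 0) * h2 - h3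
  · linear_combination (labB q 1 y 0) * h2 - h3

theorem n10a (hs : N10s) : N10a := by
  intro p _ a f ha hf ⟨x, y, z, hfe, hx, hy, hz⟩ ⟨L, hL0, hLr, ⟨N, hN, n, hLN⟩, hLp⟩
  have hpp : p.Prime := Fact.out
  have hq0 : (p ^ a : ℕ) ≠ 0 := (pow_pos hpp.pos a).ne'
  have hmon : f.Monic := hf.1.1
  have hn : ∀ z : ℂ, aeval z f = 0 → ‖z‖ ^ 2 = ((p ^ a : ℕ) : ℝ) := hf.1.2.2.2
  -- the algebraic numbers
  have halg : ∀ w ∈ L, w ∈ algebraicClosure ℚ ℂ := by
    intro w hw
    rw [mem_algebraicClosure_iff]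
    refine IsIntegral.isAlgebraic ?_
    have h1 : IsIntegral ℤ w := ⟨f, hmon, hLr w hw⟩
    exact IsIntegral.tower_top (R := ℤ) h1
  obtain ⟨L', hL'⟩ : ∃ L' : List QB, L'.map (fun w : QB => (w : ℂ)) = L := by
    clear hL0 hLr hLN hLp
    induction L with
    | nil => exact ⟨[], rfl⟩
    | cons w L ih =>
      obtain ⟨L', h1⟩ := ih fun w hw => halg w (List.mem_cons_of_mem _ hw)
      exact ⟨⟨w, halg w List.mem_cons_self⟩ :: L', by rw [List.map_cons, h1]⟩
  have hr' : ∀ w ∈ L', aeval w f = 0 := by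
    intro w hw
    have h1 := hLr (w : ℂ) (by rw [← hL']; exact List.mem_map.2 ⟨w, hw, rfl⟩)
    have hinj : Function.Injective (algebraMap QB ℂ) := (algebraMap QB ℂ).injective
    apply hinj
    rw [map_zero, ← aeval_algebraMap_apply]
    exact h1
  rw [← hL'] at hLN
  obtain ⟨hlen, hsum⟩ := sum_vv ha L' (fun w hw => hn _
    (hLr (w : ℂ) (by rw [← hL']; exact List.mem_map.2 ⟨w, hw, rfl⟩))) hN hLN
  obtain ⟨κ, hκ⟩ : ∃ κ : ℝ, ∀ w ∈ L', ∀ τ : QB →ₐ[ℚ] PadicAlgCl p,
      vv p a τ w = 0 ∨ vv p a τ w = κ ∨ vv p a τ w = -κ := by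
    have hp1 : (1 : ℝ) < p := one_lt_p
    have hlog : Real.logb p (((p : ℝ) ^ a)⁻¹) = -a := by
      rw [Real.logb_inv, Real.logb_pow, Real.logb_self_eq_one hp1, mul_one]
    have hroot : ∀ w ∈ L', ∀ τ : QB →ₐ[ℚ] PadicAlgCl p, aeval (τ w) f = 0 := by
      intro w hw τ
      exact aeval_hom (τ : QB →+* PadicAlgCl p) (hr' w hw)
    rcases hs p a f ha hf with h | h
    · refine ⟨a / 2, fun w hw τ => ?_⟩
      rcases h _ (hroot w hw τ) with h1 | h1 | h1
      · right; right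
        unfold vv slp
        rw [h1, Real.logb_one]
        ring
      · left
        have h2 := congrArg (Real.logb p) h1
        rw [Real.logb_pow, hlog] at h2
        unfold vv slp
        push_cast at h2
        linarith
      · right; left
        unfold vv slp
        rw [h1, hlog]
        ring
    · refine ⟨a / 6, fun w hw τ => ?_⟩
      right
      rcases h _ (hroot w hw τ) with h1 | h1
      · right
        have h2 := congrArg (Real.logb p) h1
        rw [Real.logb_pow, hlog] at h2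
        unfold vv slp
        push_cast at h2
        linarith
      · left
        have h2 := congrArg (Real.logb p) h1
        rw [Real.logb_pow, Real.logb_pow, hlog] at h2
        unfold vv slp
        push_cast at h2
        linarith
  refine key hmon hn L' ?_ hr' ?_ ?_ hsum hκ ?_
  · rintro rfl
    exact hL0 hL'.symm
  · have h1 : L'.length = 2 * n.toNat := by omega
    exact ⟨n.toNat, by omega⟩
  · intro w hw
    have h1 : aeval (w : ℂ) f = 0 := hLr (w : ℂ) (by
      rw [← hL']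
      exact List.mem_map.2 ⟨w, hw, rfl⟩)
    rw [hfe, map_mul, map_mul, mul_eq_zero, mul_eq_zero] at h1
    have h2 : ∃ x : ℤ, (w : ℂ) ^ 2 + x * (w : ℂ) + ((p ^ a : ℕ) : ℂ) = 0 := by
      rcases h1 with (h1 | h1) | h1
      · exact ⟨_, quad_of hq0 h1⟩
      · exact ⟨_, quad_of hq0 h1⟩
      · exact ⟨_, quad_of hq0 h1⟩
    obtain ⟨u, hu⟩ := h2
    refine ⟨u, ?_⟩
    have hinj : Function.Injective (algebraMap QB ℂ) := (algebraMap QB ℂ).injective
    apply hinj
    rw [map_zero, map_add, map_add, map_mul, map_pow, map_intCast, map_natCast]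
    exact hu
  · rw [← hL', List.pairwise_map] at hLp
    exact hLp

end Pool.Agent.H80.TFn10a
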