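import Pool.Agent.H857.TF.Core3

/-!
# N10b: products of a linear and an irreducible quadratic factor (helper308, for helper857)

The lemmas on the exponents are adapted from `EF/P/S2a.lean` (helper996), `key` is from
`TF/P/R6.lean` (helper874).
-/

set_option autoImplicit false

namespace Pool.Agent.H308.TFn10b

open Module Polynomial Pool.Agent.W521.Descent Pool.Agent.W521.Density Pool.Agent.W521.Count
  Pool.Agent.X297.UB Pool.Agent.H857.PB Pool.Agent.H857.PA Pool.Agent.H857.HK Pool.Agent.H857.EF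
  Pool.Agent.H857.WT Pool.Agent.H857.SG Pool.Agent.H857.PD Pool.Agent.H857.TF

section

variable {p : ℕ} [hp : Fact p.Prime] {a : ℕ} {ι : Type} [Fintype ι]

/-- the slope minus one half -/
noncomputable def dv (p : ℕ) [Fact p.Prime] (a : ℕ) (τ : QB →ₐ[ℚ] PadicAlgCl p) (x : QB) : ℝ :=
  slp p (τ x) / a - 1 / 2

lemma normal_QB : Normal ℚ QB := by
  have h := algebraicClosure.isAlgClosure ℚ ℂ
  exact @IsAlgClosure.normal ℚ (algebraicClosure ℚ ℂ) _ _ (algebraicClosure ℚ ℂ).algebra' h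

/-- The exponents. -/
def ex (e : ι → ℤ) (y : ι × Bool) : ℕ :=
  if y.2 then 2 * (-e y.1).toNat else 2 * (e y.1).toNat

/-- The sum of the absolute values. -/
def tot (e : ι → ℤ) : ℕ := ∑ i, ((e i).toNat + (-e i).toNat)

lemma sum_ex (e : ι → ℤ) : ∑ y, ex e y * (fun _ : ι × Bool => 1) y = 2 * tot e := by
  rw [Fintype.sum_prod_type, tot, Finset.mul_sum]
  refine Finset.sum_congr rfl fun i _ => ?_
  rw [Fintype.sum_bool]
  simp only [ex, if_true, mul_one]
  rw [if_neg Bool.false_ne_true]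
  ring

/-- The numbers. -/
def fam (β β' : ι → QB) (y : ι × Bool) : QB := if y.2 then β' y.1 else β y.1

lemma weil_fam {f : ℤ[X]} {g : ℕ} (hf : f ∈ weilPolys (p ^ a) g) {β β' : ι → QB}
    (hr : ∀ i, aeval (β i) f = 0) (hr' : ∀ i, aeval (β' i) f = 0) :
    Weil p a (fam β β') (fun _ => 1) := by
  refine ⟨fun y => ⟨f, hf.1, ?_, fun z hz => ?_⟩⟩
  · obtain ⟨i, b⟩ := y
    cases b
    · have h1 : fam β β' (i, false) = β i := if_neg Bool.false_ne_true
      rw [h1]
      exact hr i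
    · have h1 : fam β β' (i, true) = β' i := if_pos rfl
      rw [h1]
      exact hr' i
  · rw [pow_one, hf.2.2.2 z hz]
    push_cast
    rfl

lemma factor {A B Q : ℂ} (hA : A ≠ 0) (hB : B ≠ 0) (h : A * B = Q) (n : ℤ) :
    A ^ (2 * n.toNat) * B ^ (2 * (-n).toNat) =
      A ^ (2 * n) * (Q ^ (n.toNat + (-n).toNat) / Q ^ n) := by
  subst h
  have hAB : A * B ≠ 0 := mul_ne_zero hA hB
  obtain ⟨k, rfl | rfl⟩ := Int.eq_nat_or_neg n
  · have h1 : ((k : ℤ)).toNat = k := Int.toNat_natCast k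
    have h2 : (-(k : ℤ)).toNat = 0 := by omega
    rw [h1, h2, mul_zero, pow_zero, mul_one, add_zero, zpow_natCast, div_self (pow_ne_zero _ hAB),
      mul_one]
    exact_mod_cast (zpow_natCast A (2 * k)).symm
  · have h1 : (-(k : ℤ)).toNat = 0 := by omega
    have h2 : (-(-(k : ℤ))).toNat = k := by omega
    have h3 : A ^ (2 * -(k : ℤ)) = (A ^ (2 * k))⁻¹ := by
      rw [mul_neg, zpow_neg]
      congr 1
    rw [h1, h2, h3, mul_zero, pow_zero, one_mul, zero_add, zpow_neg, zpow_natCast, div_inv_eq_mul,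
      ← pow_add, ← two_mul, mul_pow, inv_mul_cancel_left₀ (pow_ne_zero _ hA)]

lemma zpow_sum' {Q : ℂ} (hQ : Q ≠ 0) (e : ι → ℤ) (s : Finset ι) :
    Q ^ (∑ i ∈ s, e i) = ∏ i ∈ s, Q ^ e i := by
  classical
  induction s using Finset.induction_on with
  | empty => simp
  | insert i s hi ih => rw [Finset.sum_insert hi, Finset.prod_insert hi, zpow_add₀ hQ, ih]

lemma prod_fam {β β' : ι → QB} (hm : ∀ i, β i * β' i = ((p ^ a : ℕ) : QB)) (e : ι → ℤ) :
    algebraMap QB ℂ (∏ y, fam β β' y ^ ex e y) =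
      (∏ i, (β i : ℂ) ^ (2 * e i)) *
        (((p ^ a : ℕ) : ℂ) ^ tot e / ((p ^ a : ℕ) : ℂ) ^ (∑ i, e i)) := by
  have hq : ((p ^ a : ℕ) : ℂ) ≠ 0 := by
    exact_mod_cast pow_ne_zero _ hp.out.ne_zero
  rw [map_prod, Fintype.prod_prod_type, tot, ← Finset.prod_pow_eq_pow_sum, zpow_sum' hq,
    ← Finset.prod_div_distrib, ← Finset.prod_mul_distrib]
  refine Finset.prod_congr rfl fun i _ => ?_
  have h2 : (β i : ℂ) * (β' i : ℂ) = ((p ^ a : ℕ) : ℂ) := by
    have h3 := congrArg (algebraMap QB ℂ) (hm i)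
    rw [map_mul, map_natCast] at h3
    exact h3
  have hA : (β i : ℂ) ≠ 0 := by
    intro h0
    rw [h0, zero_mul] at h2
    exact hq h2.symm
  have hB : (β' i : ℂ) ≠ 0 := by
    intro h0
    rw [h0, mul_zero] at h2
    exact hq h2.symm
  rw [← factor hA hB h2, Fintype.prod_bool, mul_comm, map_pow, map_pow]
  have h3 : algebraMap QB ℂ (fam β β' (i, false)) = (β i : ℂ) := by
    have h1 : fam β β' (i, false) = β i := if_neg Bool.false_ne_true
    rw [h1]
    rfl
  have h4 : algebraMap QB ℂ (fam β β' (i, true)) = (β' i : ℂ) := by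
    have h1 : fam β β' (i, true) = β' i := if_pos rfl
    rw [h1]
    rfl
  have h5 : ex e (i, false) = 2 * (e i).toNat := if_neg Bool.false_ne_true
  have h6 : ex e (i, true) = 2 * (-e i).toNat := if_pos rfl
  rw [h3, h4, h5, h6]

lemma rel_iff_fam {β β' : ι → QB} (hm : ∀ i, β i * β' i = ((p ^ a : ℕ) : QB)) (e : ι → ℤ) :
    RelZ (p ^ a) (fun i => (β i : ℂ)) e ↔
      ∃ s, 0 < s ∧ (∏ y, fam β β' y ^ ex e y) ^ s = (p : QB) ^ (a * s * tot e) := by
  have hq : ((p ^ a : ℕ) : ℂ) ≠ 0 := by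
    exact_mod_cast pow_ne_zero _ hp.out.ne_zero
  rw [RelZ]
  refine exists_congr fun s => and_congr Iff.rfl ?_
  have h1 := prod_fam hm e
  have h2 : algebraMap QB ℂ ((p : QB) ^ (a * s * tot e)) =
      (((p ^ a : ℕ) : ℂ) ^ tot e) ^ s := by
    rw [map_pow, map_natCast]
    push_cast
    rw [← pow_mul, ← pow_mul]
    congr 1
    ring
  have h3 : (∏ y, fam β β' y ^ ex e y) ^ s = (p : QB) ^ (a * s * tot e) ↔
      algebraMap QB ℂ ((∏ y, fam β β' y ^ ex e y) ^ s) =
        algebraMap QB ℂ ((p : QB) ^ (a * s * tot e)) :=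
    (algebraMap QB ℂ).injective.eq_iff.symm
  rw [h3, h2, map_pow, h1, mul_pow, div_pow]
  have h4 : (((p ^ a : ℕ) : ℂ) ^ tot e) ^ s ≠ 0 := pow_ne_zero _ (pow_ne_zero _ hq)
  have h5 : (((p ^ a : ℕ) : ℂ) ^ (∑ i, e i)) ^ s ≠ 0 := pow_ne_zero _ (zpow_ne_zero _ hq)
  rw [mul_div_assoc', div_eq_iff h5, mul_comm ((((p ^ a : ℕ) : ℂ) ^ tot e) ^ s)]
  exact (mul_left_inj' h4).symm

lemma slp_AB {A B : PadicAlgCl p} (hab : A * B = ((p ^ a : ℕ) : PadicAlgCl p)) :
    A ≠ 0 ∧ B ≠ 0 ∧ slp p A + slp p B = a := by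
  have h0 : ((p ^ a : ℕ) : PadicAlgCl p) ≠ 0 := by
    exact_mod_cast pow_ne_zero _ hp.out.ne_zero
  have hA : A ≠ 0 := by
    rintro rfl
    rw [zero_mul] at hab
    exact h0 hab.symm
  have hB : B ≠ 0 := by
    rintro rfl
    rw [mul_zero] at hab
    exact h0 hab.symm
  refine ⟨hA, hB, ?_⟩
  have h1 := congrArg (slp p) hab
  rw [slp_mul hA hB] at h1
  rw [h1]
  push_cast
  rw [slp_pow, slp_p, mul_one]

lemma sum_fam (ha : 0 < a) {β β' : ι → QB} (hm : ∀ i, β i * β' i = ((p ^ a : ℕ) : QB))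
    (e : ι → ℤ) (τ : QB →ₐ[ℚ] PadicAlgCl p) :
    ∑ y, (ex e y : ℝ) * slp p (τ (fam β β' y)) = a * tot e ↔
      ∑ i, (e i : ℝ) * dv p a τ (β i) = 0 := by
  have ha' : (a : ℝ) ≠ 0 := by exact_mod_cast ha.ne'
  have hab : ∀ i, τ (β i) * τ (β' i) = ((p ^ a : ℕ) : PadicAlgCl p) := by
    intro i
    rw [← map_mul, hm, map_natCast]
  have h1 : ∑ y, (ex e y : ℝ) * slp p (τ (fam β β' y)) - a * tot e =
      2 * a * ∑ i, (e i : ℝ) * dv p a τ (β i) := by
    rw [Fintype.sum_prod_type, tot, Nat.cast_sum, Finset.mul_sum, Finset.mul_sum,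
      ← Finset.sum_sub_distrib]
    refine Finset.sum_congr rfl fun i _ => ?_
    obtain ⟨h2, h3, h4⟩ := slp_AB (hab i)
    have h7 : fam β β' (i, false) = β i := if_neg Bool.false_ne_true
    have h8 : fam β β' (i, true) = β' i := if_pos rfl
    have h5 : ex e (i, false) = 2 * (e i).toNat := if_neg Bool.false_ne_true
    have h6 : ex e (i, true) = 2 * (-e i).toNat := if_pos rfl
    have h9 : (((e i).toNat : ℤ) - ((-e i).toNat : ℤ)) = e i := by omega
    have h10 : (((e i).toNat : ℝ) - ((-e i).toNat : ℝ)) = (e i : ℝ) := by exact_mod_cast h9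
    have h11 : slp p (τ (β' i)) = a - slp p (τ (β i)) := by linarith
    rw [Fintype.sum_bool, h5, h6, h7, h8, h11, ← h10, dv]
    push_cast
    field_simp
    ring
  constructor
  · intro h
    rw [h, sub_self] at h1
    have h2 : 2 * (a : ℝ) ≠ 0 := mul_ne_zero two_ne_zero ha'
    exact (mul_eq_zero.1 h1.symm).resolve_left h2
  · intro h
    rw [h, mul_zero] at h1
    linarith

/-- Relations and slopes. -/
theorem rel_iff (ha : 0 < a) {f : ℤ[X]} {g : ℕ} (hf : f ∈ weilPolys (p ^ a) g) {β β' : ι → QB}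
    (hr : ∀ i, aeval (β i) f = 0) (hr' : ∀ i, aeval (β' i) f = 0)
    (hm : ∀ i, β i * β' i = ((p ^ a : ℕ) : QB)) (e : ι → ℤ) :
    RelZ (p ^ a) (fun i => (β i : ℂ)) e ↔
      ∀ τ : QB →ₐ[ℚ] PadicAlgCl p, ∑ i, (e i : ℝ) * dv p a τ (β i) = 0 := by
  have hnorm := normal_QB
  rw [rel_iff_fam hm e, (weil_fam hf hr hr').rel_iff (ex e) (tot e) (sum_ex e)]
  exact forall_congr' fun τ => sum_fam ha hm e τ

end

/-! ### The main claim -/

lemma sgn_add {x y : ℤ} (h : x * y < 0) : x.sign + y.sign = 0 := by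
  rcases mul_neg_iff.mp h with ⟨h1, h2⟩ | ⟨h1, h2⟩
  · rw [Int.sign_eq_one_of_pos h1, Int.sign_eq_neg_one_of_neg h2]
    norm_num
  · rw [Int.sign_eq_one_of_pos h2, Int.sign_eq_neg_one_of_neg h1]
    norm_num

lemma sgn_mul (e : ℤ) {η : ℤ} (hη : η = 1 ∨ η = -1) : (e * η).sign = e.sign * η := by
  rcases hη with rfl | rfl
  · rw [mul_one, mul_one]
  · rw [mul_neg_one, mul_neg_one, Int.sign_neg]

lemma two_le {e : ℤ} (h0 : e ≠ 0) (h : Even e) : 2 ≤ |e| := by
  obtain ⟨k, hk⟩ := h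
  rcases abs_cases e with ⟨h1, h2⟩ | ⟨h1, h2⟩ <;> omega

theorem main_claim {T : Type} (s0 s1 s2 : T → ℝ) (e0 e1 e2 : ℤ)
    (hpat : ∀ t, s0 t ≠ 0 → s1 t ≠ 0 → |s0 t| = |s1 t|)
    (ε : ℤ) (hε : ε = 1 ∨ ε = -1) (hs2 : ∀ t, s2 t = ε * s1 t)
    (hne : e0 ≠ 0 ∨ e1 ≠ 0 ∨ e2 ≠ 0) (hev : Even (e0 + e1 + e2))
    (hrel : ∀ t, (e0 : ℝ) * s0 t + e1 * s1 t + e2 * s2 t = 0)
    (d01 : e0 ≠ 0 → e1 ≠ 0 → ¬ ∀ t, (e0.sign : ℝ) * s0 t + e1.sign * s1 t = 0)
    (d02 : e0 ≠ 0 → e2 ≠ 0 → ¬ ∀ t, (e0.sign : ℝ) * s0 t + e2.sign * s2 t = 0)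
    (d12 : e1 ≠ 0 → e2 ≠ 0 → ¬ ∀ t, (e1.sign : ℝ) * s1 t + e2.sign * s2 t = 0)
    (E0 : 2 ≤ |e0| → ¬ ∀ t, s0 t = 0) (E1 : 2 ≤ |e1| → ¬ ∀ t, s1 t = 0)
    (E2 : 2 ≤ |e2| → ¬ ∀ t, s2 t = 0) : False := by
  by_cases h1 : ∀ t, s1 t = 0
  · have h2 : ∀ t, s2 t = 0 := fun t => by rw [hs2, h1, mul_zero]
    have h3 : ∀ t, (e0 : ℝ) * s0 t = 0 := by
      intro t
      have h4 := hrel t
      rw [h1, h2] at h4
      linarith
    by_cases h0 : e0 = 0
    · by_cases g1 : e1 = 0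
      · by_cases g2 : e2 = 0
        · tauto
        · refine E2 (two_le g2 ?_) h2
          rwa [h0, g1, zero_add, zero_add] at hev
      · by_cases g2 : e2 = 0
        · refine E1 (two_le g1 ?_) h1
          rwa [h0, g2, zero_add, add_zero] at hev
        · exact d12 g1 g2 fun t => by rw [h1, h2]; ring
    · have h4 : ∀ t, s0 t = 0 := fun t =>
        (mul_eq_zero.mp (h3 t)).resolve_left (by exact_mod_cast h0)
      by_cases g1 : e1 = 0
      · by_cases g2 : e2 = 0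
        · refine E0 (two_le h0 ?_) h4
          rwa [g1, g2, add_zero, add_zero] at hev
        · exact d02 h0 g2 fun t => by rw [h4, h2]; ring
      · exact d01 h0 g1 fun t => by rw [h4, h1]; ring
  · push Not at h1
    obtain ⟨t1, ht1⟩ := h1
    obtain ⟨c, hc⟩ : ∃ c, c = e1 + e2 * ε := ⟨_, rfl⟩
    have hrel' : ∀ t, (e0 : ℝ) * s0 t + c * s1 t = 0 := by
      intro t
      have h4 := hrel t
      rw [hs2] at h4
      rw [hc]
      push_cast
      linarith
    by_cases hc0 : c = 0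
    · by_cases g1 : e1 = 0
      · have g2 : e2 = 0 := by
          rcases hε with rfl | rfl <;> omega
        have h0 : e0 ≠ 0 := by tauto
        have h4 : ∀ t, s0 t = 0 := by
          intro t
          have h5 := hrel' t
          rw [hc0, Int.cast_zero, zero_mul, add_zero] at h5
          exact (mul_eq_zero.mp h5).resolve_left (by exact_mod_cast h0)
        refine E0 (two_le h0 ?_) h4
        rwa [g1, g2, add_zero, add_zero] at hev
      · have g2 : e2 ≠ 0 := by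
          rintro rfl
          rw [zero_mul, add_zero] at hc
          exact g1 (hc.symm.trans hc0)
        refine d12 g1 g2 fun t => ?_
        have h5 : e1.sign + (e2 * ε).sign = 0 := by
          apply sgn_add
          have h6 : e2 * ε = -e1 := by omega
          rw [h6]
          have h7 : 0 < e1 * e1 := mul_self_pos.mpr g1
          nlinarith
        rw [sgn_mul _ hε] at h5
        have h6 : (e1.sign : ℝ) + e2.sign * ε = 0 := by exact_mod_cast h5
        rw [hs2]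
        linear_combination s1 t * h6
    · have hcR : (c : ℝ) ≠ 0 := by exact_mod_cast hc0
      have h5 : (e0 : ℝ) * s0 t1 = -(c * s1 t1) := by
        have := hrel' t1
        linarith
      have h6 : (e0 : ℝ) * s0 t1 ≠ 0 := by
        rw [h5]
        exact neg_ne_zero.mpr (mul_ne_zero hcR ht1)
      have h0R : (e0 : ℝ) ≠ 0 := left_ne_zero_of_mul h6
      have h0 : e0 ≠ 0 := by exact_mod_cast h0R
      have h7 := hpat t1 (right_ne_zero_of_mul h6) ht1
      have h8 : |(e0 : ℝ)| = |(c : ℝ)| := by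
        have h9 := congrArg abs h5
        rw [abs_neg, abs_mul, abs_mul, h7] at h9
        exact mul_right_cancel₀ (abs_ne_zero.mpr ht1) h9
      obtain ⟨η, hη, hE, hsum⟩ : ∃ η : ℤ, (η = 1 ∨ η = -1) ∧ (∀ t, s0 t = η * s1 t) ∧
          e0 * η + c = 0 := by
        rcases abs_eq_abs.mp h8 with h9 | h9
        · refine ⟨-1, Or.inr rfl, fun t => ?_, ?_⟩
          · have h10 := hrel' t
            rw [h9] at h10
            push_cast
            have h11 : (c : ℝ) * (s0 t + s1 t) = 0 := by linarith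
            have h12 := (mul_eq_zero.mp h11).resolve_left hcR
            linarith
          · have h10 : e0 = c := by exact_mod_cast h9
            rw [h10]
            ring
        · refine ⟨1, Or.inl rfl, fun t => ?_, ?_⟩
          · have h10 := hrel' t
            rw [h9] at h10
            push_cast
            have h11 : (c : ℝ) * (s1 t - s0 t) = 0 := by linarith
            have h12 := (mul_eq_zero.mp h11).resolve_left hcR
            linarith
          · have h10 : e0 = -c := by exact_mod_cast h9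
            rw [h10]
            ring
      have hx0 : e0 * η ≠ 0 := by
        intro h10
        rw [h10, zero_add] at hsum
        exact hc0 hsum
      by_cases g : e0 * η * e1 < 0
      · have g1 : e1 ≠ 0 := by
          rintro rfl
          rw [mul_zero] at g
          exact lt_irrefl _ g
        refine d01 h0 g1 fun t => ?_
        have h10 := sgn_add g
        rw [sgn_mul _ hη] at h10
        have h11 : (e0.sign : ℝ) * η + e1.sign = 0 := by exact_mod_cast h10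
        rw [hE]
        linear_combination s1 t * h11
      · have g' : e0 * η * (e2 * ε) < 0 := by
          have h10 : 0 < (e0 * η) * (e0 * η) := mul_self_pos.mpr hx0
          have h11 : e0 * η * (e0 * η + (e1 + e2 * ε)) = 0 := by
            rw [← hc, hsum, mul_zero]
          push Not at g
          nlinarith
        have g2 : e2 ≠ 0 := by
          rintro rfl
          rw [zero_mul, mul_zero] at g'
          exact lt_irrefl _ g'
        refine d02 h0 g2 fun t => ?_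
        have h10 := sgn_add g'
        rw [sgn_mul _ hη, sgn_mul _ hε] at h10
        have h11 : (e0.sign : ℝ) * η + e2.sign * ε = 0 := by exact_mod_cast h10
        rw [hE, hs2]
        linear_combination s1 t * h11

/-! ### Slopes -/

section

variable {p : ℕ} [hp : Fact p.Prime] {a : ℕ}

lemma mem_qb {f : ℤ[X]} (hf : f.Monic) {z : ℂ} (hz : aeval z f = 0) :
    z ∈ algebraicClosure ℚ ℂ := by
  rw [mem_algebraicClosure_iff]
  refine IsIntegral.isAlgebraic ?_
  have h1 : IsIntegral ℤ z := ⟨f, hf, hz⟩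
  exact IsIntegral.tower_top (R := ℤ) h1

lemma lift_root {f : ℤ[X]} {z : QB} (hz : aeval (z : ℂ) f = 0) : aeval z f = 0 := by
  apply (algebraMap QB ℂ).injective
  rw [map_zero]
  have h1 : algebraMap QB ℂ (aeval z f) = aeval (z : ℂ) f := by
    rw [aeval_def, Polynomial.hom_eval₂, aeval_def]
    congr 1
  rw [h1]
  exact hz

/-- the slope of an integer is an integer -/
lemma slp_int {n : ℤ} (hn : n ≠ 0) : ∃ v : ℤ, slp p (n : PadicAlgCl p) = v := by
  have h1 : (n : PadicAlgCl p) = algebraMap ℚ_[p] (PadicAlgCl p) (n : ℚ_[p]) := by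
    rw [map_intCast]
  have h2 : (n : ℚ_[p]) ≠ 0 := by exact_mod_cast hn
  refine ⟨(n : ℚ_[p]).valuation, ?_⟩
  have h3 : (1 : ℝ) < p := one_lt_p
  rw [slp, h1, PadicAlgCl.norm_extends, Padic.norm_eq_zpow_neg_valuation h2,
    ← Real.rpow_intCast, Real.logb_rpow (by linarith) h3.ne']
  push_cast
  ring

/-- different slopes -/
lemma slp_add {X Y : PadicAlgCl p} (hX : X ≠ 0) (hY : Y ≠ 0) (h : slp p X < slp p Y) :
    X + Y ≠ 0 ∧ slp p (X + Y) = slp p X := by
  have hlt : ‖Y‖ < ‖X‖ := by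
    rw [norm_of_slp hX, norm_of_slp hY]
    exact Real.rpow_lt_rpow_of_exponent_lt one_lt_p (by linarith)
  have h1 : ‖X + Y‖ = ‖X‖ := by
    rw [IsUltrametricDist.norm_add_eq_max_of_norm_ne_norm hlt.ne', max_eq_left hlt.le]
  refine ⟨?_, by rw [slp, slp, h1]⟩
  rw [← norm_ne_zero_iff, h1]
  exact norm_ne_zero_iff.mpr hX

/-- `X + Y` is an integer, `X Y` has the slope `2 a` -/
lemma dich {X Y : PadicAlgCl p} (hX : X ≠ 0) (hY : Y ≠ 0) {n : ℤ}
    (h : X + Y = (n : PadicAlgCl p)) (hs : slp p X + slp p Y = 2 * a) :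
    (slp p X = a ∧ (n ≠ 0 → (a : ℝ) ≤ slp p (n : PadicAlgCl p))) ∨
      (slp p X ≠ a ∧ n ≠ 0 ∧ slp p (n : PadicAlgCl p) < a ∧ ∃ v : ℤ, slp p X = v) := by
  rcases lt_trichotomy (slp p X) (slp p Y) with h1 | h1 | h1
  · right
    obtain ⟨h2, h3⟩ := slp_add hX hY h1
    rw [h] at h2 h3
    have hn : n ≠ 0 := by
      rintro rfl
      exact h2 Int.cast_zero
    refine ⟨by linarith, hn, by linarith, ?_⟩
    obtain ⟨v, hv⟩ := slp_int (p := p) hn
    exact ⟨v, by rw [← hv, h3]⟩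
  · left
    have h2 : slp p X = a := by linarith
    refine ⟨h2, fun hn => ?_⟩
    have hn' : (n : PadicAlgCl p) ≠ 0 := by exact_mod_cast hn
    have h3 : ‖X + Y‖ ≤ max ‖X‖ ‖Y‖ := IsUltrametricDist.norm_add_le_max X Y
    have h4 : ‖Y‖ = ‖X‖ := by
      rw [norm_of_slp hX, norm_of_slp hY, h1]
    rw [h4, max_self, h, norm_of_slp hX, norm_of_slp hn',
      Real.rpow_le_rpow_left_iff one_lt_p] at h3
    linarith
  · right
    obtain ⟨h2, h3⟩ := slp_add hY hX h1
    rw [add_comm, h] at h2 h3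
    have hn : n ≠ 0 := by
      rintro rfl
      exact h2 Int.cast_zero
    refine ⟨by linarith, hn, by linarith, ?_⟩
    obtain ⟨v, hv⟩ := slp_int (p := p) hn
    refine ⟨2 * a - v, ?_⟩
    push_cast
    rw [← hv, h3]
    linarith

/-- the slopes of the roots -/
lemma pattern (hN : N10s) (ha : 0 < a) {f : ℤ[X]} (hf : f ∈ newtonWeil p a 3) :
    (∀ (τ : QB →ₐ[ℚ] PadicAlgCl p) (x : QB), aeval x f = 0 →
      dv p a τ x = -1 / 2 ∨ dv p a τ x = 0 ∨ dv p a τ x = 1 / 2) ∨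
    (∀ (τ : QB →ₐ[ℚ] PadicAlgCl p) (x : QB), aeval x f = 0 →
      dv p a τ x = -1 / 6 ∨ dv p a τ x = 1 / 6) := by
  have ha' : (a : ℝ) ≠ 0 := by exact_mod_cast ha.ne'
  rcases hN p a f ha hf with h | h
  · left
    intro τ x hx
    have hy : aeval (τ x) f = 0 := aeval_hom (τ : QB →+* PadicAlgCl p) hx
    rcases h (τ x) hy with h1 | h1 | h1
    · left
      have h2 := slope_of_norm (p := p) (a := a) (D := 1) (r := 0) (y := τ x)
        (by rw [pow_one, pow_zero, h1])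
      push_cast at h2
      rw [one_mul, mul_zero] at h2
      rw [dv, h2]
      norm_num
    · right; left
      have h2 := slope_of_norm (p := p) (a := a) (D := 2) (r := 1) (y := τ x)
        (by rw [pow_one, h1])
      push_cast at h2
      rw [mul_one] at h2
      rw [dv, ← h2]
      have h3 : slp p (τ x) ≠ 0 := by
        intro h4
        rw [h4, mul_zero] at h2
        exact ha' h2.symm
      field_simp
      ring
    · right; right
      have h2 := slope_of_norm (p := p) (a := a) (D := 1) (r := 1) (y := τ x)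
        (by rw [pow_one, pow_one, h1])
      push_cast at h2
      rw [one_mul, mul_one] at h2
      rw [dv, h2, div_self ha']
      norm_num
  · right
    intro τ x hx
    have hy : aeval (τ x) f = 0 := aeval_hom (τ : QB →+* PadicAlgCl p) hx
    rcases h (τ x) hy with h1 | h1
    · left
      have h2 := slope_of_norm (p := p) (a := a) (D := 3) (r := 1) (y := τ x)
        (by rw [pow_one, h1])
      push_cast at h2
      rw [mul_one] at h2
      have h3 : slp p (τ x) = a / 3 := by linarith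
      rw [dv, h3]
      field_simp
      ring
    · right
      have h2 := slope_of_norm (p := p) (a := a) (D := 3) (r := 2) (y := τ x) h1
      push_cast at h2
      have h3 : slp p (τ x) = 2 * a / 3 := by linarith
      rw [dv, h3]
      field_simp
      ring

lemma dv_mul (ha : 0 < a) {x x' : QB} (hm : x * x' = ((p ^ a : ℕ) : QB))
    (τ : QB →ₐ[ℚ] PadicAlgCl p) : dv p a τ x' = -dv p a τ x := by
  have ha' : (a : ℝ) ≠ 0 := by exact_mod_cast ha.ne'
  have hab : τ x * τ x' = ((p ^ a : ℕ) : PadicAlgCl p) := by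
    rw [← map_mul, hm, map_natCast]
  obtain ⟨-, -, h⟩ := slp_AB hab
  have h1 : slp p (τ x') = a - slp p (τ x) := by linarith
  rw [dv, dv, h1]
  field_simp
  ring

lemma dv_neg (x : QB) (τ : QB →ₐ[ℚ] PadicAlgCl p) : dv p a τ (-x) = dv p a τ x := by
  rw [dv, dv, slp, slp, map_neg, norm_neg]

/-- the sum of the deviations of two roots of `f` whose product has an integral trace -/
lemma int_case (hN : N10s) {b : ℕ} {f : ℤ[X]} (hf : f ∈ newtonWeil p (2 * b + 1) 3)
    {x w x' w' : QB} (hx : aeval x f = 0) (hw : aeval w f = 0)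
    (hxx : x * x' = ((p ^ (2 * b + 1) : ℕ) : QB)) (hww : w * w' = ((p ^ (2 * b + 1) : ℕ) : QB))
    {n : ℤ} (h : x * w + x' * w' = (n : QB)) :
    (∀ τ : QB →ₐ[ℚ] PadicAlgCl p, dv p (2 * b + 1) τ w = -dv p (2 * b + 1) τ x) ∨
      ∀ τ : QB →ₐ[ℚ] PadicAlgCl p, dv p (2 * b + 1) τ w = dv p (2 * b + 1) τ x := by
  obtain ⟨a, haa⟩ : ∃ a, a = 2 * b + 1 := ⟨_, rfl⟩
  rw [← haa] at hf hxx hww ⊢
  have ha : 0 < a := by omega
  have ha' : (a : ℝ) ≠ 0 := by exact_mod_cast ha.ne'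
  have hpos : (0 : ℝ) < a := by exact_mod_cast ha
  have hd : ∀ τ : QB →ₐ[ℚ] PadicAlgCl p,
      (slp p (τ (x * w)) = a ∧ (n ≠ 0 → (a : ℝ) ≤ slp p (n : PadicAlgCl p))) ∨
      (slp p (τ (x * w)) ≠ a ∧ n ≠ 0 ∧ slp p (n : PadicAlgCl p) < a ∧
        ∃ v : ℤ, slp p (τ (x * w)) = v) := by
    intro τ
    have h1 : τ x * τ x' = ((p ^ a : ℕ) : PadicAlgCl p) := by
      rw [← map_mul, hxx, map_natCast]
    have h2 : τ w * τ w' = ((p ^ a : ℕ) : PadicAlgCl p) := by
      rw [← map_mul, hww, map_natCast]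
    obtain ⟨g1, g2, g3⟩ := slp_AB h1
    obtain ⟨g4, g5, g6⟩ := slp_AB h2
    refine dich (Y := τ (x' * w')) ?_ ?_ ?_ ?_
    · rw [map_mul]; exact mul_ne_zero g1 g4
    · rw [map_mul]; exact mul_ne_zero g2 g5
    · rw [← map_add, h, map_intCast]
    · rw [map_mul, map_mul, slp_mul g1 g4, slp_mul g2 g5]
      linarith
  have hsum : ∀ τ : QB →ₐ[ℚ] PadicAlgCl p,
      slp p (τ (x * w)) = a * (dv p a τ x + dv p a τ w + 1) := by
    intro τ
    have h1 : τ x * τ x' = ((p ^ a : ℕ) : PadicAlgCl p) := by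
      rw [← map_mul, hxx, map_natCast]
    have h2 : τ w * τ w' = ((p ^ a : ℕ) : PadicAlgCl p) := by
      rw [← map_mul, hww, map_natCast]
    obtain ⟨g1, g2, g3⟩ := slp_AB h1
    obtain ⟨g4, g5, g6⟩ := slp_AB h2
    rw [map_mul, slp_mul g1 g4, dv, dv]
    field_simp
    ring
  by_cases H : n ≠ 0 ∧ slp p (n : PadicAlgCl p) < a
  · right
    intro τ
    rcases hd τ with ⟨-, h2⟩ | ⟨h1, -, -, v, hv⟩
    · exact absurd (h2 H.1) (not_le.mpr H.2)
    · have h3 := hsum τ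
      have h4 : dv p a τ x + dv p a τ w ≠ 0 := by
        intro h5
        rw [h5, zero_add, mul_one] at h3
        exact h1 h3
      rcases pattern hN ha hf with hP | hP
      · have h6 : (2 : ℝ) * v = a * (2 * (dv p a τ x + dv p a τ w) + 2) := by
          rw [← hv, h3]
          ring
        have hodd : ∀ k : ℤ, (2 : ℝ) * v = a * (2 * (k : ℝ) + 1) → False := by
          intro k hk
          have h7 : 2 * v = (a : ℤ) * (2 * k + 1) := by exact_mod_cast hk
          have h8 : (a : ℤ) = 2 * b + 1 := by rw [haa]; push_cast; ring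
          rw [h8] at h7
          have h9 : (2 * (b : ℤ) + 1) * (2 * k + 1) = 2 * (2 * b * k + b + k) + 1 := by ring
          rw [h9] at h7
          omega
        rcases hP τ x hx with c1 | c1 | c1 <;> rcases hP τ w hw with c2 | c2 | c2
        · rw [c1, c2]
        · exact (hodd 0 (by rw [h6, c1, c2]; push_cast; ring)).elim
        · exact (h4 (by rw [c1, c2]; ring)).elim
        · exact (hodd 0 (by rw [h6, c1, c2]; push_cast; ring)).elim
        · rw [c1, c2]
        · exact (hodd 1 (by rw [h6, c1, c2]; push_cast; ring)).elim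
        · exact (h4 (by rw [c1, c2]; ring)).elim
        · exact (hodd 1 (by rw [h6, c1, c2]; push_cast; ring)).elim
        · rw [c1, c2]
      · rcases hP τ x hx with c1 | c1 <;> rcases hP τ w hw with c2 | c2
        · rw [c1, c2]
        · exact (h4 (by rw [c1, c2]; ring)).elim
        · exact (h4 (by rw [c1, c2]; ring)).elim
        · rw [c1, c2]
  · left
    intro τ
    rcases hd τ with ⟨h1, -⟩ | ⟨-, h2, h3, -⟩
    · have h3 := hsum τ
      rw [h1] at h3
      have h4 : dv p a τ x + dv p a τ w + 1 = 1 := by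
        apply mul_left_cancel₀ ha'
        rw [← h3, mul_one]
      linarith
    · exact absurd ⟨h2, h3⟩ H

end

/-- the exponents for a product -/
lemma key {p : ℕ} [hp : Fact p.Prime] {a : ℕ} (h3 : S3) (ha : 0 < a) {f : ℤ[X]}
    {y : Fin 1 → ℤ} {z : Fin 2 → ℤ} (hf : f = wp (p ^ a) 1 y * wp (p ^ a) 2 z)
    (hy : wp (p ^ a) 1 y ∈ weilPolys (p ^ a) 1) (hz : wp (p ^ a) 2 z ∈ weilPolys (p ^ a) 2)
    (hE : ExL (p ^ a) f) :
    ∃ e : Fin 1 ⊕ Fin 2 → ℤ, (∃ i, e i ≠ 0) ∧ RelZ (p ^ a) (lab3 (p ^ a) y z) e ∧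
      Even (∑ i, e i) ∧
      (∀ i j, i ≠ j → e i ≠ 0 → e j ≠ 0 → ¬ RelZ (p ^ a) (lab3 (p ^ a) y z)
        (Pi.single i (e i).sign + Pi.single j (e j).sign)) ∧
      ∀ i, 2 ≤ |e i| → ¬ RelZ (p ^ a) (lab3 (p ^ a) y z) (Pi.single i 1) := by
  have hq1 : 1 < p ^ a := Nat.one_lt_pow ha.ne' hp.out.one_lt
  have hq0 : p ^ a ≠ 0 := by omega
  obtain ⟨L, hL0, hLr, hLN, hLp⟩ := hE
  have hn1 : ∀ j, ‖labA (p ^ a) 1 y j‖ ^ 2 = ((p ^ a : ℕ) : ℝ) := fun j =>
    hy.2.2.2 _ ((lab_root hq0 y _).2 ⟨j, Or.inl rfl⟩)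
  have hn2 : ∀ j, ‖labA (p ^ a) 2 z j‖ ^ 2 = ((p ^ a : ℕ) : ℝ) := fun j =>
    hz.2.2.2 _ ((lab_root hq0 z _).2 ⟨j, Or.inl rfl⟩)
  have hpos : (0 : ℝ) < ((p ^ a : ℕ) : ℝ) := by exact_mod_cast Nat.pos_of_ne_zero hq0
  have hne : ∀ {w : ℂ}, ‖w‖ ^ 2 = ((p ^ a : ℕ) : ℝ) → w ≠ 0 := by
    rintro w hw rfl
    rw [norm_zero, zero_pow two_ne_zero] at hw
    exact hpos.ne hw
  have hB : ∀ {g : ℕ} (x : Fin g → ℤ) (j : Fin g), labA (p ^ a) g x j ≠ 0 →
      labB (p ^ a) g x j = ((p ^ a : ℕ) : ℂ) / labA (p ^ a) g x j := by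
    intro g x j h
    rw [eq_div_iff h, mul_comm]
    exact lab_mul (p ^ a) g x j
  exact h3 (Fin 1 ⊕ Fin 2) (p ^ a) hq1 (lab3 (p ^ a) y z)
    (by
      unfold lab3
      rintro (j | j)
      exacts [hn1 j, hn2 j]) L hL0 (by
      intro w hw
      have h1 := hLr w hw
      rw [hf, map_mul, mul_eq_zero] at h1
      rcases h1 with h1 | h1
      · obtain ⟨j, hj⟩ := (lab_root hq0 y w).1 h1
        refine ⟨Sum.inl j, ?_⟩
        unfold lab3
        rw [Sum.elim_inl, ← hB y j (hne (hn1 j))]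
        exact hj
      · obtain ⟨j, hj⟩ := (lab_root hq0 z w).1 h1
        refine ⟨Sum.inr j, ?_⟩
        unfold lab3
        rw [Sum.elim_inr, ← hB z j (hne (hn2 j))]
        exact hj) hLN hLp

lemma hp2 (q : ℕ) (z : Fin 2 → ℤ) :
    (z 1 : ℂ) = -(labA q 2 z 0 + labB q 2 z 0 + (labA q 2 z 1 + labB q 2 z 1)) ∧
    (z 0 : ℂ) = (labA q 2 z 0 + labB q 2 z 0) * (labA q 2 z 1 + labB q 2 z 1) := by
  have h1 := lab_hp q 2 z
  rw [hp_eq_map, map_mkPoly] at h1
  rw [Fin.prod_univ_two] at h1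
  have h2 : mkPoly 2 (fun i => (algebraMap ℤ ℂ) (z i)) =
      X ^ 2 + C (z 1 : ℂ) * X + C (z 0 : ℂ) := by
    unfold mkPoly
    rw [Fin.sum_univ_two]
    simp
    ring
  have h3 : X ^ 2 + C (z 1 : ℂ) * X + C (z 0 : ℂ) =
      (X - C (labA q 2 z 0 + labB q 2 z 0)) * (X - C (labA q 2 z 1 + labB q 2 z 1)) :=
    h2.symm.trans h1
  have e0 := congrArg (eval 0) h3
  have e1 := congrArg (eval 1) h3
  simp only [eval_add, eval_mul, eval_sub, eval_pow, eval_X, eval_C] at e0 e1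
  constructor
  · linear_combination e1 - e0
  · linear_combination e0

/-- `A₁ = -A₀` or `B₁ = -A₀` if the sum of the roots is zero -/
lemma zero_case {q : ℕ} {z : Fin 2 → ℤ} (hz : z 1 = 0) :
    labA q 2 z 1 = -labA q 2 z 0 ∨ labB q 2 z 1 = -labA q 2 z 0 := by
  have h1 := (hp2 q z).1
  rw [hz, Int.cast_zero] at h1
  have h2 := lab_mul q 2 z 0
  have h3 := lab_mul q 2 z 1
  have h4 : (labA q 2 z 1 + labA q 2 z 0) * (labB q 2 z 1 + labA q 2 z 0) = 0 := by
    linear_combination labA q 2 z 0 * h1 + h3 - h2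
  rcases mul_eq_zero.mp h4 with h5 | h5
  · exact Or.inl (eq_neg_of_add_eq_zero_left h5)
  · exact Or.inr (eq_neg_of_add_eq_zero_left h5)

theorem n10b (hs : N10s) (_h1 : R1) (h2 : R2) (h3 : S3) (h7 : B7a) : N10b := by
  classical
  intro p hp b f hf hyz hE
  obtain ⟨y, z, hfyz, hy, hz, hirr⟩ := hyz
  obtain ⟨a, haa⟩ : ∃ a, a = 2 * b + 1 := ⟨_, rfl⟩
  have hf' := hf
  rw [← haa] at hf' hE hfyz hy hz
  have ha : 0 < a := by omega
  have ha' : (a : ℝ) ≠ 0 := by exact_mod_cast ha.ne'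
  obtain ⟨e, he0, heR, heP, heD, he2⟩ := key h3 ha hfyz hy hz hE
  obtain ⟨m, hmk⟩ := h7 2
  have hq1 : 1 < p ^ a := Nat.one_lt_pow ha.ne' hp.out.one_lt
  have hq0 : p ^ a ≠ 0 := by omega
  obtain ⟨β, hβ, hcase⟩ := h2 (p ^ a) m y z e hq1 hmk hy hz hirr he0 heR heP heD he2
  have hfm : f.Monic := hf.1.1
  -- the lifts
  have hry : ∀ w : ℂ, aeval w (wp (p ^ a) 1 y) = 0 → aeval w f = 0 := by
    intro w hw
    rw [hfyz, map_mul, hw, zero_mul]
  have hrz : ∀ w : ℂ, aeval w (wp (p ^ a) 2 z) = 0 → aeval w f = 0 := by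
    intro w hw
    rw [hfyz, map_mul, hw, mul_zero]
  have hrA : ∀ i, aeval (lab3 (p ^ a) y z i) f = 0 := by
    unfold lab3
    rintro (i | i)
    · exact hry _ ((lab_root hq0 y _).2 ⟨i, Or.inl rfl⟩)
    · exact hrz _ ((lab_root hq0 z _).2 ⟨i, Or.inl rfl⟩)
  have hrB : ∀ i, aeval ((Sum.elim (labB (p ^ a) 1 y) (labB (p ^ a) 2 z) :
      Fin 1 ⊕ Fin 2 → ℂ) i) f = 0 := by
    rintro (i | i)
    · exact hry _ ((lab_root hq0 y _).2 ⟨i, Or.inr rfl⟩)
    · exact hrz _ ((lab_root hq0 z _).2 ⟨i, Or.inr rfl⟩)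
  obtain ⟨A, hA⟩ : ∃ A : Fin 1 ⊕ Fin 2 → QB, ∀ i, (A i : ℂ) = lab3 (p ^ a) y z i :=
    ⟨fun i => ⟨lab3 (p ^ a) y z i, mem_qb hfm (hrA i)⟩, fun _ => rfl⟩
  obtain ⟨B, hB⟩ : ∃ B : Fin 1 ⊕ Fin 2 → QB, ∀ i, (B i : ℂ) =
      (Sum.elim (labB (p ^ a) 1 y) (labB (p ^ a) 2 z) : Fin 1 ⊕ Fin 2 → ℂ) i :=
    ⟨fun i => ⟨_, mem_qb hfm (hrB i)⟩, fun _ => rfl⟩
  have hAr : ∀ i, aeval (A i) f = 0 := fun i => lift_root (by rw [hA]; exact hrA i)
  have hBr : ∀ i, aeval (B i) f = 0 := fun i => lift_root (by rw [hB]; exact hrB i)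
  have hAB : ∀ i, A i * B i = ((p ^ a : ℕ) : QB) := by
    intro i
    apply (algebraMap QB ℂ).injective
    rw [map_mul, map_natCast]
    have h4 : (A i : ℂ) * (B i : ℂ) = ((p ^ a : ℕ) : ℂ) := by
      rw [hA, hB]
      unfold lab3
      rcases i with i | i
      · exact lab_mul _ _ _ _
      · exact lab_mul _ _ _ _
    exact h4
  have hAf : (fun i => (A i : ℂ)) = lab3 (p ^ a) y z := funext hA
  have hiff : ∀ e' : Fin 1 ⊕ Fin 2 → ℤ, RelZ (p ^ a) (lab3 (p ^ a) y z) e' ↔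
      ∀ τ : QB →ₐ[ℚ] PadicAlgCl p, ∑ i, (e' i : ℝ) * dv p a τ (A i) = 0 := by
    intro e'
    rw [← hAf]
    exact rel_iff ha hf'.1 hAr hBr hAB e'
  obtain ⟨A0, hA0⟩ : ∃ A0, A0 = A (Sum.inl 0) := ⟨_, rfl⟩
  obtain ⟨A1, hA1⟩ : ∃ A1, A1 = A (Sum.inr 0) := ⟨_, rfl⟩
  obtain ⟨A2, hA2⟩ : ∃ A2, A2 = A (Sum.inr 1) := ⟨_, rfl⟩
  have hsum : ∀ (e' : Fin 1 ⊕ Fin 2 → ℤ) (τ : QB →ₐ[ℚ] PadicAlgCl p),
      ∑ i, (e' i : ℝ) * dv p a τ (A i) = e' (Sum.inl 0) * dv p a τ A0 +
        e' (Sum.inr 0) * dv p a τ A1 + e' (Sum.inr 1) * dv p a τ A2 := by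
    intro e' τ
    rw [Fintype.sum_sum_type, Fin.sum_univ_one, Fin.sum_univ_two, hA0, hA1, hA2]
    ring
  -- the relation between `z1` and `z2`
  have hkey : ∃ ε : ℤ, (ε = 1 ∨ ε = -1) ∧ ∀ τ : QB →ₐ[ℚ] PadicAlgCl p,
      dv p a τ A2 = ε * dv p a τ A1 := by
    have hd2 : ∀ τ : QB →ₐ[ℚ] PadicAlgCl p, dv p a τ (B (Sum.inr 1)) = -dv p a τ A2 := by
      intro τ
      rw [hA2]
      exact dv_mul ha (hAB _) τ
    have hgen : ∀ (W W' : QB), aeval W f = 0 → W * W' = ((p ^ a : ℕ) : QB) → (W : ℂ) = β →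
        ((∀ τ : QB →ₐ[ℚ] PadicAlgCl p, dv p a τ W = -dv p a τ A1) ∨
          (∀ τ : QB →ₐ[ℚ] PadicAlgCl p, dv p a τ W = dv p a τ A1)) ∨
        ∃ k l : ℤ, z 1 = 0 ∧ k ≠ 0 ∧ l = l := by
      intro W W' hW hWW hWβ
      have hA1c : (A1 : ℂ) = labA (p ^ a) 2 z 0 := by
        rw [hA1, hA]
        rfl
      have hne1 : (A1 : ℂ) ≠ 0 := by
        intro h4
        have h5 := lab_mul (p ^ a) 2 z 0
        rw [← hA1c, h4, zero_mul] at h5
        have h6 : ((p ^ a : ℕ) : ℂ) ≠ 0 := by exact_mod_cast hq0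
        exact h6 h5.symm
      have hWWc : (W : ℂ) * (W' : ℂ) = ((p ^ a : ℕ) : ℂ) := by
        have h5 := congrArg (algebraMap QB ℂ) hWW
        rw [map_mul, map_natCast] at h5
        exact h5
      have hneβ : β ≠ 0 := by
        intro h4
        rw [hWβ, h4, zero_mul] at hWWc
        have h6 : ((p ^ a : ℕ) : ℂ) ≠ 0 := by exact_mod_cast hq0
        exact h6 hWWc.symm
      have hABc : (A1 : ℂ) * (B (Sum.inr 0) : ℂ) = ((p ^ a : ℕ) : ℂ) := by
        have h5 := congrArg (algebraMap QB ℂ) (hAB (Sum.inr 0))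
        rw [map_mul, map_natCast] at h5
        rw [hA1]
        exact h5
      rcases hcase with ⟨n, k, l, hb, hbe, hk, hrel⟩ | ⟨ζ, hζ, hζ1, hζe⟩ | ⟨hz10, k, l, hk, hrel⟩
      · left
        have h5 : A1 * W + B (Sum.inr 0) * W' = (n : QB) := by
          apply (algebraMap QB ℂ).injective
          rw [map_add, map_mul, map_mul, map_intCast]
          have h6 : (A1 : ℂ) * (W : ℂ) + (B (Sum.inr 0) : ℂ) * (W' : ℂ) = n := by
            rw [← hbe, ← hA1c, ← hWβ]
            congr 1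
            rw [eq_div_iff (mul_ne_zero hne1 (by rw [hWβ]; exact hneβ))]
            have h7 : (B (Sum.inr 0) : ℂ) * (W' : ℂ) * ((A1 : ℂ) * (W : ℂ)) =
                ((A1 : ℂ) * (B (Sum.inr 0) : ℂ)) * ((W : ℂ) * (W' : ℂ)) := by ring
            rw [h7, hABc, hWWc, sq]
          exact h6
        have h6 := int_case (b := b) hs hf (x := A1) (w := W) (x' := B (Sum.inr 0)) (w' := W')
          (by rw [hA1]; exact hAr _) hW (by rw [hA1, ← haa]; exact hAB _)
          (by rw [← haa]; exact hWW)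
          h5
        rw [← haa] at h6
        exact h6
      · left; left
        intro τ
        have h5 : (A1 * W) ^ m = (((p ^ a : ℕ) : QB)) ^ m := by
          apply (algebraMap QB ℂ).injective
          rw [map_pow, map_pow, map_mul, map_natCast]
          have h6 : ((A1 : ℂ) * (W : ℂ)) ^ m = (((p ^ a : ℕ) : ℂ)) ^ m := by
            rw [hA1c, hWβ, hζe, mul_pow, hζ, mul_one]
          exact h6
        have h6 := congrArg (fun t => slp p (τ t)) h5
        have h7 : τ A1 * τ (B (Sum.inr 0)) = ((p ^ a : ℕ) : PadicAlgCl p) := by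
          rw [← map_mul, hA1, hAB, map_natCast]
        have h8 : τ W * τ W' = ((p ^ a : ℕ) : PadicAlgCl p) := by
          rw [← map_mul, hWW, map_natCast]
        obtain ⟨g1, -, -⟩ := slp_AB h7
        obtain ⟨g2, -, -⟩ := slp_AB h8
        simp only [map_pow, map_mul, map_natCast, slp_pow] at h6
        rw [slp_mul g1 g2] at h6
        have hm0 : (m : ℝ) ≠ 0 := by exact_mod_cast hmk.1.ne'
        have h9 := mul_left_cancel₀ hm0 h6
        have h10 : slp p (((p ^ a : ℕ) : PadicAlgCl p)) = a := by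
          push_cast
          rw [slp_pow, slp_p, mul_one]
        rw [h10] at h9
        have h11 : slp p (τ W) = a - slp p (τ A1) := by linarith
        rw [dv, dv, h11]
        field_simp
        ring
      · right
        exact ⟨k, l, hz10, hk, rfl⟩
    have hzero : z 1 = 0 → ∃ ε : ℤ, (ε = 1 ∨ ε = -1) ∧ ∀ τ : QB →ₐ[ℚ] PadicAlgCl p,
        dv p a τ A2 = ε * dv p a τ A1 := by
      intro hz10
      rcases zero_case (q := p ^ a) hz10 with h5 | h5
      · refine ⟨1, Or.inl rfl, fun τ => ?_⟩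
        have h6 : A2 = -A1 := by
          apply (algebraMap QB ℂ).injective
          rw [map_neg]
          have h7 : (A2 : ℂ) = -(A1 : ℂ) := by
            rw [hA2, hA1, hA, hA]
            exact h5
          exact h7
        rw [h6, dv_neg, Int.cast_one, one_mul]
      · refine ⟨-1, Or.inr rfl, fun τ => ?_⟩
        have h6 : B (Sum.inr 1) = -A1 := by
          apply (algebraMap QB ℂ).injective
          rw [map_neg]
          have h7 : (B (Sum.inr 1) : ℂ) = -(A1 : ℂ) := by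
            rw [hB, hA1, hA]
            exact h5
          exact h7
        have h8 := hd2 τ
        rw [h6, dv_neg] at h8
        push_cast
        linarith
    rcases hβ with hβ | hβ
    · have h5 := hgen A2 (B (Sum.inr 1)) (by rw [hA2]; exact hAr _) (by rw [hA2]; exact hAB _)
        (by rw [hA2, hA, hβ]; rfl)
      rcases h5 with (h5 | h5) | ⟨-, -, h5, -, -⟩
      · refine ⟨-1, Or.inr rfl, fun τ => ?_⟩
        rw [h5]
        push_cast
        ring
      · refine ⟨1, Or.inl rfl, fun τ => ?_⟩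
        rw [h5, Int.cast_one, one_mul]
      · exact hzero h5
    · have hBβ : (B (Sum.inr 1) : ℂ) = β := by
        rw [hβ, hB]
        have h6 := lab_mul (p ^ a) 2 z 1
        have h7 : ((p ^ a : ℕ) : ℂ) ≠ 0 := by exact_mod_cast hq0
        have h8 : labA (p ^ a) 2 z 1 ≠ 0 := by
          intro h9
          rw [h9, zero_mul] at h6
          exact h7 h6.symm
        rw [eq_div_iff h8, mul_comm]
        exact h6
      have h5 := hgen (B (Sum.inr 1)) A2 (hBr _) (by rw [hA2, mul_comm]; exact hAB _) hBβ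
      rcases h5 with (h5 | h5) | ⟨-, -, h5, -, -⟩
      · refine ⟨1, Or.inl rfl, fun τ => ?_⟩
        have h6 := h5 τ
        rw [hd2] at h6
        rw [Int.cast_one, one_mul]
        linarith
      · refine ⟨-1, Or.inr rfl, fun τ => ?_⟩
        have h6 := h5 τ
        rw [hd2] at h6
        push_cast
        linarith
      · exact hzero h5
  obtain ⟨ε, hε, hε2⟩ := hkey
  have hR := (hiff e).mp heR
  have hpair : ∀ (i j : Fin 1 ⊕ Fin 2), i ≠ j → ∀ (s t : ℤ) (τ : QB →ₐ[ℚ] PadicAlgCl p),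
      ∑ l, (((Pi.single i s + Pi.single j t : Fin 1 ⊕ Fin 2 → ℤ) l : ℤ) : ℝ) * dv p a τ (A l) =
        s * dv p a τ (A i) + t * dv p a τ (A j) := by
    intro i j hij s t τ
    have h5 : ∀ l, (((Pi.single i s + Pi.single j t : Fin 1 ⊕ Fin 2 → ℤ) l : ℤ) : ℝ) *
        dv p a τ (A l) = (if l = i then (s : ℝ) * dv p a τ (A l) else 0) +
          if l = j then (t : ℝ) * dv p a τ (A l) else 0 := by
      intro l
      rw [Pi.add_apply, Pi.single_apply, Pi.single_apply]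
      split_ifs <;> push_cast <;> ring
    rw [Finset.sum_congr rfl fun l _ => h5 l, Finset.sum_add_distrib,
      Finset.sum_ite_eq' Finset.univ i, Finset.sum_ite_eq' Finset.univ j]
    simp
  have hsing : ∀ (i : Fin 1 ⊕ Fin 2) (τ : QB →ₐ[ℚ] PadicAlgCl p),
      ∑ l, (((Pi.single i 1 : Fin 1 ⊕ Fin 2 → ℤ) l : ℤ) : ℝ) * dv p a τ (A l) =
        dv p a τ (A i) := by
    intro i τ
    have h5 : ∀ l, (((Pi.single i 1 : Fin 1 ⊕ Fin 2 → ℤ) l : ℤ) : ℝ) *
        dv p a τ (A l) = if l = i then dv p a τ (A l) else 0 := by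
      intro l
      rw [Pi.single_apply]
      split_ifs <;> push_cast <;> ring
    rw [Finset.sum_congr rfl fun l _ => h5 l, Finset.sum_ite_eq' Finset.univ i]
    simp
  have hD : ∀ i j : Fin 1 ⊕ Fin 2, i ≠ j → e i ≠ 0 → e j ≠ 0 →
      ¬ ∀ τ : QB →ₐ[ℚ] PadicAlgCl p,
        ((e i).sign : ℝ) * dv p a τ (A i) + (e j).sign * dv p a τ (A j) = 0 := by
    intro i j hij hi hj h5
    apply heD i j hij hi hj
    rw [hiff]
    intro τ
    rw [hpair i j hij]
    exact h5 τ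
  have hS : ∀ i : Fin 1 ⊕ Fin 2, 2 ≤ |e i| → ¬ ∀ τ : QB →ₐ[ℚ] PadicAlgCl p,
      dv p a τ (A i) = 0 := by
    intro i hi h5
    apply he2 i hi
    rw [hiff]
    intro τ
    rw [hsing]
    exact h5 τ
  refine main_claim (T := QB →ₐ[ℚ] PadicAlgCl p) (fun τ => dv p a τ A0) (fun τ => dv p a τ A1)
    (fun τ => dv p a τ A2) (e (Sum.inl 0)) (e (Sum.inr 0)) (e (Sum.inr 1)) ?_ ε hε hε2 ?_ ?_ ?_
    ?_ ?_ ?_ ?_ ?_ ?_
  · intro τ g0 g1
    have r0 : aeval A0 f = 0 := by rw [hA0]; exact hAr _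
    have r1 : aeval A1 f = 0 := by rw [hA1]; exact hAr _
    have hhalf : ∀ x : ℝ, (x = -1 / 2 ∨ x = 0 ∨ x = 1 / 2) → x ≠ 0 → |x| = 1 / 2 := by
      intro x hx hx0
      rcases hx with rfl | rfl | rfl
      · rw [abs_of_neg (by norm_num)]; norm_num
      · exact absurd rfl hx0
      · rw [abs_of_pos (by norm_num)]
    have hsix : ∀ x : ℝ, (x = -1 / 6 ∨ x = 1 / 6) → |x| = 1 / 6 := by
      intro x hx
      rcases hx with rfl | rfl
      · rw [abs_of_neg (by norm_num)]; norm_num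
      · rw [abs_of_pos (by norm_num)]
    rcases pattern hs ha hf' with hP | hP
    · rw [hhalf _ (hP τ A0 r0) g0, hhalf _ (hP τ A1 r1) g1]
    · rw [hsix _ (hP τ A0 r0), hsix _ (hP τ A1 r1)]
  · obtain ⟨i, hi⟩ := he0
    rcases i with i | i
    · left
      rwa [Subsingleton.elim i 0] at hi
    · fin_cases i
      · exact Or.inr (Or.inl hi)
      · exact Or.inr (Or.inr hi)
  · rw [Fintype.sum_sum_type, Fin.sum_univ_one, Fin.sum_univ_two, ← add_assoc] at heP
    exact heP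
  · intro τ
    have h5 := hR τ
    rw [hsum] at h5
    exact h5
  · intro g0 g1
    rw [hA0, hA1]
    exact hD _ _ (by simp) g0 g1
  · intro g0 g1
    rw [hA0, hA2]
    exact hD _ _ (by simp) g0 g1
  · intro g0 g1
    rw [hA1, hA2]
    exact hD _ _ (by simp) g0 g1
  · rw [hA0]
    exact hS _
  · rw [hA1]
    exact hS _
  · rw [hA2]
    exact hS _

end Pool.Agent.H308.TFn10b
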