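import Pool.Agent.H857.TF.Core3

/-!
# N3: a consequence of the integrality of the Newton polygon
-/

set_option autoImplicit false
set_option linter.unusedSectionVars false

namespace Pool.Agent.H895.TFN3

open Module Polynomial Pool.Agent.W521.Descent Pool.Agent.W521.Density Pool.Agent.W521.Count
  Pool.Agent.X297.UB Pool.Agent.H857.PB Pool.Agent.H857.PA Pool.Agent.H857.HK Pool.Agent.H857.EF
  Pool.Agent.H857.WT Pool.Agent.H857.SG Pool.Agent.H857.PD Pool.Agent.H857.TF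

section gen

variable {K : Type*} [NormedField K] [IsUltrametricDist K]

theorem esymm_zero' (s : Multiset K) : s.esymm 0 = 1 := by
  simp [Multiset.esymm]

theorem esymm_cons' (a : K) (s : Multiset K) (k : ℕ) :
    (a ::ₘ s).esymm (k + 1) = s.esymm (k + 1) + a * s.esymm k := by
  unfold Multiset.esymm
  rw [Multiset.powersetCard_cons, Multiset.map_add, Multiset.sum_add, Multiset.map_map,
    ← Multiset.sum_map_mul_left]
  simp

theorem esymm_empty (k : ℕ) : (0 : Multiset K).esymm (k + 1) = 0 := by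
  rw [Multiset.esymm, Multiset.powersetCard_zero_right, Multiset.map_zero, Multiset.sum_zero]

open scoped Classical in
/-- The elementary symmetric functions of numbers of absolute value at most `r`. -/
theorem esymm_norm {r : ℝ} (hr : 0 < r) (s : Multiset K) (hs : ∀ y ∈ s, ‖y‖ ≤ r) :
    (∀ k, ‖s.esymm k‖ ≤ r ^ k) ∧
    (∀ k, s.countP (fun y => ‖y‖ = r) < k → ‖s.esymm k‖ < r ^ k) ∧
    ‖s.esymm (s.countP fun y => ‖y‖ = r)‖ = r ^ (s.countP fun y => ‖y‖ = r) := by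
  induction s using Multiset.induction_on with
  | empty =>
    refine ⟨fun k => ?_, fun k hk => ?_, ?_⟩
    · rcases k with _ | k
      · rw [esymm_zero', NormOneClass.norm_one, pow_zero]
      · rw [esymm_empty, norm_zero]
        positivity
    · rcases k with _ | k
      · exact absurd hk (Nat.not_lt_zero _)
      · rw [esymm_empty, norm_zero]
        positivity
    · rw [Multiset.countP_zero, esymm_zero', NormOneClass.norm_one, pow_zero]
  | cons a s ih =>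
    obtain ⟨h1, h2, h3⟩ := ih fun y hy => hs y (Multiset.mem_cons_of_mem hy)
    have ha : ‖a‖ ≤ r := hs a (Multiset.mem_cons_self a s)
    have hmul : ∀ k, ‖a * s.esymm k‖ ≤ r ^ (k + 1) := by
      intro k
      rw [norm_mul, pow_succ, mul_comm (r ^ k)]
      exact mul_le_mul ha (h1 k) (norm_nonneg _) hr.le
    have hle : ∀ k, ‖(a ::ₘ s).esymm k‖ ≤ r ^ k := by
      intro k
      rcases k with _ | k
      · rw [esymm_zero', NormOneClass.norm_one, pow_zero]
      · rw [esymm_cons']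
        exact (IsUltrametricDist.norm_add_le_max _ _).trans (max_le (h1 _) (hmul k))
    refine ⟨hle, ?_⟩
    by_cases har : ‖a‖ = r
    · rw [Multiset.countP_cons_of_pos s har]
      constructor
      · intro k hk
        rcases k with _ | k
        · exact absurd hk (Nat.not_lt_zero _)
        · rw [esymm_cons']
          refine lt_of_le_of_lt (IsUltrametricDist.norm_add_le_max _ _) (max_lt ?_ ?_)
          · exact h2 _ (by omega)
          · rw [norm_mul, har, pow_succ, mul_comm (r ^ k)]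
            exact mul_lt_mul_of_pos_left (h2 k (by omega)) hr
      · rw [esymm_cons']
        have e1 : ‖a * s.esymm (s.countP fun y => ‖y‖ = r)‖ =
            r ^ ((s.countP fun y => ‖y‖ = r) + 1) := by
          rw [norm_mul, har, h3, pow_succ, mul_comm]
        have e2 := h2 ((s.countP fun y => ‖y‖ = r) + 1) (Nat.lt_succ_self _)
        have e3 : ‖s.esymm ((s.countP fun y => ‖y‖ = r) + 1)‖ ≠
            ‖a * s.esymm (s.countP fun y => ‖y‖ = r)‖ := by
          rw [e1]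
          exact e2.ne
        rw [IsUltrametricDist.norm_add_eq_max_of_norm_ne_norm e3, e1]
        exact max_eq_right e2.le
    · have har' : ‖a‖ < r := lt_of_le_of_ne ha har
      have hmul' : ∀ k, ‖a * s.esymm k‖ < r ^ (k + 1) := by
        intro k
        rw [norm_mul, pow_succ, mul_comm (r ^ k)]
        exact mul_lt_mul_of_lt_of_le_of_nonneg_of_pos har' (h1 k) (norm_nonneg _)
          (pow_pos hr k)
      rw [Multiset.countP_cons_of_neg s har]
      constructor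
      · intro k hk
        rcases k with _ | k
        · exact absurd hk (Nat.not_lt_zero _)
        · rw [esymm_cons']
          exact lt_of_le_of_lt (IsUltrametricDist.norm_add_le_max _ _)
            (max_lt (h2 _ hk) (hmul' k))
      · rcases hm : (s.countP fun y => ‖y‖ = r) with _ | m
        · rw [esymm_zero', NormOneClass.norm_one, pow_zero]
        · rw [esymm_cons']
          rw [hm] at h3
          have e3 : ‖s.esymm (m + 1)‖ ≠ ‖a * s.esymm m‖ := by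
            rw [h3]
            exact (hmul' m).ne'
          rw [IsUltrametricDist.norm_add_eq_max_of_norm_ne_norm e3, h3]
          exact max_eq_left (hmul' m).le

open scoped Classical in
/-- The Newton polygon with one slope: if `|e_2| = r ^ 2` and `|e_k| ≤ r ^ k` for all `k`, with
strict inequality for `k ≥ 3`, then there is a number of absolute value `r` and there are at most
two. -/
theorem newton {r : ℝ} (hr : 0 < r) (s : Multiset K) (h1 : ∀ k, ‖s.esymm k‖ ≤ r ^ k)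
    (h2 : ‖s.esymm 2‖ = r ^ 2) (h3 : ∀ k, 3 ≤ k → ‖s.esymm k‖ < r ^ k) :
    (∃ y ∈ s, ‖y‖ = r) ∧ s.countP (fun y => ‖y‖ = r) ≤ 2 := by
  have hne : s.toFinset.Nonempty := by
    rw [Finset.nonempty_iff_ne_empty]
    intro h0
    rw [Multiset.toFinset_eq_empty] at h0
    rw [h0, esymm_empty, norm_zero] at h2
    exact absurd h2 (by positivity)
  obtain ⟨y, hy, hmax⟩ := s.toFinset.exists_max_image (fun y => ‖y‖) hne
  have hys : y ∈ s := Multiset.mem_toFinset.1 hy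
  have hmax' : ∀ z ∈ s, ‖z‖ ≤ ‖y‖ := fun z hz => hmax z (Multiset.mem_toFinset.2 hz)
  have hyr : r ≤ ‖y‖ := by
    by_contra hcon
    push Not at hcon
    have h4 := (esymm_norm hr s fun z hz => (hmax' z hz).trans hcon.le).2.1 2 (by
      rw [Multiset.countP_eq_zero.2]
      · norm_num
      · intro z hz hzr
        have := hmax' z hz
        linarith)
    linarith
  have hy0 : 0 < ‖y‖ := lt_of_lt_of_le hr hyr
  have hm1 : 0 < s.countP fun z => ‖z‖ = ‖y‖ := Multiset.countP_pos.2 ⟨y, hys, rfl⟩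
  have hyr2 : ‖y‖ = r := by
    by_contra hcon
    have hlt : r < ‖y‖ := lt_of_le_of_ne hyr (Ne.symm hcon)
    have h4 := (esymm_norm hy0 s hmax').2.2
    have h5 := h1 (s.countP fun z => ‖z‖ = ‖y‖)
    have h6 := pow_lt_pow_left₀ hlt hr.le hm1.ne'
    linarith
  refine ⟨⟨y, hys, hyr2⟩, ?_⟩
  by_contra hcon
  push Not at hcon
  rw [hyr2] at hmax'
  have h4 := (esymm_norm hr s hmax').2.2
  have h5 := h3 _ hcon
  linarith

end gen

variable {p : ℕ} [hp : Fact p.Prime]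

theorem monic_G (c q A B n : ℤ) : (G c q A B n).Monic := by
  unfold G
  monicity!

theorem natDegree_G (c q A B n : ℤ) : (G c q A B n).natDegree = 6 := by
  unfold G
  compute_degree!

theorem c0 (c q A B n : ℤ) : (G c q A B n).coeff 0 = (c ^ 2 * q) ^ 3 := by
  unfold G
  simp only [coeff_add, coeff_C_mul, coeff_X_pow, coeff_C, coeff_X]
  norm_num
theorem c1 (c q A B n : ℤ) : (G c q A B n).coeff 1 = (c ^ 2 * q) ^ 2 * A := by
  unfold G
  simp only [coeff_add, coeff_C_mul, coeff_X_pow, coeff_C, coeff_X]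
  norm_num
theorem c2 (c q A B n : ℤ) : (G c q A B n).coeff 2 = c ^ 2 * q * (n + c * q * B) := by
  unfold G
  simp only [coeff_add, coeff_C_mul, coeff_X_pow, coeff_C, coeff_X]
  norm_num
theorem c3 (c q A B n : ℤ) : (G c q A B n).coeff 3 = c * q * A * B := by
  unfold G
  simp only [coeff_add, coeff_C_mul, coeff_X_pow, coeff_C, coeff_X]
  norm_num
theorem c4 (c q A B n : ℤ) : (G c q A B n).coeff 4 = n + c * q * B := by
  unfold G
  simp only [coeff_add, coeff_C_mul, coeff_X_pow, coeff_C, coeff_X]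
  norm_num
theorem c5 (c q A B n : ℤ) : (G c q A B n).coeff 5 = A := by
  unfold G
  simp only [coeff_add, coeff_C_mul, coeff_X_pow, coeff_C, coeff_X]
  norm_num

theorem norm_int' (n : ℤ) : ‖(n : PadicAlgCl p)‖ = ‖(n : ℚ_[p])‖ := by
  have h4 : (n : PadicAlgCl p) = algebraMap ℚ_[p] (PadicAlgCl p) (n : ℚ_[p]) := by
    rw [map_intCast]
  rw [h4, PadicAlgCl.norm_extends]

/-- the norm of a sum of a square and `p` times a square -/
theorem norm_sum (hp2 : p ≠ 2) (A B n : ℤ) (h : 4 * n = A ^ 2 + p * B ^ 2) :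
    ‖(A : ℚ_[p])‖ ^ 2 ≤ ‖(n : ℚ_[p])‖ ∧ (p : ℝ)⁻¹ * ‖(B : ℚ_[p])‖ ^ 2 ≤ ‖(n : ℚ_[p])‖ := by
  have h4 : ‖(4 : ℚ_[p])‖ = 1 := by
    have h5 : ¬ ‖((4 : ℤ) : ℚ_[p])‖ < 1 := by
      rw [Padic.norm_intCast_lt_one_iff]
      intro h6
      have h7 : p ∣ 4 := by exact_mod_cast h6
      have h8 : p ∣ 2 := (Nat.Prime.dvd_of_dvd_pow hp.out (show p ∣ 2 ^ 2 from h7))
      exact hp2 ((Nat.prime_dvd_prime_iff_eq hp.out Nat.prime_two).1 h8)
    have h6 := Padic.norm_int_le_one (p := p) 4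
    have h7 : ‖((4 : ℤ) : ℚ_[p])‖ = 1 := le_antisymm h6 (not_lt.1 h5)
    exact_mod_cast h7
  have hn : ‖(n : ℚ_[p])‖ = ‖(A : ℚ_[p]) ^ 2 + p * (B : ℚ_[p]) ^ 2‖ := by
    have h5 : (4 : ℚ_[p]) * n = (A : ℚ_[p]) ^ 2 + p * (B : ℚ_[p]) ^ 2 := by exact_mod_cast h
    rw [← h5, norm_mul, h4, one_mul]
  have e1 : ‖(A : ℚ_[p]) ^ 2‖ = ‖(A : ℚ_[p])‖ ^ 2 := norm_pow _ _
  have e2 : ‖(p : ℚ_[p]) * (B : ℚ_[p]) ^ 2‖ = (p : ℝ)⁻¹ * ‖(B : ℚ_[p])‖ ^ 2 := by
    rw [norm_mul, norm_pow, Padic.norm_p]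
  by_cases hB : (B : ℚ_[p]) = 0
  · rw [hB, norm_zero]
    rw [hB] at hn
    have h6 : ‖(n : ℚ_[p])‖ = ‖(A : ℚ_[p])‖ ^ 2 := by
      rw [hn, ← e1]
      congr 1
      ring
    rw [h6]
    refine ⟨le_rfl, ?_⟩
    have := norm_nonneg (A : ℚ_[p])
    have h7 : (p : ℝ)⁻¹ * 0 ^ 2 = 0 := by ring
    rw [h7]
    positivity
  by_cases hA : (A : ℚ_[p]) = 0
  · rw [hA, norm_zero]
    rw [hA] at hn
    have h6 : ‖(n : ℚ_[p])‖ = (p : ℝ)⁻¹ * ‖(B : ℚ_[p])‖ ^ 2 := by
      rw [hn, ← e2]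
      congr 1
      ring
    rw [← h6]
    refine ⟨?_, le_rfl⟩
    have := norm_nonneg (n : ℚ_[p])
    have h7 : (0 : ℝ) ^ 2 = 0 := by ring
    rw [h7]
    exact this
  have hne : ‖(A : ℚ_[p]) ^ 2‖ ≠ ‖(p : ℚ_[p]) * (B : ℚ_[p]) ^ 2‖ := by
    rw [e1, e2, Padic.norm_eq_zpow_neg_valuation hA, Padic.norm_eq_zpow_neg_valuation hB]
    have hp0 : (0 : ℝ) < p := by exact_mod_cast hp.out.pos
    have hp1 : (1 : ℝ) < p := by exact_mod_cast hp.out.one_lt
    rw [← zpow_natCast, ← zpow_natCast, ← zpow_mul, ← zpow_mul, ← zpow_neg_one,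
      ← zpow_add₀ hp0.ne']
    intro h6
    have h7 := (zpow_right_injective₀ hp0 hp1.ne') h6
    push_cast at h7
    omega
  have h5 : ‖(A : ℚ_[p]) ^ 2 + p * (B : ℚ_[p]) ^ 2‖ =
      max ‖(A : ℚ_[p]) ^ 2‖ ‖(p : ℚ_[p]) * (B : ℚ_[p]) ^ 2‖ :=
    IsUltrametricDist.norm_add_eq_max_of_norm_ne_norm hne
  rw [hn, h5, e1, e2]
  exact ⟨le_max_left _ _, le_max_right _ _⟩

theorem n3 : N3 := by
  intro p _ b A B n hp2 hn4 hG hpA
  classical
  obtain ⟨-, hNI⟩ := hG
  by_cases hn0 : n = 0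
  · rw [hn0]
    exact dvd_zero _
  by_contra hnd
  have hp1 : (1 : ℝ) < p := by exact_mod_cast (Fact.out : p.Prime).one_lt
  have hp0 : (0 : ℝ) < p := by linarith
  obtain ⟨hA', hB'⟩ := norm_sum hp2 A B n hn4
  have hpn : (p : ℤ) ∣ n := by
    have h1 : (p : ℤ) ∣ 4 * n := by
      rw [hn4]
      exact dvd_add (dvd_pow hpA two_ne_zero) (dvd_mul_right _ _)
    have h2 : IsCoprime (p : ℤ) 4 := by
      have h3 : Nat.Coprime p 2 :=
        (Nat.coprime_primes Fact.out Nat.prime_two).2 hp2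
      have h4 : Nat.Coprime p 4 := Nat.Coprime.pow_right 2 h3
      exact_mod_cast Nat.isCoprime_iff_coprime.2 h4
    exact h2.dvd_of_dvd_mul_left h1
  have hN1 : ‖(n : ℚ_[p])‖ < 1 := Padic.norm_intCast_lt_one_iff.2 hpn
  have hN0 : 0 < ‖(n : ℚ_[p])‖ := norm_pos_iff.2 (by exact_mod_cast hn0)
  have hN2 : ((p : ℝ) ^ (2 * b + 1))⁻¹ < ‖(n : ℚ_[p])‖ := by
    by_contra hcon
    push Not at hcon
    apply hnd
    have := (Padic.norm_int_le_pow_iff_dvd (p := p) n (2 * b + 1)).1 (by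
      rw [zpow_neg, zpow_natCast]
      exact hcon)
    exact_mod_cast this
  set τ : ℝ := √(((p : ℝ) ^ (2 * b + 1))⁻¹) with hτ
  have hQ0 : 0 < ((p : ℝ) ^ (2 * b + 1))⁻¹ := by positivity
  have hτ0 : 0 < τ := Real.sqrt_pos.2 hQ0
  have hτ2 : τ ^ 2 = ((p : ℝ) ^ (2 * b + 1))⁻¹ := Real.sq_sqrt hQ0.le
  have hnc : ‖((p : ℚ_[p]) ^ b)‖ = ((p : ℝ) ^ b)⁻¹ := by
    rw [norm_pow, Padic.norm_p, inv_pow]
  have hnq : ‖(((p : ℚ_[p]) ^ b) ^ 2 * p)‖ = τ ^ 2 := by
    rw [norm_mul, norm_pow, hnc, Padic.norm_p, hτ2, ← inv_pow, ← inv_pow]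
    ring
  set r : ℝ := √‖(n : ℚ_[p])‖ with hr
  have hr2 : r ^ 2 = ‖(n : ℚ_[p])‖ := Real.sq_sqrt hN0.le
  have hr0 : 0 < r := Real.sqrt_pos.2 hN0
  have hr1 : r < 1 := by
    by_contra hcon
    push Not at hcon
    have : 1 ≤ r ^ 2 := one_le_pow₀ hcon
    linarith
  have hτr : τ < r := by
    apply lt_of_pow_lt_pow_left₀ 2 hr0.le
    rw [hτ2, hr2]
    exact hN2
  have hA : ‖(A : ℚ_[p])‖ ≤ r := by
    apply le_of_sq_le_sq _ hr0.le
    rw [hr2]
    exact hA'
  have hA0 := norm_nonneg (A : ℚ_[p])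
  -- the coefficients
  have htA : ‖((p : ℚ_[p]) ^ b * p * B)‖ < r ^ 2 := by
    have h1 : ‖((p : ℚ_[p]) ^ b * p * B)‖ ≤ τ * r := by
      apply le_of_sq_le_sq _ (by positivity)
      rw [norm_mul, norm_mul, hnc, Padic.norm_p, mul_pow τ, hτ2, hr2]
      calc (((p : ℝ) ^ b)⁻¹ * (p : ℝ)⁻¹ * ‖(B : ℚ_[p])‖) ^ 2 =
          ((p : ℝ) ^ (2 * b + 1))⁻¹ * ((p : ℝ)⁻¹ * ‖(B : ℚ_[p])‖ ^ 2) := by
            rw [← inv_pow, ← inv_pow]
            ring
        _ ≤ ((p : ℝ) ^ (2 * b + 1))⁻¹ * ‖(n : ℚ_[p])‖ :=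
            mul_le_mul_of_nonneg_left hB' hQ0.le
    calc ‖((p : ℚ_[p]) ^ b * p * B)‖ ≤ τ * r := h1
      _ < r * r := mul_lt_mul_of_pos_right hτr hr0
      _ = r ^ 2 := by ring
  have hc4 : ‖((n : ℚ_[p]) + (p : ℚ_[p]) ^ b * p * B)‖ = r ^ 2 := by
    have hne : ‖(n : ℚ_[p])‖ ≠ ‖((p : ℚ_[p]) ^ b * p * B)‖ := by
      rw [← hr2]
      exact htA.ne'
    rw [IsUltrametricDist.norm_add_eq_max_of_norm_ne_norm hne, ← hr2]
    exact max_eq_left htA.le
  have hc3 : ‖((p : ℚ_[p]) ^ b * p * A * B)‖ < r ^ 3 := by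
    have h1 : ((p : ℚ_[p]) ^ b * p * A * B) = ((p : ℚ_[p]) ^ b * p * B) * A := by ring
    rw [h1, norm_mul]
    calc ‖((p : ℚ_[p]) ^ b * p * B)‖ * ‖(A : ℚ_[p])‖ ≤ ‖((p : ℚ_[p]) ^ b * p * B)‖ * r :=
          mul_le_mul_of_nonneg_left hA (norm_nonneg _)
      _ < r ^ 2 * r := mul_lt_mul_of_pos_right htA hr0
      _ = r ^ 3 := by ring
  have hc2 : ‖((p : ℚ_[p]) ^ b) ^ 2 * p * ((n : ℚ_[p]) + (p : ℚ_[p]) ^ b * p * B)‖ < r ^ 4 := by
    rw [norm_mul, hnq, hc4]
    calc τ ^ 2 * r ^ 2 < r ^ 2 * r ^ 2 :=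
          mul_lt_mul_of_pos_right (pow_lt_pow_left₀ hτr hτ0.le two_ne_zero) (by positivity)
      _ = r ^ 4 := by ring
  have hc1 : ‖(((p : ℚ_[p]) ^ b) ^ 2 * p) ^ 2 * A‖ < r ^ 5 := by
    rw [norm_mul, norm_pow, hnq]
    calc (τ ^ 2) ^ 2 * ‖(A : ℚ_[p])‖ ≤ (τ ^ 2) ^ 2 * r :=
          mul_le_mul_of_nonneg_left hA (by positivity)
      _ = τ ^ 4 * r := by ring
      _ < r ^ 4 * r :=
          mul_lt_mul_of_pos_right (pow_lt_pow_left₀ hτr hτ0.le (by norm_num)) hr0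
      _ = r ^ 5 := by ring
  have hc0 : ‖(((p : ℚ_[p]) ^ b) ^ 2 * p) ^ 3‖ < r ^ 6 := by
    rw [norm_pow, hnq]
    calc (τ ^ 2) ^ 3 = τ ^ 6 := by ring
      _ < r ^ 6 := pow_lt_pow_left₀ hτr hτ0.le (by norm_num)
  -- the roots
  set P : (PadicAlgCl p)[X] :=
    (G ((p : ℤ) ^ b) p A B n).map (Int.castRingHom (PadicAlgCl p)) with hP
  have hPm : P.Monic := (monic_G _ _ A B n).map _
  have hPd : P.natDegree = 6 := by
    rw [hP, (monic_G _ _ A B n).natDegree_map, natDegree_G]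
  have hPc : P.roots.card = P.natDegree := IsAlgClosed.card_roots_eq_natDegree
  have hes : ∀ j, j ≤ 6 →
      ‖P.roots.esymm (6 - j)‖ = ‖(((G ((p : ℤ) ^ b) p A B n).coeff j : ℤ) : ℚ_[p])‖ := by
    intro j hj
    have h1 := Polynomial.coeff_eq_esymm_roots_of_card hPc (k := j) (by rw [hPd]; exact hj)
    rw [hPm.leadingCoeff, one_mul, hPd] at h1
    have h2 : P.coeff j = (((G ((p : ℤ) ^ b) p A B n).coeff j : ℤ) : PadicAlgCl p) := by
      rw [hP, coeff_map, eq_intCast]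
    have h3 := congrArg (fun z => ‖z‖) h1
    simp only [norm_mul, norm_pow, norm_neg, NormOneClass.norm_one, one_pow, one_mul] at h3
    rw [← h3, h2, norm_int']
  have e1 : ‖P.roots.esymm 1‖ ≤ r ^ 1 := by
    have h1 := hes 5 (by norm_num)
    rw [c5] at h1
    norm_num at h1
    rw [h1, pow_one]
    exact hA
  have e2 : ‖P.roots.esymm 2‖ = r ^ 2 := by
    have h1 := hes 4 (by norm_num)
    rw [c4] at h1
    push_cast at h1
    rw [← hc4, ← h1]
  have e3 : ‖P.roots.esymm 3‖ < r ^ 3 := by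
    have h1 := hes 3 (by norm_num)
    rw [c3] at h1
    push_cast at h1
    have h2 : ‖P.roots.esymm 3‖ = ‖P.roots.esymm (6 - 3)‖ := rfl
    rw [h2, h1]
    exact hc3
  have e4 : ‖P.roots.esymm 4‖ < r ^ 4 := by
    have h1 := hes 2 (by norm_num)
    rw [c2] at h1
    push_cast at h1
    have h2 : ‖P.roots.esymm 4‖ = ‖P.roots.esymm (6 - 2)‖ := rfl
    rw [h2, h1]
    exact hc2
  have e5 : ‖P.roots.esymm 5‖ < r ^ 5 := by
    have h1 := hes 1 (by norm_num)
    rw [c1] at h1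
    push_cast at h1
    have h2 : ‖P.roots.esymm 5‖ = ‖P.roots.esymm (6 - 1)‖ := rfl
    rw [h2, h1]
    exact hc1
  have e6 : ‖P.roots.esymm 6‖ < r ^ 6 := by
    have h1 := hes 0 (by norm_num)
    rw [c0] at h1
    push_cast at h1
    have h2 : ‖P.roots.esymm 6‖ = ‖P.roots.esymm (6 - 0)‖ := rfl
    rw [h2, h1]
    exact hc0
  have e7 : ∀ k, 3 ≤ k → ‖P.roots.esymm k‖ < r ^ k := by
    intro k hk
    rcases Nat.lt_or_ge 6 k with h6 | h6
    · have h7 : Multiset.powersetCard k P.roots = 0 :=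
        Multiset.powersetCard_eq_empty k (by rw [hPc, hPd]; exact h6)
      have h8 : P.roots.esymm k = 0 := by
        unfold Multiset.esymm
        rw [h7, Multiset.map_zero, Multiset.sum_zero]
      rw [h8, norm_zero]
      positivity
    · interval_cases k
      · exact e3
      · exact e4
      · exact e5
      · exact e6
  obtain ⟨⟨y, hys, hyr⟩, hcount⟩ := newton hr0 P.roots (by
    intro k
    rcases Nat.lt_or_ge k 3 with h3 | h3
    · interval_cases k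
      · rw [esymm_zero', NormOneClass.norm_one, pow_zero]
      · exact e1
      · exact e2.le
    · exact (e7 k h3).le) e2 e7
  -- the slope
  have hq0 : (0 : ℝ) < (p : ℝ) ^ (2 * b + 1) := by positivity
  have hq1 : (1 : ℝ) < (p : ℝ) ^ (2 * b + 1) := one_lt_pow₀ hp1 (by omega)
  set ρ : ℝ := - Real.logb ((p : ℝ) ^ (2 * b + 1)) r with hρ
  have hnorm : r = ((p : ℝ) ^ (2 * b + 1)) ^ (-ρ) := by
    rw [hρ, neg_neg, Real.rpow_logb hq0 hq1.ne' hr0]
  have hρ0 : 0 < ρ := by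
    rw [hρ, neg_pos]
    exact Real.logb_neg hq1 hr0 hr1
  have hρ1 : 2 * ρ < 1 := by
    have h1 : ((p : ℝ) ^ (2 * b + 1)) ^ (-1 : ℝ) < ((p : ℝ) ^ (2 * b + 1)) ^ (-(2 * ρ)) := by
      have h2 : ((p : ℝ) ^ (2 * b + 1)) ^ (-(2 * ρ)) = r ^ 2 := by
        rw [hnorm, ← Real.rpow_natCast (((p : ℝ) ^ (2 * b + 1)) ^ (-ρ)), ← Real.rpow_mul hq0.le]
        congr 1
        push_cast
        ring
      rw [h2, hr2, Real.rpow_neg_one]
      exact hN2
    have h3 := (Real.rpow_lt_rpow_left_iff hq1).1 h1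
    linarith
  obtain ⟨z, hz⟩ := hNI ρ
  have hsc : slopeCount p (G ((p : ℤ) ^ b) p A B n) ((p : ℝ) ^ (2 * b + 1)) ρ =
      P.roots.countP fun x => ‖x‖ = r := by
    rw [slopeCount, ← hnorm, aroots_def]
    rfl
  have hm1 : 0 < P.roots.countP fun x => ‖x‖ = r := Multiset.countP_pos.2 ⟨y, hys, hyr⟩
  rw [hsc] at hz
  set M := P.roots.countP fun x => ‖x‖ = r with hM
  have h1 : (1 : ℝ) ≤ M := by exact_mod_cast hm1
  have h2 : (M : ℝ) ≤ 2 := by exact_mod_cast hcount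
  have h3 : (0 : ℝ) < z := by
    rw [← hz]
    positivity
  have h4 : (z : ℝ) < 1 := by
    rw [← hz]
    nlinarith
  have h5 : (0 : ℤ) < z := by exact_mod_cast h3
  have h6 : z < 1 := by exact_mod_cast h4
  omega

end Pool.Agent.H895.TFN3
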