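import Pool.Agent.H857.TF.Core3

/-! N4: integral Newton polygons. -/

set_option autoImplicit false

namespace Pool.Agent.H348.TFN4

open Module Polynomial Pool.Agent.W521.Descent Pool.Agent.W521.Density Pool.Agent.W521.Count
  Pool.Agent.X297.UB Pool.Agent.H857.PB Pool.Agent.H857.PA Pool.Agent.H857.HK Pool.Agent.H857.EF
  Pool.Agent.H857.WT Pool.Agent.H857.SG Pool.Agent.H857.PD Pool.Agent.H857.TF

theorem coeff3 (c p A B n : ℤ) : (G c p A B n).coeff 3 = c * p * A * B := by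
  unfold G
  simp only [coeff_add, coeff_X_pow, coeff_C_mul, coeff_X, coeff_C]
  norm_num

theorem coeff4 (c p A B n : ℤ) : (G c p A B n).coeff (3 + 1) = n + c * p * B := by
  unfold G
  simp only [coeff_add, coeff_X_pow, coeff_C_mul, coeff_X, coeff_C]
  norm_num

theorem n4 (h4a : N4a) (h7 : O7) : N4 := by
  intro p _ b A B n _ hn hw hA
  have hp : p.Prime := Fact.out
  have hc3 : (p : ℤ) ^ (b + 1) ∣ (G ((p : ℤ) ^ b) p A B n).coeff 3 := by
    rw [coeff3]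
    exact ⟨A * B, by ring⟩
  have hc4 : ¬ (p : ℤ) ∣ (G ((p : ℤ) ^ b) p A B n).coeff (3 + 1) := by
    rw [coeff4]
    intro h
    have h1 : (p : ℤ) ∣ (p : ℤ) ^ b * p * B := ⟨(p : ℤ) ^ b * B, by ring⟩
    obtain ⟨k, hk⟩ := (dvd_add_left h1).1 h
    have h2 : (p : ℤ) ∣ A ^ 2 := ⟨4 * k - B ^ 2, by rw [hk] at hn; linarith⟩
    exact hA ((Nat.prime_iff_prime_int.1 hp).dvd_of_dvd_pow h2)
  refine ⟨(h4a p b 3 (G ((p : ℤ) ^ b) p A B n) (by norm_num) hw hc3 hc4).2.2.2, ?_⟩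
  exact h7 p (p ^ (2 * b + 1)) 3 (G ((p : ℤ) ^ b) p A B n) hp
    (dvd_pow_self p (by omega)) (by norm_num) hw hc4

end Pool.Agent.H348.TFN4
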