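import Pool.Agent.H857.TF.Core3

/-! N5a: there are no integral roots (project ExoticThreefolds III of helper857, MP_0f183b_ag). -/

set_option autoImplicit false

namespace Pool.Agent.H947.TFN5a

open Pool.Agent.H857.TF

/-- descent for `x ^ 2 + p k ^ 2 = 4 p ^ (2 b + 1)` -/
theorem desc (p : ℕ) (hp : p.Prime) (h5 : 5 ≤ p) : ∀ (b : ℕ) (x k : ℤ),
    x ^ 2 + p * k ^ 2 = 4 * (p : ℤ) ^ (2 * b + 1) → x = 0 := by
  have hpZ : Prime (p : ℤ) := Nat.prime_iff_prime_int.1 hp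
  have h5Z : (5 : ℤ) ≤ p := by exact_mod_cast h5
  have hp0 : (p : ℤ) ≠ 0 := by omega
  intro b
  induction b with
  | zero =>
    intro x k h
    have h1 : (p : ℤ) ∣ x ^ 2 := ⟨4 - k ^ 2, by linear_combination h⟩
    obtain ⟨y, rfl⟩ := hpZ.dvd_of_dvd_pow h1
    have h2 : (p : ℤ) * y ^ 2 + k ^ 2 = 4 := by
      apply mul_left_cancel₀ hp0
      linear_combination h
    by_contra h3
    have h4 : y ≠ 0 := by
      rintro rfl
      exact h3 (mul_zero _)
    have h6 : 1 ≤ y ^ 2 := by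
      have := sq_nonneg y
      have h7 : y ^ 2 ≠ 0 := pow_ne_zero 2 h4
      omega
    nlinarith [sq_nonneg k]
  | succ b ih =>
    intro x k h
    have h1 : (p : ℤ) ∣ x ^ 2 := ⟨4 * (p : ℤ) ^ (2 * b + 2) - k ^ 2, by
      linear_combination h⟩
    obtain ⟨y, rfl⟩ := hpZ.dvd_of_dvd_pow h1
    have h2 : (p : ℤ) * y ^ 2 + k ^ 2 = 4 * (p : ℤ) ^ (2 * b + 2) := by
      apply mul_left_cancel₀ hp0
      linear_combination h
    have h3 : (p : ℤ) ∣ k ^ 2 := ⟨4 * (p : ℤ) ^ (2 * b + 1) - y ^ 2, by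
      linear_combination h2⟩
    obtain ⟨z, rfl⟩ := hpZ.dvd_of_dvd_pow h3
    have h4 : y ^ 2 + (p : ℤ) * z ^ 2 = 4 * (p : ℤ) ^ (2 * b + 1) := by
      apply mul_left_cancel₀ hp0
      linear_combination h2
    rw [ih y z h4, mul_zero]

theorem n5a : N5a := by
  intro p hpF b A B n h5 hn hA hB x hx
  have hp : p.Prime := hpF.out
  have hpZ : Prime (p : ℤ) := Nat.prime_iff_prime_int.1 hp
  have hp0 : (p : ℤ) ≠ 0 := by
    have : (5 : ℤ) ≤ p := by exact_mod_cast h5
    omega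
  have hA0 : A ≠ 0 := by
    rintro rfl
    exact hA (dvd_zero _)
  unfold RtN at hx
  have hc0 : (p : ℤ) ^ b ≠ 0 := pow_ne_zero b hp0
  have hq : (p : ℤ) ^ (2 * b + 1) = ((p : ℤ) ^ b) ^ 2 * p := by ring
  have hd := desc p hp h5 b x
  rw [hq] at hd
  generalize (p : ℤ) ^ b = c at *
  have key : (p * x * B + 2 * c * p * (x + A)) ^ 2 =
      p * (2 * x + A) ^ 2 * (4 * (c ^ 2 * p) - x ^ 2) := by
    linear_combination (4 * (p : ℤ) * x) * hx - (p : ℤ) * x ^ 2 * hn
  have hx0 : x = 0 := by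
    by_cases h2 : 2 * x + A = 0
    · have h3 : p * x * B + 2 * c * p * (x + A) = 0 := by
        rw [h2] at key
        have h4 : (p * x * B + 2 * c * p * (x + A)) ^ 2 = 0 := by
          rw [key]
          ring
        exact pow_eq_zero_iff (two_ne_zero) |>.1 h4
      have h4 : (p : ℤ) * x * (B - 2 * c) = 0 := by
        linear_combination h3 - 2 * c * p * h2
      rcases mul_eq_zero.1 h4 with h5 | h5
      · exact (mul_eq_zero.1 h5).resolve_left hp0
      · exact absurd (sub_eq_zero.1 h5) hB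
    · have h3 : (2 * x + A) ^ 2 ∣ (p * x * B + 2 * c * p * (x + A)) ^ 2 :=
        ⟨p * (4 * (c ^ 2 * p) - x ^ 2), by rw [key]; ring⟩
      have h4 : (2 * x + A) ∣ (p * x * B + 2 * c * p * (x + A)) :=
        (Int.pow_dvd_pow_iff two_ne_zero).1 h3
      obtain ⟨m, hm⟩ := h4
      rw [hm] at key
      have h5 : m ^ 2 = p * (4 * (c ^ 2 * p) - x ^ 2) := by
        apply mul_left_cancel₀ (pow_ne_zero 2 h2)
        linear_combination key
      obtain ⟨k, rfl⟩ := hpZ.dvd_of_dvd_pow (Dvd.intro _ h5.symm)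
      apply hd k
      have h6 : (p : ℤ) * k ^ 2 = 4 * (c ^ 2 * p) - x ^ 2 := by
        apply mul_left_cancel₀ hp0
        linear_combination h5
      linear_combination h6
  rw [hx0] at hx
  have h7 : A * ((c * p) * (B - 2 * c)) = 0 := by linear_combination hx
  rcases mul_eq_zero.1 h7 with h8 | h8
  · exact hA0 h8
  · rcases mul_eq_zero.1 h8 with h9 | h9
    · exact (mul_ne_zero hc0 hp0) h9
    · exact hB (sub_eq_zero.1 h9)

end Pool.Agent.H947.TFN5a
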