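import Pool.Agent.H857.TF.Core3

/-!
# N5b: irreducibility and exotic relations (variant of T6 by helper903)
-/

set_option autoImplicit false

namespace Pool.Agent.H806.TFN5b

open Module Polynomial Pool.Agent.W521.Descent Pool.Agent.W521.Density Pool.Agent.W521.Count
  Pool.Agent.X297.UB Pool.Agent.H857.PB Pool.Agent.H857.PA Pool.Agent.H857.HK Pool.Agent.H857.EF
  Pool.Agent.H857.WT Pool.Agent.H857.SG Pool.Agent.H857.PD Pool.Agent.H857.TF

open scoped IntermediateField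

/-- The cubic `H` with `G = X ^ 3 H (X + c ^ 2 p / X)`. -/
noncomputable def Hc (c p A B n : ℤ) : ℤ[X] :=
  X ^ 3 + C A * X ^ 2 + C (n + c * p * B - 3 * c ^ 2 * p) * X +
    C (A * (c * p * B - 2 * c ^ 2 * p))

theorem Hc_deg (c p A B n : ℤ) : (Hc c p A B n).natDegree = 3 := by
  unfold Hc
  compute_degree!

theorem Hc_monic (c p A B n : ℤ) : (Hc c p A B n).Monic := by
  unfold Hc
  monicity!

theorem Hc_eval (c p A B n b : ℤ) : (Hc c p A B n).eval b = b ^ 3 + A * b ^ 2 +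
    (n + c * p * B - 3 * c ^ 2 * p) * b + A * (c * p * B - 2 * c ^ 2 * p) := by
  unfold Hc
  simp only [eval_add, eval_mul, eval_pow, eval_X, eval_C]

theorem Hc_irr {c p A B n : ℤ} (hR : ∀ b, ¬ RtN c p A B n b) : Irreducible (Hc c p A B n) := by
  rw [(Hc_monic c p A B n).irreducible_iff_roots_eq_zero_of_degree_le_three
    (by rw [Hc_deg]; norm_num) (by rw [Hc_deg])]
  rw [Multiset.eq_zero_iff_forall_notMem]
  intro b hb
  have h1 := (mem_roots'.1 hb).2
  rw [IsRoot.def, Hc_eval] at h1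
  exact hR b h1

theorem G_aeval (c p A B n : ℤ) (z : ℂ) : aeval z (G c p A B n) = z ^ 6 + A * z ^ 5 +
    (n + c * p * B) * z ^ 4 + (c * p * A * B) * z ^ 3 +
    (c ^ 2 * p * (n + c * p * B)) * z ^ 2 + ((c ^ 2 * p) ^ 2 * A) * z + (c ^ 2 * p) ^ 3 := by
  unfold G
  simp only [map_add, map_mul, map_pow, aeval_X, aeval_C]
  simp

theorem Hc_aeval (c p A B n : ℤ) (x : ℂ) : aeval x (Hc c p A B n) = x ^ 3 + A * x ^ 2 +
    (n + c * p * B - 3 * c ^ 2 * p) * x + A * (c * p * B - 2 * c ^ 2 * p) := by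
  unfold Hc
  simp only [map_add, map_mul, map_pow, aeval_X, aeval_C]
  simp

theorem root_H {c p A B n : ℤ} {z : ℂ} (hz0 : z ≠ 0) (hz : aeval z (G c p A B n) = 0) :
    aeval (z + (c : ℂ) ^ 2 * p / z) (Hc c p A B n) = 0 := by
  rw [G_aeval] at hz
  rw [Hc_aeval]
  have h1 : z ^ 3 * ((z + (c : ℂ) ^ 2 * p / z) ^ 3 + A * (z + (c : ℂ) ^ 2 * p / z) ^ 2 +
    (n + c * p * B - 3 * c ^ 2 * p) * (z + (c : ℂ) ^ 2 * p / z) +
    A * (c * p * B - 2 * c ^ 2 * p)) = z ^ 6 + A * z ^ 5 +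
    (n + c * p * B) * z ^ 4 + (c * p * A * B) * z ^ 3 +
    (c ^ 2 * p * (n + c * p * B)) * z ^ 2 + ((c ^ 2 * p) ^ 2 * A) * z + (c ^ 2 * p) ^ 3 := by
    field_simp
    ring
  rw [hz] at h1
  rcases mul_eq_zero.1 h1 with h2 | h2
  · exact absurd h2 (pow_ne_zero 3 hz0)
  · exact h2

theorem minp {c p : ℕ} {A B n : ℤ} (hq : 1 < c ^ 2 * p)
    (hF : G c p A B n ∈ weilPolys (c ^ 2 * p) 3) (hR : ∀ b, ¬ RtN c p A B n b) {z : ℂ}
    (hz : aeval z (G c p A B n) = 0) : minpoly ℚ z = (G c p A B n).map (algebraMap ℤ ℚ) := by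
  obtain ⟨hm, hdeg, h0, hroot⟩ := hF
  have hz2 := hroot z hz
  have hq0 : ((c ^ 2 * p : ℕ) : ℝ) ≠ 0 := by
    have : c ^ 2 * p ≠ 0 := by omega
    exact_mod_cast this
  have hz0 : z ≠ 0 := by
    rintro rfl
    rw [norm_zero] at hz2
    apply hq0
    rw [← hz2]
    norm_num
  have hθH := root_H hz0 hz
  obtain ⟨θ, hθ⟩ : ∃ θ : ℂ, θ = z + ((c : ℤ) : ℂ) ^ 2 * ((p : ℤ) : ℂ) / z := ⟨_, rfl⟩
  rw [← hθ] at hθH
  have hzc : ((c : ℤ) : ℂ) ^ 2 * ((p : ℤ) : ℂ) / z = (starRingEnd ℂ) z := by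
    rw [div_eq_iff hz0, mul_comm ((starRingEnd ℂ) z), Complex.mul_conj,
      Complex.normSq_eq_norm_sq, hz2]
    push_cast
    ring
  have hθre : θ = ((2 * z.re : ℝ) : ℂ) := by
    rw [hθ, hzc, Complex.add_conj]
  -- integrality
  have hFm : ((G c p A B n).map (algebraMap ℤ ℚ)).Monic := hm.map _
  have hFz : aeval z ((G c p A B n).map (algebraMap ℤ ℚ)) = 0 := by
    rw [aeval_map_algebraMap]
    exact hz
  have hint : IsIntegral ℚ z := ⟨_, hFm, by
    have := hFz
    rwa [aeval_def] at this⟩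
  have hHm : ((Hc c p A B n).map (algebraMap ℤ ℚ)).Monic := (Hc_monic c p A B n).map _
  have hHz : aeval θ ((Hc c p A B n).map (algebraMap ℤ ℚ)) = 0 := by
    rw [aeval_map_algebraMap]
    exact hθH
  have hintθ : IsIntegral ℚ θ := ⟨_, hHm, by
    have := hHz
    rwa [aeval_def] at this⟩
  have hHi : Irreducible ((Hc c p A B n).map (algebraMap ℤ ℚ)) :=
    ((Hc_monic c p A B n).irreducible_iff_irreducible_map_fraction_map (K := ℚ)).1 (Hc_irr hR)
  have hmθ : minpoly ℚ θ = (Hc c p A B n).map (algebraMap ℤ ℚ) :=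
    (minpoly.eq_of_irreducible_of_monic hHi hHz hHm).symm
  have hd3 : finrank ℚ ℚ⟮θ⟯ = 3 := by
    rw [IntermediateField.adjoin.finrank hintθ, hmθ, (Hc_monic c p A B n).natDegree_map, Hc_deg]
  have hle : ℚ⟮θ⟯ ≤ ℚ⟮z⟯ := by
    rw [IntermediateField.adjoin_simple_le_iff, hθ]
    have h1 : z ∈ ℚ⟮z⟯ := IntermediateField.mem_adjoin_simple_self ℚ z
    have h2 : (((c : ℤ) : ℂ)) ∈ ℚ⟮z⟯ := intCast_mem _ _
    have h3 : (((p : ℤ) : ℂ)) ∈ ℚ⟮z⟯ := intCast_mem _ _
    exact add_mem h1 (div_mem (mul_mem (pow_mem h2 2) h3) h1)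
  have hdz : finrank ℚ ℚ⟮z⟯ = (minpoly ℚ z).natDegree := IntermediateField.adjoin.finrank hint
  have hdvd : 3 ∣ (minpoly ℚ z).natDegree := by
    rw [← hdz, ← hd3]
    exact IntermediateField.finrank_dvd_of_le_right hle
  have hmd : minpoly ℚ z ∣ (G c p A B n).map (algebraMap ℤ ℚ) := minpoly.dvd ℚ z hFz
  have hdF : ((G c p A B n).map (algebraMap ℤ ℚ)).natDegree = 6 := by
    rw [hm.natDegree_map, hdeg]
  have hle6 : (minpoly ℚ z).natDegree ≤ 6 := by
    rw [← hdF]
    exact natDegree_le_of_dvd hmd hFm.ne_zero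
  have hpos : 0 < (minpoly ℚ z).natDegree := minpoly.natDegree_pos hint
  have hne3 : (minpoly ℚ z).natDegree ≠ 3 := by
    intro h3
    have hfd : FiniteDimensional ℚ ℚ⟮z⟯ := IntermediateField.adjoin.finiteDimensional hint
    have heq : ℚ⟮θ⟯ = ℚ⟮z⟯ := IntermediateField.eq_of_le_of_finrank_eq hle (by
      rw [hd3, hdz, h3])
    have hreal : ℚ⟮θ⟯ ≤ ((Algebra.ofId ℝ ℂ).restrictScalars ℚ).fieldRange := by
      rw [IntermediateField.adjoin_simple_le_iff, AlgHom.mem_fieldRange]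
      exact ⟨2 * z.re, by rw [hθre]; rfl⟩
    have hzr : z ∈ ((Algebra.ofId ℝ ℂ).restrictScalars ℚ).fieldRange := by
      apply hreal
      rw [heq]
      exact IntermediateField.mem_adjoin_simple_self ℚ z
    rw [AlgHom.mem_fieldRange] at hzr
    obtain ⟨x, hx⟩ := hzr
    have hx' : z = (x : ℂ) := by
      rw [← hx]
      rfl
    have hx2 : x ^ 2 = ((c ^ 2 * p : ℕ) : ℝ) := by
      rw [hx', Complex.norm_real, Real.norm_eq_abs, sq_abs] at hz2
      rw [hz2]
    have hzq : z ^ 2 = ((c ^ 2 * p : ℕ) : ℂ) := by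
      rw [hx']
      exact_mod_cast hx2
    have h4 : minpoly ℚ z ∣ (X ^ 2 - C (((c ^ 2 * p : ℕ) : ℚ)) : ℚ[X]) := by
      apply minpoly.dvd
      rw [map_sub, map_pow, aeval_X, aeval_C, hzq]
      simp
    have h5 := natDegree_le_of_dvd h4 (X_pow_sub_C_ne_zero (by norm_num) _)
    rw [natDegree_X_pow_sub_C, h3] at h5
    omega
  have hd6 : (minpoly ℚ z).natDegree = 6 := by omega
  exact (Polynomial.eq_of_monic_of_dvd_of_natDegree_le (minpoly.monic hint) hFm hmd
    (by rw [hdF, hd6])).symm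

/-- The complement of a pair with product `q` is supersingular. -/
theorem pair_sup {q : ℂ} {N : ℕ} {a b c : ℂ} (hq : q ≠ 0)
    (h : (a * b * c) ^ 2 = -q ^ 3) (hN : (a * b) ^ N = q ^ N) :
    c ^ (2 * (2 * N)) = q ^ (2 * N) := by
  have h1 : (a * b * c) ^ (2 * (2 * N)) = q ^ (4 * N) * q ^ (2 * N) := by
    rw [pow_mul, h, pow_mul, neg_sq, ← pow_mul, ← pow_mul, ← pow_add]
    congr 1
    ring
  have h2 : (a * b * c) ^ (2 * (2 * N)) = q ^ (4 * N) * c ^ (2 * (2 * N)) := by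
    rw [mul_pow]
    congr 1
    have e : 2 * (2 * N) = N * 4 := by ring
    rw [e, pow_mul, hN, ← pow_mul]
    congr 1
    ring
  rw [h2] at h1
  exact mul_left_cancel₀ (pow_ne_zero _ hq) h1

theorem n5b : N5b := by
  intro c p A B n hc hp hq hn hF hR hns
  have hmp := fun z hz => minp (z := z) hq hF hR hz
  obtain ⟨w, hw, hws⟩ := hns
  have hm := hF.1
  have hroot := hF.2.2.2
  have hFm : ((G c p A B n).map (algebraMap ℤ ℚ)).Monic := hm.map _
  have hq0 : ((c ^ 2 * p : ℕ) : ℂ) ≠ 0 := by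
    have : c ^ 2 * p ≠ 0 := by omega
    exact_mod_cast this
  -- no root is supersingular
  have hsup : ∀ z : ℂ, aeval z (G c p A B n) = 0 → ∀ M : ℕ, 0 < M →
      z ^ (2 * M) ≠ ((c ^ 2 * p : ℕ) : ℂ) ^ M := by
    intro z hz M hM h
    apply hws M hM
    have h1 : minpoly ℚ z ∣ (X ^ (2 * M) - C (((c ^ 2 * p : ℕ) : ℚ) ^ M) : ℚ[X]) := by
      apply minpoly.dvd
      rw [map_sub, map_pow, aeval_X, aeval_C, h]
      simp
    rw [hmp z hz, ← hmp w hw] at h1
    have h2 := aeval_eq_zero_of_dvd_aeval_eq_zero h1 (minpoly.aeval ℚ w)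
    rw [map_sub, map_pow, aeval_X, aeval_C, sub_eq_zero] at h2
    rw [h2]
    simp
  refine ⟨?_, ?_⟩
  · rw [hm.irreducible_iff_irreducible_map_fraction_map (K := ℚ), ← hmp w hw]
    apply minpoly.irreducible
    refine ⟨_, hFm, ?_⟩
    rw [← aeval_def, aeval_map_algebraMap]
    exact hw
  · -- the factor
    obtain ⟨r, hr⟩ : ∃ r : ℂ, r ^ 2 = -(p : ℂ) :=
      IsAlgClosed.exists_pow_nat_eq _ (by norm_num)
    obtain ⟨α, hα⟩ : ∃ α : ℂ, α = (A + B * r) / 2 := ⟨_, rfl⟩
    obtain ⟨β, hβ⟩ : ∃ β : ℂ, β = (A - B * r) / 2 := ⟨_, rfl⟩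
    have hnc : (4 : ℂ) * n = A ^ 2 + p * B ^ 2 := by exact_mod_cast hn
    have hs1 : α + β = A := by
      rw [hα, hβ]
      ring
    have hs2 : α * β = n := by
      have h1 : α * β = (A ^ 2 - B ^ 2 * r ^ 2) / 4 := by
        rw [hα, hβ]
        ring
      rw [h1, hr]
      linear_combination -(1 / 4 : ℂ) * hnc
    have hs3 : β - α = -B * r := by
      rw [hα, hβ]
      ring
    obtain ⟨h, hh⟩ : ∃ h : ℂ[X], h = X ^ 3 + C α * X ^ 2 + C (c * r * β) * X +
        C ((c : ℂ) ^ 3 * p * r) := ⟨_, rfl⟩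
    have hhm : h.Monic := by
      rw [hh]
      monicity!
    have hhd : h.natDegree = 3 := by
      rw [hh]
      compute_degree!
    have hhF : ∀ z : ℂ, h.eval z = 0 → aeval z (G c p A B n) = 0 := by
      intro z hz
      rw [hh] at hz
      simp only [eval_add, eval_mul, eval_pow, eval_X, eval_C] at hz
      have h1 : aeval z (G c p A B n) = (z ^ 3 + α * z ^ 2 + c * r * β * z +
          (c : ℂ) ^ 3 * p * r) * (z ^ 3 + β * z ^ 2 - c * r * α * z - (c : ℂ) ^ 3 * p * r) := by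
        rw [G_aeval, ← hs1, ← hs2]
        push_cast
        have e1 : (β - α) * r = B * p := by
          rw [hs3]
          linear_combination -(B : ℂ) * hr
        linear_combination (-(c : ℂ) * z ^ 4 - c * (α + β) * z ^ 3 - c ^ 3 * p * z ^ 2) * e1 +
          ((c : ℂ) ^ 2 * α * β * z ^ 2 + c ^ 4 * p * (α + β) * z + c ^ 6 * p ^ 2) * hr
      rw [h1, hz, zero_mul]
    have hcard : Multiset.card h.roots = 3 := by
      rw [← (IsAlgClosed.splits h).natDegree_eq_card_roots, hhd]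
    obtain ⟨a, b, d, habc⟩ := Multiset.card_eq_three.1 hcard
    have hprod : h = (X - C a) * (X - C b) * (X - C d) := by
      have h1 := (IsAlgClosed.splits h).eq_prod_roots_of_monic hhm
      rw [habc] at h1
      rw [h1]
      simp [mul_assoc]
    have habc3 : a * b * d = -((c : ℂ) ^ 3 * p * r) := by
      have h1 := congrArg (eval 0) hprod
      rw [hh] at h1
      simp only [eval_add, eval_mul, eval_pow, eval_X, eval_C, eval_sub] at h1
      linear_combination h1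
    have hsq : (a * b * d) ^ 2 = -((c ^ 2 * p : ℕ) : ℂ) ^ 3 := by
      rw [habc3]
      push_cast
      linear_combination ((c : ℂ) ^ 6 * p ^ 2) * hr
    have ha : aeval a (G c p A B n) = 0 := hhF a (by
      rw [hprod]
      simp)
    have hb : aeval b (G c p A B n) = 0 := hhF b (by
      rw [hprod]
      simp)
    have hd : aeval d (G c p A B n) = 0 := hhF d (by
      rw [hprod]
      simp)
    have hself : ∀ z : ℂ, aeval z (G c p A B n) = 0 → ¬ PairRel (c ^ 2 * p) z z := by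
      rintro z hz ⟨N, hN, hN2⟩
      apply hsup z hz N hN
      rw [← hN2]
      ring
    have hother : ∀ x y z : ℂ, (x * y * z) ^ 2 = -((c ^ 2 * p : ℕ) : ℂ) ^ 3 →
        aeval z (G c p A B n) = 0 → ¬ PairRel (c ^ 2 * p) x y := by
      rintro x y z hxyz hz ⟨N, hN, hN2⟩
      exact hsup z hz (2 * N) (by omega) (pair_sup hq0 hxyz hN2)
    refine ⟨[a, b, d, a, b, d], by simp, ?_, ?_, ?_⟩
    · intro z hz
      simp only [List.mem_cons, List.not_mem_nil, or_false] at hz
      rcases hz with rfl | rfl | rfl | rfl | rfl | rfl <;> assumption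
    · refine ⟨2, two_pos, 3, ?_⟩
      have h1 : ([a, b, d, a, b, d] : List ℂ).prod = (a * b * d) ^ 2 := by
        simp only [List.prod_cons, List.prod_nil]
        ring
      rw [h1, hsq, neg_sq, ← pow_mul]
      norm_cast
    · apply List.pairwise_of_forall_mem_list
      have key : ∀ x, x ∈ ([a, b, d, a, b, d] : List ℂ) → x = a ∨ x = b ∨ x = d := by
        intro x hx
        simp only [List.mem_cons, List.not_mem_nil, or_false] at hx
        rcases hx with h | h | h | h | h | h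
        · exact Or.inl h
        · exact Or.inr (Or.inl h)
        · exact Or.inr (Or.inr h)
        · exact Or.inl h
        · exact Or.inr (Or.inl h)
        · exact Or.inr (Or.inr h)
      intro x hx y hy
      rcases key x hx with rfl | rfl | rfl <;> rcases key y hy with rfl | rfl | rfl
      · exact hself _ ha
      · exact hother _ _ d hsq hd
      · exact hother _ _ b (by rw [← hsq]; ring) hb
      · exact hother _ _ d (by rw [← hsq]; ring) hd
      · exact hself _ hb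
      · exact hother _ _ a (by rw [← hsq]; ring) ha
      · exact hother _ _ b (by rw [← hsq]; ring) hb
      · exact hother _ _ a (by rw [← hsq]; ring) ha
      · exact hself _ hd

end Pool.Agent.H806.TFN5b
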