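import Pool.Agent.H857.TF.Core3

/-!
# The sections of the region (task N7a of project TF)
-/

set_option autoImplicit false

namespace Pool.Agent.H36.TF

open Module Polynomial Pool.Agent.W521.Descent Pool.Agent.W521.Density Pool.Agent.W521.Count
  Pool.Agent.X297.UB Pool.Agent.H857.PB Pool.Agent.H857.PA Pool.Agent.H857.HK Pool.Agent.H857.EF
  Pool.Agent.H857.WT Pool.Agent.H857.SG Pool.Agent.H857.PD Pool.Agent.H857.TF

/-- `√u / 2 ≤ y` -/
theorem half_sqrt_le {u y : ℝ} (hy : 0 ≤ y) : Real.sqrt u / 2 ≤ y ↔ u / 4 ≤ y ^ 2 := by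
  rw [div_le_iff₀ (by norm_num : (0 : ℝ) < 2), Real.sqrt_le_left (by positivity)]
  constructor
  · intro h
    nlinarith
  · intro h
    nlinarith

/-- `y ≤ √u / 2` -/
theorem le_half_sqrt {u y : ℝ} (hy : 0 ≤ y) (hu : 0 ≤ u) :
    y ≤ Real.sqrt u / 2 ↔ y ^ 2 ≤ u / 4 := by
  rw [le_div_iff₀ (by norm_num : (0 : ℝ) < 2)]
  constructor
  · intro h
    have h1 := pow_le_pow_left₀ (by positivity : (0 : ℝ) ≤ y * 2) h 2
    rw [Real.sq_sqrt hu] at h1
    nlinarith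
  · intro h
    exact Real.le_sqrt_of_sq_le (by nlinarith)

/-- the region in the coordinates `x`, `y` -/
theorem reg_iff {x y : ℝ} (hy : 0 ≤ y) :
    ((y ^ 2 + (x ^ 2 - 12 * x + 9)) ^ 2 ≤ 4 * (3 - 2 * x) ^ 3) ↔
      -3 ≤ x ∧ x ≤ 3 / 2 ∧ lowf x ≤ y ∧ y ≤ upf x := by
  rcases lt_or_ge (3 / 2) x with hx | hx
  · constructor
    · intro h
      exfalso
      have h1 : 0 < (2 * x - 3) ^ 3 := by
        have : 0 < 2 * x - 3 := by linarith
        positivity
      nlinarith [sq_nonneg (y ^ 2 + (x ^ 2 - 12 * x + 9))]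
    · rintro ⟨_, h, _⟩
      linarith
  · obtain ⟨m, hm⟩ : ∃ m : ℝ, m = Real.sqrt (3 - 2 * x) := ⟨_, rfl⟩
    have hm0 : 0 ≤ m := by rw [hm]; exact Real.sqrt_nonneg _
    have hm2 : m ^ 2 = 3 - 2 * x := by rw [hm]; exact Real.sq_sqrt (by linarith)
    have hxm : x = (3 - m ^ 2) / 2 := by rw [hm2]; ring
    have hfac : 4 * (3 - 2 * x) ^ 3 - (y ^ 2 + (x ^ 2 - 12 * x + 9)) ^ 2 =
        ((3 - m) ^ 3 * (m + 1) / 4 - y ^ 2) * (y ^ 2 - (1 - m) * (m + 3) ^ 3 / 4) := by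
      rw [hxm]
      ring
    have hdiff : (3 - m) ^ 3 * (m + 1) / 4 = (1 - m) * (m + 3) ^ 3 / 4 + 4 * m ^ 3 := by ring
    have hm3 : 0 ≤ 4 * m ^ 3 := by positivity
    have key : ((y ^ 2 + (x ^ 2 - 12 * x + 9)) ^ 2 ≤ 4 * (3 - 2 * x) ^ 3) ↔
        (1 - m) * (m + 3) ^ 3 / 4 ≤ y ^ 2 ∧ y ^ 2 ≤ (3 - m) ^ 3 * (m + 1) / 4 := by
      rw [← sub_nonneg, hfac, mul_nonneg_iff]
      constructor
      · rintro (⟨h1, h2⟩ | ⟨h1, h2⟩)
        · exact ⟨by linarith, by linarith⟩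
        · exact ⟨by linarith, by linarith⟩
      · rintro ⟨h1, h2⟩
        exact Or.inl ⟨by linarith, by linarith⟩
    rw [key]
    rcases lt_or_ge x (-3) with hx3 | hx3
    · have hm3' : 3 < m := by
        by_contra h
        rw [not_lt] at h
        nlinarith
      have h1 : (3 - m) ^ 3 * (m + 1) < 0 := by
        have h2 : (3 - m) ^ 3 < 0 := by
          have h3 : 0 < (m - 3) ^ 3 := by
            have : 0 < m - 3 := by linarith
            positivity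
          nlinarith
        have h4 : 0 < m + 1 := by linarith
        nlinarith
      constructor
      · rintro ⟨_, h⟩
        nlinarith [sq_nonneg y]
      · rintro ⟨h, _⟩
        linarith
    · have hm3' : m ≤ 3 := by
        by_contra h
        rw [not_le] at h
        nlinarith
      have hup : y ≤ upf x ↔ y ^ 2 ≤ (3 - m) ^ 3 * (m + 1) / 4 := by
        unfold upf
        rw [← hm]
        have h1 : 0 ≤ 3 - m := by linarith
        exact le_half_sqrt hy (by positivity)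
      have hlow : lowf x ≤ y ↔ (1 - m) * (m + 3) ^ 3 / 4 ≤ y ^ 2 := by
        unfold lowf
        split_ifs with h1
        · have hm1 : 1 ≤ m := by
            by_contra h
            rw [not_le] at h
            nlinarith
          have h2 : (1 - m) * (m + 3) ^ 3 ≤ 0 := by
            have h3 : 0 ≤ (m + 3) ^ 3 := by positivity
            have h4 : 1 - m ≤ 0 := by linarith
            exact mul_nonpos_of_nonpos_of_nonneg h4 h3
          exact ⟨fun _ => by nlinarith [sq_nonneg y], fun _ => hy⟩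
        · rw [← hm]
          exact half_sqrt_le hy
      rw [hup, hlow]
      exact ⟨fun h => ⟨hx3, hx, h.1, h.2⟩, fun h => ⟨h.2.2.1, h.2.2.2⟩⟩

theorem n7a : N7a := by
  intro c p A B hc hp
  have hcR : (0 : ℝ) < c := by exact_mod_cast hc
  have hpR : (0 : ℝ) < p := by exact_mod_cast hp
  have hsp : 0 < Real.sqrt p := Real.sqrt_pos.2 hpR
  have hsp2 : Real.sqrt p ^ 2 = p := Real.sq_sqrt hpR.le
  obtain ⟨x, hx⟩ : ∃ x : ℝ, x = (B : ℝ) / (2 * c) := ⟨_, rfl⟩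
  obtain ⟨y, hy⟩ : ∃ y : ℝ, y = |(A : ℝ)| / (2 * c * Real.sqrt p) := ⟨_, rfl⟩
  have hy0 : 0 ≤ y := by rw [hy]; positivity
  have hB : (B : ℝ) = 2 * c * x := by
    rw [hx]
    field_simp
  have hA : (A : ℝ) ^ 2 = 4 * c ^ 2 * p * y ^ 2 := by
    have h1 : |(A : ℝ)| = y * (2 * c * Real.sqrt p) := by
      rw [hy, div_mul_cancel₀]
      positivity
    rw [← sq_abs, h1]
    calc (y * (2 * c * Real.sqrt p)) ^ 2 = 4 * c ^ 2 * (Real.sqrt p ^ 2) * y ^ 2 := by ring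
      _ = 4 * c ^ 2 * p * y ^ 2 := by rw [hsp2]
  have key : RegN c p A B ↔ (y ^ 2 + (x ^ 2 - 12 * x + 9)) ^ 2 ≤ 4 * (3 - 2 * x) ^ 3 := by
    have e : (p : ℝ) ^ 2 * (2 * c - B) * (B + 6 * c) ^ 3 -
        ((A : ℝ) ^ 4 + 2 * p * (A : ℝ) ^ 2 * ((B : ℝ) ^ 2 - 24 * B * c + 36 * c ^ 2)) =
        16 * c ^ 4 * p ^ 2 * (4 * (3 - 2 * x) ^ 3 - (y ^ 2 + (x ^ 2 - 12 * x + 9)) ^ 2) := by
      have h4 : (A : ℝ) ^ 4 = ((A : ℝ) ^ 2) ^ 2 := by ring
      rw [h4, hA, hB]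
      ring
    have h1 : RegN c p A B ↔
        ((A : ℝ) ^ 4 + 2 * p * (A : ℝ) ^ 2 * ((B : ℝ) ^ 2 - 24 * B * c + 36 * c ^ 2)) ≤
        (p : ℝ) ^ 2 * (2 * c - B) * (B + 6 * c) ^ 3 := by
      unfold RegN
      rw [← Int.cast_le (R := ℝ)]
      push_cast
      exact Iff.rfl
    rw [h1, ← sub_nonneg, e, mul_nonneg_iff_of_pos_left (by positivity), sub_nonneg]
  rw [key, reg_iff hy0, ← hx, ← hy]
  have h1 : -3 ≤ x ↔ -6 * (c : ℤ) ≤ B := by
    rw [hx, le_div_iff₀ (by positivity), ← Int.cast_le (R := ℝ)]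
    push_cast
    constructor
    · intro h
      linarith
    · intro h
      linarith
  have h2 : x ≤ 3 / 2 ↔ B ≤ 3 * c := by
    rw [hx, div_le_iff₀ (by positivity), ← Int.cast_le (R := ℝ)]
    push_cast
    constructor
    · intro h
      linarith
    · intro h
      linarith
  rw [h1, h2]

end Pool.Agent.H36.TF
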