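import Pool.Agent.H857.TF.Core3
import Mathlib.Analysis.SumIntegralComparisons

/-!
# Riemann sums for the deltoid
-/

set_option autoImplicit false

namespace Pool.Agent.H873.TFN7b

open Set intervalIntegral MeasureTheory Pool.Agent.H857.TF

/-! ### The antiderivative -/

/-- An antiderivative of `(1 + s - 2 s ^ 2) √(1 - s ^ 2)`. -/
noncomputable def P (s : ℝ) : ℝ :=
  Real.arcsin s / 4 + √(1 - s ^ 2) * (-1 / 3 + 3 / 4 * s + s ^ 2 / 3 - s ^ 3 / 2)

theorem derivP (s : ℝ) (h1 : -1 < s) (h2 : s < 1) :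
    HasDerivAt P ((1 + s - 2 * s ^ 2) * √(1 - s ^ 2)) s := by
  have hpos : 0 < 1 - s ^ 2 := by nlinarith
  have hs : HasDerivAt (fun s : ℝ => 1 - s ^ 2) (-(2 * s)) s := by
    have := (hasDerivAt_pow 2 s).const_sub 1
    simpa using this
  have hq : HasDerivAt (fun s : ℝ => -1 / 3 + 3 / 4 * s + s ^ 2 / 3 - s ^ 3 / 2)
      (3 / 4 + 2 / 3 * s - 3 / 2 * s ^ 2) s := by
    have e1 := (hasDerivAt_id s).const_mul (3 / 4 : ℝ)
    have e2 := (hasDerivAt_pow 2 s).div_const 3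
    have e3 := (hasDerivAt_pow 3 s).div_const 2
    have := ((e1.const_add (-1 / 3 : ℝ)).fun_add e2).fun_sub e3
    refine this.congr_deriv ?_
    norm_num
    ring
  have hsq := hs.sqrt hpos.ne'
  have h := ((Real.hasDerivAt_arcsin h1.ne' h2.ne).div_const 4).fun_add (hsq.fun_mul hq)
  have hr0 : 0 < √(1 - s ^ 2) := Real.sqrt_pos.2 hpos
  have hr : √(1 - s ^ 2) ^ 2 = 1 - s ^ 2 := Real.sq_sqrt hpos.le
  unfold P
  refine h.congr_deriv (Eq.symm ?_)
  set r := √(1 - s ^ 2)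
  apply mul_left_cancel₀ hr0.ne'
  have e1 : r * (1 / r / 4 + (-(2 * s) / (2 * r) * (-1 / 3 + 3 / 4 * s + s ^ 2 / 3 - s ^ 3 / 2) +
      r * (3 / 4 + 2 / 3 * s - 3 / 2 * s ^ 2))) =
      1 / 4 - s * (-1 / 3 + 3 / 4 * s + s ^ 2 / 3 - s ^ 3 / 2) +
        r ^ 2 * (3 / 4 + 2 / 3 * s - 3 / 2 * s ^ 2) := by
    field_simp
    ring
  rw [e1]
  linear_combination (1 + s - 2 * s ^ 2 - (3 / 4 + 2 / 3 * s - 3 / 2 * s ^ 2)) * hr

theorem continuousP : Continuous P := by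
  unfold P
  have := Real.continuous_arcsin
  fun_prop

/-- The antiderivative of the boundary functions. -/
noncomputable def F (σ x : ℝ) : ℝ := -4 * P ((σ * √(3 - 2 * x) - 1) / 2)

theorem derivF (σ x : ℝ) (hσ : σ ^ 2 = 1) (hx : 0 < 3 - 2 * x)
    (h1 : -1 < (σ * √(3 - 2 * x) - 1) / 2) (h2 : (σ * √(3 - 2 * x) - 1) / 2 < 1) :
    HasDerivAt (F σ) (2 * (1 - (σ * √(3 - 2 * x) - 1) / 2) *
      √(1 - ((σ * √(3 - 2 * x) - 1) / 2) ^ 2)) x := by
  have hl : HasDerivAt (fun x : ℝ => 3 - 2 * x) (-2) x := by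
    have := ((hasDerivAt_id x).const_mul (2 : ℝ)).const_sub 3
    simpa using this
  have hin : HasDerivAt (fun x : ℝ => (σ * √(3 - 2 * x) - 1) / 2)
      (σ * (-2 / (2 * √(3 - 2 * x))) / 2) x :=
    (((hl.sqrt hx.ne').const_mul σ).sub_const 1).div_const 2
  have h := ((derivP _ h1 h2).comp x hin).const_mul (-4)
  unfold F
  refine h.congr_deriv ?_
  have hm : 0 < √(3 - 2 * x) := Real.sqrt_pos.2 hx
  set m := √(3 - 2 * x)
  set r := √(1 - ((σ * m - 1) / 2) ^ 2)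
  have e : 1 + (σ * m - 1) / 2 - 2 * ((σ * m - 1) / 2) ^ 2 =
      (σ * m) * (1 - (σ * m - 1) / 2) := by ring
  rw [e]
  have e2 : -4 * (σ * m * (1 - (σ * m - 1) / 2) * r * (σ * (-2 / (2 * m)) / 2)) =
      2 * σ ^ 2 * (1 - (σ * m - 1) / 2) * r := by
    field_simp
    ring
  rw [e2, hσ]
  ring

theorem continuousF (σ : ℝ) : Continuous (F σ) := by
  unfold F
  have := continuousP
  fun_prop

/-! ### The two functions -/

theorem upf_eq (x : ℝ) (hx : -3 ≤ x) : upf x = 2 * (1 - (1 * √(3 - 2 * x) - 1) / 2) *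
      √(1 - ((1 * √(3 - 2 * x) - 1) / 2) ^ 2) := by
  unfold upf
  have hm3 : √(3 - 2 * x) ≤ 3 := Real.sqrt_le_iff.2 ⟨by norm_num, by linarith⟩
  set m := √(3 - 2 * x)
  have e : (3 - m) ^ 3 * (m + 1) = (2 * (3 - m)) ^ 2 * (1 - ((1 * m - 1) / 2) ^ 2) := by ring
  rw [e, Real.sqrt_mul (sq_nonneg _), Real.sqrt_sq (by linarith)]
  ring

/-- The formula for `lowf` is valid for all `x`. -/
theorem lowf_eq' (x : ℝ) : lowf x = √((1 - √(3 - 2 * x)) * (√(3 - 2 * x) + 3) ^ 3) / 2 := by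
  unfold lowf
  split_ifs with h
  · have hm : 1 ≤ √(3 - 2 * x) := Real.one_le_sqrt.2 (by linarith)
    have : (1 - √(3 - 2 * x)) * (√(3 - 2 * x) + 3) ^ 3 ≤ 0 :=
      mul_nonpos_of_nonpos_of_nonneg (by linarith) (by positivity)
    rw [Real.sqrt_eq_zero_of_nonpos this]
    norm_num
  · rfl

theorem lowf_eq (x : ℝ) : lowf x = 2 * (1 - (-1 * √(3 - 2 * x) - 1) / 2) *
      √(1 - ((-1 * √(3 - 2 * x) - 1) / 2) ^ 2) := by
  rw [lowf_eq']
  have hm0 : 0 ≤ √(3 - 2 * x) := Real.sqrt_nonneg _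
  set m := √(3 - 2 * x)
  have e : (1 - m) * (m + 3) ^ 3 = (2 * (m + 3)) ^ 2 * (1 - ((-1 * m - 1) / 2) ^ 2) := by ring
  rw [e, Real.sqrt_mul (sq_nonneg _), Real.sqrt_sq (by linarith)]
  ring

theorem continuous_upf : Continuous upf := by
  unfold upf
  fun_prop

theorem continuous_lowf : Continuous lowf := by
  have : lowf = fun x => √((1 - √(3 - 2 * x)) * (√(3 - 2 * x) + 3) ^ 3) / 2 := by
    funext x; exact lowf_eq' x
  rw [this]
  fun_prop

theorem P_one : P 1 = Real.pi / 8 := by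
  unfold P; rw [Real.arcsin_one]; norm_num; ring

theorem P_neg_one : P (-1) = -(Real.pi / 8) := by
  unfold P; rw [Real.arcsin_neg_one]; norm_num; ring

theorem sqrt_nine : √(3 - 2 * (-3 : ℝ)) = 3 := by
  rw [show (3 - 2 * (-3 : ℝ)) = 3 ^ 2 by norm_num]
  exact Real.sqrt_sq (by norm_num)

theorem int_upf : ∫ x in (-3 : ℝ)..(3 / 2), upf x = -4 * P (-1 / 2) + 4 * P 1 := by
  have h := integral_eq_sub_of_hasDerivAt_of_le (f := F 1) (f' := upf) (a := (-3 : ℝ))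
    (b := 3 / 2) (by norm_num) (continuousF 1).continuousOn (fun x hx => ?_)
    (continuous_upf.intervalIntegrable _ _)
  · rw [h]
    unfold F
    rw [sqrt_nine]
    have e1 : √(3 - 2 * (3 / 2 : ℝ)) = 0 := by norm_num
    rw [e1]
    norm_num
  · have h0 : 0 < 3 - 2 * x := by linarith [hx.2]
    have hm0 : 0 < √(3 - 2 * x) := Real.sqrt_pos.2 h0
    have hm3 : √(3 - 2 * x) < 3 := (Real.sqrt_lt' (by norm_num)).2 (by linarith [hx.1])
    rw [upf_eq x hx.1.le]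
    exact derivF 1 x (by norm_num) h0 (by linarith) (by linarith)

theorem int_lowf : ∫ x in (-3 : ℝ)..(3 / 2), lowf x = -4 * P (-1 / 2) + 4 * P (-1) := by
  have hi := fun a b : ℝ => continuous_lowf.intervalIntegrable (μ := volume) a b
  rw [← integral_add_adjacent_intervals (hi (-3) 1) (hi 1 (3 / 2))]
  have hz : ∫ x in (-3 : ℝ)..1, lowf x = 0 := by
    rw [show (0 : ℝ) = ∫ x in (-3 : ℝ)..1, (0 : ℝ) by simp]
    apply integral_congr
    intro x hx
    rw [uIcc_of_le (by norm_num)] at hx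
    show lowf x = 0
    unfold lowf
    rw [if_pos hx.2]
  rw [hz, zero_add]
  have h := integral_eq_sub_of_hasDerivAt_of_le (f := F (-1)) (f' := lowf) (a := (1 : ℝ))
    (b := 3 / 2) (by norm_num) (continuousF (-1)).continuousOn (fun x hx => ?_) (hi 1 (3 / 2))
  · rw [h]
    unfold F
    have e1 : √(3 - 2 * (3 / 2 : ℝ)) = 0 := by norm_num
    have e2 : √(3 - 2 * (1 : ℝ)) = 1 := by norm_num
    rw [e1, e2]
    norm_num
  · have h0 : 0 < 3 - 2 * x := by linarith [hx.2]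
    have hm0 : 0 < √(3 - 2 * x) := Real.sqrt_pos.2 h0
    have hm1 : √(3 - 2 * x) < 1 := (Real.sqrt_lt' (by norm_num)).2 (by linarith [hx.1])
    rw [lowf_eq x]
    exact derivF (-1) x (by norm_num) h0 (by linarith) (by linarith)

theorem int_diff : (∫ x in (-3 : ℝ)..(3 / 2), upf x) - ∫ x in (-3 : ℝ)..(3 / 2), lowf x =
    Real.pi := by
  rw [int_upf, int_lowf, P_one, P_neg_one]; ring

/-! ### Monotonicity -/

theorem phi_mono {u v : ℝ} (h0 : 0 ≤ u) (h1 : u ≤ v) (h2 : v ≤ 3) :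
    u ^ 3 * (4 - u) ≤ v ^ 3 * (4 - v) := by
  have hb : 0 ≤ u ^ 2 * (3 - u) + v ^ 2 * (3 - v) + u * v * (6 - u - v) + (u - v) ^ 2 := by
    have a1 : 0 ≤ u ^ 2 * (3 - u) := mul_nonneg (sq_nonneg _) (by linarith)
    have a2 : 0 ≤ v ^ 2 * (3 - v) := mul_nonneg (sq_nonneg _) (by linarith)
    have a3 : 0 ≤ u * v * (6 - u - v) :=
      mul_nonneg (mul_nonneg h0 (by linarith)) (by linarith)
    positivity
  have := mul_nonneg (sub_nonneg.2 h1) hb
  nlinarith [this]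

theorem phi_anti {u v : ℝ} (h0 : 3 ≤ u) (h1 : u ≤ v) (h2 : v ≤ 4) :
    v ^ 3 * (4 - v) ≤ u ^ 3 * (4 - u) := by
  have hb : 0 ≤ u ^ 2 * (u - 3) + v ^ 2 * (v - 3) + u * v * (u + v - 6) - (v - u) ^ 2 := by
    have a1 : 0 ≤ u ^ 2 * (u - 3) := mul_nonneg (sq_nonneg _) (by linarith)
    have a2 : (v - u) ^ 2 ≤ v ^ 2 * (v - 3) := by
      have b1 : (v - u) ^ 2 ≤ v - u := by nlinarith
      have b2 : v - u ≤ v - 3 := by linarith
      have b3 : v - 3 ≤ v ^ 2 * (v - 3) :=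
        le_mul_of_one_le_left (by linarith) (by nlinarith)
      linarith
    have a3 : 0 ≤ u * v * (u + v - 6) :=
      mul_nonneg (mul_nonneg (by linarith) (by linarith)) (by linarith)
    linarith
  have := mul_nonneg (sub_nonneg.2 h1) hb
  nlinarith [this]

theorem sqrt_range {x : ℝ} (hx : x ∈ Icc (-3 : ℝ) (3 / 2)) :
    0 ≤ √(3 - 2 * x) ∧ √(3 - 2 * x) ≤ 3 :=
  ⟨Real.sqrt_nonneg _, Real.sqrt_le_iff.2 ⟨by norm_num, by linarith [hx.1]⟩⟩

theorem upf_mono : MonotoneOn upf (Icc (-3 : ℝ) (3 / 2)) := by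
  intro x hx y hy hxy
  have h1 := sqrt_range hx
  have h2 := sqrt_range hy
  have h3 : √(3 - 2 * y) ≤ √(3 - 2 * x) := Real.sqrt_le_sqrt (by linarith)
  unfold upf
  have := phi_mono (u := 3 - √(3 - 2 * x)) (v := 3 - √(3 - 2 * y)) (by linarith) (by linarith)
    (by linarith)
  have h4 := Real.sqrt_le_sqrt (x := (3 - √(3 - 2 * x)) ^ 3 * (√(3 - 2 * x) + 1))
    (y := (3 - √(3 - 2 * y)) ^ 3 * (√(3 - 2 * y) + 1)) (by
      have e1 : 4 - (3 - √(3 - 2 * x)) = √(3 - 2 * x) + 1 := by ring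
      have e2 : 4 - (3 - √(3 - 2 * y)) = √(3 - 2 * y) + 1 := by ring
      rw [e1, e2] at this
      exact this)
  linarith

theorem lowf_nonneg (x : ℝ) : 0 ≤ lowf x := by
  rw [lowf_eq']; positivity

theorem upf_nonneg (x : ℝ) : 0 ≤ upf x := by
  unfold upf; positivity

theorem lowf_mono : MonotoneOn lowf (Icc (-3 : ℝ) (3 / 2)) := by
  intro x hx y hy hxy
  by_cases h : x ≤ 1
  · have : lowf x = 0 := by unfold lowf; rw [if_pos h]
    rw [this]; exact lowf_nonneg y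
  · push Not at h
    have h1 := sqrt_range hx
    have h2 := sqrt_range hy
    have h3 : √(3 - 2 * y) ≤ √(3 - 2 * x) := Real.sqrt_le_sqrt (by linarith)
    have h5 : √(3 - 2 * x) ≤ 1 := Real.sqrt_le_iff.2 ⟨by norm_num, by linarith⟩
    rw [lowf_eq', lowf_eq']
    have := phi_anti (u := √(3 - 2 * y) + 3) (v := √(3 - 2 * x) + 3) (by linarith) (by linarith)
      (by linarith)
    have h4 := Real.sqrt_le_sqrt (x := (1 - √(3 - 2 * x)) * (√(3 - 2 * x) + 3) ^ 3)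
      (y := (1 - √(3 - 2 * y)) * (√(3 - 2 * y) + 3) ^ 3) (by
        have e1 : 4 - (√(3 - 2 * x) + 3) = 1 - √(3 - 2 * x) := by ring
        have e2 : 4 - (√(3 - 2 * y) + 3) = 1 - √(3 - 2 * y) := by ring
        rw [e1, e2] at this
        linarith)
    linarith

theorem sqrt27 : √(27 : ℝ) / 2 ≤ 3 := by
  have : √(27 : ℝ) ≤ 6 := Real.sqrt_le_iff.2 ⟨by norm_num, by norm_num⟩
  linarith

theorem upf_le (x : ℝ) (hx : x ∈ Icc (-3 : ℝ) (3 / 2)) : upf x ≤ 3 := by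
  have h := upf_mono hx (right_mem_Icc.2 (by norm_num)) hx.2
  refine h.trans ?_
  unfold upf
  have e1 : √(3 - 2 * (3 / 2 : ℝ)) = 0 := by norm_num
  rw [e1]
  norm_num
  exact sqrt27

theorem lowf_le (x : ℝ) (hx : x ∈ Icc (-3 : ℝ) (3 / 2)) : lowf x ≤ 3 := by
  have h := lowf_mono hx (right_mem_Icc.2 (by norm_num)) hx.2
  refine h.trans ?_
  rw [lowf_eq']
  have e1 : √(3 - 2 * (3 / 2 : ℝ)) = 0 := by norm_num
  rw [e1]
  norm_num
  exact sqrt27

/-! ### Riemann sums -/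

theorem reindex (f : ℝ → ℝ) (c m : ℕ) (hc : 0 < c) (hm : m = 1 ∨ m = 2) :
    ∑ B ∈ Finset.Icc (-6 * (c : ℤ)) (3 * c) with (m : ℤ) ∣ B, f (B / (2 * c)) =
      ∑ i ∈ Finset.range (9 * c / m + 1), f (-3 + (m / (2 * c) : ℝ) * i) := by
  symm
  apply Finset.sum_bij' (fun (i : ℕ) _ => (m : ℤ) * i - 6 * c)
    (fun (B : ℤ) _ => ((B + 6 * c) / m).toNat)
  · intro i hi
    rw [Finset.mem_range] at hi
    rw [Finset.mem_filter, Finset.mem_Icc]
    rcases hm with rfl | rfl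
    · simp only [Nat.cast_one, one_mul, isUnit_one, IsUnit.dvd, and_true]
      omega
    · refine ⟨⟨?_, ?_⟩, ?_⟩
      · push_cast; omega
      · push_cast; omega
      · push_cast; omega
  · intro B hB
    rw [Finset.mem_filter, Finset.mem_Icc] at hB
    rw [Finset.mem_range]
    rcases hm with rfl | rfl
    · simp only [Nat.cast_one, Int.ediv_one]
      omega
    · push_cast at hB ⊢
      omega
  · intro i hi
    rcases hm with rfl | rfl
    · simp
    · push_cast; omega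
  · intro B hB
    rw [Finset.mem_filter, Finset.mem_Icc] at hB
    rcases hm with rfl | rfl
    · simp only [Nat.cast_one, Int.ediv_one]
      omega
    · push_cast at hB ⊢
      omega
  · intro i hi
    congr 1
    have : (c : ℝ) ≠ 0 := by exact_mod_cast hc.ne'
    push_cast
    field_simp
    ring

theorem riem (f : ℝ → ℝ) (hf : MonotoneOn f (Icc (-3 : ℝ) (3 / 2))) (hcf : Continuous f)
    (h0 : ∀ x ∈ Icc (-3 : ℝ) (3 / 2), 0 ≤ f x) (h3 : ∀ x ∈ Icc (-3 : ℝ) (3 / 2), f x ≤ 3)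
    (c m : ℕ) (hc : 0 < c) (hm : m = 1 ∨ m = 2) :
    |∑ B ∈ Finset.Icc (-6 * (c : ℤ)) (3 * c) with (m : ℤ) ∣ B, f (B / (2 * c)) -
      (2 * c / m) * ∫ x in (-3 : ℝ)..(3 / 2), f x| ≤ 3 := by
  rw [reindex f c m hc hm]
  have hm0 : 0 < m := by omega
  have hmR : (0 : ℝ) < m := by exact_mod_cast hm0
  have hcR : (0 : ℝ) < c := by exact_mod_cast hc
  set N := 9 * c / m with hN
  set h : ℝ := (m / (2 * c) : ℝ) with hh
  have hhpos : 0 < h := by positivity
  have hinv : h⁻¹ = 2 * c / m := by rw [hh, inv_div]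
  have hN1 : (N : ℝ) * m ≤ 9 * c := by
    have : N * m ≤ 9 * c := Nat.div_mul_le_self _ _
    exact_mod_cast this
  have hN2 : (9 * c : ℝ) < (N + 1) * m := by
    have : 9 * c < (N + 1) * m := by
      rw [hN]
      exact (Nat.div_lt_iff_lt_mul hm0).1 (Nat.lt_succ_self _)
    exact_mod_cast this
  have hhN : h * N ≤ 9 / 2 := by
    rw [hh, div_mul_eq_mul_div, div_le_iff₀ (by positivity)]
    nlinarith
  have hhN2 : 9 / 2 - h * N ≤ h := by
    have : 9 / 2 ≤ h * (N + 1) := by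
      rw [hh, div_mul_eq_mul_div, le_div_iff₀ (by positivity)]
      nlinarith
    linarith
  have hmem : ∀ t : ℝ, 0 ≤ t → t ≤ N → -3 + h * t ∈ Icc (-3 : ℝ) (3 / 2) := by
    intro t ht0 htN
    refine ⟨by nlinarith, ?_⟩
    have : h * t ≤ h * N := mul_le_mul_of_nonneg_left htN hhpos.le
    linarith
  have hg : MonotoneOn (fun t : ℝ => f (-3 + h * t)) (Icc (0 : ℝ) (0 + (N : ℝ))) := by
    intro s hs t ht hst
    rw [zero_add] at hs ht
    exact hf (hmem s hs.1 hs.2) (hmem t ht.1 ht.2) (by nlinarith)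
  have s1 := hg.sum_le_integral
  have s2 := hg.integral_le_sum
  rw [zero_add, integral_comp_add_mul f hhpos.ne' (-3), mul_zero, add_zero, smul_eq_mul] at s1 s2
  simp only [zero_add] at s1 s2
  set J := ∫ x in (-3 : ℝ)..(-3 + h * N), f x with hJ
  have hi := fun a b : ℝ => hcf.intervalIntegrable (μ := volume) a b
  have hsplit : ∫ x in (-3 : ℝ)..(3 / 2), f x = J + ∫ x in (-3 + h * N : ℝ)..(3 / 2), f x :=
    (integral_add_adjacent_intervals (hi _ _) (hi _ _)).symm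
  have hle : -3 + h * N ≤ 3 / 2 := by linarith
  have hge : -3 ≤ -3 + h * N := by
    have : 0 ≤ h * N := by positivity
    linarith
  have r0 : 0 ≤ ∫ x in (-3 + h * N : ℝ)..(3 / 2), f x :=
    integral_nonneg hle fun x hx => h0 x ⟨hge.trans hx.1, hx.2⟩
  have r1 : ∫ x in (-3 + h * N : ℝ)..(3 / 2), f x ≤ 3 * h := by
    have : ∫ x in (-3 + h * N : ℝ)..(3 / 2), f x ≤ ∫ x in (-3 + h * N : ℝ)..(3 / 2), (3 : ℝ) :=
      integral_mono_on hle (hi _ _) (continuous_const.intervalIntegrable _ _)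
        fun x hx => h3 x ⟨hge.trans hx.1, hx.2⟩
    rw [intervalIntegral.integral_const, smul_eq_mul] at this
    nlinarith
  have t1 : ∑ i ∈ Finset.range (N + 1), f (-3 + h * i) =
      ∑ i ∈ Finset.range N, f (-3 + h * i) + f (-3 + h * N) := Finset.sum_range_succ _ _
  have t2 : ∑ i ∈ Finset.range (N + 1), f (-3 + h * i) =
      ∑ i ∈ Finset.range N, f (-3 + h * ((i + 1 : ℕ) : ℝ)) + f (-3 + h * ((0 : ℕ) : ℝ)) :=
    Finset.sum_range_succ' _ _
  have b1 := h3 _ (hmem N (Nat.cast_nonneg _) le_rfl)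
  have b2 := h0 _ (hmem ((0 : ℕ) : ℝ) (by simp) (by simp))
  rw [hsplit, ← hinv]
  have hinvpos : 0 < h⁻¹ := inv_pos.2 hhpos
  have c1 : 0 ≤ h⁻¹ * ∫ x in (-3 + h * N : ℝ)..(3 / 2), f x := mul_nonneg hinvpos.le r0
  have c2 : h⁻¹ * ∫ x in (-3 + h * N : ℝ)..(3 / 2), f x ≤ 3 := by
    have := mul_le_mul_of_nonneg_left r1 hinvpos.le
    have e : h⁻¹ * (3 * h) = 3 := by field_simp
    rw [e] at this
    exact this
  have k1 : h⁻¹ * J ≤ ∑ i ∈ Finset.range (N + 1), f (-3 + h * i) := by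
    rw [t2]; exact le_add_of_le_of_nonneg s2 b2
  have k2 : ∑ i ∈ Finset.range (N + 1), f (-3 + h * i) ≤ h⁻¹ * J + 3 := by
    rw [t1]; exact add_le_add s1 b1
  rw [mul_add, abs_le]
  constructor <;> linarith

theorem n7b : N7b := by
  refine ⟨12, by norm_num, fun c m hc hm => ?_⟩
  have h1 := riem upf upf_mono continuous_upf (fun x _ => upf_nonneg x) upf_le c m hc hm
  have h2 := riem lowf lowf_mono continuous_lowf (fun x _ => lowf_nonneg x) lowf_le c m hc hm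
  have e1 : ∑ B ∈ Finset.Icc (-6 * (c : ℤ)) (3 * c) with (m : ℤ) ∣ B,
      2 * (upf (B / (2 * c)) - lowf (B / (2 * c))) =
      2 * (∑ B ∈ Finset.Icc (-6 * (c : ℤ)) (3 * c) with (m : ℤ) ∣ B, upf (B / (2 * c))) -
      2 * ∑ B ∈ Finset.Icc (-6 * (c : ℤ)) (3 * c) with (m : ℤ) ∣ B, lowf (B / (2 * c)) := by
    rw [Finset.mul_sum, Finset.mul_sum, ← Finset.sum_sub_distrib]
    apply Finset.sum_congr rfl
    intro B _
    ring
  have e2 : 4 * Real.pi * c / m = 2 * ((2 * c / m) * ∫ x in (-3 : ℝ)..(3 / 2), upf x) -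
      2 * ((2 * c / m) * ∫ x in (-3 : ℝ)..(3 / 2), lowf x) := by
    have := int_diff
    rw [← this]
    ring
  rw [e1, e2]
  rw [abs_le] at h1 h2 ⊢
  constructor <;> linarith [h1.1, h1.2, h2.1, h2.2]

end Pool.Agent.H873.TFN7b
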