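import Pool.Agent.H857.TF.Core3

/-!
# The number of the good parameters
-/

set_option autoImplicit false

namespace Pool.Agent.H924.TFN7c

open Pool.Agent.H857.TF

/-- The number of the integers in an interval. -/
theorem cnt_Icc (u v : ℝ) (h : u ≤ v) : |((Finset.Icc ⌈u⌉ ⌊v⌋).card : ℝ) - (v - u)| ≤ 1 := by
  rw [Int.card_Icc]
  have h1 : ⌈u⌉ ≤ ⌊v⌋ + 1 := (Int.ceil_mono h).trans (Int.ceil_le_floor_add_one v)
  have h2 : (((⌊v⌋ + 1 - ⌈u⌉).toNat : ℕ) : ℤ) = ⌊v⌋ + 1 - ⌈u⌉ :=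
    Int.toNat_of_nonneg (by linarith)
  have h3 : (((⌊v⌋ + 1 - ⌈u⌉).toNat : ℕ) : ℝ) = (⌊v⌋ : ℝ) + 1 - ⌈u⌉ := by
    have := congrArg (Int.cast : ℤ → ℝ) h2
    push_cast at this
    exact this
  rw [h3]
  have a1 := Int.floor_le v
  have a2 := Int.lt_floor_add_one v
  have a3 := Int.le_ceil u
  have a4 := Int.ceil_lt_add_one u
  rw [abs_le]
  constructor <;> linarith

/-- The number of the integers of given parity in an interval. -/
theorem cnt_par (r : ℤ) (x y : ℝ) (hxy : x ≤ y) :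
    |(((Finset.Icc ⌈x⌉ ⌊y⌋).filter (fun A : ℤ => 2 ∣ A - r)).card : ℝ) - (y - x) / 2| ≤ 1 := by
  have e : (Finset.Icc ⌈x⌉ ⌊y⌋).filter (fun A : ℤ => 2 ∣ A - r) =
      (Finset.Icc ⌈(x - r) / 2⌉ ⌊(y - r) / 2⌋).image (fun k : ℤ => 2 * k + r) := by
    ext A
    simp only [Finset.mem_filter, Finset.mem_Icc, Finset.mem_image, Int.ceil_le, Int.le_floor]
    constructor
    · rintro ⟨⟨h1, h2⟩, k, hk⟩
      have hA : A = 2 * k + r := by linarith
      refine ⟨k, ⟨?_, ?_⟩, hA.symm⟩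
      · rw [hA] at h1
        push_cast at h1
        linarith
      · rw [hA] at h2
        push_cast at h2
        linarith
    · rintro ⟨k, ⟨h1, h2⟩, rfl⟩
      push_cast
      exact ⟨⟨by linarith, by linarith⟩, k, by ring⟩
  rw [e, Finset.card_image_of_injective _ (fun a b h => by
    have h' : 2 * a + r = 2 * b + r := h
    linarith)]
  have := cnt_Icc ((x - r) / 2) ((y - r) / 2) (by linarith)
  have e2 : (y - r) / 2 - (x - r) / 2 = (y - x) / 2 := by ring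
  rwa [e2] at this

/-- The number of the integers of given parity in an interval which are prime to `p`. -/
theorem cnt_good (p : ℕ) (hp : 0 < p) (hodd : p % 2 = 1) (r : ℤ) (x y : ℝ) (hxy : x ≤ y) :
    |((((Finset.Icc ⌈x⌉ ⌊y⌋).filter (fun A : ℤ => 2 ∣ A - r)).filter
      (fun A : ℤ => ¬ (p : ℤ) ∣ A)).card : ℝ) - (1 - 1 / p) * ((y - x) / 2)| ≤ 2 := by
  have hpR : (0 : ℝ) < p := by exact_mod_cast hp
  have h1 := Finset.card_filter_add_card_filter_not (s := (Finset.Icc ⌈x⌉ ⌊y⌋).filter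
    (fun A : ℤ => 2 ∣ A - r)) (fun A : ℤ => (p : ℤ) ∣ A)
  have e : ((Finset.Icc ⌈x⌉ ⌊y⌋).filter (fun A : ℤ => 2 ∣ A - r)).filter
      (fun A : ℤ => (p : ℤ) ∣ A) =
      ((Finset.Icc ⌈x / p⌉ ⌊y / p⌋).filter (fun A : ℤ => 2 ∣ A - r)).image
        (fun k : ℤ => (p : ℤ) * k) := by
    have hpar : ∀ k : ℤ, (2 : ℤ) ∣ (p : ℤ) * k - r ↔ (2 : ℤ) ∣ k - r := by
      intro k
      obtain ⟨m, hm⟩ : ∃ m : ℤ, (p : ℤ) = 2 * m + 1 := ⟨(p : ℤ) / 2, by omega⟩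
      have : (p : ℤ) * k - r = 2 * (m * k) + (k - r) := by rw [hm]; ring
      rw [this]
      constructor
      · intro h
        omega
      · intro h
        omega
    ext A
    simp only [Finset.mem_filter, Finset.mem_Icc, Finset.mem_image, Int.ceil_le, Int.le_floor]
    constructor
    · rintro ⟨⟨⟨h1, h2⟩, h3⟩, k, rfl⟩
      push_cast at h1 h2
      refine ⟨k, ⟨⟨?_, ?_⟩, (hpar k).1 h3⟩, rfl⟩
      · rw [div_le_iff₀ hpR]
        linarith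
      · rw [le_div_iff₀ hpR]
        linarith
    · rintro ⟨k, ⟨⟨h1, h2⟩, h3⟩, rfl⟩
      rw [div_le_iff₀ hpR] at h1
      rw [le_div_iff₀ hpR] at h2
      push_cast
      exact ⟨⟨⟨by linarith, by linarith⟩, (hpar k).2 h3⟩, k, rfl⟩
  have hcard : (((Finset.Icc ⌈x⌉ ⌊y⌋).filter (fun A : ℤ => 2 ∣ A - r)).filter
      (fun A : ℤ => (p : ℤ) ∣ A)).card =
      ((Finset.Icc ⌈x / p⌉ ⌊y / p⌋).filter (fun A : ℤ => 2 ∣ A - r)).card := by
    rw [e, Finset.card_image_of_injective]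
    intro a b h
    have hp0 : (p : ℤ) ≠ 0 := by exact_mod_cast hp.ne'
    exact mul_left_cancel₀ hp0 h
  rw [hcard] at h1
  have h1' := congrArg (Nat.cast : ℕ → ℝ) h1
  push_cast at h1'
  have q1 := cnt_par r x y hxy
  have q2 := cnt_par r (x / p) (y / p) (by gcongr)
  have e3 : (y / p - x / p) / 2 = 1 / p * ((y - x) / 2) := by ring
  rw [e3] at q2
  rw [abs_le] at q1 q2 ⊢
  constructor <;> nlinarith [q1.1, q1.2, q2.1, q2.2, h1']

/-- The number of the integers of given parity and prime to `p` with absolute value in an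
interval. -/
theorem cnt_abs (p : ℕ) (hp : 0 < p) (hodd : p % 2 = 1) (r : ℤ) (x y : ℝ) (hx : 0 ≤ x)
    (hxy : x ≤ y) :
    |(((Finset.Icc (-⌊y⌋) ⌊y⌋).filter
      (fun A : ℤ => (2 ∣ A - r ∧ ¬ (p : ℤ) ∣ A) ∧ x ≤ |(A : ℝ)|)).card : ℝ) -
      (1 - 1 / p) * (y - x)| ≤ 4 := by
  have q := cnt_good p hp hodd r x y hxy
  set F := ((Finset.Icc ⌈x⌉ ⌊y⌋).filter (fun A : ℤ => 2 ∣ A - r)).filter
      (fun A : ℤ => ¬ (p : ℤ) ∣ A) with hF
  have e : (Finset.Icc (-⌊y⌋) ⌊y⌋).filter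
      (fun A : ℤ => (2 ∣ A - r ∧ ¬ (p : ℤ) ∣ A) ∧ x ≤ |(A : ℝ)|) =
      F ∪ F.image (fun A => -A) := by
    ext A
    simp only [hF, Finset.mem_union, Finset.mem_filter, Finset.mem_Icc, Finset.mem_image,
      Int.ceil_le, Int.le_floor]
    constructor
    · rintro ⟨⟨h1, h2⟩, ⟨h3, h4⟩, h5⟩
      rcases le_total 0 (A : ℝ) with h0 | h0
      · left
        rw [abs_of_nonneg h0] at h5
        exact ⟨⟨⟨h5, h2⟩, h3⟩, h4⟩
      · right
        rw [abs_of_nonpos h0] at h5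
        refine ⟨-A, ⟨⟨⟨?_, ?_⟩, ?_⟩, ?_⟩, by ring⟩
        · push_cast
          exact h5
        · have : -A ≤ ⌊y⌋ := by linarith
          exact Int.le_floor.1 this
        · omega
        · rwa [dvd_neg]
    · rintro (⟨⟨⟨h1, h2⟩, h3⟩, h4⟩ | ⟨k, ⟨⟨⟨h1, h2⟩, h3⟩, h4⟩, rfl⟩)
      · have h0 : (0 : ℝ) ≤ A := hx.trans h1
        have h0' : (0 : ℤ) ≤ A := by exact_mod_cast h0
        have h6 : A ≤ ⌊y⌋ := Int.le_floor.2 h2
        refine ⟨⟨by linarith, h2⟩, ⟨h3, h4⟩, ?_⟩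
        rw [abs_of_nonneg h0]
        exact h1
      · have h0 : (0 : ℝ) ≤ k := hx.trans h1
        have h0' : (0 : ℤ) ≤ k := by exact_mod_cast h0
        have h6 : k ≤ ⌊y⌋ := Int.le_floor.2 h2
        refine ⟨⟨by linarith, ?_⟩, ⟨by omega, by rwa [dvd_neg]⟩, ?_⟩
        · push_cast
          linarith
        · push_cast
          rw [abs_neg, abs_of_nonneg h0]
          exact h1
  have hdis : Disjoint F (F.image (fun A => -A)) := by
    rw [Finset.disjoint_left]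
    intro A hA hA'
    simp only [hF, Finset.mem_filter, Finset.mem_Icc, Finset.mem_image,
      Int.ceil_le, Int.le_floor] at hA hA'
    obtain ⟨⟨⟨h1, _⟩, _⟩, h4⟩ := hA
    obtain ⟨k, ⟨⟨⟨h1', _⟩, _⟩, _⟩, rfl⟩ := hA'
    push_cast at h1
    have hk : (k : ℝ) = 0 := by linarith
    have hk' : k = 0 := by exact_mod_cast hk
    apply h4
    rw [hk']
    simp
  rw [e, Finset.card_union_of_disjoint hdis,
    Finset.card_image_of_injective _ (fun a b h => neg_injective h)]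
  push_cast
  rw [abs_le] at q ⊢
  constructor <;> nlinarith [q.1, q.2]

/-- The congruence modulo four if `p` is three modulo four. -/
theorem par3 (p : ℕ) (hp : p % 4 = 3) (A B : ℤ) :
    (4 : ℤ) ∣ A ^ 2 + p * B ^ 2 ↔ (2 : ℤ) ∣ A - B := by
  obtain ⟨k, hk⟩ : ∃ k : ℤ, (p : ℤ) = 4 * k + 3 := ⟨(p : ℤ) / 4, by omega⟩
  rw [hk]
  rcases Int.even_or_odd' A with ⟨a, rfl | rfl⟩ <;> rcases Int.even_or_odd' B with ⟨b, rfl | rfl⟩
  · have h : (2 * a) ^ 2 + (4 * k + 3) * (2 * b) ^ 2 = 4 * (a ^ 2 + (4 * k + 3) * b ^ 2) := by ring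
    rw [h]
    constructor
    · intro _; omega
    · intro _; exact Dvd.intro _ rfl
  · have h : (2 * a) ^ 2 + (4 * k + 3) * (2 * b + 1) ^ 2 =
        4 * (a ^ 2 + (4 * k + 3) * (b ^ 2 + b) + k) + 3 := by ring
    rw [h]
    constructor
    · intro _; omega
    · intro _; omega
  · have h : (2 * a + 1) ^ 2 + (4 * k + 3) * (2 * b) ^ 2 =
        4 * (a ^ 2 + a + (4 * k + 3) * b ^ 2) + 1 := by ring
    rw [h]
    constructor
    · intro _; omega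
    · intro _; omega
  · have h : (2 * a + 1) ^ 2 + (4 * k + 3) * (2 * b + 1) ^ 2 =
        4 * (a ^ 2 + a + (4 * k + 3) * (b ^ 2 + b) + k + 1) := by ring
    rw [h]
    constructor
    · intro _; omega
    · intro _; exact Dvd.intro _ rfl

/-- The congruence modulo four if `p` is one modulo four. -/
theorem par1 (p : ℕ) (hp : p % 4 = 1) (A B : ℤ) :
    (4 : ℤ) ∣ A ^ 2 + p * B ^ 2 ↔ (2 : ℤ) ∣ A - 0 ∧ (2 : ℤ) ∣ B := by
  obtain ⟨k, hk⟩ : ∃ k : ℤ, (p : ℤ) = 4 * k + 1 := ⟨(p : ℤ) / 4, by omega⟩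
  rw [hk]
  rcases Int.even_or_odd' A with ⟨a, rfl | rfl⟩ <;> rcases Int.even_or_odd' B with ⟨b, rfl | rfl⟩
  · have h : (2 * a) ^ 2 + (4 * k + 1) * (2 * b) ^ 2 = 4 * (a ^ 2 + (4 * k + 1) * b ^ 2) := by ring
    rw [h]
    constructor
    · intro _; omega
    · intro _; exact Dvd.intro _ rfl
  · have h : (2 * a) ^ 2 + (4 * k + 1) * (2 * b + 1) ^ 2 =
        4 * (a ^ 2 + (4 * k + 1) * (b ^ 2 + b) + k) + 1 := by ring
    rw [h]
    constructor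
    · intro _; omega
    · intro _; omega
  · have h : (2 * a + 1) ^ 2 + (4 * k + 1) * (2 * b) ^ 2 =
        4 * (a ^ 2 + a + (4 * k + 1) * b ^ 2) + 1 := by ring
    rw [h]
    constructor
    · intro _; omega
    · intro _; omega
  · have h : (2 * a + 1) ^ 2 + (4 * k + 1) * (2 * b + 1) ^ 2 =
        4 * (a ^ 2 + a + (4 * k + 1) * (b ^ 2 + b) + k) + 2 := by ring
    rw [h]
    constructor
    · intro _; omega
    · intro _; omega

/-- The lower boundary is nonnegative. -/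
theorem lowf_nonneg (x : ℝ) : 0 ≤ lowf x := by
  unfold lowf
  split_ifs
  · exact le_rfl
  · positivity

/-- The lower boundary is below the upper boundary. -/
theorem lowf_le_upf (x : ℝ) : lowf x ≤ upf x := by
  unfold lowf upf
  split_ifs
  · positivity
  · apply div_le_div_of_nonneg_right _ (by norm_num)
    apply Real.sqrt_le_sqrt
    have h := Real.sqrt_nonneg (3 - 2 * x)
    nlinarith [pow_nonneg h 3]

/-- N7c for one `p` in terms of the modulus `m` of the admissible `B` and the parity `r B` of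
the admissible `A`. -/
theorem main (ha : N7a) (C : ℝ) (hC : ∀ (c m : ℕ), 0 < c → (m = 1 ∨ m = 2) →
  |∑ B ∈ Finset.Icc (-6 * (c : ℤ)) (3 * c) with (m : ℤ) ∣ B,
    2 * (upf (B / (2 * c)) - lowf (B / (2 * c))) - 4 * Real.pi * c / m| ≤ C)
    (p : ℕ) (hp : 0 < p) (hodd : p % 2 = 1) (c m : ℕ) (hc : 0 < c) (hm : m = 1 ∨ m = 2)
    (r : ℤ → ℤ) (hr : ∀ A B : ℤ, (4 : ℤ) ∣ A ^ 2 + p * B ^ 2 ↔ (2 : ℤ) ∣ A - r B ∧ (m : ℤ) ∣ B) :
    {x : ℤ × ℤ | 4 ∣ x.1 ^ 2 + p * x.2 ^ 2 ∧ RegN c p x.1 x.2 ∧ ¬ (p : ℤ) ∣ x.1}.Finite ∧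
    |({x : ℤ × ℤ | 4 ∣ x.1 ^ 2 + p * x.2 ^ 2 ∧ RegN c p x.1 x.2 ∧
      ¬ (p : ℤ) ∣ x.1}.ncard : ℝ) - 4 * Real.pi / m * (1 - 1 / p) *
        ((c : ℝ) * ((c : ℝ) * Real.sqrt p))| ≤ (40 + C) * ((c : ℝ) * Real.sqrt p) := by
  have hpR : (0 : ℝ) < p := by exact_mod_cast hp
  have hcR : (0 : ℝ) < c := by exact_mod_cast hc
  have hc1 : (1 : ℝ) ≤ c := by exact_mod_cast hc
  have hp1 : (1 : ℝ) ≤ p := by exact_mod_cast hp
  have hsp : 0 < Real.sqrt p := Real.sqrt_pos.2 hpR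
  have hsp1 : 1 ≤ Real.sqrt p := Real.one_le_sqrt.2 hp1
  set M : ℝ := 2 * c * Real.sqrt p with hM
  have hMpos : 0 < M := by rw [hM]; positivity
  set I : Finset ℤ := (Finset.Icc (-6 * (c : ℤ)) (3 * c)).filter (fun B => (m : ℤ) ∣ B) with hI
  set lo : ℤ → ℝ := fun B => M * lowf (B / (2 * c)) with hlo
  set hi : ℤ → ℝ := fun B => M * upf (B / (2 * c)) with hhi
  have hlo0 : ∀ B, 0 ≤ lo B := fun B => mul_nonneg hMpos.le (lowf_nonneg _)
  have hlohi : ∀ B, lo B ≤ hi B := fun B => mul_le_mul_of_nonneg_left (lowf_le_upf _) hMpos.le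
  set F : ℤ → Finset ℤ := fun B => (Finset.Icc (-⌊hi B⌋) ⌊hi B⌋).filter
      (fun A : ℤ => (2 ∣ A - r B ∧ ¬ (p : ℤ) ∣ A) ∧ lo B ≤ |(A : ℝ)|) with hF
  have hS : {x : ℤ × ℤ | 4 ∣ x.1 ^ 2 + p * x.2 ^ 2 ∧ RegN c p x.1 x.2 ∧ ¬ (p : ℤ) ∣ x.1} =
      (fun x : (Σ _ : ℤ, ℤ) => (x.2, x.1)) '' ((I.sigma F : Finset (Σ _ : ℤ, ℤ)) :
        Set (Σ _ : ℤ, ℤ)) := by
    ext ⟨A, B⟩
    simp only [Set.mem_ofPred_eq, Set.mem_image, Finset.mem_coe, Finset.mem_sigma]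
    have hcond : (lowf (B / (2 * c)) ≤ |(A : ℝ)| / M ∧ |(A : ℝ)| / M ≤ upf (B / (2 * c))) ↔
        (lo B ≤ |(A : ℝ)| ∧ |(A : ℝ)| ≤ hi B) := by
      rw [le_div_iff₀ hMpos, div_le_iff₀ hMpos, hlo, hhi]
      simp only
      rw [mul_comm M, mul_comm M]
    have hAabs : |(A : ℝ)| ≤ hi B ↔ -⌊hi B⌋ ≤ A ∧ A ≤ ⌊hi B⌋ := by
      have : |(A : ℝ)| = ((|A| : ℤ) : ℝ) := by push_cast; rfl
      rw [this, ← Int.le_floor, abs_le]
    constructor
    · rintro ⟨h1, h2, h3⟩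
      rw [hr] at h1
      rw [ha c p A B hc hp] at h2
      obtain ⟨h4, h5, h6⟩ := h2
      have h7 := hcond.1 h6
      refine ⟨⟨B, A⟩, ⟨?_, ?_⟩, rfl⟩
      · rw [hI, Finset.mem_filter, Finset.mem_Icc]
        exact ⟨⟨h4, h5⟩, h1.2⟩
      · rw [hF]
        simp only [Finset.mem_filter, Finset.mem_Icc]
        exact ⟨hAabs.1 h7.2, ⟨h1.1, h3⟩, h7.1⟩
    · rintro ⟨⟨B', A'⟩, ⟨h1, h2⟩, h3⟩
      simp only [Prod.mk.injEq] at h3
      obtain ⟨rfl, rfl⟩ := h3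
      rw [hI, Finset.mem_filter, Finset.mem_Icc] at h1
      rw [hF] at h2
      simp only [Finset.mem_filter, Finset.mem_Icc] at h2
      refine ⟨(hr _ _).2 ⟨h2.2.1.1, h1.2⟩, ?_, h2.2.1.2⟩
      rw [ha c p _ _ hc hp]
      exact ⟨h1.1.1, h1.1.2, hcond.2 ⟨h2.2.2, hAabs.2 h2.1⟩⟩
  have hinj : Function.Injective (fun x : (Σ _ : ℤ, ℤ) => (x.2, x.1)) := by
    rintro ⟨a, b⟩ ⟨a', b'⟩ h
    simp only [Prod.mk.injEq] at h
    obtain ⟨rfl, rfl⟩ := h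
    rfl
  rw [hS]
  refine ⟨(Finset.finite_toSet _).image _, ?_⟩
  rw [Set.ncard_image_of_injective _ hinj, Set.ncard_coe_finset, Finset.card_sigma]
  push_cast
  -- the sum
  have hcnt : ∀ B, |((F B).card : ℝ) - (1 - 1 / p) * (hi B - lo B)| ≤ 4 := fun B =>
    cnt_abs p hp hodd (r B) (lo B) (hi B) (hlo0 B) (hlohi B)
  have hsum1 : |∑ B ∈ I, ((F B).card : ℝ) - ∑ B ∈ I, (1 - 1 / p) * (hi B - lo B)| ≤ 40 * c := by
    rw [← Finset.sum_sub_distrib]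
    refine (Finset.abs_sum_le_sum_abs _ _).trans ?_
    refine (Finset.sum_le_sum fun B _ => hcnt B).trans ?_
    rw [Finset.sum_const, nsmul_eq_mul]
    have hIc : (I.card : ℝ) ≤ 9 * c + 1 := by
      have h1 : I.card ≤ (Finset.Icc (-6 * (c : ℤ)) (3 * c)).card := Finset.card_filter_le _ _
      rw [Int.card_Icc] at h1
      have h2 : (3 * (c : ℤ) + 1 - -6 * (c : ℤ)).toNat = 9 * c + 1 := by omega
      rw [h2] at h1
      exact_mod_cast h1
    linarith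
  have hsum2 : ∑ B ∈ I, (1 - 1 / (p : ℝ)) * (hi B - lo B) =
      (1 - 1 / p) * (c * Real.sqrt p) *
        ∑ B ∈ I, 2 * (upf (B / (2 * c)) - lowf (B / (2 * c))) := by
    rw [Finset.mul_sum]
    refine Finset.sum_congr rfl fun B _ => ?_
    simp only [hlo, hhi, hM]
    ring
  have hb := hC c m hc hm
  rw [← hI] at hb
  rw [hsum2] at hsum1
  obtain ⟨S, hSd⟩ : ∃ S : ℝ, S = ∑ B ∈ I, 2 * (upf (B / (2 * c)) - lowf (B / (2 * c))) := ⟨_, rfl⟩
  rw [← hSd] at hb hsum1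
  obtain ⟨N, hN⟩ : ∃ N : ℝ, N = ∑ B ∈ I, ((F B).card : ℝ) := ⟨_, rfl⟩
  rw [← hN] at hsum1 ⊢
  have hp0 : 0 ≤ 1 - 1 / (p : ℝ) := by
    have : 1 / (p : ℝ) ≤ 1 := by
      rw [div_le_one hpR]
      exact hp1
    linarith
  have hp2 : 1 - 1 / (p : ℝ) ≤ 1 := by
    have : 0 < 1 / (p : ℝ) := by positivity
    linarith
  have hk0 : 0 < (c : ℝ) * Real.sqrt p := by positivity
  have hC0 : 0 ≤ C := (abs_nonneg _).trans hb
  have key : |(1 - 1 / (p : ℝ)) * (c * Real.sqrt p) * S -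
      4 * Real.pi / m * (1 - 1 / p) * ((c : ℝ) * ((c : ℝ) * Real.sqrt p))| ≤
      C * ((c : ℝ) * Real.sqrt p) := by
    have e : (1 - 1 / (p : ℝ)) * (c * Real.sqrt p) * S -
      4 * Real.pi / m * (1 - 1 / p) * ((c : ℝ) * ((c : ℝ) * Real.sqrt p)) =
      (1 - 1 / (p : ℝ)) * ((c * Real.sqrt p) * (S - 4 * Real.pi * c / m)) := by ring
    rw [e, abs_mul, abs_mul, abs_of_nonneg hp0, abs_of_pos hk0]
    calc (1 - 1 / (p : ℝ)) * (c * Real.sqrt p * |S - 4 * Real.pi * c / m|) ≤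
          1 * (c * Real.sqrt p * |S - 4 * Real.pi * c / m|) :=
          mul_le_mul_of_nonneg_right hp2 (by positivity)
      _ ≤ C * (c * Real.sqrt p) := by
          rw [one_mul, mul_comm C]
          exact mul_le_mul_of_nonneg_left hb hk0.le
  have hcs : 40 * (c : ℝ) ≤ 40 * (c * Real.sqrt p) := by nlinarith
  have h3 := abs_add_le (N - (1 - 1 / (p : ℝ)) * (c * Real.sqrt p) * S)
    ((1 - 1 / (p : ℝ)) * (c * Real.sqrt p) * S -
      4 * Real.pi / m * (1 - 1 / p) * ((c : ℝ) * ((c : ℝ) * Real.sqrt p)))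
  have e4 : (N - (1 - 1 / (p : ℝ)) * (c * Real.sqrt p) * S) +
    ((1 - 1 / (p : ℝ)) * (c * Real.sqrt p) * S -
      4 * Real.pi / m * (1 - 1 / p) * ((c : ℝ) * ((c : ℝ) * Real.sqrt p))) =
      N - 4 * Real.pi / m * (1 - 1 / p) * ((c : ℝ) * ((c : ℝ) * Real.sqrt p)) := by ring
  rw [e4] at h3
  linarith

/-- **N7c**: the number of the good parameters. -/
theorem n7c (ha : N7a) (hb : N7b) : N7c := by
  obtain ⟨C, hC0, hC⟩ := hb
  refine ⟨40 + C, by linarith, fun p hpf b hp2 => ?_⟩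
  have hp : 0 < p := hpf.out.pos
  have hodd : p % 2 = 1 := by
    rcases hpf.out.eq_two_or_odd with h | h
    · exact absurd h hp2
    · exact h
  have hc : 0 < p ^ b := pow_pos hp b
  have e1 : ((p : ℤ) ^ b) = ((p ^ b : ℕ) : ℤ) := by push_cast; rfl
  have e2 : ((p : ℝ) ^ b) = ((p ^ b : ℕ) : ℝ) := by push_cast; rfl
  rw [e1, e2]
  by_cases h3 : p % 4 = 3
  · rw [if_pos h3]
    have h := main ha C hC p hp hodd (p ^ b) 1 hc (Or.inl rfl) (fun B => B) (fun A B => by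
      rw [par3 p h3]
      simp)
    have e4 : 4 * Real.pi / ((1 : ℕ) : ℝ) = 4 * Real.pi := by simp
    rw [e4] at h
    exact h
  · rw [if_neg h3]
    have h1 : p % 4 = 1 := by omega
    have h := main ha C hC p hp hodd (p ^ b) 2 hc (Or.inr rfl) (fun B => 0) (fun A B => by
      rw [par1 p h1]
      simp)
    have e4 : 4 * Real.pi / ((2 : ℕ) : ℝ) = 2 * Real.pi := by
      push_cast
      ring
    rw [e4] at h
    exact h

end Pool.Agent.H924.TFN7c
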