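import Pool.Agent.H857.TF.Core4

/-!
# Project TF (helper857), job V1: a CM type with given numbers of elements in the orbits
-/

set_option autoImplicit false

namespace Pool.Agent.H224.TF

open Module Polynomial Pool.Agent.W521.Descent Pool.Agent.W521.Density Pool.Agent.W521.Count
  Pool.Agent.X297.UB Pool.Agent.H857.PB Pool.Agent.H857.PA Pool.Agent.H857.HK Pool.Agent.H857.EF
  Pool.Agent.H857.WT Pool.Agent.H857.SG Pool.Agent.H857.PD Pool.Agent.H857.TF

theorem v1 : V1 := by
  intro R Λ _ _ _ ι L j k h1 h2 h3 h4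
  classical
  have hjj : ∀ x, j (j (L x)) = L x := by
    intro x
    rw [← h3, ← h3, h1]
  obtain ⟨r, hr1, hr2⟩ : ∃ r : Λ → Λ → Prop, (∀ a b, r a b ∨ a = b ∨ r b a) ∧
      ∀ a b, r a b → ¬ r b a :=
    ⟨WellOrderingRel, fun a b => trichotomous_of WellOrderingRel a b,
      fun a b h h' => asymm_of WellOrderingRel h h'⟩
  obtain ⟨s, hs1, hs2⟩ : ∃ r : R → R → Prop, (∀ a b, r a b ∨ a = b ∨ r b a) ∧
      ∀ a b, r a b → ¬ r b a :=
    ⟨WellOrderingRel, fun a b => trichotomous_of WellOrderingRel a b,
      fun a b h h' => asymm_of WellOrderingRel h h'⟩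
  have hT : ∀ l : Λ, ∃ T : Finset R, ∀ x, L x = l → T ⊆ (Finset.univ.filter fun y => L y = l) ∧
      T.card = k l := by
    intro l
    by_cases hl : ∃ x, L x = l
    · obtain ⟨x, rfl⟩ := hl
      obtain ⟨T, hT1, hT2⟩ := Finset.exists_subset_card_eq
        (s := Finset.univ.filter fun y => L y = L x) (n := k (L x)) (by
          rw [← h4 x]
          exact Nat.le_add_right _ _)
      exact ⟨T, fun _ _ => ⟨hT1, hT2⟩⟩
    · exact ⟨∅, fun x hx => absurd ⟨x, hx⟩ hl⟩
  choose T hT using hT
  obtain ⟨Φ, hΦ⟩ : ∃ Φ : Finset R, ∀ x, x ∈ Φ ↔ (r (L x) (j (L x)) ∧ x ∈ T (L x)) ∨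
      (r (j (L x)) (L x) ∧ ι x ∉ T (j (L x))) ∨ (L x = j (L x) ∧ s x (ι x)) := by
    refine ⟨Finset.univ.filter fun x => (r (L x) (j (L x)) ∧ x ∈ T (L x)) ∨
      (r (j (L x)) (L x) ∧ ι x ∉ T (j (L x))) ∨ (L x = j (L x) ∧ s x (ι x)), fun x => ?_⟩
    simp only [Finset.mem_filter, Finset.mem_univ, true_and]
  have hirr : ∀ a, ¬ r a a := fun a h => hr2 a a h h
  have hcomp : ∀ x, ι x ∈ Φ ↔ x ∉ Φ := by
    intro x
    rw [hΦ, hΦ, h3, hjj, h1]
    rcases hr1 (L x) (j (L x)) with h | h | h
    · have h' := hr2 _ _ h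
      have h'' : L x ≠ j (L x) := fun e => hirr (L x) (by rw [← e] at h; exact h)
      have h3' : j (L x) ≠ L x := fun e => h'' e.symm
      simp only [h, h', h'', h3', false_and, true_and, false_or, or_false]
    · have e1 : ¬ r (j (L x)) (L x) := by
        rw [← h]
        exact hirr _
      have e2 : ¬ r (L x) (j (L x)) := by
        rw [← h]
        exact hirr _
      have e3 : j (L x) = L x := h.symm
      simp only [e1, e2, false_and, false_or]
      rcases hs1 x (ι x) with g | g | g
      · have g' := hs2 _ _ g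
        simp only [g, g', h.symm, and_false, and_true, not_true_eq_false]
      · exact absurd g.symm (h2 x)
      · have g' := hs2 _ _ g
        simp only [g, g', h.symm, and_false, and_true, not_false_eq_true]
    · have h' := hr2 _ _ h
      have h'' : L x ≠ j (L x) := fun e => hirr (L x) (by rw [← e] at h; exact h)
      have h3' : j (L x) ≠ L x := fun e => h'' e.symm
      simp only [h, h', h'', h3', false_and, true_and, false_or, or_false, not_not]
  have hinj : Function.Injective ι := by
    intro a b hab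
    rw [← h1 a, ← h1 b, hab]
  -- the two parts
  have hsum : ∀ x, (Φ.filter fun y => L y = L x).card + (Φ.filter fun y => L y = j (L x)).card =
      k (L x) + k (j (L x)) := by
    intro x
    have e1 : (Φ.filter fun y => L y = L x).card =
        ((Finset.univ.filter fun y => L y = j (L x)) \ Φ).card := by
      rw [← Finset.card_image_of_injective _ hinj]
      congr 1
      ext y
      simp only [Finset.mem_image, Finset.mem_filter, Finset.mem_sdiff, Finset.mem_univ, true_and]
      constructor
      · rintro ⟨z, ⟨hz, hzL⟩, rfl⟩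
        refine ⟨by rw [h3, hzL], fun h => ?_⟩
        exact (hcomp z).1 h hz
      · rintro ⟨hy, hyΦ⟩
        refine ⟨ι y, ⟨(hcomp y).2 hyΦ, ?_⟩, h1 y⟩
        rw [h3, hy, hjj]
    have e2 : (Φ.filter fun y => L y = j (L x)) =
        (Finset.univ.filter fun y => L y = j (L x)) ∩ Φ := by
      ext y
      simp only [Finset.mem_inter, Finset.mem_filter, Finset.mem_univ, true_and]
      tauto
    rw [e1, e2, Finset.card_sdiff_add_card_inter]
    have e3 := h4 (ι x)
    rw [h3, hjj] at e3
    rw [← e3]
    omega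
  have hcase : ∀ x, r (L x) (j (L x)) → (Φ.filter fun y => L y = L x).card = k (L x) := by
    intro x hx
    obtain ⟨t1, t2⟩ := hT (L x) x rfl
    rw [← t2]
    congr 1
    ext y
    rw [Finset.mem_filter, hΦ]
    have h' := hr2 _ _ hx
    have h'' : L x ≠ j (L x) := fun e => hirr (L x) (by rw [← e] at hx; exact hx)
    constructor
    · rintro ⟨hy, hyL⟩
      rw [hyL] at hy
      simpa only [hx, h', h'', false_and, true_and, or_false] using hy
    · intro hy
      have hyL : L y = L x := (Finset.mem_filter.1 (t1 hy)).2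
      refine ⟨Or.inl ?_, hyL⟩
      rw [hyL]
      exact ⟨hx, hy⟩
  refine ⟨Φ, hcomp, fun x => ?_⟩
  rcases hr1 (L x) (j (L x)) with h | h | h
  · exact hcase x h
  · have e := hsum x
    rw [← h] at e
    omega
  · have e := hsum x
    have e1 := hcase (ι x) (by rw [h3, hjj]; exact h)
    rw [h3] at e1
    omega

end Pool.Agent.H224.TF
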