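import Pool.Agent.H857.TF.Core4

/-!
# V3: the slopes and the orbits of the roots (helper163)
-/

set_option autoImplicit false

namespace Pool.Agent.H163.TFV3

open Module Polynomial Pool.Agent.W521.Descent Pool.Agent.W521.Density Pool.Agent.W521.Count
  Pool.Agent.X297.UB Pool.Agent.H857.PB Pool.Agent.H857.PA Pool.Agent.H857.HK Pool.Agent.H857.EF
  Pool.Agent.H857.WT Pool.Agent.H857.SG Pool.Agent.H857.PD Pool.Agent.H857.TF

/-- the constant term of a minimal polynomial and the absolute value of a root (from N6 of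
helper644) -/
theorem norm_coeff_zero {p : ℕ} [Fact p.Prime] (α : PadicAlgCl p) :
    ‖(minpoly ℚ_[p] α).coeff 0‖ = ‖α‖ ^ (minpoly ℚ_[p] α).natDegree := by
  have hint : IsIntegral ℚ_[p] α := Algebra.IsIntegral.isIntegral α
  have hi := minpoly.irreducible hint
  have e2 : ‖α‖ = ‖(minpoly ℚ_[p] α).coeff 0‖ ^ (1 / (minpoly ℚ_[p] α).natDegree : ℝ) :=
    spectralNorm.spectralNorm_eq_norm_coeff_zero_rpow ℚ_[p] _ α
  have hd : ((minpoly ℚ_[p] α).natDegree : ℝ) ≠ 0 := by
    exact_mod_cast hi.natDegree_pos.ne'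
  rw [e2, ← Real.rpow_natCast, ← Real.rpow_mul (norm_nonneg _), one_div_mul_cancel hd,
    Real.rpow_one]

/-- the roots are permuted by `y ↦ q / y` -/
theorem root_inv {q g : ℕ} (hq : q ≠ 0) {f : ℤ[X]} (hf : f ∈ weilPolys q g) {L : Type*}
    [Field L] [CharZero L] {y : L} (hy0 : y ≠ 0) (hy : aeval y f = 0) :
    aeval ((q : L) / y) f = 0 := by
  have hint : IsIntegral ℚ y := by
    have : IsIntegral ℤ y := ⟨f, hf.1, by rw [← aeval_def]; exact hy⟩
    exact this.tower_top
  have : Algebra.IsAlgebraic ℚ (IntermediateField.adjoin ℚ {y}) :=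
    IntermediateField.isAlgebraic_adjoin_simple hint
  let φ : IntermediateField.adjoin ℚ {y} →ₐ[ℚ] ℂ := IsAlgClosed.lift
  set y' : IntermediateField.adjoin ℚ {y} := IntermediateField.AdjoinSimple.gen ℚ y with hy'
  have hyy : (algebraMap (IntermediateField.adjoin ℚ {y}) L) y' = y :=
    IntermediateField.AdjoinSimple.algebraMap_gen ℚ y
  have hy'0 : y' ≠ 0 := by
    intro h
    rw [h, map_zero] at hyy
    exact hy0 hyy.symm
  have h1 : aeval y' f = 0 := by
    apply (algebraMap (IntermediateField.adjoin ℚ {y}) L).injective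
    rw [← aeval_algebraMap_apply, hyy, hy, map_zero]
  have h2 : aeval (φ y') f = 0 := by
    have := congrArg φ h1
    rw [map_zero] at this
    rw [← this]
    exact (Polynomial.aeval_algHom_apply (φ.restrictScalars ℤ) y' f)
  have h3 := sym_of_weil hq hf (φ y') ((map_ne_zero φ).2 hy'0)
  rw [h2, mul_zero] at h3
  have h4 : aeval ((q : ℂ) / φ y') f = 0 :=
    (mul_eq_zero.1 h3).resolve_left (pow_ne_zero _ ((map_ne_zero φ).2 hy'0))
  have h5 : aeval ((q : IntermediateField.adjoin ℚ {y}) / y') f = 0 := by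
    apply φ.injective
    rw [map_zero, ← h4]
    have h6 : (q : ℂ) / φ y' = φ ((q : IntermediateField.adjoin ℚ {y}) / y') := by
      rw [map_div₀, map_natCast]
    rw [h6]
    exact (Polynomial.aeval_algHom_apply (φ.restrictScalars ℤ) _ f).symm
  have h7 : (q : L) / y =
      algebraMap (IntermediateField.adjoin ℚ {y}) L
        ((q : IntermediateField.adjoin ℚ {y}) / y') := by
    rw [map_div₀, map_natCast, hyy]
  rw [h7, aeval_algebraMap_apply, h5, map_zero]

/-- no root is its own conjugate -/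
theorem root_ne {q g : ℕ} (hg : 2 ≤ g) {f : ℤ[X]} (hf : f ∈ weilPolys q g)
    (hirr : Irreducible f) {L : Type*} [Field L] [CharZero L] {y : L} (hy0 : y ≠ 0)
    (hy : aeval y f = 0) : (q : L) / y ≠ y := by
  intro h
  have hsq : y ^ 2 = (q : L) := by
    rw [div_eq_iff hy0] at h
    rw [h]; ring
  have hF : Irreducible (f.map (algebraMap ℤ ℚ)) :=
    (hf.1.irreducible_iff_irreducible_map_fraction_map).1 hirr
  have hmin : f.map (algebraMap ℤ ℚ) = minpoly ℚ y := by
    refine minpoly.eq_of_irreducible_of_monic hF ?_ (hf.1.map _)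
    rw [aeval_map_algebraMap]
    exact hy
  have hdvd : f.map (algebraMap ℤ ℚ) ∣ X ^ 2 - C (q : ℚ) := by
    rw [hmin]
    apply minpoly.dvd
    simp [hsq]
  have h1 := natDegree_le_of_dvd hdvd (X_pow_sub_C_ne_zero (by norm_num) _)
  rw [hf.1.natDegree_map, hf.2.1, natDegree_X_pow_sub_C] at h1
  omega

theorem v3 : V3 := by
  intro p hp a g f ha hg hf hirr hHT
  classical
  have hpp : p.Prime := Fact.out
  have hq0 : p ^ a ≠ 0 := pow_ne_zero _ hpp.ne_zero
  refine ⟨fun h => if hh : h.Monic ∧ Irreducible h ∧ h ∣ f.map (Int.castRingHom ℚ_[p]) then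
    Classical.choose (hHT h hh.1 hh.2.1 hh.2.2) else 0, ?_⟩
  intro y hy
  have hy0 : y ≠ 0 := by
    rintro rfl
    have h1 : (aeval (0 : PadicAlgCl p)) f = algebraMap ℤ (PadicAlgCl p) (f.coeff 0) := by
      rw [← coeff_zero_eq_aeval_zero' f]
    rw [hy, hf.2.2.1] at h1
    have h2 : ((p ^ a : ℕ) : PadicAlgCl p) ^ g = 0 := by
      rw [h1]; simp
    exact hq0 (by exact_mod_cast pow_eq_zero_iff (n := g) (by omega) |>.1 h2)
  have hcast : ((p ^ a : ℕ) : PadicAlgCl p) = (p : PadicAlgCl p) ^ a := by push_cast; rfl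
  have hinv : aeval ((p : PadicAlgCl p) ^ a / y) f = 0 := by
    rw [← hcast]
    exact root_inv hq0 hf hy0 hy
  have hne : (p : PadicAlgCl p) ^ a / y ≠ y := by
    rw [← hcast]
    exact root_ne hg hf hirr hy0 hy
  set y' : PadicAlgCl p := (p : PadicAlgCl p) ^ a / y with hy'
  have hpa0 : (p : PadicAlgCl p) ^ a ≠ 0 := by
    rw [← hcast]; exact_mod_cast hq0
  have hy'0 : y' ≠ 0 := div_ne_zero hpa0 hy0
  have hroot : ∀ z : PadicAlgCl p, aeval z f = 0 ↔
      aeval z (f.map (Int.castRingHom ℚ_[p])) = 0 := by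
    intro z
    have : aeval z (f.map (Int.castRingHom ℚ_[p])) = aeval z f :=
      aeval_map_algebraMap (A := ℚ_[p]) z f
    rw [this]
  have hk : ∀ z : PadicAlgCl p, aeval z f = 0 → (minpoly ℚ_[p] z).Monic ∧
      Irreducible (minpoly ℚ_[p] z) ∧ minpoly ℚ_[p] z ∣ f.map (Int.castRingHom ℚ_[p]) := by
    intro z hz
    have hint : IsIntegral ℚ_[p] z := Algebra.IsIntegral.isIntegral z
    exact ⟨minpoly.monic hint, minpoly.irreducible hint, minpoly.dvd _ _ ((hroot z).1 hz)⟩
  have hspec : ∀ z : PadicAlgCl p, ∀ hz : aeval z f = 0,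
      ‖(minpoly ℚ_[p] z).coeff 0‖ = (((p : ℝ) ^ a)⁻¹) ^
        (Classical.choose (hHT _ (hk z hz).1 (hk z hz).2.1 (hk z hz).2.2)) := fun z hz =>
    Classical.choose_spec (hHT _ (hk z hz).1 (hk z hz).2.1 (hk z hz).2.2)
  refine ⟨hinv, hne, hy0, ?_, ?_⟩
  · beta_reduce
    rw [dif_pos (hk y hy)]
    exact hspec y hy
  · beta_reduce
    rw [dif_pos (hk y hy), dif_pos (hk y' hinv)]
    have s1 := hspec y hy
    have s2 := hspec y' hinv
    generalize Classical.choose (hHT _ (hk y hy).1 (hk y hy).2.1 (hk y hy).2.2) = k1 at s1 ⊢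
    generalize Classical.choose (hHT _ (hk y' hinv).1 (hk y' hinv).2.1 (hk y' hinv).2.2) = k2
      at s2 ⊢
    have hinty : IsIntegral ℚ_[p] y := Algebra.IsIntegral.isIntegral y
    have hinty' : IsIntegral ℚ_[p] y' := Algebra.IsIntegral.isIntegral y'
    -- the fields
    have hfield : IntermediateField.adjoin ℚ_[p] {y} = IntermediateField.adjoin ℚ_[p] {y'} := by
      apply le_antisymm
      · rw [IntermediateField.adjoin_simple_le_iff]
        have h1 : y = (p : PadicAlgCl p) ^ a / y' := by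
          rw [hy', div_div_cancel₀ hpa0]
        rw [h1]
        exact div_mem (pow_mem (natCast_mem _ p) a)
          (IntermediateField.mem_adjoin_simple_self ℚ_[p] y')
      · rw [IntermediateField.adjoin_simple_le_iff]
        exact div_mem (pow_mem (natCast_mem _ p) a)
          (IntermediateField.mem_adjoin_simple_self ℚ_[p] y)
    have hdeg : (minpoly ℚ_[p] y').natDegree = (minpoly ℚ_[p] y).natDegree := by
      rw [← IntermediateField.adjoin.finrank hinty, ← IntermediateField.adjoin.finrank hinty',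
        hfield]
    -- the number of roots
    have hcard : {z : PadicAlgCl p | aeval z f = 0 ∧ minpoly ℚ_[p] z = minpoly ℚ_[p] y}.ncard =
        (minpoly ℚ_[p] y).natDegree := by
      have hset : {z : PadicAlgCl p | aeval z f = 0 ∧ minpoly ℚ_[p] z = minpoly ℚ_[p] y} =
          (minpoly ℚ_[p] y).rootSet (PadicAlgCl p) := by
        ext z
        simp only [Set.mem_ofPred_eq, mem_rootSet]
        constructor
        · rintro ⟨_, h2⟩
          exact ⟨minpoly.ne_zero hinty, by rw [← h2]; exact minpoly.aeval _ _⟩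
        · rintro ⟨_, h2⟩
          refine ⟨(hroot z).2 ?_, (minpoly.eq_of_irreducible_of_monic (hk y hy).2.1 h2
            (hk y hy).1).symm⟩
          obtain ⟨r, hr⟩ := (hk y hy).2.2
          rw [hr, map_mul, h2, zero_mul]
      rw [hset, ← Nat.card_coe_set_eq, Nat.card_eq_fintype_card]
      exact card_rootSet_eq_natDegree ((hk y hy).2.1.separable) (IsAlgClosed.splits _)
    rw [hcard]
    -- the absolute values
    rw [norm_coeff_zero] at s1 s2
    rw [hdeg] at s2
    have hnp : ‖((p : ℕ) : PadicAlgCl p)‖ = (p : ℝ)⁻¹ := by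
      have h1 : ((p : ℕ) : PadicAlgCl p) = ((p : ℚ_[p]) : PadicAlgCl p) := by
        simp
      rw [h1, PadicAlgCl.norm_extends, Padic.norm_p]
    have hprod : ‖y‖ * ‖y'‖ = ((p : ℝ) ^ a)⁻¹ := by
      rw [← norm_mul, hy', mul_div_cancel₀ _ hy0, norm_pow, hnp, inv_pow]
    have h1 : (((p : ℝ) ^ a)⁻¹) ^ (k1 + k2) =
        (((p : ℝ) ^ a)⁻¹) ^ (minpoly ℚ_[p] y).natDegree := by
      rw [pow_add, ← s1, ← s2, ← mul_pow, hprod]
    have hp1 : (1 : ℝ) < (p : ℝ) ^ a := one_lt_pow₀ (by exact_mod_cast hpp.one_lt) ha.ne'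
    have hpos : (0 : ℝ) < ((p : ℝ) ^ a)⁻¹ := by positivity
    exact pow_right_injective₀ hpos (inv_lt_one_of_one_lt₀ hp1).ne h1

end Pool.Agent.H163.TFV3
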