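import Pool.Agent.H857.TF.Core4

set_option autoImplicit false

namespace Pool.Agent.H154.TF

open Module Polynomial Pool.Agent.W521.Descent Pool.Agent.W521.Density Pool.Agent.W521.Count
  Pool.Agent.X297.UB Pool.Agent.H857.PB Pool.Agent.H857.PA Pool.Agent.H857.HK Pool.Agent.H857.EF
  Pool.Agent.H857.WT Pool.Agent.H857.SG Pool.Agent.H857.PD Pool.Agent.H857.TF

variable {p : ℕ} [Fact p.Prime]

theorem aev (σ : PadicAlgCl p ≃ₐ[ℚ_[p]] PadicAlgCl p) (w : PadicAlgCl p) (f : ℤ[X]) :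
    aeval (σ w) f = σ (aeval w f) := by
  rw [aeval_def, aeval_def, ← RingHom.coe_coe σ, Polynomial.hom_eval₂]
  congr 1
  exact RingHom.ext_int _ _

theorem aev0 (σ : PadicAlgCl p ≃ₐ[ℚ_[p]] PadicAlgCl p) (w : PadicAlgCl p) (f : ℤ[X]) :
    aeval (σ w) f = 0 ↔ aeval w f = 0 := by
  rw [aev, EmbeddingLike.map_eq_zero_iff]

/-- conjugate elements -/
theorem conj_ex {x y : PadicAlgCl p} (h : minpoly ℚ_[p] x = minpoly ℚ_[p] y) :
    ∃ σ : PadicAlgCl p ≃ₐ[ℚ_[p]] PadicAlgCl p, σ x = y := by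
  have h1 : IsConjRoot ℚ_[p] y x := h.symm
  obtain ⟨σ, hσ⟩ := isConjRoot_iff_exists_algEquiv.1 h1
  exact ⟨σ, hσ⟩

theorem conj_q {x y : PadicAlgCl p} (a : ℕ) (h : minpoly ℚ_[p] x = minpoly ℚ_[p] y) :
    minpoly ℚ_[p] ((p : PadicAlgCl p) ^ a / x) = minpoly ℚ_[p] ((p : PadicAlgCl p) ^ a / y) := by
  obtain ⟨σ, rfl⟩ := conj_ex h
  have h1 : (p : PadicAlgCl p) ^ a / σ x = σ ((p : PadicAlgCl p) ^ a / x) := by
    rw [map_div₀, map_pow, map_natCast]
  rw [h1, minpoly.algEquiv_eq]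

/-- separable -/
theorem sep {f : ℤ[X]} (hm : f.Monic) (hirr : Irreducible f) :
    (f.map (Int.castRingHom (PadicAlgCl p))).Separable := by
  have h1 : Irreducible (f.map (Int.castRingHom ℚ)) :=
    (Polynomial.IsPrimitive.Int.irreducible_iff_irreducible_map_cast hm.isPrimitive).1 hirr
  have h2 := h1.separable.map (f := algebraMap ℚ (PadicAlgCl p))
  rw [Polynomial.map_map] at h2
  have h3 : (algebraMap ℚ (PadicAlgCl p)).comp (Int.castRingHom ℚ) =
      Int.castRingHom (PadicAlgCl p) := RingHom.ext_int _ _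
  rwa [h3] at h2

open Classical in
/-- the roots -/
noncomputable def RS (p : ℕ) [Fact p.Prime] (f : ℤ[X]) : Finset (PadicAlgCl p) :=
  (f.map (Int.castRingHom (PadicAlgCl p))).roots.toFinset

theorem mem_RS {f : ℤ[X]} (hm : f.Monic) (y : PadicAlgCl p) : y ∈ RS p f ↔ aeval y f = 0 := by
  classical
  unfold RS
  rw [Multiset.mem_toFinset, mem_roots (hm.map _).ne_zero, IsRoot.def, eval_map]
  exact Iff.rfl

theorem card_RS {f : ℤ[X]} (hm : f.Monic) (hirr : Irreducible f) :
    (RS p f).card = f.natDegree := by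
  classical
  unfold RS
  rw [Multiset.toFinset_card_of_nodup (nodup_roots (sep hm hirr)),
    IsAlgClosed.card_roots_eq_natDegree, hm.natDegree_map]

open Classical in
/-- the conjugate of a type -/
theorem lift_map {a : ℕ} {f : ℤ[X]} {Φ : Finset (PadicAlgCl p)}
    (σ : PadicAlgCl p ≃ₐ[ℚ_[p]] PadicAlgCl p) (h : IsLiftType p a f Φ) :
    IsLiftType p a f (Φ.map σ.toEquiv.toEmbedding) := by
  obtain ⟨h1, h2, h3⟩ := h
  have hmem : ∀ z : PadicAlgCl p, z ∈ Φ.map σ.toEquiv.toEmbedding ↔ σ.symm z ∈ Φ := by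
    intro z
    rw [Finset.mem_map]
    constructor
    · rintro ⟨w, hw, rfl⟩
      have : σ.symm (σ w) = w := σ.symm_apply_apply w
      exact (show σ.symm (σ w) ∈ Φ by rw [this]; exact hw)
    · intro hz
      exact ⟨σ.symm z, hz, σ.apply_symm_apply z⟩
  refine ⟨?_, ?_, ?_⟩
  · intro z hz
    rw [hmem] at hz
    have := h1 _ hz
    rwa [aev0] at this
  · intro z hz
    rw [hmem, hmem]
    have h4 : σ.symm ((p : PadicAlgCl p) ^ a / z) = (p : PadicAlgCl p) ^ a / σ.symm z := by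
      rw [map_div₀, map_pow, map_natCast]
    rw [h4]
    exact h2 _ ((aev0 σ.symm z f).2 hz)
  · intro h hm hi hd
    rw [h3 h hm hi hd]
    congr 1
    rw [Finset.filter_map, Finset.card_map]
    congr 1
    refine Finset.filter_congr fun z _ => ?_
    show aeval z h = 0 ↔ aeval (σ z) h = 0
    have h5 : aeval (σ z) h = σ (aeval z h) := by
      have := Polynomial.aeval_algHom_apply (σ : PadicAlgCl p →ₐ[ℚ_[p]] PadicAlgCl p) z h
      exact this
    rw [h5]
    exact (map_eq_zero_iff σ σ.injective).symm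

theorem card_half {R : Type} [Fintype R] [DecidableEq R] (ι : R → R) (h1 : ∀ x, ι (ι x) = x)
    (Φ : Finset R) (h2 : ∀ x, ι x ∈ Φ ↔ x ∉ Φ) : 2 * Φ.card = Fintype.card R := by
  have h3 : Φ.card = Φᶜ.card := by
    refine Finset.card_nbij' ι ι ?_ ?_ ?_ ?_
    · intro x hx
      rw [Finset.mem_coe] at hx ⊢
      rw [Finset.mem_compl]
      intro h4
      exact (h2 x).1 h4 hx
    · intro x hx
      rw [Finset.mem_coe] at hx ⊢
      rw [Finset.mem_compl] at hx
      exact (h2 x).2 hx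
    · intro x _
      exact h1 x
    · intro x _
      exact h1 x
  have h4 := Finset.card_add_card_compl Φ
  omega

open Classical in
/-- the first type -/
theorem first (h1 : V1) (h3 : V3) {a g : ℕ} {f : ℤ[X]} (ha : 0 < a) (hg : 2 ≤ g)
    (hfw : f ∈ weilPolys (p ^ a) g) (hirr : Irreducible f) (hHT : HondaTate p a f) :
    ∃ Φ : Finset (PadicAlgCl p), IsLiftType p a f Φ ∧ Φ.card = g := by
  have hfm : f.Monic := hfw.1
  have hdeg : f.natDegree = 2 * g := hfw.2.1
  obtain ⟨k, hk⟩ := h3 p a g f ha hg hfw hirr hHT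
  have hq0 : (p : PadicAlgCl p) ^ a ≠ 0 := by
    have hp : (p : PadicAlgCl p) ≠ 0 := Nat.cast_ne_zero.2 (Fact.out (p := p.Prime)).ne_zero
    exact pow_ne_zero _ hp
  let R : Type := {y : PadicAlgCl p // y ∈ RS p f}
  have hR : ∀ y : R, aeval y.1 f = 0 := fun y => (mem_RS hfm y.1).1 y.2
  let ι : R → R := fun y => ⟨(p : PadicAlgCl p) ^ a / y.1, (mem_RS hfm _).2 (hk y.1 (hR y)).1⟩
  have hιι : ∀ x, ι (ι x) = x := by
    intro x
    apply Subtype.ext
    show (p : PadicAlgCl p) ^ a / ((p : PadicAlgCl p) ^ a / x.1) = x.1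
    have hx := (hk x.1 (hR x)).2.2.1
    field_simp
  have hιne : ∀ x, ι x ≠ x := by
    intro x hx
    exact (hk x.1 (hR x)).2.1 (congrArg Subtype.val hx)
  let L : R → ℚ_[p][X] := fun y => minpoly ℚ_[p] y.1
  let j : ℚ_[p][X] → ℚ_[p][X] := fun h => if hx : ∃ y : R, L y = h then L (ι hx.choose) else h
  have hj : ∀ x, L (ι x) = j (L x) := by
    intro x
    have hx : ∃ y : R, L y = L x := ⟨x, rfl⟩
    have h5 : j (L x) = L (ι hx.choose) := dif_pos hx
    rw [h5]
    exact conj_q a hx.choose_spec.symm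
  have hcnt : ∀ x, k (L x) + k (j (L x)) = (Finset.univ.filter fun y => L y = L x).card := by
    intro x
    rw [← hj]
    have h5 := (hk x.1 (hR x)).2.2.2.2
    have h6 : {z : PadicAlgCl p | aeval z f = 0 ∧ minpoly ℚ_[p] z = minpoly ℚ_[p] x.1} =
        (((Finset.univ.filter fun y : R => L y = L x).map
          ⟨Subtype.val, Subtype.val_injective⟩ : Finset (PadicAlgCl p)) : Set (PadicAlgCl p)) := by
      ext z
      rw [Finset.mem_coe, Finset.mem_map]
      constructor
      · rintro ⟨hz1, hz2⟩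
        exact ⟨⟨z, (mem_RS hfm z).2 hz1⟩, Finset.mem_filter.2 ⟨Finset.mem_univ _, hz2⟩, rfl⟩
      · rintro ⟨y, hy, rfl⟩
        exact ⟨hR y, (Finset.mem_filter.1 hy).2⟩
    rw [h6, Set.ncard_coe_finset, Finset.card_map] at h5
    exact h5
  obtain ⟨Φ, hΦ1, hΦ2⟩ := h1 R ℚ_[p][X] ι L j k hιι hιne hj hcnt
  have hmem : ∀ z : PadicAlgCl p, ∀ hz : z ∈ RS p f,
      z ∈ Φ.map ⟨Subtype.val, Subtype.val_injective⟩ ↔ (⟨z, hz⟩ : R) ∈ Φ := by
    intro z hz
    rw [Finset.mem_map]
    constructor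
    · rintro ⟨y, hy, rfl⟩
      exact hy
    · intro h5
      exact ⟨_, h5, rfl⟩
  refine ⟨Φ.map ⟨Subtype.val, Subtype.val_injective⟩, ⟨?_, ?_, ?_⟩, ?_⟩
  · intro z hz
    rw [Finset.mem_map] at hz
    obtain ⟨y, _, rfl⟩ := hz
    exact hR y
  · intro z hz
    have hz' := (mem_RS hfm z).2 hz
    rw [hmem z hz', hmem _ ((mem_RS hfm _).2 (hk z hz).1)]
    exact hΦ1 ⟨z, hz'⟩
  · intro h hm hi hd
    obtain ⟨y, hy⟩ := IsAlgClosed.exists_aeval_eq_zero (PadicAlgCl p) h hi.degree_pos.ne'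
    have hmin : ∀ z : PadicAlgCl p, aeval z h = 0 ↔ minpoly ℚ_[p] z = h := by
      intro z
      constructor
      · intro hz
        exact (minpoly.eq_of_irreducible_of_monic hi hz hm).symm
      · intro hz
        rw [← hz]
        exact minpoly.aeval _ _
    have hyf : aeval y f = 0 := by
      have h5 : aeval y (f.map (Int.castRingHom ℚ_[p])) = 0 := by
        obtain ⟨w, hw⟩ := hd
        rw [hw, map_mul, hy, zero_mul]
      rw [aeval_def, eval₂_map] at h5
      rw [aeval_def]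
      have h6 : (algebraMap ℚ_[p] (PadicAlgCl p)).comp (Int.castRingHom ℚ_[p]) =
        algebraMap ℤ (PadicAlgCl p) := RingHom.ext_int _ _
      rwa [h6] at h5
    have hyR := (mem_RS hfm y).2 hyf
    have hyh := (hmin y).1 hy
    have h5 := (hk y hyf).2.2.2.1
    rw [hyh] at h5
    rw [h5]
    congr 1
    have h6 := hΦ2 ⟨y, hyR⟩
    have h7 : L ⟨y, hyR⟩ = h := hyh
    rw [h7] at h6
    rw [← h6, Finset.filter_map, Finset.card_map]
    congr 1
    refine Finset.filter_congr fun z _ => ?_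
    exact (hmin z.1).symm
  · rw [Finset.card_map]
    have h5 := card_half ι hιι Φ hΦ1
    have h6 : Fintype.card R = 2 * g := by
      rw [← hdeg, ← card_RS (p := p) hfm hirr]
      exact Fintype.card_coe _
    omega

open Classical in
theorem v4 (h1 : V1) (h2 : V2) (h3 : V3) : V4 := by
  intro p hp a g D f h ψ ha hg hodd hfw hirr hHT hhm hcoef hfac hN
  have hfm : f.Monic := hfw.1
  obtain ⟨Φ, hΦ, hΦg⟩ := first h1 h3 ha hg hfw hirr hHT
  obtain ⟨σ, hσ⟩ := h2 p a g D f h ψ ha hodd hfm hHT hhm hcoef hfac hN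
  refine ⟨Φ, Φ.map σ.toEquiv.toEmbedding, hΦ, lift_map σ hΦ, ?_⟩
  set A : (PadicAlgCl p)[X] := h.map ψ with hA
  set B : (PadicAlgCl p)[X] := (h.map (starRingEnd ℂ)).map ψ with hB
  have hAB : f.map (Int.castRingHom (PadicAlgCl p)) = A * B := by
    have h4 := congrArg (Polynomial.map ψ) hfac
    rw [Polynomial.map_mul, Polynomial.map_map] at h4
    have h5 : ψ.comp (Int.castRingHom ℂ) = Int.castRingHom (PadicAlgCl p) := RingHom.ext_int _ _
    rwa [h5] at h4
  have hσA : A.map (σ : PadicAlgCl p →+* PadicAlgCl p) = B := by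
    ext j
    rw [hA, hB, coeff_map, coeff_map, coeff_map, coeff_map]
    exact hσ j
  have hBm : B.Monic := (hhm.map _).map _
  have hσB : B.map (σ : PadicAlgCl p →+* PadicAlgCl p) = A := by
    have h4 := congrArg (Polynomial.map (σ : PadicAlgCl p →+* PadicAlgCl p)) hAB
    rw [Polynomial.map_mul, Polynomial.map_map, hσA] at h4
    have h5 : (σ : PadicAlgCl p →+* PadicAlgCl p).comp (Int.castRingHom (PadicAlgCl p)) =
      Int.castRingHom (PadicAlgCl p) := RingHom.ext_int _ _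
    rw [h5, hAB, mul_comm A B] at h4
    exact (mul_left_cancel₀ hBm.ne_zero h4).symm
  have hcop : IsCoprime A B := by
    have h4 := sep (p := p) hfm hirr
    rw [hAB] at h4
    exact h4.isCoprime
  have hσev : ∀ z, eval (σ z) A = 0 ↔ eval z B = 0 := by
    intro z
    rw [← hσB, eval_map]
    have h4 : eval₂ (σ : PadicAlgCl p →+* PadicAlgCl p) (σ z) B =
        (σ : PadicAlgCl p →+* PadicAlgCl p) (eval z B) := by
      rw [← eval₂_hom]
      rfl
    rw [h4]
    exact map_eq_zero_iff (σ : PadicAlgCl p →+* PadicAlgCl p) σ.injective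
  have hcard2 : ((Φ.map σ.toEquiv.toEmbedding).filter fun z => eval z A = 0).card =
      (Φ.filter fun z => ¬ eval z A = 0).card := by
    rw [Finset.filter_map, Finset.card_map]
    congr 1
    refine Finset.filter_congr fun z hz => ?_
    show eval (σ z) A = 0 ↔ ¬ eval z A = 0
    rw [hσev]
    have h4 : eval z (A * B) = 0 := by
      rw [← hAB, eval_map]
      exact hΦ.1 z hz
    rw [eval_mul, mul_eq_zero] at h4
    constructor
    · intro h5 h6
      obtain ⟨u, v, huv⟩ := hcop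
      have h7 := congrArg (eval z) huv
      rw [eval_add, eval_mul, eval_mul, h5, h6, mul_zero, mul_zero, add_zero, eval_one] at h7
      exact zero_ne_one h7
    · intro h5
      exact h4.resolve_left h5
  rw [hcard2, Finset.card_filter_add_card_filter_not, hΦg]

end Pool.Agent.H154.TF
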