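import Pool.Agent.H857.TF.Core3
import Pool.Agent.H857.PA.Split

/-!
# The slopes in dimension three (N10s of the project TF of helper857)
-/

set_option autoImplicit false

namespace Pool.Agent.H706.TFN10s

open Module Polynomial Pool.Agent.W521.Descent Pool.Agent.W521.Density Pool.Agent.W521.Count
  Pool.Agent.X297.UB Pool.Agent.H857.PB Pool.Agent.H857.PA Pool.Agent.H857.HK Pool.Agent.H857.EF
  Pool.Agent.H857.WT Pool.Agent.H857.SG Pool.Agent.H857.PD Pool.Agent.H857.TF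

lemma comb (s : Fin 3 → ℝ) (h0 : ∀ j, 0 ≤ s j) (h1 : ∀ j, s j ≤ 1)
    (hint : ∀ r : ℝ, ∃ c : ℤ, r * ((∑ j, ((if s j = r then 1 else 0) +
      (if 1 - s j = r then 1 else 0)) : ℕ) : ℝ) = c) :
    (∀ j, s j = 0 ∨ s j = 1 / 2 ∨ s j = 1) ∨ (∀ j, s j = 1 / 3 ∨ s j = 2 / 3) := by
  by_cases h : ∀ j, s j = 0 ∨ s j = 1 / 2 ∨ s j = 1
  · exact Or.inl h
  push Not at h
  obtain ⟨j, hj0, hj2, hj1⟩ := h
  right
  have t0 : 0 < s j := lt_of_le_of_ne (h0 j) (Ne.symm hj0)
  have t1 : s j < 1 := lt_of_le_of_ne (h1 j) hj1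
  obtain ⟨c, hc⟩ := hint (s j)
  generalize ht : s j = t at *
  set e : Fin 3 → ℕ := fun i => (if s i = t then 1 else 0) + (if 1 - s i = t then 1 else 0)
    with he
  have he1 : ∀ i, e i ≤ 1 := by
    intro i
    simp only [he]
    split_ifs with h2 h3
    · exfalso
      apply hj2
      linarith
    all_goals norm_num
  have hej : e j = 1 := by
    apply le_antisymm (he1 j)
    simp only [he]
    rw [if_pos ht]
    omega
  have he0 : ∀ i, e i = 1 → s i = t ∨ 1 - s i = t := by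
    intro i hi
    simp only [he] at hi
    by_contra hcon
    push Not at hcon
    rw [if_neg hcon.1, if_neg hcon.2] at hi
    omega
  have hsum : ∑ i, e i = e 0 + e 1 + e 2 := Fin.sum_univ_three e
  have hm1 : 1 ≤ ∑ i, e i := by
    rw [← hej]
    exact Finset.single_le_sum (fun _ _ => Nat.zero_le _) (Finset.mem_univ j)
  have a0 := he1 0
  have a1 := he1 1
  have a2 := he1 2
  have hm3 : ∑ i, e i ≤ 3 := by
    rw [hsum]
    omega
  generalize hm : ∑ i, e i = m at hc hm1 hm3 hsum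
  interval_cases m
  · exfalso
    push_cast at hc
    rw [mul_one] at hc
    rw [hc] at t0 t1
    have b0 : (0 : ℤ) < c := by exact_mod_cast t0
    have b1 : c < (1 : ℤ) := by exact_mod_cast t1
    omega
  · exfalso
    push_cast at hc
    have b0 : (0 : ℤ) < c := by
      have : (0 : ℝ) < (c : ℝ) := by linarith
      exact_mod_cast this
    have b1 : c < (2 : ℤ) := by
      have : (c : ℝ) < 2 := by linarith
      exact_mod_cast this
    have b2 : c = 1 := by omega
    rw [b2] at hc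
    push_cast at hc
    apply hj2
    linarith
  · push_cast at hc
    have b0 : (0 : ℤ) < c := by
      have : (0 : ℝ) < (c : ℝ) := by linarith
      exact_mod_cast this
    have b1 : c < (3 : ℤ) := by
      have : (c : ℝ) < 3 := by linarith
      exact_mod_cast this
    have hall : ∀ i, s i = t ∨ 1 - s i = t := by
      intro i
      apply he0
      fin_cases i
      · show e 0 = 1
        omega
      · show e 1 = 1
        omega
      · show e 2 = 1
        omega
    have b2 : c = 1 ∨ c = 2 := by omega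
    intro i
    rcases b2 with b2 | b2
    · rw [b2] at hc
      push_cast at hc
      rcases hall i with h2 | h2
      · left; linarith
      · right; linarith
    · rw [b2] at hc
      push_cast at hc
      rcases hall i with h2 | h2
      · right; linarith
      · left; linarith

lemma tr {Q n s : ℝ} (hQ : 1 < Q) (hn : n = Q ^ (-s)) :
    (s = 0 → n = 1) ∧ (s = 1 / 2 → n ^ 2 = Q⁻¹) ∧ (s = 1 → n = Q⁻¹) ∧
    (s = 1 / 3 → n ^ 3 = Q⁻¹) ∧ (s = 2 / 3 → n ^ 3 = Q⁻¹ ^ 2) := by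
  have hQ0 : (0 : ℝ) < Q := by linarith
  have hp : ∀ k : ℕ, n ^ k = Q ^ (-(s * k)) := by
    intro k
    rw [hn, ← Real.rpow_natCast (Q ^ (-s)), ← Real.rpow_mul hQ0.le]
    ring_nf
  refine ⟨?_, ?_, ?_, ?_, ?_⟩
  · rintro rfl
    rw [hn, neg_zero, Real.rpow_zero]
  · rintro rfl
    rw [hp, ← Real.rpow_neg_one]
    norm_num
  · rintro rfl
    rw [hn, Real.rpow_neg_one]
  · rintro rfl
    rw [hp, ← Real.rpow_neg_one]
    norm_num
  · rintro rfl
    rw [hp, inv_pow, ← Real.rpow_natCast Q, ← Real.rpow_neg hQ0.le]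
    norm_num

theorem n10s : N10s := by
  intro p hp a f ha hf
  obtain ⟨hfw, hN⟩ := hf
  have hq : p ^ a ≠ 0 := pow_ne_zero _ hp.out.ne_zero
  have hp1 : (1 : ℝ) < p := one_lt_p
  have hq1 : (1 : ℝ) < (p : ℝ) ^ a := one_lt_pow₀ hp1 ha.ne'
  have hq0 : (0 : ℝ) < (p : ℝ) ^ a := by linarith
  obtain ⟨x, hfx, -⟩ := exists_point hq hfw
  obtain ⟨A, B, hab, hx'⟩ := exists_hp (K := PadicAlgCl p) (q := p ^ a) x
  have hroot := root_iff_of_hp hq hab hx'
  have hA : ∀ j, ‖A j‖ ≤ 1 := fun j =>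
    norm_le_one_of_integral p (wp_monic _ _ _) ((hroot (A j)).2 ⟨j, Or.inl rfl⟩)
  have hB : ∀ j, ‖B j‖ ≤ 1 := fun j =>
    norm_le_one_of_integral p (wp_monic _ _ _) ((hroot (B j)).2 ⟨j, Or.inr rfl⟩)
  have hfw' : f = wp (p ^ a) 3 x := hfx
  have hab' : ∀ j, ‖A j‖ * ‖B j‖ = ((p : ℝ) ^ a)⁻¹ := by
    intro j
    rw [← norm_mul, hab j, norm_q]
  have hA0 : ∀ j, 0 < ‖A j‖ := by
    intro j
    refine lt_of_le_of_ne (norm_nonneg _) ?_
    intro h
    have h2 := hab' j
    rw [← h, zero_mul] at h2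
    exact (inv_ne_zero hq0.ne') h2.symm
  set Q : ℝ := (p : ℝ) ^ a with hQ
  set s : Fin 3 → ℝ := fun j => -Real.logb Q ‖A j‖ with hs
  have hAs : ∀ j, ‖A j‖ = Q ^ (-s j) := by
    intro j
    simp only [hs]
    rw [neg_neg, Real.rpow_logb hq0 hq1.ne' (hA0 j)]
  have hBs : ∀ j, ‖B j‖ = Q ^ (-(1 - s j)) := by
    intro j
    have h2 := hab' j
    rw [hAs j] at h2
    have h3 : (0 : ℝ) < Q ^ (-s j) := Real.rpow_pos_of_pos hq0 _
    have h4 : Q ^ (-s j) * Q ^ (-(1 - s j)) = Q⁻¹ := by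
      rw [← Real.rpow_add hq0, ← Real.rpow_neg_one]
      congr 1
      ring
    exact mul_left_cancel₀ h3.ne' (h2.trans h4.symm)
  have hs0 : ∀ j, 0 ≤ s j := by
    intro j
    simp only [hs]
    rw [neg_nonneg, Real.logb_nonpos_iff hq1 (hA0 j)]
    exact hA j
  have hs1 : ∀ j, s j ≤ 1 := by
    intro j
    by_contra hcon
    push Not at hcon
    have h2 := hB j
    rw [hBs j] at h2
    have h3 : 1 < Q ^ (-(1 - s j)) := Real.one_lt_rpow hq1 (by linarith)
    linarith
  have hint : ∀ r : ℝ, ∃ c : ℤ, r * ((∑ j, ((if s j = r then 1 else 0) +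
      (if 1 - s j = r then 1 else 0)) : ℕ) : ℝ) = c := by
    intro r
    obtain ⟨c, hc⟩ := hN r
    refine ⟨c, ?_⟩
    rw [← hc, hfw', slopeCount_wp hab hx']
    congr 2
    refine Finset.sum_congr rfl fun j _ => ?_
    have e1 : s j = r ↔ ‖A j‖ = Q ^ (-r) := by
      rw [hAs j, Real.rpow_right_inj hq0 hq1.ne', neg_inj]
    have e2 : 1 - s j = r ↔ ‖B j‖ = Q ^ (-r) := by
      rw [hBs j, Real.rpow_right_inj hq0 hq1.ne', neg_inj]
    rw [if_congr e1 rfl rfl, if_congr e2 rfl rfl]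
  have hroots : ∀ y : PadicAlgCl p, aeval y f = 0 → ∃ j, ‖y‖ = Q ^ (-s j) ∨
      ‖y‖ = Q ^ (-(1 - s j)) := by
    intro y hy
    rw [hfw'] at hy
    obtain ⟨j, hj⟩ := (hroot y).1 hy
    refine ⟨j, ?_⟩
    rcases hj with rfl | rfl
    · exact Or.inl (hAs j)
    · exact Or.inr (hBs j)
  rcases comb s hs0 hs1 hint with hc | hc
  · left
    intro y hy
    obtain ⟨j, hj⟩ := hroots y hy
    have key : ∃ t : ℝ, ‖y‖ = Q ^ (-t) ∧ (t = 0 ∨ t = 1 / 2 ∨ t = 1) := by
      rcases hj with hj | hj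
      · exact ⟨s j, hj, hc j⟩
      · refine ⟨1 - s j, hj, ?_⟩
        rcases hc j with h | h | h
        · right; right; linarith
        · right; left; linarith
        · left; linarith
    obtain ⟨t, ht, h⟩ := key
    obtain ⟨t1, t2, t3, -, -⟩ := tr hq1 ht
    rcases h with h | h | h
    · exact Or.inl (t1 h)
    · exact Or.inr (Or.inl (t2 h))
    · exact Or.inr (Or.inr (t3 h))
  · right
    intro y hy
    obtain ⟨j, hj⟩ := hroots y hy
    have key : ∃ t : ℝ, ‖y‖ = Q ^ (-t) ∧ (t = 1 / 3 ∨ t = 2 / 3) := by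
      rcases hj with hj | hj
      · exact ⟨s j, hj, hc j⟩
      · refine ⟨1 - s j, hj, ?_⟩
        rcases hc j with h | h
        · right; linarith
        · left; linarith
    obtain ⟨t, ht, h⟩ := key
    obtain ⟨-, -, -, t4, t5⟩ := tr hq1 ht
    rcases h with h | h
    · exact Or.inl (t4 h)
    · exact Or.inr (t5 h)

end Pool.Agent.H706.TFN10s
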